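import Mathlib

/-!
# From one cycle to a near perfect matching with prescribed leftover
-/

namespace Pool.Agent.Work.MP_8f87b2_h26

open Equiv

/-- If the permutation `f` of the finite set `X` is one cycle and `x0 ∈ X`, then there is a matching
of `X` by edges `{x, f x}` which leaves out nothing if `X` has even cardinality and exactly `x0` if it
has odd cardinality. -/
theorem exists_near_matching {X : Type*} [Finite X] (f : Perm X) (h : ∀ x y, f.SameCycle x y)
    (x0 : X) : ∃ ι : X → X, (∀ x, ι (ι x) = x) ∧ (∀ x, ι x = x ∨ ι x = f x ∨ f (ι x) = x) ∧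
      ∀ x, ι x = x ↔ x = x0 ∧ Odd (Nat.card X) := by
  classical
  have := Fintype.ofFinite X
  set N := (Finset.univ : Finset X).card with hN
  have hNc : Nat.card X = N := by rw [Nat.card_eq_fintype_card, hN, Finset.card_univ]
  rw [hNc]
  have hN0 : 0 < N := Finset.card_pos.2 ⟨x0, Finset.mem_univ _⟩
  have hc : f.IsCycleOn ((Finset.univ : Finset X) : Set X) := by
    refine ⟨?_, fun x _ y _ => h x y⟩
    rw [Finset.coe_univ]
    exact Set.bijOn_univ.2 f.bijective
  set x1 := f x0 with hx1
  have hex : ∀ x : X, ∃ j, j < N ∧ (f ^ j) x1 = x := by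
    intro x
    obtain ⟨j, hj, he⟩ := hc.exists_pow_eq (Finset.mem_univ x1) (Finset.mem_univ x)
    exact ⟨j, hj, he⟩
  choose j hj1 hj2 using hex
  have huniq : ∀ a < N, ∀ b < N, (f ^ a) x1 = (f ^ b) x1 → a = b := by
    intro a ha b hb hab
    have h1 := (hc.pow_apply_eq_pow_apply (Finset.mem_univ x1)).1 hab
    exact Nat.ModEq.eq_of_lt_of_lt h1 ha hb
  let fl : ℕ → ℕ := fun a => if a % 2 = 0 then a + 1 else a - 1
  have hfl : ∀ a, fl (fl a) = a := by
    intro a
    simp only [fl]
    by_cases h0 : a % 2 = 0
    · have h1 : ¬ (a + 1) % 2 = 0 := by omega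
      simp only [h0, if_true, h1, if_false]
      omega
    · have h1 : (a - 1) % 2 = 0 := by omega
      simp only [h0, if_false, h1, if_true]
      omega
  have hflne : ∀ a, fl a ≠ a := by
    intro a
    simp only [fl]
    split_ifs <;> omega
  have hjf : ∀ a < N, j ((f ^ a) x1) = a := by
    intro a ha
    exact huniq _ (hj1 _) _ ha (hj2 _)
  refine ⟨fun x => if fl (j x) < N then (f ^ fl (j x)) x1 else x, ?_, ?_, ?_⟩
  · intro x
    by_cases hx : fl (j x) < N
    · simp only [hx, if_true, hjf _ hx, hfl, hj1 x, hj2]
    · simp only [hx, if_false]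
  · intro x
    by_cases hx : fl (j x) < N
    · simp only [hx, if_true]
      by_cases h0 : j x % 2 = 0
      · right; left
        have h1 : fl (j x) = j x + 1 := by simp only [fl, h0, if_true]
        rw [h1, pow_succ', Perm.mul_apply, hj2]
      · right; right
        have h1 : j x = fl (j x) + 1 := by
          simp only [fl, h0, if_false]
          omega
        have h2 := hj2 x
        rw [h1, pow_succ', Perm.mul_apply] at h2
        exact h2
    · left
      simp only [hx, if_false]
  · intro x
    have hx0 : (f ^ (N - 1)) x1 = x0 := by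
      have h1 : (f ^ N) x0 = x0 :=
        (hc.pow_apply_eq (Finset.mem_univ x0)).2 (dvd_refl _)
      have h2 : N = (N - 1) + 1 := by omega
      rw [h2, pow_succ, Perm.mul_apply] at h1
      exact h1
    by_cases hx : fl (j x) < N
    · simp only [hx, if_true]
      constructor
      · intro he
        exfalso
        have h1 : fl (j x) = j x := huniq _ hx _ (hj1 x) (he.trans (hj2 x).symm)
        exact hflne _ h1
      · rintro ⟨rfl, hodd⟩
        exfalso
        have h1 : j x = N - 1 := huniq _ (hj1 x) _ (by omega) ((hj2 x).trans hx0.symm)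
        obtain ⟨t, ht⟩ := hodd
        have h2 : (N - 1) % 2 = 0 := by omega
        rw [h1] at hx
        simp only [fl, h2, if_true] at hx
        omega
    · simp only [hx, if_false, true_iff]
      have h1 : j x < N := hj1 x
      have h2 : j x % 2 = 0 ∧ j x = N - 1 := by
        by_cases h0 : j x % 2 = 0
        · refine ⟨h0, ?_⟩
          simp only [fl, h0, if_true] at hx
          omega
        · exfalso
          simp only [fl, h0, if_false] at hx
          omega
      refine ⟨?_, ?_⟩
      · rw [← hj2 x, h2.2]
        exact hx0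
      · rw [Nat.odd_iff]
        omega

end Pool.Agent.Work.MP_8f87b2_h26
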