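import Pool.Agent.Work.MP_8f87b2_h26.Ms

/-!
# The parity of the number of classes does not depend on `g`
-/

set_option autoImplicit false

namespace Pool.OddHop

open Finset

variable {g n m : ℕ}

/-- A finite group of odd order: number of points and number of orbits have the same parity. -/
theorem card_orbits_mod_two {G α : Type*} [AddGroup G] [AddAction G α] [Finite G] [Finite α]
    (hG : Odd (Nat.card G)) :
    Nat.card (Quotient (AddAction.orbitRel G α)) % 2 = Nat.card α % 2 := by
  classical
  have := Fintype.ofFinite α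
  have := Fintype.ofFinite G
  have hfin : Finite (Quotient (AddAction.orbitRel G α)) := Quotient.finite _
  have := Fintype.ofFinite (Quotient (AddAction.orbitRel G α))
  have h1 : Nat.card α = ∑ ω : Quotient (AddAction.orbitRel G α),
      Nat.card (AddAction.orbit G ω.out) := by
    rw [Nat.card_congr (AddAction.selfEquivSigmaOrbits G α), Nat.card_sigma]
  have h2 : ∀ ω : Quotient (AddAction.orbitRel G α), Nat.card (AddAction.orbit G ω.out) % 2 = 1 := by
    intro ω
    have h3 := AddAction.card_orbit_mul_card_stabilizer_eq_card_addGroup G ω.out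
    rw [← Nat.card_eq_fintype_card, ← Nat.card_eq_fintype_card, ← Nat.card_eq_fintype_card] at h3
    rw [← Nat.odd_iff]
    rw [← h3] at hG
    exact (Nat.odd_mul.1 hG).1
  rw [h1, Nat.card_eq_fintype_card, Finset.sum_nat_mod, Finset.sum_congr rfl (fun ω _ => h2 ω),
    Finset.sum_const, Finset.card_univ, smul_eq_mul, mul_one]

/-- the group of translations by multiples of `g` -/
def TG (hg : g ∣ n) : AddSubgroup (ZMod n) := (ZMod.castHom hg (ZMod g)).toAddMonoidHom.ker

theorem mem_TG (hg : g ∣ n) (t : ZMod n) : t ∈ TG hg ↔ ZMod.castHom hg (ZMod g) t = 0 := Iff.rfl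

instance [NeZero n] (hg : g ∣ n) : AddAction (TG hg) (Ms n m) where
  vadd t a := ⟨fun x => a.1 (x - t.1),
    (Equiv.sum_comp (Equiv.subRight t.1) a.1).trans a.2⟩
  zero_vadd a := by
    apply Subtype.ext
    funext x
    change a.1 (x - (0 : ZMod n)) = a.1 x
    rw [sub_zero]
  add_vadd s t a := by
    apply Subtype.ext
    funext x
    change a.1 (x - (s.1 + t.1)) = a.1 (x - s.1 - t.1)
    rw [sub_sub]

theorem msSetoid_eq [NeZero n] (hg : g ∣ n) :
    msSetoid m hg = AddAction.orbitRel (TG hg) (Ms n m) := by
  ext a b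
  rw [AddAction.orbitRel_apply, AddAction.mem_orbit_iff]
  constructor
  · rintro ⟨t, ht, h1⟩
    refine ⟨⟨-t, (mem_TG hg _).2 (by rw [map_neg, ht, neg_zero])⟩, ?_⟩
    apply Subtype.ext
    funext x
    change b.1 (x - -t) = a.1 x
    rw [sub_neg_eq_add, h1]
  · rintro ⟨⟨t, ht⟩, h1⟩
    have ht' := (mem_TG hg _).1 ht
    refine ⟨-t, by rw [map_neg, ht', neg_zero], fun x => ?_⟩
    rw [← h1]
    change b.1 (x + -t) = b.1 (x - t)
    rw [sub_eq_add_neg]

/-- For odd `n` the number of classes has the parity of the number of multisets, for every `g`. -/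
theorem card_classes_mod_two [NeZero n] (hn : Odd n) (hg : g ∣ n) :
    Nat.card (Quotient (msSetoid m hg)) % 2 = Nat.card (Ms n m) % 2 := by
  have hfin : Finite (Ms n m) := by
    have : Function.Injective (fun (a : Ms n m) (x : ZMod n) => (⟨a.1 x, by
        have h1 : a.1 x ≤ ∑ y, a.1 y := single_le_sum (fun _ _ => Nat.zero_le _) (mem_univ x)
        rw [a.2] at h1
        omega⟩ : Fin (m + 1))) := by
      intro a a' he
      apply Subtype.ext
      funext x
      have := congrFun he x
      exact congrArg Fin.val this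
    exact Finite.of_injective _ this
  rw [msSetoid_eq hg]
  apply card_orbits_mod_two
  have h1 : Nat.card (TG hg) ∣ Nat.card (ZMod n) := AddSubgroup.card_addSubgroup_dvd_card _
  rw [Nat.card_zmod] at h1
  exact Odd.of_dvd_nat hn h1

end Pool.OddHop
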