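import Pool.Agent.Work.MP_8f87b2_h26.Asm
import Pool.Agent.Work.MP_8f87b2_h26.Parity
import Pool.Agent.Work.MP_8f87b2_h13.Small
import Pool.Agent.Work.MP_8f87b2_h13.Small2
import Pool.Agent.Work.MP_8f87b2_h69.Conn

/-!
# (c2): the hop graph of the multisets on an odd ring modulo translations

Theorem of helper18 / helper74. `n` odd, `g ∣ n`, `m` beads on the ring `ZMod n`, modulo translations
by multiples of `g`. For `m ≥ 1`, `m ≠ 2` the hop graph has a Hamilton cycle (`HasCycle`); for every
`m` it has a near perfect matching (`HasNear`), with prescribed leftover if `m ≠ 2`.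
-/

set_option autoImplicit false

namespace Pool.OddHop

open Finset

variable {g n m : ℕ}

theorem hasCycle [NeZero n] (hn : Odd n) (hg : g ∣ n) (hm : 1 ≤ m) (hm2 : m ≠ 2) :
    HasCycle m hg := by
  have hn0 : 0 < n := Nat.pos_of_ne_zero (NeZero.ne n)
  haveI : NeZero g := ⟨by
    rintro rfl
    rw [zero_dvd_iff] at hg
    omega⟩
  rcases Nat.even_or_odd' m with ⟨h, rfl | rfl⟩
  · -- `m = 2 h`, `h ≥ 2`
    have hh : 2 ≤ h := by omega
    haveI : NeZero h := ⟨by omega⟩
    refine hasCycle_of (h := h) (cap := n) hg hn hn 0 (by ring) (Or.inl ⟨rfl, rfl⟩) ?_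
    intro R h1 h2 h3 s s'
    exact conn_even hn hn le_rfl hg hh R.iseqv h1 h2 h3 s s'
  · by_cases hm1 : h = 0
    · subst hm1
      exact hasCycle_one hg
    · obtain ⟨l, hl⟩ := hn
      by_cases h33 : n = 3 ∧ h = 1
      · obtain ⟨rfl, rfl⟩ := h33
        exact hasCycle_33 hg
      · -- `2 (l + h + 1) = n + m`
        have hodd : Odd n := ⟨l, hl⟩
        haveI : NeZero (l + h + 1) := ⟨by omega⟩
        by_cases hsmall : l + h + 1 = 2
        · -- `n = 1`, `m = 3`
          have hl0 : l = 0 := by omega
          have hh1 : h = 1 := by omega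
          subst hl0 hh1
          have hn1 : n = 1 := by omega
          subst hn1
          refine hasCycle_of (h := 2) (cap := 1) hg odd_one hodd 1 (by ring)
            (Or.inr ⟨rfl, rfl⟩) ?_
          intro R h1 h2 h3 s s'
          exact conn_odd hodd hg le_rfl (by norm_num) R.iseqv h1 h2 h3 s s'
        · by_cases h3' : l + h + 1 = 3
          · -- `(n, m) = (1, 5)`
            have hl0 : l = 0 := by
              by_contra hl0
              exact h33 ⟨by omega, by omega⟩
            subst hl0
            have hn1 : n = 1 := by omega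
            subst hn1
            -- one class only
            have hsub : ∀ q q' : Quotient (msSetoid (2 * h + 1) hg), q = q' := by
              intro q q'
              obtain ⟨a, rfl⟩ := Quotient.exists_rep q
              obtain ⟨b, rfl⟩ := Quotient.exists_rep q'
              apply Quotient.sound
              have key : ∀ a : Ms 1 (2 * h + 1), ∀ x, a.1 x = 2 * h + 1 := by
                intro a x
                have h1 := a.2
                rw [Fintype.sum_eq_single x (fun y hy => absurd (Subsingleton.elim y x) hy)] at h1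
                exact h1
              exact ⟨0, map_zero _, fun x => by rw [key, key]⟩
            refine ⟨1, ?_, ?_⟩
            · intro q
              obtain ⟨a, rfl⟩ := Quotient.exists_rep q
              refine ⟨a, a, rfl, rfl, 0, 0, Or.inl (Subsingleton.elim _ _), fun z => rfl⟩
            · intro p q
              rw [hsub p q]
          · refine hasCycle_of (h := l + h + 1) (cap := 1) hg odd_one hodd 1 (by omega)
              (Or.inr ⟨rfl, rfl⟩) ?_
            intro R h1 h2 h3 s s'
            exact conn_odd hodd hg (by omega) h3' R.iseqv h1 h2 h3 s s'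

/-- near perfect matching with prescribed leftover -/
theorem near_prescribed [NeZero n] (hn : Odd n) (hg : g ∣ n) (hm : 1 ≤ m) (hm2 : m ≠ 2)
    (q0 : Quotient (msSetoid m hg)) :
    ∃ ι : Quotient (msSetoid m hg) → Quotient (msSetoid m hg), (∀ q, ι (ι q) = q) ∧
      (∀ q, ι q = q ∨ HopQ hg q (ι q)) ∧
      ∀ q, ι q = q ↔ q = q0 ∧ Odd (Nat.card (Quotient (msSetoid m hg))) := by
  have : Finite (Quotient (msSetoid m hg)) := Quotient.finite _
  exact (hasCycle hn hg hm hm2).near q0

/-- near perfect matching, every `m` -/
theorem hasNear [NeZero n] (hn : Odd n) (hg : g ∣ n) (m : ℕ) : HasNear m hg := by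
  by_cases hm2 : m = 2
  · subst hm2
    exact hasNear_two hn hg
  · by_cases hm : 1 ≤ m
    · obtain ⟨a⟩ : Nonempty (Ms n m) :=
        ⟨⟨fun x => if x = 0 then m else 0, by simp⟩⟩
      obtain ⟨ι, h1, h2, h3⟩ := near_prescribed hn hg hm hm2 (Quotient.mk (msSetoid m hg) a)
      refine ⟨ι, h1, h2, fun p q hp hq => ?_⟩
      rw [((h3 p).1 hp).1, ((h3 q).1 hq).1]
    · have hm0 : m = 0 := by omega
      subst hm0
      refine ⟨id, fun _ => rfl, fun _ => Or.inl rfl, fun p q _ _ => ?_⟩
      obtain ⟨a, rfl⟩ := Quotient.exists_rep p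
      obtain ⟨b, rfl⟩ := Quotient.exists_rep q
      apply Quotient.sound
      have key : ∀ a : Ms n 0, ∀ x, a.1 x = 0 := by
        intro a x
        have h1 := a.2
        rw [sum_eq_zero_iff] at h1
        exact h1 x (mem_univ x)
      exact ⟨0, map_zero _, fun x => by rw [key, key]⟩

end Pool.OddHop
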