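import Pool.Agent.Work.MP_8f87b2_h13.Small

/-!
# Two beads, prescribed leftover

Adaptation of helper13's `hasNear_two`: the leftover class can be any `P x0 d0` with `d0` even.
-/

set_option autoImplicit false

namespace Pool.OddHop

open Finset

variable {n g : ℕ} [NeZero n]

/-- the partner of `P x d`, leftover `P x0 d0` -/
def G3 (hg : g ∣ n) (x0 : ZMod n) (d0 : ℕ) (x : ZMod n) (d : ℕ) : Quotient (msSetoid 2 hg) :=
  if cm hg (x - x0) = 0 ∧ d0 ≤ d then
    if d = d0 then P hg x d
    else if d % 2 = 1 then P hg x (d + 1)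
    else P hg x (d - 1)
  else if d % 2 = 1 then P hg x (d - 1)
  else if 2 * d + 3 ≤ n then P hg x (d + 1)
  else if (2 * cm hg (x - x0)).val % 2 = 1 then P hg (x + (d + 1 : ℕ)) d
  else P hg (x - (d + 1 : ℕ)) d

theorem G3_tr (hg : g ∣ n) (x0 : ZMod n) (d0 : ℕ) (x : ZMod n) {t : ZMod n} (ht : cm hg t = 0)
    (d : ℕ) : G3 hg x0 d0 (x + t) d = G3 hg x0 d0 x d := by
  unfold G3
  have h0 : cm hg (x + t - x0) = cm hg (x - x0) := by
    rw [map_sub, map_add, ht, add_zero, map_sub]
  rw [h0]
  have h1 : x + t + ((d + 1 : ℕ) : ZMod n) = x + ((d + 1 : ℕ) : ZMod n) + t := by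
    ring
  have h2 : x + t - ((d + 1 : ℕ) : ZMod n) = x - ((d + 1 : ℕ) : ZMod n) + t := by
    ring
  simp only [h1, h2, P_tr hg _ ht]

/-- **Two beads, prescribed leftover** (`n = 1 mod 4`). -/
theorem near_two_one (hn : n % 4 = 1) (hg : g ∣ n) (x0 : ZMod n) (d0 : ℕ) (hd0 : 2 * d0 + 1 ≤ n)
    (hev : d0 % 2 = 0) :
    ∃ ι : Quotient (msSetoid 2 hg) → Quotient (msSetoid 2 hg), (∀ q, ι (ι q) = q) ∧
      (∀ q, ι q = q ∨ HopQ hg q (ι q)) ∧ ∀ q, ι q = q ↔ q = P hg x0 d0 := by
  have hno : Odd n := Nat.odd_iff.2 (by omega)
  have hg0 : g ≠ 0 := by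
    rintro rfl
    exact NeZero.ne n (Nat.eq_zero_of_zero_dvd hg)
  have : NeZero g := ⟨hg0⟩
  have hgo : Odd g := Odd.of_dvd_nat hno hg
  have hP := P_surj hno hg
  choose x d hd hq using hP
  have key : ∀ (y : ZMod n) (e : ℕ), 2 * e + 1 ≤ n →
      G3 hg x0 d0 (x (P hg y e)) (d (P hg y e)) = G3 hg x0 d0 y e := by
    intro y e he
    obtain ⟨h1, h2⟩ := P_eq he (hd (P hg y e)) (hq (P hg y e))
    have h3 := G3_tr hg x0 d0 y h2 e
    rw [← h1, ← h3]
    congr 1
    ring
  -- the last layer
  have hodd1 : ∀ a : ZMod g, a.val % 2 = 1 → (a + 1).val = a.val + 1 := by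
    intro a ha
    have h1 := ZMod.val_lt a
    obtain ⟨k, hk⟩ := hgo
    have h2 : a.val + 1 < g := by omega
    have h3 : a + 1 = ((a.val + 1 : ℕ) : ZMod g) := by
      push_cast
      rw [ZMod.natCast_zmod_val]
    rw [h3, ZMod.val_natCast_of_lt h2]
  have heven1 : ∀ a : ZMod g, a.val ≠ 0 → (a - 1).val = a.val - 1 := by
    intro a ha
    have h1 := ZMod.val_lt a
    have h3 : a - 1 = ((a.val - 1 : ℕ) : ZMod g) := by
      rw [Nat.cast_sub (by omega), ZMod.natCast_zmod_val, Nat.cast_one]
    rw [h3, ZMod.val_natCast_of_lt (by omega)]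
  have hu : ∀ e : ℕ, 2 * e + 1 = n → 2 * cm hg ((e + 1 : ℕ) : ZMod n) = 1 := by
    intro e he
    rw [map_natCast]
    have h1 : ((2 * e + 1 : ℕ) : ZMod g) = 0 := by
      rw [he]
      exact (ZMod.natCast_eq_zero_iff n g).2 hg
    push_cast at h1 ⊢
    linear_combination h1
  have hlast : ∀ e : ℕ, 2 * e + 1 ≤ n → ¬ (2 * e + 3 ≤ n) → 2 * e + 1 = n := by
    intro e h1 h2
    omega
  have hz : ∀ e : ℕ, 2 * e + 1 = n → ∀ a : ZMod g, 2 * a = 0 → a = 0 := by
    intro e he a ha
    have h2u := hu e he
    have : a = (2 * a) * cm hg ((e + 1 : ℕ) : ZMod n) := by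
      linear_combination (- a) * h2u
    rw [this, ha, zero_mul]
  refine ⟨fun q => G3 hg x0 d0 (x q) (d q), ?_, ?_, ?_⟩
  · intro q
    have hdq := hd q
    have hq0 := hq q
    change G3 hg x0 d0 (x (G3 hg x0 d0 (x q) (d q))) (d (G3 hg x0 d0 (x q) (d q))) = q
    set y := x q with hy
    set e := d q with he
    clear_value y e
    subst hq0
    by_cases hc : cm hg (y - x0) = 0 ∧ d0 ≤ e
    · by_cases h0 : e = d0
      · have hG : G3 hg x0 d0 y e = P hg y e := by unfold G3; rw [if_pos hc, if_pos h0]
        rw [hG, key y e hdq, hG]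
      · by_cases h1 : e % 2 = 1
        · have hG : G3 hg x0 d0 y e = P hg y (e + 1) := by
            unfold G3; rw [if_pos hc, if_neg h0, if_pos h1]
          rw [hG, key y (e + 1) (by omega)]
          unfold G3
          rw [if_pos ⟨hc.1, by omega⟩, if_neg (by omega), if_neg (by omega), Nat.add_sub_cancel]
        · have hG : G3 hg x0 d0 y e = P hg y (e - 1) := by
            unfold G3; rw [if_pos hc, if_neg h0, if_neg h1]
          rw [hG, key y (e - 1) (by omega)]
          unfold G3
          rw [if_pos ⟨hc.1, by omega⟩, if_neg (by omega), if_pos (by omega),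
            Nat.sub_add_cancel (by omega)]
    · by_cases h1 : e % 2 = 1
      · have hG : G3 hg x0 d0 y e = P hg y (e - 1) := by unfold G3; rw [if_neg hc, if_pos h1]
        rw [hG, key y (e - 1) (by omega)]
        unfold G3
        have hc' : ¬ (cm hg (y - x0) = 0 ∧ d0 ≤ e - 1) := by
          rintro ⟨h2, h3⟩
          exact hc ⟨h2, by omega⟩
        rw [if_neg hc', if_neg (by omega), if_pos (by omega), Nat.sub_add_cancel (by omega)]
      · by_cases h2 : 2 * e + 3 ≤ n
        · have hG : G3 hg x0 d0 y e = P hg y (e + 1) := by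
            unfold G3; rw [if_neg hc, if_neg h1, if_pos h2]
          rw [hG, key y (e + 1) (by omega)]
          unfold G3
          have hc' : ¬ (cm hg (y - x0) = 0 ∧ d0 ≤ e + 1) := by
            rintro ⟨h3, h4⟩
            exact hc ⟨h3, by omega⟩
          rw [if_neg hc', if_pos (by omega), Nat.add_sub_cancel]
        · have h0 := hlast e hdq h2
          have hcx : cm hg (y - x0) ≠ 0 := fun hh => hc ⟨hh, by omega⟩
          have h3 : (2 * cm hg (y - x0)).val ≠ 0 := by
            intro hh
            rw [ZMod.val_eq_zero] at hh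
            exact hcx (hz e h0 _ hh)
          by_cases h4 : (2 * cm hg (y - x0)).val % 2 = 1
          · have hG : G3 hg x0 d0 y e = P hg (y + (e + 1 : ℕ)) e := by
              unfold G3; rw [if_neg hc, if_neg h1, if_neg h2, if_pos h4]
            have h5 : 2 * cm hg (y + ((e + 1 : ℕ) : ZMod n) - x0) = 2 * cm hg (y - x0) + 1 := by
              rw [← hu e h0, ← mul_add, ← map_add]
              congr 2
              ring
            have h6 := hodd1 _ h4
            have hc' : ¬ (cm hg (y + ((e + 1 : ℕ) : ZMod n) - x0) = 0 ∧ d0 ≤ e) := by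
              rintro ⟨h7, -⟩
              rw [h7, mul_zero] at h5
              rw [← h5, ZMod.val_zero] at h6
              omega
            rw [hG, key _ e hdq]
            unfold G3
            rw [if_neg hc', if_neg h1, if_neg h2, h5, h6, if_neg (by omega),
              add_sub_cancel_right]
          · have hG : G3 hg x0 d0 y e = P hg (y - (e + 1 : ℕ)) e := by
              unfold G3; rw [if_neg hc, if_neg h1, if_neg h2, if_neg h4]
            have h5 : 2 * cm hg (y - ((e + 1 : ℕ) : ZMod n) - x0) = 2 * cm hg (y - x0) - 1 := by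
              rw [← hu e h0, ← mul_sub, ← map_sub]
              congr 2
              ring
            have h6 := heven1 _ h3
            have hc' : ¬ (cm hg (y - ((e + 1 : ℕ) : ZMod n) - x0) = 0 ∧ d0 ≤ e) := by
              rintro ⟨h7, -⟩
              rw [h7, mul_zero] at h5
              rw [← h5, ZMod.val_zero] at h6
              omega
            rw [hG, key _ e hdq]
            unfold G3
            rw [if_neg hc', if_neg h1, if_neg h2, h5, h6, if_pos (by omega), sub_add_cancel]
  · intro q
    rw [or_iff_not_imp_left]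
    intro hne
    have hdq := hd q
    have hq0 := hq q
    change G3 hg x0 d0 (x q) (d q) ≠ q at hne
    change HopQ hg q (G3 hg x0 d0 (x q) (d q))
    set y := x q with hy
    set e := d q with he
    clear_value y e
    subst hq0
    by_cases hc : cm hg (y - x0) = 0 ∧ d0 ≤ e
    · by_cases h0 : e = d0
      · have hG : G3 hg x0 d0 y e = P hg y e := by unfold G3; rw [if_pos hc, if_pos h0]
        exact absurd hG hne
      · by_cases h1 : e % 2 = 1
        · have hG : G3 hg x0 d0 y e = P hg y (e + 1) := by
            unfold G3; rw [if_pos hc, if_neg h0, if_pos h1]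
          rw [hG]
          exact hopQ_P hg y e
        · have hG : G3 hg x0 d0 y e = P hg y (e - 1) := by
            unfold G3; rw [if_pos hc, if_neg h0, if_neg h1]
          have h2 := hopQ_P hg y (e - 1)
          rw [Nat.sub_add_cancel (by omega)] at h2
          rw [hG]
          exact h2.symm'
    · by_cases h1 : e % 2 = 1
      · have hG : G3 hg x0 d0 y e = P hg y (e - 1) := by unfold G3; rw [if_neg hc, if_pos h1]
        have h2 := hopQ_P hg y (e - 1)
        rw [Nat.sub_add_cancel (by omega)] at h2
        rw [hG]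
        exact h2.symm'
      · by_cases h2 : 2 * e + 3 ≤ n
        · have hG : G3 hg x0 d0 y e = P hg y (e + 1) := by
            unfold G3; rw [if_neg hc, if_neg h1, if_pos h2]
          rw [hG]
          exact hopQ_P hg y e
        · have h0 := hlast e hdq h2
          by_cases h4 : (2 * cm hg (y - x0)).val % 2 = 1
          · have hG : G3 hg x0 d0 y e = P hg (y + (e + 1 : ℕ)) e := by
              unfold G3; rw [if_neg hc, if_neg h1, if_neg h2, if_pos h4]
            rw [hG, ← P_turn hg h0 y]
            exact hopQ_P hg y e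
          · have hG : G3 hg x0 d0 y e = P hg (y - (e + 1 : ℕ)) e := by
              unfold G3; rw [if_neg hc, if_neg h1, if_neg h2, if_neg h4]
            have h5 := P_turn hg h0 (y - ((e + 1 : ℕ) : ZMod n))
            rw [sub_add_cancel] at h5
            rw [hG, ← h5]
            exact (hopQ_P hg _ e).symm'
  · have hfix : ∀ (y : ZMod n) (e : ℕ), 2 * e + 1 ≤ n → (G3 hg x0 d0 y e = P hg y e ↔
        e = d0 ∧ cm hg (y - x0) = 0) := by
      intro y e he
      constructor
      · intro hG
        unfold G3 at hG
        by_cases hc : cm hg (y - x0) = 0 ∧ d0 ≤ e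
        · rw [if_pos hc] at hG
          by_cases h0 : e = d0
          · exact ⟨h0, hc.1⟩
          · exfalso
            rw [if_neg h0] at hG
            by_cases h1 : e % 2 = 1
            · rw [if_pos h1] at hG
              have := (P_eq (by omega) he hG).1
              omega
            · rw [if_neg h1] at hG
              have := (P_eq (by omega) he hG).1
              omega
        · exfalso
          rw [if_neg hc] at hG
          by_cases h1 : e % 2 = 1
          · rw [if_pos h1] at hG
            have := (P_eq (by omega) he hG).1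
            omega
          · rw [if_neg h1] at hG
            by_cases h2 : 2 * e + 3 ≤ n
            · rw [if_pos h2] at hG
              have := (P_eq (by omega) he hG).1
              omega
            · have h0 := hlast e he h2
              rw [if_neg h2] at hG
              have h2u := hu e h0
              have hcx : cm hg (y - x0) ≠ 0 := fun hh => hc ⟨hh, by omega⟩
              have h5 : cm hg ((e + 1 : ℕ) : ZMod n) = 0 := by
                split_ifs at hG with h4
                · obtain ⟨-, hs⟩ := P_eq he he hG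
                  rw [map_sub, map_add] at hs
                  linear_combination - hs
                · obtain ⟨-, hs⟩ := P_eq he he hG
                  rw [map_sub, map_sub] at hs
                  linear_combination hs
              rw [h5, mul_zero] at h2u
              apply hcx
              have : cm hg (y - x0) = cm hg (y - x0) * 1 := by ring
              rw [this, ← h2u, mul_zero]
      · rintro ⟨h1, h2⟩
        unfold G3
        rw [if_pos ⟨h2, h1.ge⟩, if_pos h1]
    intro q
    change G3 hg x0 d0 (x q) (d q) = q ↔ q = P hg x0 d0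
    have h1 := hfix (x q) (d q) (hd q)
    rw [← hq q] at h1
    rw [h1]
    constructor
    · rintro ⟨h2, h3⟩
      have e5 : x q = x0 + (x q - x0) := by ring
      calc q = P hg (x q) (d q) := hq q
        _ = P hg x0 d0 := by rw [e5, P_tr hg _ h3, h2]
    · intro h2
      have h3 := hq q
      rw [h2] at h3
      obtain ⟨h4, h5⟩ := P_eq hd0 (h2 ▸ hd q) h3
      rw [← h2] at h4 h5
      exact ⟨h4.symm, h5⟩

/-- **Two beads** (`n = 3 mod 4`): a perfect matching. -/
theorem near_two_three (hn : n % 4 = 3) (hg : g ∣ n) :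
    ∃ ι : Quotient (msSetoid 2 hg) → Quotient (msSetoid 2 hg), (∀ q, ι (ι q) = q) ∧
      (∀ q, HopQ hg q (ι q)) ∧ ∀ q, ι q ≠ q := by
  have hno : Odd n := Nat.odd_iff.2 (by omega)
  have hP := P_surj hno hg
  choose x d hd hq using hP
  let G : ZMod n → ℕ → Quotient (msSetoid 2 hg) := fun x d =>
    if d % 2 = 1 then P hg x (d - 1) else P hg x (d + 1)
  have key : ∀ (y : ZMod n) (e : ℕ), 2 * e + 1 ≤ n →
      G (x (P hg y e)) (d (P hg y e)) = G y e := by
    intro y e he
    obtain ⟨h1, h2⟩ := P_eq he (hd (P hg y e)) (hq (P hg y e))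
    have h3 : x (P hg y e) = y + (x (P hg y e) - y) := by ring
    simp only [G]
    rw [← h1, h3, P_tr hg _ h2, P_tr hg _ h2]
  refine ⟨fun q => G (x q) (d q), ?_, ?_, ?_⟩
  · intro q
    have hdq := hd q
    have hq0 := hq q
    change G (x (G (x q) (d q))) (d (G (x q) (d q))) = q
    set y := x q with hy
    set e := d q with he
    clear_value y e
    subst hq0
    by_cases h1 : e % 2 = 1
    · have hG : G y e = P hg y (e - 1) := by simp only [G]; rw [if_pos h1]
      rw [hG, key y (e - 1) (by omega)]
      simp only [G]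
      rw [if_neg (by omega), Nat.sub_add_cancel (by omega)]
    · have hG : G y e = P hg y (e + 1) := by simp only [G]; rw [if_neg h1]
      rw [hG, key y (e + 1) (by omega)]
      simp only [G]
      rw [if_pos (by omega), Nat.add_sub_cancel]
  · intro q
    have hdq := hd q
    have hq0 := hq q
    change HopQ hg q (G (x q) (d q))
    set y := x q with hy
    set e := d q with he
    clear_value y e
    subst hq0
    by_cases h1 : e % 2 = 1
    · have hG : G y e = P hg y (e - 1) := by simp only [G]; rw [if_pos h1]
      have h2 := hopQ_P hg y (e - 1)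
      rw [Nat.sub_add_cancel (by omega)] at h2
      rw [hG]
      exact h2.symm'
    · have hG : G y e = P hg y (e + 1) := by simp only [G]; rw [if_neg h1]
      rw [hG]
      exact hopQ_P hg y e
  · intro q hG0
    have hdq := hd q
    have hq0 := hq q
    change G (x q) (d q) = q at hG0
    set y := x q with hy
    set e := d q with he
    clear_value y e
    subst hq0
    by_cases h1 : e % 2 = 1
    · have hG : G y e = P hg y (e - 1) := by simp only [G]; rw [if_pos h1]
      rw [hG] at hG0
      have := (P_eq (by omega) hdq hG0).1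
      omega
    · have hG : G y e = P hg y (e + 1) := by simp only [G]; rw [if_neg h1]
      rw [hG] at hG0
      have := (P_eq (by omega) hdq hG0).1
      omega

/-- **Two beads**: near perfect matching of the classes, the leftover (if `n = 1 mod 4`) can be the
class of `{x0, x0 + d0}` for every even `d0 ≤ (n-1)/2`. -/
theorem near_two_prescribed (hn : Odd n) (hg : g ∣ n) (x0 : ZMod n) (d0 : ℕ)
    (hd0 : 2 * d0 + 1 ≤ n) (hev : d0 % 2 = 0) :
    ∃ ι : Quotient (msSetoid 2 hg) → Quotient (msSetoid 2 hg), (∀ q, ι (ι q) = q) ∧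
      (∀ q, ι q = q ∨ HopQ hg q (ι q)) ∧ ∀ q, ι q = q ↔ q = P hg x0 d0 ∧ n % 4 = 1 := by
  rw [Nat.odd_iff] at hn
  rcases (by omega : n % 4 = 1 ∨ n % 4 = 3) with h | h
  · obtain ⟨ι, h1, h2, h3⟩ := near_two_one h hg x0 d0 hd0 hev
    exact ⟨ι, h1, h2, fun q => by rw [h3]; simp [h]⟩
  · obtain ⟨ι, h1, h2, h3⟩ := near_two_three h hg
    exact ⟨ι, h1, fun q => Or.inr (h2 q), fun q => by
      constructor
      · intro h4
        exact absurd h4 (h3 q)
      · rintro ⟨-, h4⟩
        omega⟩

end Pool.OddHop
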