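import Pool.Agent.Work.MP_8f87b2_h26.Trans

/-!
# Multisets on the ring modulo translation by multiples of `g`
-/

set_option autoImplicit false

namespace Pool.OddHop

open Finset

variable {g n m : ℕ}

/-- multisets of `m` beads on the ring `ZMod n` -/
def Ms (n m : ℕ) [NeZero n] : Type := {a : ZMod n → ℕ // ∑ x, a x = m}

/-- translation by multiples of `g` -/
def msSetoid [NeZero n] (m : ℕ) (hg : g ∣ n) : Setoid (Ms n m) where
  r a b := RelB hg a.1 b.1
  iseqv := ⟨fun a => RelB.refl hg a.1, fun hr => hr.symm, fun hr hr' => hr.trans hr'⟩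

/-- two classes are joined by one hop -/
def HopQ [NeZero n] (hg : g ∣ n) (q q' : Quotient (msSetoid m hg)) : Prop :=
  ∃ a a' : Ms n m, Quotient.mk (msSetoid m hg) a = q ∧ Quotient.mk (msSetoid m hg) a' = q' ∧
    Hop a.1 a'.1

/-- the conclusion of the theorem for `m ≠ 2` -/
def HasCycle [NeZero n] (m : ℕ) (hg : g ∣ n) : Prop :=
  ∃ f : Equiv.Perm (Quotient (msSetoid m hg)), (∀ q, HopQ hg q (f q)) ∧ ∀ p q, f.SameCycle p q

/-- the conclusion of the theorem for `m = 2` (and all other `m`) -/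
def HasNear [NeZero n] (m : ℕ) (hg : g ∣ n) : Prop :=
  ∃ ι : Quotient (msSetoid m hg) → Quotient (msSetoid m hg), (∀ q, ι (ι q) = q) ∧
    (∀ q, ι q = q ∨ HopQ hg q (ι q)) ∧ ∀ p q, ι p = p → ι q = q → p = q

end Pool.OddHop
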