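import Mathlib

/-!
# MP_8f87b2_co, type L1: functions on a ring, rotation classes, the order

`Rot G G'`, `Sq G`, `phG G = const - Sq G`: invariant under rotations. `convex`: `Sq` is strictly convex at an empty gap.
-/

set_option autoImplicit false
set_option linter.unusedSectionVars false

namespace Pool.OddHC

namespace L1

open Finset

variable {N : ℕ} [NeZero N] {F G G' : ZMod N → ℕ}

/-- one more square at `x` -/
def adj (F : ZMod N → ℕ) (x : ZMod N) : ZMod N → ℕ := fun z => F z + if z = x then 1 else 0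

/-- rotation -/
def Rot (G G' : ZMod N → ℕ) : Prop := ∃ c, G' = fun x => G (x + c)

theorem Rot.symm (h : Rot G G') : Rot G' G := by
  obtain ⟨c, rfl⟩ := h
  exact ⟨-c, by funext x; congr 1; ring⟩

theorem Rot.trans {G'' : ZMod N → ℕ} (h : Rot G G') (h' : Rot G' G'') : Rot G G'' := by
  obtain ⟨c, rfl⟩ := h
  obtain ⟨d, rfl⟩ := h'
  refine ⟨d + c, ?_⟩
  funext x
  change G (x + d + c) = G (x + (d + c))
  rw [add_assoc]

theorem Rot.refl (G : ZMod N → ℕ) : Rot G G := ⟨0, by funext x; rw [add_zero]⟩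

/-- moments -/
def mo (G : ZMod N → ℕ) (x : ZMod N) : ℕ := ∑ z, (z - x).val * G z

/-- sum of the squares of the moments -/
def Sq (G : ZMod N → ℕ) : ℕ := ∑ x, (mo G x) ^ 2

/-- the order of the T-cycles of the class -/
def phG (G : ZMod N → ℕ) : ℕ := N * (N * ∑ x, G x) ^ 2 - Sq G

theorem Rot.sum (h : Rot G G') : ∑ x, G x = ∑ x, G' x := by
  obtain ⟨c, rfl⟩ := h
  exact (Equiv.sum_comp (Equiv.addRight c) G).symm

theorem Rot.Sq (h : Rot G G') : Sq G = Sq G' := by
  obtain ⟨c, rfl⟩ := h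
  have h1 : ∀ x, mo (fun x => G (x + c)) x = mo G (x + c) := by
    intro x
    unfold mo
    rw [← Equiv.sum_comp (Equiv.addRight c) (fun z => (z - (x + c)).val * G z)]
    apply Finset.sum_congr rfl
    intro z _
    change _ = ((z + c) - (x + c)).val * G (z + c)
    rw [add_sub_add_right_eq_sub]
  unfold L1.Sq
  simp only [h1]
  exact (Equiv.sum_comp (Equiv.addRight c) (fun x => (mo G x) ^ 2)).symm

theorem Rot.phG (h : Rot G G') : phG G = phG G' := by
  unfold L1.phG
  rw [h.sum, h.Sq]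

theorem mo_le (G : ZMod N → ℕ) (x : ZMod N) : mo G x ≤ N * ∑ z, G z := by
  unfold mo
  rw [Finset.mul_sum]
  apply Finset.sum_le_sum
  intro z _
  exact Nat.mul_le_mul_right _ (ZMod.val_lt _).le

theorem Sq_le (G : ZMod N → ℕ) : Sq G ≤ N * (N * ∑ x, G x) ^ 2 := by
  unfold Sq
  calc ∑ x, (mo G x) ^ 2 ≤ ∑ _x : ZMod N, (N * ∑ z, G z) ^ 2 := by
        apply Finset.sum_le_sum
        intro x _
        exact Nat.pow_le_pow_left (mo_le G x) 2
    _ = _ := by rw [Finset.sum_const, Finset.card_univ, ZMod.card, smul_eq_mul]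

theorem adj_sum (F : ZMod N → ℕ) (x : ZMod N) : ∑ z, adj F x z = ∑ z, F z + 1 := by
  unfold adj
  rw [sum_add_distrib, Finset.sum_ite_eq' univ x (fun _ => 1), if_pos (mem_univ _)]

/-! ### Strict convexity -/

theorem val_succ' (z : ZMod N) : ((z + 1).val : ℤ) = z.val + 1 - if z = -1 then (N : ℤ) else 0 := by
  by_cases h : z = -1
  · subst h
    rw [if_pos rfl, neg_add_cancel, ZMod.val_zero]
    have h1 : ((-1 : ZMod N)).val = N - 1 := by
      obtain ⟨m, rfl⟩ : ∃ m, N = m + 1 := ⟨N - 1, by have := NeZero.pos N; omega⟩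
      rw [ZMod.val_neg_one]
      rfl
    have := NeZero.pos N
    rw [h1]
    omega
  · rw [if_neg h]
    have h1 : z.val + 1 < N := by
      have h2 := ZMod.val_lt z
      rcases Nat.lt_or_ge (z.val + 1) N with h3 | h3
      · exact h3
      · exfalso
        apply h
        have h4 : z.val + 1 = N := by omega
        have h5 := congrArg (Nat.cast : ℕ → ZMod N) h4
        rw [Nat.cast_add, ZMod.natCast_zmod_val, ZMod.natCast_self, Nat.cast_one] at h5
        linear_combination h5
    have h2 : (z + 1).val = z.val + 1 := by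
      have e : z + 1 = ((z.val + 1 : ℕ) : ZMod N) := by
        rw [Nat.cast_add, ZMod.natCast_zmod_val, Nat.cast_one]
      rw [e, ZMod.val_natCast_of_lt h1]
    rw [h2]
    push_cast
    ring

theorem mo_succ (F : ZMod N → ℕ) (x : ZMod N) :
    (mo F (x + 1) : ℤ) = mo F x - ∑ z, (F z : ℤ) + N * F x := by
  unfold mo
  push_cast
  have h1 : ∀ z : ZMod N, (((z - (x + 1)).val : ℤ)) * (F z : ℤ) =
      ((z - x).val : ℤ) * F z - F z + (if z = x then (N : ℤ) * F z else 0) := by
    intro z
    have h2 := val_succ' (z - (x + 1))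
    have e : z - (x + 1) + 1 = z - x := by ring
    rw [e] at h2
    have e2 : (z - (x + 1) = -1) ↔ z = x := by
      constructor
      · intro h; linear_combination h
      · intro h; linear_combination h
    simp only [e2] at h2
    by_cases hz : z = x
    · rw [if_pos hz] at h2 ⊢
      have h3 : (((z - (x + 1)).val : ℤ)) = ((z - x).val : ℤ) - 1 + N := by linarith
      rw [h3]
      ring
    · rw [if_neg hz] at h2 ⊢
      have h3 : (((z - (x + 1)).val : ℤ)) = ((z - x).val : ℤ) - 1 := by linarith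
      rw [h3]
      ring
  rw [Finset.sum_congr rfl (fun z _ => h1 z), Finset.sum_add_distrib, Finset.sum_sub_distrib,
    Finset.sum_ite_eq' univ x (fun z => (N : ℤ) * F z), if_pos (mem_univ _)]

theorem mo_adj (F : ZMod N → ℕ) (y x : ZMod N) : mo (adj F y) x = mo F x + (y - x).val := by
  unfold mo adj
  have h1 : ∀ z : ZMod N, (z - x).val * (F z + if z = y then 1 else 0) =
      (z - x).val * F z + if z = y then (z - x).val else 0 := by
    intro z
    split_ifs <;> ring
  rw [Finset.sum_congr rfl (fun z _ => h1 z), Finset.sum_add_distrib,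
    Finset.sum_ite_eq' univ y (fun z => (z - x).val), if_pos (mem_univ _)]

/-- the mixed sum -/
def Cy (F : ZMod N → ℕ) (y : ZMod N) : ℤ := ∑ x, (mo F x : ℤ) * (y - x).val

theorem Cy_succ (F : ZMod N → ℕ) (y : ZMod N) :
    Cy F (y + 1) = Cy F y + ∑ x, (mo F x : ℤ) - N * mo F (y + 1) := by
  unfold Cy
  have h1 : ∀ x : ZMod N, (mo F x : ℤ) * ((y + 1 - x).val : ℤ) =
      (mo F x : ℤ) * (y - x).val + mo F x - (if x = y + 1 then (N : ℤ) * mo F x else 0) := by
    intro x
    have h2 := val_succ' (y - x)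
    have e : y - x + 1 = y + 1 - x := by ring
    rw [e] at h2
    have e2 : (y - x = -1) ↔ x = y + 1 := by
      constructor
      · intro h; linear_combination -h
      · intro h; linear_combination -h
    simp only [e2] at h2
    rw [h2]
    split_ifs <;> ring
  rw [Finset.sum_congr rfl (fun x _ => h1 x), Finset.sum_sub_distrib, Finset.sum_add_distrib,
    Finset.sum_ite_eq' univ (y + 1) (fun x => (N : ℤ) * mo F x), if_pos (mem_univ _)]

theorem Sq_adj (F : ZMod N → ℕ) (y : ZMod N) :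
    (Sq (adj F y) : ℤ) = ∑ x, (mo F x : ℤ) ^ 2 + 2 * Cy F y + ∑ z : ZMod N, (z.val : ℤ) ^ 2 := by
  unfold Sq Cy
  push_cast
  have h1 : ∀ x : ZMod N, ((mo (adj F y) x : ℤ)) ^ 2 =
      (mo F x : ℤ) ^ 2 + 2 * ((mo F x : ℤ) * (y - x).val) + ((y - x).val : ℤ) ^ 2 := by
    intro x
    rw [mo_adj]
    push_cast
    ring
  rw [Finset.sum_congr rfl (fun x _ => h1 x), Finset.sum_add_distrib, Finset.sum_add_distrib,
    ← Finset.mul_sum]
  congr 1
  exact Equiv.sum_comp (Equiv.subLeft y) (fun z : ZMod N => ((z.val : ℤ)) ^ 2)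

/-- **strict convexity at an empty gap** -/
theorem convex (F : ZMod N → ℕ) (y : ZMod N) (h0 : F y = 0) (h1 : 1 ≤ ∑ x, F x) :
    2 * Sq (adj F y) < Sq (adj F (y - 1)) + Sq (adj F (y + 1)) := by
  have a1 := Sq_adj F y
  have a2 := Sq_adj F (y - 1)
  have a3 := Sq_adj F (y + 1)
  have c1 := Cy_succ F y
  have c2 := Cy_succ F (y - 1)
  have m1 := mo_succ F y
  rw [sub_add_cancel] at c2
  rw [h0] at m1
  have hN : (1 : ℤ) ≤ N := by
    have := NeZero.pos N
    omega
  have hS : (1 : ℤ) ≤ ∑ z, (F z : ℤ) := by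
    have : ((∑ x, F x : ℕ) : ℤ) = ∑ z, (F z : ℤ) := by push_cast; rfl
    rw [← this]
    omega
  have key : (Sq (adj F (y - 1)) : ℤ) + Sq (adj F (y + 1)) - 2 * Sq (adj F y) =
      2 * N * ∑ z, (F z : ℤ) := by
    rw [a1, a2, a3, c1]
    have c3 : Cy F (y - 1) = Cy F y - ∑ x, (mo F x : ℤ) + N * mo F y := by linarith
    rw [c3]
    have m2 : (mo F (y + 1) : ℤ) = mo F y - ∑ z, (F z : ℤ) := by
      rw [m1]
      push_cast
      ring
    rw [m2]
    ring
  have pos : (0 : ℤ) < 2 * N * ∑ z, (F z : ℤ) := by positivity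
  omega

/-- **the order** -/
theorem ph_lt {x w : ZMod N} (hw : Sq (adj F x) < Sq (adj F w)) : phG (adj F w) < phG (adj F x) := by
  have h1 := Sq_le (adj F x)
  have h2 := Sq_le (adj F w)
  unfold phG
  rw [adj_sum] at h1 h2 ⊢
  rw [adj_sum]
  omega

end L1

end Pool.OddHC
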