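import Pool.Agent.Work.MP_8f87b2_h26.L1g
import Pool.Agent.Work.MP_8f87b2_h26.L1h

/-!
# MP_8f87b2_co, type L1: one soliton, one bead, `a ≥ 2`: the pair gadget J2 (19 words, no arc at `((R))`)

`Φ : ZMod (2 n + 1) → ℕ`, `∑ Φ ≥ 1`, `n + 5 + 2 ∑ Φ = k`. Right words `xw n Φ w0 i` (`R = RH n Φ`), rule `RuR`;
mirrored words `xm n Φ w0 i` (mirror of the right words of `rf Φ`), rule `RuM`.
-/

set_option autoImplicit false

namespace Pool.OddHC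

open Finset Equiv BinaryTree Pool.Agent.Work.MP_8f87b2_co

namespace L1

open H1 J

variable {k n : ℕ} {F G G' Φ : ZMod (2 * n + 1) → ℕ}

/-- the right words -/
noncomputable def xw (n : ℕ) (Φ : ZMod (2 * n + 1) → ℕ) (w0 : X k) (i : ℕ) : X k := gW (RH n Φ) w0 i

/-- the mirrored words -/
noncomputable def xm (n : ℕ) (Φ : ZMod (2 * n + 1) → ℕ) (w0 : X k) (i : ℕ) : X k :=
  Tsq.mirX (xw n (rf Φ) w0 i)

/-- the rule for the right gadget -/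
def RuR (n : ℕ) (Φ : ZMod (2 * n + 1) → ℕ) : Prop :=
  1 ≤ Φ (-1) ∨ (Φ (-1) = 0 ∧ Φ 0 = 0 ∧ Sq (adj Φ 0) ≤ Sq (adj Φ (-1)))

/-- the rule for the mirrored gadget -/
def RuM (n : ℕ) (Φ : ZMod (2 * n + 1) → ℕ) : Prop :=
  2 ≤ ∑ x, Φ x ∧ Φ (-1) = 0 ∧ (∃ y, y ≠ 0 ∧ 1 ≤ Φ y) ∧
    (1 ≤ Φ 0 ∨ (Φ 0 = 0 ∧ Sq (adj Φ (-1)) < Sq (adj Φ 0)))

/-- basic data -/
structure Ba (k n : ℕ) (Φ : ZMod (2 * n + 1) → ℕ) : Prop where
  hn : 1 ≤ n
  one : 1 ≤ ∑ x, Φ x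
  hk : n + 5 + 2 * ∑ x, Φ x = k
  ne : ¬ Rot (adj Φ (-1)) (adj Φ 0)

end L1

open L1

variable {k : ℕ} {F F' : Set (Cyc k)} {g g' : DG k}

/-- TYPE L1, right -/
def TyL1R (F : Set (Cyc k)) (g : DG k) : Prop :=
  ∃ (n : ℕ) (Φ : ZMod (2 * n + 1) → ℕ) (w0 : X k), Ba k n Φ ∧ RuR n Φ ∧
    F = {cyc (xw n Φ w0 0), cyc (xw n Φ w0 4)} ∧ g = gadJ (xw n Φ w0)

/-- TYPE L1, mirrored -/
def TyL1M (F : Set (Cyc k)) (g : DG k) : Prop :=
  ∃ (n : ℕ) (Φ : ZMod (2 * n + 1) → ℕ) (w0 : X k), Ba k n Φ ∧ RuM n Φ ∧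
    F = {cyc (xm n Φ w0 0), cyc (xm n Φ w0 4)} ∧ g = gadJM (xm n Φ w0)

/-- TYPE L1 -/
def TyL1 (F : Set (Cyc k)) (g : DG k) : Prop := TyL1R F g ∨ TyL1M F g

namespace L1

open H1 J

variable {n : ℕ} {Φ G G' : ZMod (2 * n + 1) → ℕ}

/-! ### Right words -/

theorem xw_val (hn : 1 ≤ n) (hk : n + 5 + 2 * ∑ x, Φ x = k) (w0 : X k) {i : ℕ} (hi : i < 20) :
    (xw n Φ w0 i).1 = H1.W (RH n Φ) .nil (Tsq.sq (RH n Φ)).2 (Tsq.sq (RH n Φ)).1 i :=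
  (GR_RH hn Φ hk).word w0 hi

theorem xw_ov0 (hn : 1 ≤ n) (hk : n + 5 + 2 * ∑ x, Φ x = k) (w0 : X k) :
    Ov n (adj Φ (-1)) (xw n Φ w0 0).1 := by
  rw [xw_val hn hk w0 (by norm_num)]
  exact ov0 hn Φ

theorem xw_ov4 (hn : 1 ≤ n) (hk : n + 5 + 2 * ∑ x, Φ x = k) (w0 : X k) :
    Ov n (adj Φ 0) (xw n Φ w0 4).1 := by
  rw [xw_val hn hk w0 (by norm_num)]
  exact ov4 hn Φ

theorem adj_shift (Φ : ZMod (2 * n + 1) → ℕ) (x c : ZMod (2 * n + 1)) :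
    Rot (adj Φ x) (adj (fun z => Φ (z + c)) (x - c)) := by
  refine ⟨c, ?_⟩
  funext z
  unfold adj
  have : z = x - c ↔ z + c = x := by
    constructor
    · intro h; linear_combination h
    · intro h; linear_combination h
  simp only [this]

theorem xw_ov13 (hn : 1 ≤ n) (hk : n + 5 + 2 * ∑ x, Φ x = k) (h0 : Φ (-1) = 0) (w0 : X k) :
    Ov n (adj (fun x => Φ (x - 1)) (-1)) (xw n Φ w0 13).1 := by
  rw [xw_val hn hk w0 (by norm_num)]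
  exact ov13 hn Φ h0

theorem rot13 (Φ : ZMod (2 * n + 1) → ℕ) : Rot (adj Φ (-2)) (adj (fun x => Φ (x - 1)) (-1)) := by
  have h := adj_shift Φ (-2) (-1)
  have e : (-2 - -1 : ZMod (2 * n + 1)) = -1 := by ring
  rw [e] at h
  simpa only [← sub_eq_add_neg] using h

/-- the different T-cycles of a gadget -/
structure Cn (n : ℕ) (Φ : ZMod (2 * n + 1) → ℕ) : Prop where
  n04 : ¬ Rot (adj Φ (-1)) (adj Φ 0)
  n13 : Φ (-1) = 0 → ¬ Rot (adj Φ (-2)) (adj Φ (-1)) ∧ ¬ Rot (adj Φ (-2)) (adj Φ 0)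

theorem cyc04 (hn : 1 ≤ n) (hk : n + 5 + 2 * ∑ x, Φ x = k) (h : Cn n Φ) (w0 : X k) :
    cyc (xw n Φ w0 0) ≠ cyc (xw n Φ w0 4) := fun e =>
  h.n04 (((xw_ov0 hn hk w0).cyc_iff hn (xw_ov4 hn hk w0)).1 e)

theorem cyc130 (hn : 1 ≤ n) (hk : n + 5 + 2 * ∑ x, Φ x = k) (h : Cn n Φ) (h0 : Φ (-1) = 0) (w0 : X k) :
    cyc (xw n Φ w0 13) ≠ cyc (xw n Φ w0 0) := by
  intro e
  have h1 := ((xw_ov13 hn hk h0 w0).cyc_iff hn (xw_ov0 hn hk w0)).1 e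
  exact (h.n13 h0).1 ((rot13 Φ).trans h1)

theorem cyc134 (hn : 1 ≤ n) (hk : n + 5 + 2 * ∑ x, Φ x = k) (h : Cn n Φ) (h0 : Φ (-1) = 0) (w0 : X k) :
    cyc (xw n Φ w0 13) ≠ cyc (xw n Φ w0 4) := by
  intro e
  have h1 := ((xw_ov13 hn hk h0 w0).cyc_iff hn (xw_ov4 hn hk w0)).1 e
  exact (h.n13 h0).2 ((rot13 Φ).trans h1)

/-- the reduced word of `S` for `Φ (-1) ≥ 1` -/
theorem sqS (hn : 1 ≤ n) (Φ : ZMod (2 * n + 1) → ℕ) (h0 : 1 ≤ Φ (-1)) :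
    ∃ s, 2 ≤ s.numNodes ∧ (Tsq.sq (RH n Φ)).1 = inf s := by
  obtain ⟨_, _, D1, hD1, s2⟩ := Ring1.sq_RF hn Φ
  refine ⟨D1 △ lv (Φ (-2)) .nil, ?_, ?_⟩
  · have hd : 1 ≤ D1.numNodes := by
      cases D1 with
      | nil => exact absurd rfl hD1
      | node _ A X =>
        change 1 ≤ A.numNodes + X.numNodes + 1
        omega
    change 2 ≤ D1.numNodes + _ + 1
    omega
  · rw [(caseA hn Φ h0).1, s2, inf_node, inf1_eq hD1, Ring1.inf_lp]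

theorem ne010 (hn : 1 ≤ n) (hk : n + 5 + 2 * ∑ x, Φ x = k) (w0 : X k) :
    xw n Φ w0 0 ≠ xw n Φ w0 10 := by
  intro e
  have e1 := congrArg Subtype.val e
  rw [xw_val hn hk w0 (by norm_num), xw_val hn hk w0 (by norm_num)] at e1
  have h0 := (Wd_RH hn Φ).app Wd.two
  have h0' : Wd (app (rr n Φ) (.nil △ .nil)) {gH n Φ}
      (H1.W (RH n Φ) .nil (Tsq.sq (RH n Φ)).2 (Tsq.sq (RH n Φ)).1 0) := h0.cast rfl (by simp) rfl
  rw [e1] at h0'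
  have hle : Φ (-1) ≤ ∑ x, Φ x := Finset.single_le_sum (fun x _ => Nat.zero_le (Φ x)) (Finset.mem_univ (-1))
  rcases Nat.eq_zero_or_pos (Φ (-1)) with h1 | h1
  · have h2 := Wd.two.app (caseB1 hn Φ h1)
    rw [caseB2 hn Φ h1] at h0'
    have h3 := (h0'.inj h2).2
    have h4 : gH n Φ = 2 * (n + ∑ x, Φ x) - 1 := by
      unfold gH
      rw [h1, if_neg (by omega)]
    change ({gH n Φ} : Multiset ℕ) = 0 + Multiset.map (· + 2 * 1) {2 * (n + 1 + ∑ x, Φ x) - 2} at h3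
    rw [zero_add, Multiset.map_singleton, Multiset.singleton_inj] at h3
    omega
  · obtain ⟨s, _, hs⟩ := sqS hn Φ h1
    have h2 := (caseA hn Φ h1).2.app (Wd.two.app (Wd.inf s))
    rw [← hs] at h2
    have h3 := (h0'.inj h2).2
    have h4 : gH n Φ = 2 * (n + ∑ x, Φ x) + 1 := by
      unfold gH
      rw [if_pos (show 1 ≤ Φ (-1) from h1)]
    rw [Multiset.map_zero, zero_add, Multiset.map_zero, add_zero, Multiset.singleton_inj] at h3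
    omega

theorem same10 (hn : 1 ≤ n) (hk : n + 5 + 2 * ∑ x, Φ x = k) (w0 : X k) :
    TT.SameCycle (xw n Φ w0 0) (xw n Φ w0 10) := (GR_RH hn Φ hk).same10 w0

/-- **the words of a gadget are different** -/
theorem inj_x (hn : 1 ≤ n) (h1 : 1 ≤ ∑ x, Φ x) (hk : n + 5 + 2 * ∑ x, Φ x = k) (hc : Cn n Φ) (w0 : X k) :
    ∀ i < 20, ∀ j < 20, xw n Φ w0 i = xw n Φ w0 j → i = j := by
  obtain ⟨D, D', hS, e, e', hPI⟩ := PI_all (k := k - 1) hn Φ h1 (by omega)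
  intro i hi j hj he
  have e1 := congrArg Subtype.val he
  rw [xw_val hn hk w0 hi, xw_val hn hk w0 hj] at e1
  have p1 := hPI i hi
  have p2 := hPI j hj
  rw [e1] at p1
  have h2 := p1.inj p2
  have c10 : cyc (xw n Φ w0 0) = cyc (xw n Φ w0 10) := cyc_eq.2 (same10 hn hk w0)
  have key := inj_free hS (fun ht => by
    rw [e]
    rw [ht] at e'
    change RR 0 D' _ = _ at e'
    rw [e']
    exact RR_ne_of ht h1) i hi j hj h2
  rcases key with h | ⟨a, b⟩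
  · exact h
  · have n04 := cyc04 hn hk hc w0
    rcases a with rfl | rfl | rfl | ⟨rfl, a⟩ <;> rcases b with rfl | rfl | rfl | ⟨rfl, b⟩
    · rfl
    · exact absurd (congrArg cyc he) n04
    · exact absurd he (ne010 hn hk w0)
    · exact absurd (congrArg cyc he).symm (cyc130 hn hk hc b w0)
    · exact absurd (congrArg cyc he).symm n04
    · rfl
    · exact absurd ((congrArg cyc he).trans c10.symm).symm n04
    · exact absurd (congrArg cyc he).symm (cyc134 hn hk hc b w0)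
    · exact absurd he.symm (ne010 hn hk w0)
    · exact absurd (c10.trans (congrArg cyc he)) n04
    · rfl
    · exact absurd ((congrArg cyc he).symm.trans c10.symm) (cyc130 hn hk hc b w0)
    · exact absurd (congrArg cyc he) (cyc130 hn hk hc a w0)
    · exact absurd (congrArg cyc he) (cyc134 hn hk hc a w0)
    · exact absurd ((congrArg cyc he).trans c10.symm) (cyc130 hn hk hc a w0)
    · rfl

theorem hold_x (hn : 1 ≤ n) (hk : n + 5 + 2 * ∑ x, Φ x = k) (hc : Cn n Φ) (w0 : X k) :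
    ∀ i < 20, i ≠ 0 → i ≠ 4 → i ≠ 5 → i ≠ 10 →
      ¬ TT.SameCycle (xw n Φ w0 0) (xw n Φ w0 i) ∧ ¬ TT.SameCycle (xw n Φ w0 4) (xw n Φ w0 i) := by
  intro i hi h0 h4 _ h10
  have g := GR_RH hn Φ hk
  by_cases h13 : i = 13 ∧ Φ (-1) = 0
  · obtain ⟨rfl, h13⟩ := h13
    exact ⟨fun h1 => cyc130 hn hk hc h13 w0 (cyc_eq.2 h1).symm,
      fun h1 => cyc134 hn hk hc h13 w0 (cyc_eq.2 h1).symm⟩
  · have h13' : i = 13 → (Tsq.sq (RH n Φ)).2 ≠ .nil := by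
      intro h1 h2
      have h3 : 1 ≤ Φ (-1) := by omega
      have h4 := caseA_ht hn Φ h3
      rw [h2] at h4
      exact absurd h4 (by decide)
    exact ⟨g.other w0 hi h0 h4 h10 h13' (g.cont0 w0), g.other w0 hi h0 h4 h10 h13' (g.cont4 w0)⟩

theorem abs_x (hn : 1 ≤ n) (h1 : 1 ≤ ∑ x, Φ x) (hk : n + 5 + 2 * ∑ x, Φ x = k) (hc : Cn n Φ) (w0 : X k) :
    (gadJ (xw n Φ w0)).Abs := by
  have g := GR_RH hn Φ hk
  have e := g.num
  have es := g.size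
  apply gadJ_abs (R := RH n Φ) (B := (Tsq.sq (RH n Φ)).2) (S := (Tsq.sq (RH n Φ)).1) (by omega) (by omega)
    (fun i hi _ => ?_) (fun i hi _ j hj _ => inj_x hn h1 hk hc w0 i hi j hj) (same10 hn hk w0)
    (fun h1 => cyc04 hn hk hc w0 (cyc_eq.2 h1)) (hold_x hn hk hc w0)
  rw [xw_val hn hk w0 hi, W_w20 _ _ _ _ i hi]

/-! ### Mirror -/

theorem mir_rr (Φ : ZMod (2 * n + 1) → ℕ) : Tsq.mir (rr n Φ) = rr n (rf Φ) := by
  unfold rr
  rw [mir_ins_ch n (lf Φ) (lf_length Φ), lf_rev]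
  rfl

theorem Ov.mir {w : BinaryTree Unit} (h : Ov n G w) : Ov n (rf G) (Tsq.mir w) := by
  obtain ⟨p, h⟩ := h
  have h1 := h.mir
  rw [mir_rr, Multiset.map_singleton] at h1
  exact ⟨_, h1⟩

theorem rf_adj (Φ : ZMod (2 * n + 1) → ℕ) (x : ZMod (2 * n + 1)) : rf (adj Φ x) = adj (rf Φ) (-1 - x) :=
  rf_ad Φ x

theorem xm_ov0 (hn : 1 ≤ n) (hk : n + 5 + 2 * ∑ x, Φ x = k) (w0 : X k) :
    Ov n (adj Φ 0) (xm n Φ w0 0).1 := by
  have h := (xw_ov0 (Φ := rf Φ) hn (by rw [rf_sum]; exact hk) w0).mir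
  rw [rf_adj, rf_rf] at h
  have e : (-1 - -1 : ZMod (2 * n + 1)) = 0 := by ring
  rw [e] at h
  exact h

theorem xm_ov4 (hn : 1 ≤ n) (hk : n + 5 + 2 * ∑ x, Φ x = k) (w0 : X k) :
    Ov n (adj Φ (-1)) (xm n Φ w0 4).1 := by
  have h := (xw_ov4 (Φ := rf Φ) hn (by rw [rf_sum]; exact hk) w0).mir
  rw [rf_adj, rf_rf] at h
  have e : (-1 - 0 : ZMod (2 * n + 1)) = -1 := by ring
  rw [e] at h
  exact h

theorem xm_ov13 (hn : 1 ≤ n) (hk : n + 5 + 2 * ∑ x, Φ x = k) (h0 : Φ 0 = 0) (w0 : X k) :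
    Ov n (adj (fun z => Φ (z + 1)) 0) (xm n Φ w0 13).1 := by
  have h := (xw_ov13 (Φ := rf Φ) hn (by rw [rf_sum]; exact hk) (by
    unfold rf
    have e : (-1 - -1 : ZMod (2 * n + 1)) = 0 := by ring
    rw [e]
    exact h0) w0).mir
  rw [rf_adj] at h
  have e : (-1 - -1 : ZMod (2 * n + 1)) = 0 := by ring
  have e2 : rf (fun x => rf Φ (x - 1)) = fun z => Φ (z + 1) := by
    funext z
    change Φ (-1 - (-1 - z - 1)) = Φ (z + 1)
    congr 1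
    ring
  rw [e, e2] at h
  exact h

theorem rot13M (Φ : ZMod (2 * n + 1) → ℕ) : Rot (adj Φ 1) (adj (fun z => Φ (z + 1)) 0) := by
  have h := adj_shift Φ 1 1
  rwa [sub_self] at h

theorem rot_rf (h : Rot G G') : Rot (rf G) (rf G') := by
  obtain ⟨c, rfl⟩ := h
  refine ⟨-c, ?_⟩
  funext z
  change G (-1 - z + c) = G (-1 - (z + -c))
  congr 1
  ring

theorem rot_of_rf (h : Rot (rf G) (rf G')) : Rot G G' := by
  have := rot_rf h
  rwa [rf_rf, rf_rf] at this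

/-- the conditions of the mirrored gadget -/
structure CnM (n : ℕ) (Φ : ZMod (2 * n + 1) → ℕ) : Prop where
  n04 : ¬ Rot (adj Φ (-1)) (adj Φ 0)
  n13 : Φ 0 = 0 → ¬ Rot (adj Φ 1) (adj Φ 0) ∧ ¬ Rot (adj Φ 1) (adj Φ (-1))

theorem CnM.cn (h : CnM n Φ) : Cn n (rf Φ) := by
  have a0 : adj (rf Φ) (-1) = rf (adj Φ 0) := by
    rw [rf_adj]
    congr 1
    ring
  have a1 : adj (rf Φ) 0 = rf (adj Φ (-1)) := by
    rw [rf_adj]
    congr 1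
    ring
  have a2 : adj (rf Φ) (-2) = rf (adj Φ 1) := by
    rw [rf_adj]
    congr 1
    ring
  refine ⟨?_, ?_⟩
  · rw [a0, a1]
    exact fun e => h.n04 (Rot.symm (rot_of_rf e))
  · intro h0
    have h0' : Φ 0 = 0 := by
      have e : rf Φ (-1) = Φ 0 := by unfold rf; congr 1; ring
      rw [← e]; exact h0
    rw [a0, a1, a2]
    exact ⟨fun e => (h.n13 h0').1 (rot_of_rf e), fun e => (h.n13 h0').2 (rot_of_rf e)⟩

theorem same_mirX {x y : X k} (h : TT.SameCycle (Tsq.mirX x) (Tsq.mirX y)) : TT.SameCycle x y := by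
  obtain ⟨i, hi⟩ := sameCycle_nat h
  have key : ∀ (i : ℕ) (x : X k), (TT ^ i) (Tsq.mirX ((TT ^ i) x)) = Tsq.mirX x := by
    intro i
    induction i with
    | zero => intro x; rfl
    | succ i ih =>
      intro x
      have e1 : (TT ^ (i + 1)) x = TT ((TT ^ i) x) := by rw [pow_succ']; rfl
      rw [e1, pow_succ]
      change (TT ^ i) (TT (Tsq.mirX (TT ((TT ^ i) x)))) = _
      rw [Tsq.TT_mir]
      exact ih x
  refine Perm.SameCycle.symm ⟨i, ?_⟩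
  rw [zpow_natCast]
  have h3 := key i y
  rw [← hi] at h3
  exact mirX_inj ((TT ^ i).injective h3)

theorem CnM.cyc04 (hn : 1 ≤ n) (hk : n + 5 + 2 * ∑ x, Φ x = k) (h : CnM n Φ) (w0 : X k) :
    cyc (xm n Φ w0 0) ≠ cyc (xm n Φ w0 4) := fun e =>
  L1.cyc04 hn (by rw [rf_sum]; exact hk) h.cn w0 (cyc_eq.2 (same_mirX (cyc_eq.1 e)))

theorem inj_m (hn : 1 ≤ n) (h1 : 1 ≤ ∑ x, Φ x) (hk : n + 5 + 2 * ∑ x, Φ x = k) (hc : CnM n Φ) (w0 : X k) :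
    ∀ i < 20, ∀ j < 20, xm n Φ w0 i = xm n Φ w0 j → i = j := fun i hi j hj e =>
  inj_x hn (by rw [rf_sum]; exact h1) (by rw [rf_sum]; exact hk) hc.cn w0 i hi j hj (mirX_inj e)

theorem linkM (hn : 1 ≤ n) (hk : n + 5 + 2 * ∑ x, Φ x = k) (w0 : X k) {i j : ℕ}
    (hij : (i, j) ∈ [(0, 10), (1, 11), (3, 12), (6, 15), (8, 14), (9, 17)]) :
    TT (TT (xm n Φ w0 j)) = xm n Φ w0 i :=
  Tsq.TT_mir2 ((GR_RH hn (rf Φ) (by rw [rf_sum]; exact hk)).link w0 hij)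

theorem same10M (hn : 1 ≤ n) (hk : n + 5 + 2 * ∑ x, Φ x = k) (w0 : X k) :
    TT.SameCycle (xm n Φ w0 0) (xm n Φ w0 10) := by
  have h1 := linkM hn hk w0 (i := 0) (j := 10) (by simp)
  refine Perm.SameCycle.symm ⟨2, ?_⟩
  rw [show (2 : ℤ) = ((2 : ℕ) : ℤ) from rfl, zpow_natCast, pow_two, Perm.mul_apply, h1]

theorem hold_m (hn : 1 ≤ n) (hk : n + 5 + 2 * ∑ x, Φ x = k) (hc : CnM n Φ) (w0 : X k) :
    ∀ i < 20, i ≠ 0 → i ≠ 4 → i ≠ 5 → i ≠ 10 →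
      ¬ TT.SameCycle (xm n Φ w0 0) (xm n Φ w0 i) ∧ ¬ TT.SameCycle (xm n Φ w0 4) (xm n Φ w0 i) := by
  intro i hi h0 h4 h5 h10
  have h := hold_x hn (by rw [rf_sum]; exact hk) hc.cn w0 i hi h0 h4 h5 h10
  exact ⟨fun e => h.1 (same_mirX e), fun e => h.2 (same_mirX e)⟩

theorem xm_val (hn : 1 ≤ n) (hk : n + 5 + 2 * ∑ x, Φ x = k) (w0 : X k) {i : ℕ} (hi : i < 20) :
    (xm n Φ w0 i).1 = Tsq.mir (H1.W (RH n (rf Φ)) .nil (Tsq.sq (RH n (rf Φ))).2 (Tsq.sq (RH n (rf Φ))).1 i) := by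
  change Tsq.mir (xw n (rf Φ) w0 i).1 = _
  rw [xw_val hn (by rw [rf_sum]; exact hk) w0 hi]

theorem abs_m (hn : 1 ≤ n) (h1 : 1 ≤ ∑ x, Φ x) (hk : n + 5 + 2 * ∑ x, Φ x = k) (hc : CnM n Φ) (w0 : X k) :
    (gadJM (xm n Φ w0)).Abs := by
  have g := GR_RH hn (rf Φ) (k := k) (by rw [rf_sum]; exact hk)
  have e := g.num
  have es := g.size
  apply gadJM_abs (R := Tsq.mir (RH n (rf Φ))) (B := Tsq.mir (Tsq.sq (RH n (rf Φ))).2)
    (S := Tsq.mir (Tsq.sq (RH n (rf Φ))).1) (by rw [Tsq.mir_num]; omega)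
    (by rw [Tsq.mir_num, Tsq.mir_num]; omega)
    (fun i hi _ => ?_) (fun i hi _ j hj _ => inj_m hn h1 hk hc w0 i hi j hj) (same10M hn hk w0)
    (fun h1 => hc.cyc04 hn hk w0 (cyc_eq.2 h1)) (hold_m hn hk hc w0)
  rw [xm_val hn hk w0 hi, HM.mir_W _ _ _ _ hi]
  rfl

/-! ### The rules -/

theorem RuR.old (h : RuR n Φ) (h1 : 1 ≤ ∑ x, Φ x) (h0 : Φ (-1) = 0) :
    Sq (adj Φ (-1)) < Sq (adj Φ (-2)) ∧ Sq (adj Φ 0) < Sq (adj Φ (-2)) := by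
  rcases h with h | ⟨_, h2, h3⟩
  · omega
  · have h4 := convex Φ (-1) h0 h1
    have e1 : (-1 - 1 : ZMod (2 * n + 1)) = -2 := by ring
    have e2 : (-1 + 1 : ZMod (2 * n + 1)) = 0 := by ring
    rw [e1, e2] at h4
    omega

theorem RuM.old (h : RuM n Φ) (h0 : Φ 0 = 0) :
    Sq (adj Φ (-1)) < Sq (adj Φ 1) ∧ Sq (adj Φ 0) < Sq (adj Φ 1) := by
  obtain ⟨h1, h2, _, h3 | ⟨_, h3⟩⟩ := h
  · omega
  · have h4 := convex Φ 0 h0 (by omega)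
    have e1 : (0 - 1 : ZMod (2 * n + 1)) = -1 := by ring
    have e2 : (0 + 1 : ZMod (2 * n + 1)) = 1 := by ring
    rw [e1, e2] at h4
    omega

theorem RuR.cn (h : RuR n Φ) (hb : Ba k n Φ) : Cn n Φ := by
  refine ⟨hb.ne, fun h0 => ?_⟩
  obtain ⟨h1, h2⟩ := h.old hb.one h0
  exact ⟨fun e => by have := e.Sq; omega, fun e => by have := e.Sq; omega⟩

theorem RuM.cn (h : RuM n Φ) (hb : Ba k n Φ) : CnM n Φ := by
  refine ⟨hb.ne, fun h0 => ?_⟩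
  obtain ⟨h1, h2⟩ := h.old h0
  exact ⟨fun e => by have := e.Sq; omega, fun e => by have := e.Sq; omega⟩

/-! ### The order of the T-cycles -/

open Classical in
/-- the order of a T-cycle with one bead over one soliton -/
noncomputable def phc (n : ℕ) (c : Cyc k) : ℕ :=
  if h : ∃ (G : ZMod (2 * n + 1) → ℕ) (w : X k), Ov n G w.1 ∧ cyc w = c then phG h.choose else 0

theorem phc_eq (hn : 1 ≤ n) {w : X k} (h : Ov n G w.1) : phc n (cyc w) = phG G := by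
  have h1 : ∃ (G : ZMod (2 * n + 1) → ℕ) (w' : X k), Ov n G w'.1 ∧ cyc w' = cyc w := ⟨G, w, h, rfl⟩
  unfold phc
  rw [dif_pos h1]
  obtain ⟨w', h2, h3⟩ := h1.choose_spec
  exact Rot.phG ((h2.cyc_iff hn h).1 h3)

end L1

/-- the order of the T-cycles of the classes `(s, 2^a, 1)` -/
noncomputable def rkL1 (c : Cyc k) : ℕ := L1.phc ((contc c).sup - 2) c

namespace L1

open H1 J

variable {n : ℕ} {Φ G G' : ZMod (2 * n + 1) → ℕ}

theorem cont_Ov (hn : 1 ≤ n) {w : BinaryTree Unit} (h : Ov n G w) :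
    OddHC.cont w = {n + 2} + Multiset.replicate (∑ x, G x) 2 + {1} := by
  obtain ⟨p, h⟩ := h
  have hp := Ov.le hn h
  rw [h.eq, cont_ins _ _ (cl_length _ _)]
  have e2 : OddHC.cont (Ring1.RF n G) = (OddHC.cont (rr n G)).map (· + 1) := cont_inf _
  rw [← e2, Ring1.cont_RF hn, rr_num hn, cl_one hp, lf_sum]
  rw [Finset.sum_ite_eq' univ _ (fun _ => 1), if_pos (mem_univ _)]
  rfl

theorem sup_Ov (hn : 1 ≤ n) {w : X k} (h : Ov n G w.1) : (contc (cyc w)).sup = n + 2 := by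
  change (OddHC.cont w.1).sup = _
  rw [cont_Ov hn h, sup_add', sup_add', Multiset.sup_singleton, Multiset.sup_singleton]
  have : (Multiset.replicate (∑ x, G x) 2).sup ≤ 2 := Multiset.sup_le.2 fun b hb =>
    (Multiset.eq_of_mem_replicate hb).le
  omega

theorem rkL1_eq (hn : 1 ≤ n) {w : X k} (h : Ov n G w.1) : rkL1 (cyc w) = phG G := by
  unfold rkL1
  rw [sup_Ov hn h, Nat.add_sub_cancel]
  exact phc_eq hn h

/-! ### Contents and rank -/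

theorem mem_gadJ {w : ℕ → X k} {x : X k} : x ∈ (gadJ w).B ↔ ∃ i < 20, i ≠ 5 ∧ w i = x := by
  classical
  change x ∈ ((range 20).erase 5).image w ↔ _
  rw [Finset.mem_image]
  constructor
  · rintro ⟨i, hi, rfl⟩
    rw [Finset.mem_erase, Finset.mem_range] at hi
    exact ⟨i, hi.2, hi.1, rfl⟩
  · rintro ⟨i, hi, h5, rfl⟩; exact ⟨i, Finset.mem_erase.2 ⟨h5, Finset.mem_range.2 hi⟩, rfl⟩

theorem cont_xw (hn : 1 ≤ n) (hk : n + 5 + 2 * ∑ x, Φ x = k) (w0 : X k) :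
    OddHC.cont (xw n Φ w0 0).1 = OddHC.cont (RH n Φ) + {2} ∧
      OddHC.cont (xw n Φ w0 4).1 = OddHC.cont (RH n Φ) + {2} :=
  ⟨(GR_RH hn Φ hk).cont0 w0, (GR_RH hn Φ hk).cont4 w0⟩

theorem sqB_ne (hn : 1 ≤ n) (h0 : 1 ≤ Φ (-1)) : (Tsq.sq (RH n Φ)).2 ≠ .nil := by
  intro h2
  have h4 := caseA_ht hn Φ h0
  rw [h2] at h4
  exact absurd h4 (by decide)

/-- the words of the right gadget: new, lower, or the word 13 -/
theorem cases_x (hn : 1 ≤ n) (hk : n + 5 + 2 * ∑ x, Φ x = k) (w0 : X k) {i : ℕ} (hi : i < 20) :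
    cyc (xw n Φ w0 i) = cyc (xw n Φ w0 0) ∨ cyc (xw n Φ w0 i) = cyc (xw n Φ w0 4) ∨
    Lower (OddHC.cont (xw n Φ w0 i).1) (OddHC.cont (RH n Φ) + {2}) ∨
    (i = 13 ∧ Φ (-1) = 0) := by
  by_cases h0 : i = 0
  · left; rw [h0]
  by_cases h4 : i = 4
  · right; left; rw [h4]
  by_cases h10 : i = 10
  · left
    rw [h10]
    exact (cyc_eq.2 (same10 hn hk w0)).symm
  by_cases h13 : i = 13 ∧ Φ (-1) = 0
  · exact Or.inr (Or.inr (Or.inr h13))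
  · right; right; left
    exact (GR_RH hn Φ hk).rank w0 i hi h0 h4 h10 (fun h => sqB_ne hn (by omega))

theorem rank_x (hb : Ba k n Φ) (hr : RuR n Φ) (w0 : X k) {i : ℕ} (hi : i < 20) :
    cyc (xw n Φ w0 i) ∈ ({cyc (xw n Φ w0 0), cyc (xw n Φ w0 4)} : Set (Cyc k)) ∨
    (∀ c ∈ ({cyc (xw n Φ w0 0), cyc (xw n Φ w0 4)} : Set (Cyc k)),
      Lower (contc (cyc (xw n Φ w0 i))) (contc c)) ∨
    (∀ c ∈ ({cyc (xw n Φ w0 0), cyc (xw n Φ w0 4)} : Set (Cyc k)),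
      contc (cyc (xw n Φ w0 i)) = contc c ∧ rkL1 (cyc (xw n Φ w0 i)) < rkL1 c) := by
  obtain ⟨hn, h1, hk, hne⟩ := hb
  obtain ⟨e0, e4⟩ := cont_xw hn hk w0
  rcases cases_x hn hk w0 hi with h | h | h | ⟨rfl, h⟩
  · left; rw [h]; exact Or.inl rfl
  · left; rw [h]; exact Or.inr rfl
  · right; left
    rintro c (rfl | rfl)
    · change Lower _ (OddHC.cont (xw n Φ w0 0).1)
      rw [e0]; exact h
    · change Lower _ (OddHC.cont (xw n Φ w0 4).1)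
      rw [e4]; exact h
  · right; right
    obtain ⟨q1, q2⟩ := hr.old h1 h
    have o13 := xw_ov13 hn hk h w0
    have o0 := xw_ov0 hn hk w0
    have o4 := xw_ov4 hn hk w0
    have s13 : ∑ x, adj (fun x => Φ (x - 1)) (-1) x = ∑ x, adj Φ (-2) x := (rot13 Φ).sum.symm
    rintro c (rfl | rfl)
    · refine ⟨?_, ?_⟩
      · change OddHC.cont (xw n Φ w0 13).1 = OddHC.cont (xw n Φ w0 0).1
        rw [cont_Ov hn o13, cont_Ov hn o0, s13, adj_sum, adj_sum]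
      · rw [rkL1_eq hn o13, rkL1_eq hn o0, ← (rot13 Φ).phG]
        exact ph_lt q1
    · refine ⟨?_, ?_⟩
      · change OddHC.cont (xw n Φ w0 13).1 = OddHC.cont (xw n Φ w0 4).1
        rw [cont_Ov hn o13, cont_Ov hn o4, s13, adj_sum, adj_sum]
      · rw [rkL1_eq hn o13, rkL1_eq hn o4, ← (rot13 Φ).phG]
        exact ph_lt q2

theorem rf_m1 (Φ : ZMod (2 * n + 1) → ℕ) : rf Φ (-1) = Φ 0 := by
  unfold rf
  congr 1
  ring

theorem mir_cyc {x y : X k} (h : cyc x = cyc y) : cyc (Tsq.mirX x) = cyc (Tsq.mirX y) := by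
  apply cyc_eq.2
  apply same_mirX
  have e : ∀ z : X k, Tsq.mirX (Tsq.mirX z) = z := fun z => Subtype.ext (Tsq.mir_mir z.1)
  rw [e, e]
  exact cyc_eq.1 h

theorem cont_mirX (x : X k) : OddHC.cont (Tsq.mirX x).1 = OddHC.cont x.1 := HM.cont_mir _

theorem rank_m (hb : Ba k n Φ) (hr : RuM n Φ) (w0 : X k) {i : ℕ} (hi : i < 20) :
    cyc (xm n Φ w0 i) ∈ ({cyc (xm n Φ w0 0), cyc (xm n Φ w0 4)} : Set (Cyc k)) ∨
    (∀ c ∈ ({cyc (xm n Φ w0 0), cyc (xm n Φ w0 4)} : Set (Cyc k)),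
      Lower (contc (cyc (xm n Φ w0 i))) (contc c)) ∨
    (∀ c ∈ ({cyc (xm n Φ w0 0), cyc (xm n Φ w0 4)} : Set (Cyc k)),
      contc (cyc (xm n Φ w0 i)) = contc c ∧ rkL1 (cyc (xm n Φ w0 i)) < rkL1 c) := by
  obtain ⟨hn, h1, hk, hne⟩ := hb
  have hk' : n + 5 + 2 * ∑ x, rf Φ x = k := by rw [rf_sum]; exact hk
  obtain ⟨e0, e4⟩ := cont_xw hn hk' w0
  rcases cases_x hn hk' w0 hi with h | h | h | ⟨rfl, h⟩
  · left; exact Or.inl (mir_cyc h)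
  · left; exact Or.inr (mir_cyc h)
  · right; left
    rintro c (rfl | rfl)
    · change Lower (OddHC.cont (Tsq.mirX (xw n (rf Φ) w0 i)).1) (OddHC.cont (Tsq.mirX (xw n (rf Φ) w0 0)).1)
      rw [cont_mirX, cont_mirX, e0]; exact h
    · change Lower (OddHC.cont (Tsq.mirX (xw n (rf Φ) w0 i)).1) (OddHC.cont (Tsq.mirX (xw n (rf Φ) w0 4)).1)
      rw [cont_mirX, cont_mirX, e4]; exact h
  · right; right
    rw [rf_m1] at h
    obtain ⟨q1, q2⟩ := hr.old h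
    have o13 := xm_ov13 hn hk h w0
    have o0 := xm_ov0 hn hk w0
    have o4 := xm_ov4 hn hk w0
    have s13 : ∑ x, adj (fun x => Φ (x + 1)) 0 x = ∑ x, adj Φ 1 x := (rot13M Φ).sum.symm
    rintro c (rfl | rfl)
    · refine ⟨?_, ?_⟩
      · change OddHC.cont (xm n Φ w0 13).1 = OddHC.cont (xm n Φ w0 0).1
        rw [cont_Ov hn o13, cont_Ov hn o0, s13, adj_sum, adj_sum]
      · rw [rkL1_eq hn o13, rkL1_eq hn o0, ← (rot13M Φ).phG]
        exact ph_lt q2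
    · refine ⟨?_, ?_⟩
      · change OddHC.cont (xm n Φ w0 13).1 = OddHC.cont (xm n Φ w0 4).1
        rw [cont_Ov hn o13, cont_Ov hn o4, s13, adj_sum, adj_sum]
      · rw [rkL1_eq hn o13, rkL1_eq hn o4, ← (rot13M Φ).phG]
        exact ph_lt q1

end L1

/-! ### The type -/

theorem TyL1.hF (h : TyL1 F g) : ∀ w, w ∈ g.F ↔ cyc w ∈ F := by
  rcases h with ⟨n, Φ, w0, hb, hr, rfl, rfl⟩ | ⟨n, Φ, w0, hb, hr, rfl, rfl⟩
  · intro w
    change TT.SameCycle _ _ ∨ TT.SameCycle _ _ ↔ cyc w = _ ∨ cyc w = _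
    rw [← cyc_eq, ← cyc_eq]
    exact ⟨fun e => e.imp Eq.symm Eq.symm, fun e => e.imp Eq.symm Eq.symm⟩
  · intro w
    change TT.SameCycle _ _ ∨ TT.SameCycle _ _ ↔ cyc w = _ ∨ cyc w = _
    rw [← cyc_eq, ← cyc_eq]
    exact ⟨fun e => e.imp Eq.symm Eq.symm, fun e => e.imp Eq.symm Eq.symm⟩

theorem TyL1.new (h : TyL1 F g) : ∀ c ∈ F, ∃ u ∈ g.B, cyc u = c := by
  rcases h with ⟨n, Φ, w0, hb, hr, rfl, rfl⟩ | ⟨n, Φ, w0, hb, hr, rfl, rfl⟩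
  · rintro c (rfl | rfl)
    · exact ⟨_, mem_gadJ.2 ⟨0, by norm_num, by norm_num, rfl⟩, rfl⟩
    · exact ⟨_, mem_gadJ.2 ⟨4, by norm_num, by norm_num, rfl⟩, rfl⟩
  · rintro c (rfl | rfl)
    · exact ⟨_, mem_gadJM.2 ⟨0, by norm_num, by norm_num, rfl⟩, rfl⟩
    · exact ⟨_, mem_gadJM.2 ⟨4, by norm_num, by norm_num, rfl⟩, rfl⟩

theorem TyL1.old (h : TyL1 F g) : ∃ u ∈ g.B, cyc u ∉ F := by
  rcases h with ⟨n, Φ, w0, hb, hr, rfl, rfl⟩ | ⟨n, Φ, w0, hb, hr, rfl, rfl⟩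
  · refine ⟨_, mem_gadJ.2 ⟨1, by norm_num, by norm_num, rfl⟩, ?_⟩
    have h1 := hold_x hb.hn hb.hk (hr.cn hb) w0 1 (by norm_num) (by norm_num) (by norm_num)
      (by norm_num) (by norm_num)
    rintro (e | e)
    · exact h1.1 (cyc_eq.1 e).symm
    · exact h1.2 (cyc_eq.1 e).symm
  · refine ⟨_, mem_gadJM.2 ⟨1, by norm_num, by norm_num, rfl⟩, ?_⟩
    have h1 := hold_m hb.hn hb.hk (hr.cn hb) w0 1 (by norm_num) (by norm_num) (by norm_num)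
      (by norm_num) (by norm_num)
    rintro (e | e)
    · exact h1.1 (cyc_eq.1 e).symm
    · exact h1.2 (cyc_eq.1 e).symm

theorem TyL1.abs (h : TyL1 F g) : g.Abs := by
  rcases h with ⟨n, Φ, w0, hb, hr, rfl, rfl⟩ | ⟨n, Φ, w0, hb, hr, rfl, rfl⟩
  · exact abs_x hb.hn hb.one hb.hk (hr.cn hb) w0
  · exact abs_m hb.hn hb.one hb.hk (hr.cn hb) w0

/-- the content of the class -/
theorem TyL1.contc (h : TyL1 F g) : ∃ n a : ℕ, 1 ≤ n ∧ 2 ≤ a ∧ n + 3 + 2 * a = k ∧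
    ∀ c ∈ F, contc c = {n + 2} + Multiset.replicate a 2 + {1} := by
  rcases h with ⟨n, Φ, w0, hb, hr, rfl, rfl⟩ | ⟨n, Φ, w0, hb, hr, rfl, rfl⟩
  · refine ⟨n, ∑ x, Φ x + 1, hb.hn, by have := hb.one; omega, by have := hb.hk; omega, ?_⟩
    rintro c (rfl | rfl)
    · have := cont_Ov hb.hn (xw_ov0 hb.hn hb.hk w0)
      rwa [adj_sum] at this
    · have := cont_Ov hb.hn (xw_ov4 hb.hn hb.hk w0)
      rwa [adj_sum] at this
  · refine ⟨n, ∑ x, Φ x + 1, hb.hn, by have := hb.one; omega, by have := hb.hk; omega, ?_⟩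
    rintro c (rfl | rfl)
    · have := cont_Ov hb.hn (xm_ov0 hb.hn hb.hk w0)
      rwa [adj_sum] at this
    · have := cont_Ov hb.hn (xm_ov4 hb.hn hb.hk w0)
      rwa [adj_sum] at this

theorem TyL1.cont (h : TyL1 F g) : ∀ c ∈ F, ∀ d ∈ F, OddHC.contc c = OddHC.contc d := by
  obtain ⟨n, a, _, _, _, h1⟩ := h.contc
  intro c hc d hd
  rw [h1 c hc, h1 d hd]

/-- rank: every old word is `Lower` than the new T-cycles, or has the same content and a smaller `rkL1` -/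
theorem TyL1.rank (h : TyL1 F g) : ∀ w ∈ g.B, cyc w ∈ F ∨
    (∀ c ∈ F, H1.Lower (OddHC.contc (cyc w)) (OddHC.contc c)) ∨
    (∀ c ∈ F, OddHC.contc (cyc w) = OddHC.contc c ∧ rkL1 (cyc w) < rkL1 c) := by
  rcases h with ⟨n, Φ, w0, hb, hr, rfl, rfl⟩ | ⟨n, Φ, w0, hb, hr, rfl, rfl⟩
  · intro w hw
    obtain ⟨i, hi, _, rfl⟩ := mem_gadJ.1 hw
    exact rank_x hb hr w0 hi
  · intro w hw
    obtain ⟨i, hi, _, rfl⟩ := mem_gadJM.1 hw
    exact rank_m hb hr w0 hi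

theorem TyL1.path (h : TyL1 F g) : ∀ a ∈ g.arcs, ∃ n : ℕ, (TT ^ (n + 1)) a.1 = a.2 ∧ a.1 ∈ g.B ∧
    ∀ i < n, (TT ^ (i + 1)) a.1 ∈ innA a := by
  rcases h with ⟨n, Φ, w0, hb, hr, rfl, rfl⟩ | ⟨n, Φ, w0, hb, hr, rfl, rfl⟩
  · intro q hq
    have key : ∀ i j, (i, j) ∈ [(0, 10), (1, 11), (3, 12), (6, 15), (8, 14), (9, 17)] → i < 20 → i ≠ 5 →
        q = (xw n Φ w0 i, xw n Φ w0 j) →
        ∃ m : ℕ, (TT ^ (m + 1)) q.1 = q.2 ∧ q.1 ∈ (gadJ (xw n Φ w0)).B ∧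
          ∀ i < m, (TT ^ (i + 1)) q.1 ∈ innA q := by
      rintro i j hij hi h5 rfl
      refine ⟨1, ?_, mem_gadJ.2 ⟨i, hi, h5, rfl⟩, ?_⟩
      · rw [pow_succ, pow_one, Perm.mul_apply]
        exact (GR_RH hb.hn Φ hb.hk).link w0 hij
      · intro m hm
        obtain rfl : m = 0 := by omega
        rw [pow_one]
        rfl
    have hp' : q = (xw n Φ w0 1, xw n Φ w0 11) ∨ q = (xw n Φ w0 3, xw n Φ w0 12) ∨
        q = (xw n Φ w0 6, xw n Φ w0 15) ∨ q = (xw n Φ w0 8, xw n Φ w0 14) := hq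
    rcases hp' with e | e | e | e
    · exact key 1 11 (by simp) (by norm_num) (by norm_num) e
    · exact key 3 12 (by simp) (by norm_num) (by norm_num) e
    · exact key 6 15 (by simp) (by norm_num) (by norm_num) e
    · exact key 8 14 (by simp) (by norm_num) (by norm_num) e
  · intro q hq
    have key : ∀ i j, (i, j) ∈ [(0, 10), (1, 11), (3, 12), (6, 15), (8, 14), (9, 17)] → j < 20 → j ≠ 5 →
        q = (xm n Φ w0 j, xm n Φ w0 i) →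
        ∃ m : ℕ, (TT ^ (m + 1)) q.1 = q.2 ∧ q.1 ∈ (gadJM (xm n Φ w0)).B ∧
          ∀ i < m, (TT ^ (i + 1)) q.1 ∈ innA q := by
      rintro i j hij hj h5 rfl
      refine ⟨1, ?_, mem_gadJM.2 ⟨j, hj, h5, rfl⟩, ?_⟩
      · rw [pow_succ, pow_one, Perm.mul_apply]
        exact linkM hb.hn hb.hk w0 hij
      · intro m hm
        obtain rfl : m = 0 := by omega
        rw [pow_one]
        rfl
    have hp' : q = (xm n Φ w0 11, xm n Φ w0 1) ∨ q = (xm n Φ w0 12, xm n Φ w0 3) ∨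
        q = (xm n Φ w0 15, xm n Φ w0 6) ∨ q = (xm n Φ w0 14, xm n Φ w0 8) := hq
    rcases hp' with e | e | e | e
    · exact key 1 11 (by simp) (by norm_num) (by norm_num) e
    · exact key 3 12 (by simp) (by norm_num) (by norm_num) e
    · exact key 6 15 (by simp) (by norm_num) (by norm_num) e
    · exact key 8 14 (by simp) (by norm_num) (by norm_num) e

namespace L1

variable {n : ℕ} {Φ : ZMod (2 * n + 1) → ℕ}

/-- **EXISTENCE**: every hop with the exception of one: `Φ = c δ_0`; for `∑ Φ = 1` only with `Sq (Φ + [0]) ≤ Sq (Φ + [-1])` -/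
theorem exL1 (hb : Ba k n Φ) (hx : RuR n Φ ∨ RuM n Φ) {z z' : X k} (hz : Ov n (adj Φ (-1)) z.1)
    (hz' : Ov n (adj Φ 0) z'.1) : ∃ g : DG k, TyL1 {cyc z, cyc z'} g := by
  rcases hx with h | h
  · refine ⟨gadJ (xw n Φ z), Or.inl ⟨n, Φ, z, hb, h, ?_, rfl⟩⟩
    have e0 : cyc (xw n Φ z 0) = cyc z :=
      ((xw_ov0 hb.hn hb.hk z).cyc_iff hb.hn hz).2 (Rot.refl _)
    have e4 : cyc (xw n Φ z 4) = cyc z' :=
      ((xw_ov4 hb.hn hb.hk z).cyc_iff hb.hn hz').2 (Rot.refl _)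
    rw [e0, e4]
  · refine ⟨gadJM (xm n Φ z), Or.inr ⟨n, Φ, z, hb, h, ?_, rfl⟩⟩
    have e0 : cyc (xm n Φ z 0) = cyc z' :=
      ((xm_ov0 hb.hn hb.hk z).cyc_iff hb.hn hz').2 (Rot.refl _)
    have e4 : cyc (xm n Φ z 4) = cyc z :=
      ((xm_ov4 hb.hn hb.hk z).cyc_iff hb.hn hz).2 (Rot.refl _)
    rw [e0, e4, Set.pair_comm]

theorem rules (h2 : 2 ≤ ∑ x, Φ x) (h : ∃ y, y ≠ 0 ∧ 1 ≤ Φ y) : RuR n Φ ∨ RuM n Φ := by
  by_cases h0 : Φ (-1) = 0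
  · by_cases h1 : Φ 0 = 0
    · by_cases h3 : Sq (adj Φ 0) ≤ Sq (adj Φ (-1))
      · exact Or.inl (Or.inr ⟨h0, h1, h3⟩)
      · exact Or.inr ⟨h2, h0, h, Or.inr ⟨h1, by omega⟩⟩
    · exact Or.inr ⟨h2, h0, h, Or.inl (by omega)⟩
  · exact Or.inl (Or.inl (by omega))

end L1

end Pool.OddHC
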