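import Pool.Agent.Work.MP_8f87b2_h26.TyL1

/-!
# MP_8f87b2_co: row W-L1-L1: different groups of type L1 have no common word

`dis_L1_L1`: `TyL1 F g`, `TyL1 F' g'`, no common T-cycle: no common word.
-/

set_option autoImplicit false

namespace Pool.OddHC

open Finset Equiv BinaryTree Pool.Agent.Work.MP_8f87b2_co

namespace L1

open H1 J

variable {k n m : ℕ}

/-- mixed right word -/
def IsMr (n : ℕ) (Ψ : ZMod (2 * n + 1) → ℕ) (w : BinaryTree Unit) : Prop := IsMx n (rf Ψ) (Tsq.mir w)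

theorem pu_mir {F : ZMod (2 * n + 1) → ℕ} {w : BinaryTree Unit} (h : IsPu n F w) :
    IsPu n (rf F) (Tsq.mir w) := by
  obtain ⟨i, hi, h0, h4, rfl⟩ := h
  refine ⟨mx i, mx_lt i, ?_, ?_, ?_⟩
  · interval_cases i <;> first | exact absurd rfl h0 | exact absurd rfl h4 | decide
  · interval_cases i <;> first | exact absurd rfl h0 | exact absurd rfl h4 | decide
  · rw [mir_pw _ hi, mir_RF]

theorem us_mir {F : ZMod (2 * n + 1) → ℕ} {w : BinaryTree Unit} (h : IsUs n F w) :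
    IsUs n (rf F) (Tsq.mir w) := by
  obtain ⟨h1, rfl⟩ := h
  refine ⟨?_, mir_RF F⟩
  rw [rf_m1]
  have : rf F 0 = F (-1) := by
    unfold rf
    rw [sub_zero]
  omega

theorem pu_mr (hn : 1 ≤ n) {F : ZMod (2 * n + 1) → ℕ} {G : ZMod (2 * m + 1) → ℕ} {w : BinaryTree Unit}
    (h : IsPu n F w) (h' : IsMr m G w) : False := pu_mx hn (pu_mir h) h'

theorem us_mr (hn : 1 ≤ n) {F : ZMod (2 * n + 1) → ℕ} {G : ZMod (2 * m + 1) → ℕ} {w : BinaryTree Unit}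
    (h : IsUs n F w) (h' : IsMr m G w) : False := us_mx hn (us_mir h) h'

theorem RF_eq (hn : 1 ≤ n) (hm : 1 ≤ m) {F : ZMod (2 * n + 1) → ℕ} {G : ZMod (2 * m + 1) → ℕ}
    (h : Ring1.RF n F = Ring1.RF m G) : ∃ e : n = m, F = fun x => G (e ▸ x) := by
  have e := RF_cross hn hm h
  subst e
  exact ⟨rfl, Ring1.RF_inj h⟩

/-- the bead free words of a right gadget -/
structure Fr (k n : ℕ) (Φ : ZMod (2 * n + 1) → ℕ) (f : ℕ → BinaryTree Unit) : Prop where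
  pi : ∀ i < 20, PI (f i) (H1.W (RH n Φ) .nil (Tsq.sq (RH n Φ)).2 (Tsq.sq (RH n Φ)).1 i)
  lo : ∀ i < 10, i ≠ 0 → i ≠ 4 → IsPu n Φ (f i)
  hi0 : Φ (-1) = 0 → ∀ i, 11 ≤ i → i < 20 → i ≠ 13 → IsPu n (fun x => Φ (x - 1)) (f i)
  hi1 : 1 ≤ Φ (-1) → ∀ i, 11 ≤ i → i < 20 → IsMr n (fun x => Φ (x - 1)) (f i)
  us : ∀ i, (i = 0 ∨ i = 4 ∨ i = 10 ∨ (i = 13 ∧ Φ (-1) = 0)) → ∃ G, IsUs n G (f i)

theorem ad_us (G : ZMod (2 * n + 1) → ℕ) {x : ZMod (2 * n + 1)} (hx : x = 0 ∨ x = -1) :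
    1 ≤ ad G x 0 + ad G x (-1) := by
  rcases hx with rfl | rfl
  · have := ad_self G 0; omega
  · have := ad_self G (-1); omega

theorem exFr (hn : 1 ≤ n) (Φ : ZMod (2 * n + 1) → ℕ) (h1 : 1 ≤ ∑ x, Φ x)
    (hk : n + 5 + 2 * ∑ x, Φ x = k) : ∃ f, Fr k n Φ f := by
  obtain ⟨D, D', hS, e, e', hPI⟩ := PI_all (k := k - 1) hn Φ h1 (by omega)
  refine ⟨_, hPI, ?_, ?_, ?_, ?_⟩
  · intro i hi h0 h4
    rw [W_lo _ _ _ hi, e]
    exact ⟨i, hi, h0, h4, rfl⟩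
  · intro h0 i hi hi' h13
    rw [h0] at e' ⊢
    rw [W_hi _ _ _ _ (by omega) hi', mw_zero _ _ (by omega) hi', e']
    refine ⟨ixp i, ixp_lt i, ?_, ?_, rfl⟩
    · interval_cases i <;> first | exact absurd rfl h13 | decide
    · interval_cases i <;> first | exact absurd rfl h13 | decide
  · intro h0 i hi hi'
    rw [W_hi _ _ _ _ (by omega) hi']
    refine ⟨Φ (-1), D', Φ (-2), i, h0, hS.gD', ?_, hi, hi', rfl⟩
    rw [mir_RF, rf_rf, e']
  · intro i hi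
    rcases hi with rfl | rfl | rfl | ⟨rfl, h0⟩
    · refine ⟨ad Φ (-1), ad_us Φ (Or.inr rfl), ?_⟩
      rw [W_lo _ _ _ (by norm_num)]
      exact val_0 e
    · refine ⟨ad Φ 0, ad_us Φ (Or.inl rfl), ?_⟩
      rw [W_lo _ _ _ (by norm_num)]
      exact val_4 e
    · refine ⟨ad (fun x => Φ (x - 1)) 0, ad_us _ (Or.inl rfl), ?_⟩
      rw [W_hi _ _ _ _ (by norm_num) (by norm_num)]
      exact val_10 e'
    · refine ⟨ad (fun x => Φ (x - 1)) (-1), ad_us _ (Or.inr rfl), ?_⟩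
      rw [h0] at e' ⊢
      rw [W_hi _ _ _ _ (by norm_num) (by norm_num), mw_zero _ _ (by norm_num) (by norm_num)]
      exact val_0 e'

/-! ### Common T-cycles -/

/-- a common T-cycle -/
def Shr (n m : ℕ) (Φ : ZMod (2 * n + 1) → ℕ) (Ψ : ZMod (2 * m + 1) → ℕ) : Prop :=
  ∃ (e : n = m) (a b : ZMod (2 * m + 1)), (a = -1 ∨ a = 0) ∧ (b = -1 ∨ b = 0) ∧
    Rot (adj (fun x : ZMod (2 * m + 1) => Φ (e ▸ x)) a) (adj Ψ b)

theorem Shr.symm {Φ : ZMod (2 * n + 1) → ℕ} {Ψ : ZMod (2 * m + 1) → ℕ} (h : Shr n m Φ Ψ) :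
    Shr m n Ψ Φ := by
  obtain ⟨rfl, a, b, ha, hb, h⟩ := h
  exact ⟨rfl, b, a, hb, ha, h.symm⟩

theorem shr_eq {Φ Ψ : ZMod (2 * n + 1) → ℕ} (h : Φ = Ψ) : Shr n n Φ Ψ := by
  subst h
  exact ⟨rfl, 0, 0, Or.inr rfl, Or.inr rfl, Rot.refl _⟩

theorem shr_shift {Φ Ψ : ZMod (2 * n + 1) → ℕ} (h : Ψ = fun x => Φ (x - 1)) : Shr n n Φ Ψ := by
  subst h
  refine ⟨rfl, -1, 0, Or.inl rfl, Or.inr rfl, ?_⟩
  have h := adj_shift Φ (-1) (-1)
  rw [sub_self] at h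
  simpa only [← sub_eq_add_neg] using h

theorem rr_inj {F G : ZMod (2 * n + 1) → ℕ} (h : rr n F = rr n G) : F = G :=
  lf_inj (ins_inj (Ring1.ins_len _) (Ring1.ins_len _) h).2

theorem inf_rr_cross (hn : 1 ≤ n) (hm : 1 ≤ m) {F : ZMod (2 * n + 1) → ℕ} {G : ZMod (2 * m + 1) → ℕ}
    (h : rr n F = rr m G) : n = m := by
  apply RF_cross hn hm (F := F) (G := G)
  rw [← rr_inf, ← rr_inf, h]

theorem adj_inj {F G : ZMod (2 * n + 1) → ℕ} {x : ZMod (2 * n + 1)} (h : adj F x = adj G x) : F = G := by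
  funext z
  have := congrFun h z
  unfold adj at this
  omega

/-! ### The gaps of the class words -/

/-- the gap of the bead in the new words: odd, or last but one pair -/
theorem gap_new (hn : 1 ≤ n) (Φ : ZMod (2 * n + 1) → ℕ) {i : ℕ} (hi : i = 0 ∨ i = 4 ∨ i = 10) :
    ∃ r p, Wd r {p} (H1.W (RH n Φ) .nil (Tsq.sq (RH n Φ)).2 (Tsq.sq (RH n Φ)).1 i) ∧
      r.numNodes = n + 2 + ∑ x, Φ x ∧ ((∃ q, p = 2 * q + 1) ∨ p = 2 * (n + 1 + ∑ x, Φ x)) := by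
  have hg : ∃ q, gH n Φ = 2 * q + 1 := by
    unfold gH
    split_ifs
    · exact ⟨_, rfl⟩
    · exact ⟨n + ∑ x, Φ x - 1, by omega⟩
  obtain ⟨q, hq⟩ := hg
  rcases hi with rfl | rfl | rfl
  · refine ⟨app (rr n Φ) (.nil △ .nil), gH n Φ, ((Wd_RH hn Φ).app Wd.two).cast rfl (by simp) rfl, ?_,
      Or.inl ⟨q, hq⟩⟩
    rw [num_app', rr_num hn]
    change n + 1 + _ + 1 = _
    omega
  · refine ⟨app (.nil △ .nil) (rr n Φ), gH n Φ + 2, (Wd.two.app (Wd_RH hn Φ)).cast rfl (by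
      change 0 + Multiset.map (· + 2 * 1) {gH n Φ} = _
      simp) rfl, ?_, Or.inl ⟨q + 1, by omega⟩⟩
    rw [num_app', rr_num hn]
    change 1 + (n + 1 + _) = _
    omega
  · rcases Nat.eq_zero_or_pos (Φ (-1)) with h0 | h0
    · have h2 := Wd.two.app (caseB1 hn Φ h0)
      rw [caseB2 hn Φ h0]
      refine ⟨app (.nil △ .nil) (rr n fun x => Φ (x - 1)), 2 * (n + 1 + ∑ x, Φ x), h2.cast rfl ?_ rfl, ?_,
        Or.inr rfl⟩
      · change 0 + Multiset.map (· + 2 * 1) {2 * (n + 1 + ∑ x, Φ x) - 2} = _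
        rw [zero_add, Multiset.map_singleton]
        congr 1
        omega
      · rw [num_app', rr_num hn, sum_sub1]
        change 1 + (n + 1 + _) = _
        omega
    · obtain ⟨s, _, hs⟩ := sqS hn Φ h0
      have h2 := (caseA hn Φ h0).2.app (Wd.two.app (Wd.inf s))
      have hsz : (lv (Φ (-1)) .nil).numNodes + s.numNodes = n + 1 + ∑ x, Φ x := by
        have e1 := (caseA hn Φ h0).1
        obtain ⟨s1, s2, D1, hD1, s3⟩ := Ring1.sq_RF hn Φ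
        have e2 : inf (app (lv (Φ (-1)) .nil) s) = Ring1.RF n (fun x => Φ (x - 1)) := by
          rw [inf_app, Ring1.inf_lp, ← hs, e1, ← s2, ← Ring1.lv2_app]
        have e3 := ((Wd.inf (app (lv (Φ (-1)) .nil) s)).inj
          ((Wd.inf (rr n fun x => Φ (x - 1))).cast rfl rfl (by rw [rr_inf, e2]))).1
        have e4 := congrArg BinaryTree.numNodes e3
        rw [num_app', rr_num hn, sum_sub1] at e4
        exact e4
      refine ⟨_, 2 * Φ (-1) - 1, h2.cast rfl (by simp) ?_, ?_, Or.inl ⟨Φ (-1) - 1, by omega⟩⟩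
      · rw [← hs]
        rfl
      · rw [num_app', num_app']
        change _ + (1 + _) = _
        omega

theorem gap_13 (hn : 1 ≤ n) (Φ : ZMod (2 * n + 1) → ℕ) (h0 : Φ (-1) = 0) :
    Wd (rr n (adj (fun x => Φ (x - 1)) (-1))) {2 * (n + ∑ x, Φ x)}
      (H1.W (RH n Φ) .nil (Tsq.sq (RH n Φ)).2 (Tsq.sq (RH n Φ)).1 13) := by
  have h := (caseB1 hn Φ h0).app Wd.two
  rw [caseB2 hn Φ h0]
  refine h.cast (app_rr _) ?_ rfl
  rw [Multiset.map_zero, add_zero]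
  congr 1
  omega

/-! ### Mixed right words against mixed mirrored words -/

/-- visible gap -/
def vq (t l : ℕ) : ℕ → ℕ
  | 11 => 2 * t
  | 12 => 2 * l + 2 * t + 2
  | 13 => 2 * l + 2 * t + 1
  | 14 => 1
  | 15 => 0
  | 16 => 2 * l + 2 * t + 2
  | 18 => 0
  | _ => 0

/-- number of the visible beads -/
def cq : ℕ → ℕ
  | 11 => 2
  | 17 => 0
  | 19 => 0
  | _ => 1

/-- size of the reduced word -/
def jq (t l : ℕ) : ℕ → ℕ
  | 11 => t + l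
  | 17 => t + l + 2
  | 19 => t + l + 2
  | _ => t + l + 1

theorem qM_eq (t l : ℕ) {i : ℕ} (hi : 11 ≤ i) (hi' : i < 20) :
    qM t l i = Multiset.replicate (cq i) (vq t l i) := by
  interval_cases i <;> rfl

theorem qR_num (b s : BinaryTree Unit) {i : ℕ} (hi : 11 ≤ i) (hi' : i < 20) :
    (qR b s i).numNodes = jq b.numNodes s.numNodes i := by
  have h0 : (BinaryTree.nil : BinaryTree Unit).numNodes = 0 := rfl
  interval_cases i <;> simp only [qR, jq, num_app', num_node, h0] <;> omega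

theorem mr_mx_ne {t t' : ℕ} (ht : 1 ≤ t) (ht' : 1 ≤ t') {s s' B B' R R' : BinaryTree Unit}
    (hs : 2 ≤ s.numNodes) (hs' : 2 ≤ s'.numNodes) (hB : Wd (lv t .nil) {2 * t - 1} B)
    (hB' : Wd (lv t' .nil) {2 * t' - 1} B') {i j : ℕ} (hi : 11 ≤ i) (hi' : i < 20) (hj : 11 ≤ j)
    (hj' : j < 20) : H1.W R .nil B (inf s) i ≠ Tsq.mir (H1.W R' .nil B' (inf s') j) := by
  intro e
  have hb0 : ∀ {t : ℕ}, 1 ≤ t → lv t (.nil : BinaryTree Unit) ≠ .nil := by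
    intro t ht h2
    have := lv_num' t
    rw [h2] at this
    change 0 = _ at this
    omega
  have hs0 : ∀ {s : BinaryTree Unit}, 2 ≤ s.numNodes → s ≠ .nil := by
    rintro s hs rfl
    change 2 ≤ 0 at hs
    omega
  have h := QW (R := R) hB (Wd.inf s) (hb0 ht) (hs0 hs) (i := i) (by omega) hi'
  have h' := (QW (R := R') hB' (Wd.inf s') (hb0 ht') (hs0 hs') (i := j) (by omega) hj').mir
  rw [← e] at h'
  obtain ⟨e1, e2⟩ := h.inj h'
  have e3 := congrArg BinaryTree.numNodes e1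
  rw [Tsq.mir_num, qR_num _ _ hi hi', qR_num _ _ hj hj', lv_num', lv_num'] at e3
  rw [qR_num _ _ hj hj', lv_num', lv_num', qM_eq _ _ hi hi', qM_eq _ _ hj hj', Multiset.map_singleton,
    Multiset.map_singleton, Multiset.map_add, Multiset.map_singleton, Multiset.map_replicate] at e2
  have f0 : ∀ x, (cq i ≠ 0 ∧ x = vq t s.numNodes i) ∨ x = 2 * t - 1 + qB s.numNodes i ↔
      (cq j ≠ 0 ∧ x = 2 * jq t' s'.numNodes j - vq t' s'.numNodes j) ∨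
        x = 2 * jq t' s'.numNodes j - (2 * t' - 1 + qB s'.numNodes j) := by
    intro x
    have h1 : x ∈ Multiset.replicate (cq i) (vq t s.numNodes i) + {2 * t - 1 + qB s.numNodes i} ↔
        x ∈ Multiset.replicate (cq j) (2 * jq t' s'.numNodes j - vq t' s'.numNodes j) +
          {2 * jq t' s'.numNodes j - (2 * t' - 1 + qB s'.numNodes j)} := by rw [e2]
    rwa [Multiset.mem_add, Multiset.mem_add, Multiset.mem_replicate, Multiset.mem_replicate,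
      Multiset.mem_singleton, Multiset.mem_singleton] at h1
  have f5 := congrArg Multiset.card e2
  rw [Multiset.card_add, Multiset.card_add, Multiset.card_replicate, Multiset.card_replicate,
    Multiset.card_singleton, Multiset.card_singleton] at f5
  have f1 := (f0 (2 * t - 1 + qB s.numNodes i)).1 (Or.inr rfl)
  have f2 := fun h => (f0 (vq t s.numNodes i)).1 (Or.inl ⟨h, rfl⟩)
  have f3 := (f0 _).2 (Or.inr rfl)
  have f4 := fun h => (f0 _).2 (Or.inl ⟨h, rfl⟩)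
  clear f0 e2 h h' e
  have key : i = 14 ∧ j = 14 := by
    interval_cases i <;> interval_cases j <;> simp only [cq, vq, qB, jq] at f1 f2 f3 f4 f5 e3 <;> omega
  obtain ⟨rfl, rfl⟩ := key
  change s △ lv t .nil = Tsq.mir (s' △ lv t' .nil) at e1
  obtain ⟨q, rfl⟩ : ∃ q, t' = q + 1 := ⟨t' - 1, by omega⟩
  rw [Tsq.mir_node, mir_lv0] at e1
  change s △ lv t .nil = .nil △ app (lv q .nil) _ at e1
  exact hs0 hs (H1.node_inj e1).1

/-! ### Right against right -/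

theorem Fr.cases {Φ : ZMod (2 * n + 1) → ℕ} {f : ℕ → BinaryTree Unit} (h : Fr k n Φ f) {i : ℕ}
    (hi : i < 20) :
    (∃ Θ, (Θ = Φ ∨ (Φ (-1) = 0 ∧ Θ = fun x => Φ (x - 1))) ∧ IsPu n Θ (f i)) ∨
    (1 ≤ Φ (-1) ∧ 11 ≤ i ∧ IsMr n (fun x => Φ (x - 1)) (f i)) ∨
    ((i = 0 ∨ i = 4 ∨ i = 10 ∨ (i = 13 ∧ Φ (-1) = 0)) ∧ ∃ G, IsUs n G (f i)) := by
  by_cases hU : i = 0 ∨ i = 4 ∨ i = 10 ∨ (i = 13 ∧ Φ (-1) = 0)
  · exact Or.inr (Or.inr ⟨hU, h.us i hU⟩)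
  · rcases lt_or_ge i 10 with h1 | h1
    · exact Or.inl ⟨Φ, Or.inl rfl, h.lo i h1 (by omega) (by omega)⟩
    · rcases Nat.eq_zero_or_pos (Φ (-1)) with h0 | h0
      · exact Or.inl ⟨_, Or.inr ⟨h0, rfl⟩, h.hi0 h0 i (by omega) hi (by omega)⟩
      · exact Or.inr (Or.inl ⟨h0, by omega, h.hi1 h0 i (by omega) hi⟩)

theorem unshift {Φ Ψ : ZMod (2 * n + 1) → ℕ} (h : (fun x => Φ (x - 1)) = fun x => Ψ (x - 1)) : Φ = Ψ := by
  funext x
  have := congrFun h (x + 1)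
  simpa using this

theorem rr_dis (hn : 1 ≤ n) (hm : 1 ≤ m) {Φ : ZMod (2 * n + 1) → ℕ} {Ψ : ZMod (2 * m + 1) → ℕ}
    (h1 : 1 ≤ ∑ x, Φ x) (h1' : 1 ≤ ∑ x, Ψ x) (hk : n + 5 + 2 * ∑ x, Φ x = k)
    (hk' : m + 5 + 2 * ∑ x, Ψ x = k) {w0 w0' : X k} {i j : ℕ} (hi : i < 20) (hj : j < 20)
    (hnew : ∀ i j, (i = 0 ∨ i = 4 ∨ i = 10) → (j = 0 ∨ j = 4 ∨ j = 10) →
      cyc (xw n Φ w0 i) ≠ cyc (xw m Ψ w0' j))
    (e : xw n Φ w0 i = xw m Ψ w0' j) : Shr n m Φ Ψ := by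
  obtain ⟨f, hf⟩ := exFr hn Φ h1 hk
  obtain ⟨f', hf'⟩ := exFr hm Ψ h1' hk'
  have e1 := congrArg Subtype.val e
  rw [xw_val hn hk w0 hi, xw_val hm hk' w0' hj] at e1
  have p1 := hf.pi i hi
  rw [e1] at p1
  have ef := p1.inj (hf'.pi j hj)
  rcases hf.cases hi with ⟨Θ, hΘ, q1⟩ | ⟨a0, _, q1⟩ | ⟨hU, G, q1⟩ <;>
    rcases hf'.cases hj with ⟨Θ', hΘ', q2⟩ | ⟨b0, _, q2⟩ | ⟨hU', G', q2⟩ <;> rw [ef] at q1
  · have e3 := pu_pu hn hm q1 q2
    obtain rfl := RF_cross hn hm e3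
    have e4 := Ring1.RF_inj e3
    rcases hΘ with rfl | ⟨_, rfl⟩ <;> rcases hΘ' with rfl | ⟨_, rfl⟩
    · exact shr_eq e4
    · exact (shr_shift e4).symm
    · exact shr_shift e4.symm
    · exact shr_eq (unshift e4)
  · exact absurd q2 (fun q2 => pu_mr hn q1 q2)
  · exact absurd q2 (fun q2 => pu_us hn hm q1 q2)
  · exact absurd q1 (fun q1 => pu_mr hm q2 q1)
  · have e3 := mx_mx q1 q2
    obtain rfl := RF_cross hn hm e3
    have e4 := Ring1.RF_inj e3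
    have e5 : (fun x => Φ (x - 1)) = fun x => Ψ (x - 1) := by
      rw [← rf_rf (fun x => Φ (x - 1)), e4, rf_rf]
    exact shr_eq (unshift e5)
  · exact absurd q1 (fun q1 => us_mr hm q2 q1)
  · exact absurd q2 (fun q2 => pu_us hm hn q2 q1)
  · exact absurd q2 (fun q2 => us_mr hn q1 q2)
  · have c1 : ∀ {n : ℕ} {Φ : ZMod (2 * n + 1) → ℕ} {i : ℕ},
        (i = 0 ∨ i = 4 ∨ i = 10 ∨ (i = 13 ∧ Φ (-1) = 0)) → (i = 0 ∨ i = 4 ∨ i = 10) ∨
          (i = 13 ∧ Φ (-1) = 0) := by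
      intro n Φ i h
      omega
    rcases c1 hU with a | ⟨rfl, a⟩ <;> rcases c1 hU' with b | ⟨rfl, b⟩
    · exact absurd (congrArg cyc e) (hnew i j a b)
    · obtain ⟨r, p, g1, g2, g3⟩ := gap_new hn Φ a
      rw [e1] at g1
      obtain ⟨g4, g5⟩ := g1.inj (gap_13 hm Ψ b)
      rw [Multiset.singleton_inj] at g5
      rw [g4, rr_num hm, adj_sum, sum_sub1] at g2
      omega
    · obtain ⟨r, p, g1, g2, g3⟩ := gap_new hm Ψ b
      rw [← e1] at g1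
      obtain ⟨g4, g5⟩ := g1.inj (gap_13 hn Φ a)
      rw [Multiset.singleton_inj] at g5
      rw [g4, rr_num hn, adj_sum, sum_sub1] at g2
      omega
    · have g1 := gap_13 hn Φ a
      rw [e1] at g1
      obtain ⟨g4, g5⟩ := g1.inj (gap_13 hm Ψ b)
      obtain rfl := inf_rr_cross hn hm g4
      exact shr_eq (unshift (adj_inj (rr_inj g4)))

/-! ### Right against mirrored -/

theorem rm_dis (hn : 1 ≤ n) (hm : 1 ≤ m) {Φ : ZMod (2 * n + 1) → ℕ} {Ψ : ZMod (2 * m + 1) → ℕ}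
    (h1 : 1 ≤ ∑ x, Φ x) (h1' : 1 ≤ ∑ x, Ψ x) (hk : n + 5 + 2 * ∑ x, Φ x = k)
    (hk' : m + 5 + 2 * ∑ x, Ψ x = k) (hr : RuR n Φ) (hr' : RuM m Ψ) {w0 w0' : X k} {i j : ℕ}
    (hi : i < 20) (hj : j < 20)
    (hnew : ∀ i j, (i = 0 ∨ i = 4 ∨ i = 10) → (j = 0 ∨ j = 4 ∨ j = 10) →
      cyc (xw n Φ w0 i) ≠ cyc (xm m Ψ w0' j))
    (e : xw n Φ w0 i = xm m Ψ w0' j) : Shr n m Φ Ψ := by
  have h1r : 1 ≤ ∑ x, rf Ψ x := by rw [rf_sum]; exact h1'
  have hkr : m + 5 + 2 * ∑ x, rf Ψ x = k := by rw [rf_sum]; exact hk'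
  obtain ⟨f, hf⟩ := exFr hn Φ h1 hk
  obtain ⟨f', hf'⟩ := exFr hm (rf Ψ) h1r hkr
  have e1 := congrArg Subtype.val e
  rw [xw_val hn hk w0 hi, xm_val hm hk' w0' hj] at e1
  have p1 := hf.pi i hi
  rw [e1] at p1
  have ef := p1.inj (hf'.pi j hj).mir
  have rs : rf (fun x => rf Ψ (x - 1)) = fun x => Ψ (x + 1) := by
    funext z
    change Ψ (-1 - (-1 - z - 1)) = Ψ (z + 1)
    congr 1
    ring
  rcases hf.cases hi with ⟨Θ, hΘ, q1⟩ | ⟨a0, a11, q1⟩ | ⟨hU, G, q1⟩ <;>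
    rcases hf'.cases hj with ⟨Θ', hΘ', q2⟩ | ⟨b0, b11, q2⟩ | ⟨hU', G', q2⟩ <;> rw [ef] at q1
  · have e3 := pu_pu hn hm q1 (pu_mir q2)
    obtain rfl := RF_cross hn hm e3
    have e4 := Ring1.RF_inj e3
    rcases hΘ with rfl | ⟨a0, rfl⟩ <;> rcases hΘ' with rfl | ⟨b0, rfl⟩
    · rw [rf_rf] at e4
      exact shr_eq e4
    · rw [rs] at e4
      refine shr_shift ?_
      rw [e4]
      funext x
      change Ψ x = Ψ (x - 1 + 1)
      rw [sub_add_cancel]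
    · rw [rf_rf] at e4
      exact shr_shift e4.symm
    · -- convexity
      exfalso
      rw [rs] at e4
      rw [rf_m1] at b0
      have e5 : ∀ x, Ψ x = Φ (x - 2) := by
        intro x
        have := congrFun e4 (x - 1)
        simp only [sub_add_cancel] at this
        rw [← this]
        congr 1
        ring
      rcases hr with hr | ⟨_, c0, c1⟩
      · omega
      · obtain ⟨_, d0, _, d1 | ⟨_, d1⟩⟩ := hr'
        · omega
        · have hm2 : Φ (-2) = 0 := by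
            have := e5 0
            rw [zero_sub] at this
            rw [← this]; exact b0
          have r1 : Sq (adj Ψ (-1)) = Sq (adj Φ (-3)) := by
            have h := adj_shift Φ (-3) (-2)
            have e6 : (-3 - -2 : ZMod (2 * n + 1)) = -1 := by ring
            rw [e6] at h
            have e7 : (fun z => Φ (z + -2)) = Ψ := by
              funext z
              rw [e5, sub_eq_add_neg]
            rw [e7] at h
            exact h.Sq.symm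
          have r2 : Sq (adj Ψ 0) = Sq (adj Φ (-2)) := by
            have h := adj_shift Φ (-2) (-2)
            rw [sub_self] at h
            have e7 : (fun z => Φ (z + -2)) = Ψ := by
              funext z
              rw [e5, sub_eq_add_neg]
            rw [e7] at h
            exact h.Sq.symm
          have k1 := convex Φ (-2) hm2 h1
          have k2 := convex Φ (-1) a0 h1
          have u1 : (-2 - 1 : ZMod (2 * n + 1)) = -3 := by ring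
          have u2 : (-2 + 1 : ZMod (2 * n + 1)) = -1 := by ring
          have u3 : (-1 - 1 : ZMod (2 * n + 1)) = -2 := by ring
          have u4 : (-1 + 1 : ZMod (2 * n + 1)) = 0 := by ring
          rw [u1, u2] at k1
          rw [u3, u4] at k2
          omega
  · exact absurd q2 (fun q2 => pu_mx hn q1 q2)
  · exact absurd q2 (fun q2 => pu_us hn hm q1 (us_mir q2))
  · exact absurd q1 (fun q1 => pu_mr hm (pu_mir q2) q1)
  · -- mixed words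
    exfalso
    obtain ⟨s, hs, es⟩ := sqS hn Φ a0
    obtain ⟨s', hs', es'⟩ := sqS hm (rf Ψ) b0
    rw [es, es'] at e1
    exact mr_mx_ne a0 b0 hs hs' (caseA hn Φ a0).2 (caseA hm (rf Ψ) b0).2 a11 hi b11 hj e1
  · exact absurd q1 (fun q1 => us_mr hm (us_mir q2) q1)
  · exact absurd q1 (fun q1 => pu_us hm hn (pu_mir q2) q1)
  · exact absurd q2 (fun q2 => us_mx hn q1 q2)
  · have c1 : ∀ {n : ℕ} {Φ : ZMod (2 * n + 1) → ℕ} {i : ℕ},
        (i = 0 ∨ i = 4 ∨ i = 10 ∨ (i = 13 ∧ Φ (-1) = 0)) → (i = 0 ∨ i = 4 ∨ i = 10) ∨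
          (i = 13 ∧ Φ (-1) = 0) := by
      intro n Φ i h
      omega
    exfalso
    have h2 := hr'.1
    rcases c1 hU with a | ⟨rfl, a⟩ <;> rcases c1 hU' with b | ⟨rfl, b⟩
    · exact absurd (congrArg cyc e) (hnew i j a b)
    · obtain ⟨r, p, g1, g2, g3⟩ := gap_new hn Φ a
      have g6 := (gap_13 hm (rf Ψ) b).mir
      rw [e1] at g1
      obtain ⟨g4, g5⟩ := g1.inj g6
      have g7 := congrArg BinaryTree.numNodes g4
      rw [Tsq.mir_num, rr_num hm, adj_sum, sum_sub1, rf_sum] at g7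
      rw [Multiset.map_singleton, Multiset.singleton_inj, rr_num hm, adj_sum, sum_sub1, rf_sum] at g5
      omega
    · obtain ⟨r, p, g1, g2, g3⟩ := gap_new hm (rf Ψ) b
      have g6 := gap_13 hn Φ a
      rw [e1] at g6
      obtain ⟨g4, g5⟩ := g6.inj g1.mir
      have g7 := congrArg BinaryTree.numNodes g4
      rw [Tsq.mir_num, rr_num hn, adj_sum, sum_sub1] at g7
      rw [Multiset.map_singleton, Multiset.singleton_inj] at g5
      rw [rf_sum] at g2 g3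
      omega
    · have g1 := gap_13 hn Φ a
      rw [e1] at g1
      obtain ⟨g4, g5⟩ := g1.inj (gap_13 hm (rf Ψ) b).mir
      have g7 := congrArg BinaryTree.numNodes g4
      rw [Tsq.mir_num, rr_num hm, rr_num hn, adj_sum, adj_sum, sum_sub1, sum_sub1, rf_sum] at g7
      rw [Multiset.map_singleton, Multiset.singleton_inj, rr_num hm, adj_sum, sum_sub1, rf_sum] at g5
      omega

/-! ### Mirrored against mirrored -/

theorem adj_rf (Φ : ZMod (2 * n + 1) → ℕ) (a : ZMod (2 * n + 1)) :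
    adj (rf Φ) a = rf (adj Φ (-1 - a)) := by
  rw [rf_adj]
  congr 1
  ring

theorem Shr.of_rf {Φ : ZMod (2 * n + 1) → ℕ} {Ψ : ZMod (2 * m + 1) → ℕ} (h : Shr n m (rf Φ) (rf Ψ)) :
    Shr n m Φ Ψ := by
  obtain ⟨rfl, a, b, ha, hb, h⟩ := h
  have h' : Rot (adj (rf Φ) a) (adj (rf Ψ) b) := h
  rw [adj_rf, adj_rf] at h'
  refine ⟨rfl, -1 - a, -1 - b, ?_, ?_, rot_of_rf h'⟩
  · rcases ha with rfl | rfl
    · right; ring
    · left; ring
  · rcases hb with rfl | rfl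
    · right; ring
    · left; ring

theorem mm_dis (hn : 1 ≤ n) (hm : 1 ≤ m) {Φ : ZMod (2 * n + 1) → ℕ} {Ψ : ZMod (2 * m + 1) → ℕ}
    (h1 : 1 ≤ ∑ x, Φ x) (h1' : 1 ≤ ∑ x, Ψ x) (hk : n + 5 + 2 * ∑ x, Φ x = k)
    (hk' : m + 5 + 2 * ∑ x, Ψ x = k) {w0 w0' : X k} {i j : ℕ} (hi : i < 20) (hj : j < 20)
    (hnew : ∀ i j, (i = 0 ∨ i = 4 ∨ i = 10) → (j = 0 ∨ j = 4 ∨ j = 10) →
      cyc (xm n Φ w0 i) ≠ cyc (xm m Ψ w0' j))
    (e : xm n Φ w0 i = xm m Ψ w0' j) : Shr n m Φ Ψ :=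
  (rr_dis hn hm (by rw [rf_sum]; exact h1) (by rw [rf_sum]; exact h1') (by rw [rf_sum]; exact hk)
    (by rw [rf_sum]; exact hk') hi hj (fun i j a b c => hnew i j a b (mir_cyc c)) (mirX_inj e)).of_rf

end L1

open L1 J

variable {k : ℕ} {F F' : Set (Cyc k)} {g g' : DG k}

/-- the T-cycles of a group -/
theorem L1.of_shr {n m : ℕ} {Φ : ZMod (2 * n + 1) → ℕ} {Ψ : ZMod (2 * m + 1) → ℕ} (hn : 1 ≤ n)
    {x0 x4 y0 y4 : X k} (o0 : Ov n (adj Φ (-1)) x0.1) (o4 : Ov n (adj Φ 0) x4.1)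
    (p0 : Ov m (adj Ψ (-1)) y0.1) (p4 : Ov m (adj Ψ 0) y4.1) (h : Shr n m Φ Ψ) :
    ∃ c, (c = cyc x0 ∨ c = cyc x4) ∧ (c = cyc y0 ∨ c = cyc y4) := by
  obtain ⟨rfl, a, b, ha, hb, h⟩ := h
  have h' : Rot (adj Φ a) (adj Ψ b) := h
  rcases ha with rfl | rfl <;> rcases hb with rfl | rfl
  · exact ⟨cyc x0, Or.inl rfl, Or.inl ((o0.cyc_iff hn p0).2 h')⟩
  · exact ⟨cyc x0, Or.inl rfl, Or.inr ((o0.cyc_iff hn p4).2 h')⟩
  · exact ⟨cyc x4, Or.inr rfl, Or.inl ((o4.cyc_iff hn p0).2 h')⟩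
  · exact ⟨cyc x4, Or.inr rfl, Or.inr ((o4.cyc_iff hn p4).2 h')⟩

/-- the new words -/
theorem L1.new_x {n : ℕ} {Φ : ZMod (2 * n + 1) → ℕ} (hn : 1 ≤ n) (hk : n + 5 + 2 * ∑ x, Φ x = k)
    (w0 : X k) {i : ℕ} (hi : i = 0 ∨ i = 4 ∨ i = 10) :
    cyc (xw n Φ w0 i) ∈ ({cyc (xw n Φ w0 0), cyc (xw n Φ w0 4)} : Set (Cyc k)) := by
  rcases hi with rfl | rfl | rfl
  · exact Or.inl rfl
  · exact Or.inr rfl
  · exact Or.inl (cyc_eq.2 (same10 hn hk w0)).symm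

theorem L1.new_m {n : ℕ} {Φ : ZMod (2 * n + 1) → ℕ} (hn : 1 ≤ n) (hk : n + 5 + 2 * ∑ x, Φ x = k)
    (w0 : X k) {i : ℕ} (hi : i = 0 ∨ i = 4 ∨ i = 10) :
    cyc (xm n Φ w0 i) ∈ ({cyc (xm n Φ w0 0), cyc (xm n Φ w0 4)} : Set (Cyc k)) := by
  rcases hi with rfl | rfl | rfl
  · exact Or.inl rfl
  · exact Or.inr rfl
  · exact Or.inl (cyc_eq.2 (same10M hn hk w0)).symm

/-- **ROW W-L1-L1** -/
theorem dis_L1_L1 (h : TyL1 F g) (h' : TyL1 F' g') (hd : ∀ c ∈ F, c ∉ F') : ∀ w ∈ g.B, w ∉ g'.B := by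
  intro w hw hw'
  have fin : ∀ {x0 x4 y0 y4 : X k}, (∀ c ∈ ({cyc x0, cyc x4} : Set (Cyc k)), c ∉ ({cyc y0, cyc y4} : Set (Cyc k))) →
      (∃ c, (c = cyc x0 ∨ c = cyc x4) ∧ (c = cyc y0 ∨ c = cyc y4)) → False := by
    rintro x0 x4 y0 y4 hd ⟨c, a, b⟩
    exact hd c a b
  rcases h with ⟨n, Φ, w0, hb, hr, rfl, rfl⟩ | ⟨n, Φ, w0, hb, hr, rfl, rfl⟩ <;>
    rcases h' with ⟨m, Ψ, w0', hb', hr', rfl, rfl⟩ | ⟨m, Ψ, w0', hb', hr', rfl, rfl⟩
  · obtain ⟨i, hi, _, rfl⟩ := mem_gadJ.1 hw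
    obtain ⟨j, hj, _, e⟩ := mem_gadJ.1 hw'
    exact fin hd (of_shr hb.hn (xw_ov0 hb.hn hb.hk w0) (xw_ov4 hb.hn hb.hk w0) (xw_ov0 hb'.hn hb'.hk w0')
      (xw_ov4 hb'.hn hb'.hk w0') (rr_dis hb.hn hb'.hn hb.one hb'.one hb.hk hb'.hk hi hj
        (fun i j a b c => hd _ (new_x hb.hn hb.hk w0 a) (by rw [c]; exact new_x hb'.hn hb'.hk w0' b)) e.symm))
  · obtain ⟨i, hi, _, rfl⟩ := mem_gadJ.1 hw
    obtain ⟨j, hj, _, e⟩ := mem_gadJM.1 hw'
    obtain ⟨c, a, b⟩ := of_shr hb.hn (xw_ov0 hb.hn hb.hk w0) (xw_ov4 hb.hn hb.hk w0) (xm_ov4 hb'.hn hb'.hk w0')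
      (xm_ov0 hb'.hn hb'.hk w0') (rm_dis hb.hn hb'.hn hb.one hb'.one hb.hk hb'.hk hr hr' hi hj
        (fun i j a b c => hd _ (new_x hb.hn hb.hk w0 a) (by rw [c]; exact new_m hb'.hn hb'.hk w0' b)) e.symm)
    exact hd c a b.symm
  · obtain ⟨i, hi, _, rfl⟩ := mem_gadJM.1 hw
    obtain ⟨j, hj, _, e⟩ := mem_gadJ.1 hw'
    obtain ⟨c, a, b⟩ := of_shr hb'.hn (xw_ov0 hb'.hn hb'.hk w0') (xw_ov4 hb'.hn hb'.hk w0')
      (xm_ov4 hb.hn hb.hk w0) (xm_ov0 hb.hn hb.hk w0) (rm_dis hb'.hn hb.hn hb'.one hb.one hb'.hk hb.hk hr' hr hj hi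
        (fun i j a b c => hd _ (new_m hb.hn hb.hk w0 b) (by rw [← c]; exact new_x hb'.hn hb'.hk w0' a)) e)
    exact hd c b.symm a
  · obtain ⟨i, hi, _, rfl⟩ := mem_gadJM.1 hw
    obtain ⟨j, hj, _, e⟩ := mem_gadJM.1 hw'
    obtain ⟨c, a, b⟩ := of_shr hb.hn (xm_ov4 hb.hn hb.hk w0) (xm_ov0 hb.hn hb.hk w0) (xm_ov4 hb'.hn hb'.hk w0')
      (xm_ov0 hb'.hn hb'.hk w0') (mm_dis hb.hn hb'.hn hb.one hb'.one hb.hk hb'.hk hi hj
        (fun i j a b c => hd _ (new_m hb.hn hb.hk w0 a) (by rw [c]; exact new_m hb'.hn hb'.hk w0' b)) e.symm)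
    exact hd c a.symm b.symm

end Pool.OddHC
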