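import Pool.Agent.Work.MP_8f87b2_h26.L1c

/-!
# MP_8f87b2_co: the hidden bead can be removed

`PI w0 w`: `w` is `w0` with one more bead in an inner gap. `PI.inj`: `w` determines `w0`.
-/

set_option autoImplicit false

namespace Pool.OddHC

namespace L1

open BinaryTree Multiset H1

variable {r b s R B S w w' w0 w0' v : BinaryTree Unit} {M M' N : Multiset ℕ}

/-- starts with a component which is not `()`, ends with the component `()` -/
def ShA (r : BinaryTree Unit) : Prop :=
  (∃ A X : BinaryTree Unit, r = A △ X ∧ A ≠ .nil) ∧ ∃ X : BinaryTree Unit, Tsq.mir r = .nil △ X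

theorem ShA.mir_false (h : ShA r) (h' : ShA (Tsq.mir r)) : False := by
  obtain ⟨⟨A, X, h1, h2⟩, _⟩ := h
  obtain ⟨_, Y, h3⟩ := h'
  rw [Tsq.mir_mir, h1] at h3
  exact h2 (by simpa using congrArg (fun t : BinaryTree Unit => match t with
    | .nil => BinaryTree.nil
    | .node _ a _ => a) h3)

/-- the beads of the word without the hidden bead -/
inductive Vis (r : BinaryTree Unit) (h : ℕ) : Multiset ℕ → Prop
  | zero : Vis r h 0
  | first : Vis r h {0}
  | last : Vis r h {2 * r.numNodes}
  | second : h + 1 ≠ 2 * r.numNodes ∨ ShA r → Vis r h {1}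
  | next (x : ℕ) : x + 1 = 2 * r.numNodes → h ≠ 1 ∨ ShA (Tsq.mir r) → Vis r h {x}
  | dbl (x : ℕ) : Vis r h {x, x}
  | both : Vis r h {0, 2 * r.numNodes}

/-- `w` is `w0` with one more bead -/
def PI (w0 w : BinaryTree Unit) : Prop :=
  ∃ (r : BinaryTree Unit) (M : Multiset ℕ) (h : ℕ), 3 ≤ r.numNodes ∧ Wd r M w0 ∧ Wd r (h ::ₘ M) w ∧
    h ≠ 0 ∧ h ≠ 2 * r.numNodes ∧ Vis r h M

theorem Vis.card {n : ℕ} (h : Vis r n M) : M = 0 ∨ Multiset.card M = 1 ∨ Multiset.card M = 2 := by
  cases h <;> simp

/-- the swapped case -/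
theorem vis_swap {h h' : ℕ} (h3 : 3 ≤ r.numNodes) (a0 : h ≠ 0) (a1 : h ≠ 2 * r.numNodes) (b0 : h' ≠ 0)
    (b1 : h' ≠ 2 * r.numNodes) (hne : h ≠ h') (v : Vis r h (h' ::ₘ N)) (v' : Vis r h' (h ::ₘ N)) :
    False := by
  -- cases by the size of `N`
  rcases Nat.lt_trichotomy (Multiset.card N) 0 with hN | hN | hN
  · omega
  · rw [Multiset.card_eq_zero] at hN
    subst hN
    have key : ∀ {x y : ℕ}, x ≠ 0 → x ≠ 2 * r.numNodes → Vis r y (x ::ₘ 0) →
        (x = 1 ∧ (y + 1 ≠ 2 * r.numNodes ∨ ShA r)) ∨
        (x + 1 = 2 * r.numNodes ∧ (y ≠ 1 ∨ ShA (Tsq.mir r))) := by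
      intro x y hx hx' hv
      generalize hM : (x ::ₘ 0 : Multiset ℕ) = M at hv
      cases hv with
      | zero => exact absurd hM (by simp)
      | first => exact absurd (by simpa using hM) hx
      | last => exact absurd (by simpa using hM) hx'
      | second h1 => exact Or.inl ⟨by simpa using hM, h1⟩
      | next z h1 h2 =>
        have : x = z := by simpa using hM
        subst this
        exact Or.inr ⟨h1, h2⟩
      | dbl z => exact absurd (congrArg Multiset.card hM) (by simp)
      | both => exact absurd (congrArg Multiset.card hM) (by simp)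
    rcases key b0 b1 v with ⟨e1, e2⟩ | ⟨e1, e2⟩ <;> rcases key a0 a1 v' with ⟨f1, f2⟩ | ⟨f1, f2⟩
    · omega
    · have g1 : ShA r := by
        rcases e2 with e2 | e2
        · exact absurd f1 e2
        · exact e2
      have g2 : ShA (Tsq.mir r) := by
        rcases f2 with f2 | f2
        · exact absurd e1 f2
        · exact f2
      exact g1.mir_false g2
    · have g1 : ShA r := by
        rcases f2 with f2 | f2
        · exact absurd e1 f2
        · exact f2
      have g2 : ShA (Tsq.mir r) := by
        rcases e2 with e2 | e2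
        · exact absurd f1 e2
        · exact e2
      exact g1.mir_false g2
    · omega
  · -- `M = {x, x}` or `{0, last}`
    have key : ∀ {x y : ℕ}, x ≠ 0 → x ≠ 2 * r.numNodes → Vis r y (x ::ₘ N) → N = {x} := by
      intro x y hx hx' hv
      generalize hM : (x ::ₘ N : Multiset ℕ) = M at hv
      have hc : Multiset.card N + 1 = Multiset.card M := by rw [← hM, Multiset.card_cons]
      cases hv with
      | zero => exact absurd hM (by simp)
      | first => rw [Multiset.card_singleton] at hc; omega
      | last => rw [Multiset.card_singleton] at hc; omega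
      | second h1 => rw [Multiset.card_singleton] at hc; omega
      | next z h1 h2 => rw [Multiset.card_singleton] at hc; omega
      | dbl z =>
        have h1 : x ∈ ({z, z} : Multiset ℕ) := by rw [← hM]; exact Multiset.mem_cons_self x N
        have h2 : x = z := by simpa using h1
        subst h2
        exact (Multiset.cons_inj_right x).1 hM
      | both =>
        have h1 : x ∈ ({0, 2 * r.numNodes} : Multiset ℕ) := by rw [← hM]; exact Multiset.mem_cons_self x N
        have h2 : x = 0 ∨ x = 2 * r.numNodes := by simpa using h1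
        rcases h2 with h2 | h2
        · exact absurd h2 hx
        · exact absurd h2 hx'
    have e1 := key b0 b1 v
    have e2 := key a0 a1 v'
    rw [e1] at e2
    exact hne (by simpa using e2.symm)

/-- **the hidden bead can be removed** -/
theorem PI.inj (h : PI w0 w) (h' : PI w0' w) : w0 = w0' := by
  obtain ⟨r, M, a, h3, h1, h2, a0, a1, hv⟩ := h
  obtain ⟨r', M', a', h3', h1', h2', b0, b1, hv'⟩ := h'
  obtain ⟨rfl, e⟩ := h2.inj h2'
  by_cases hne : a = a'
  · subst hne
    rw [(Multiset.cons_inj_right a).1 e] at h1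
    exact h1.det h1'
  · exfalso
    rcases Multiset.cons_eq_cons.1 e with ⟨h4, _⟩ | ⟨_, N, h4, h5⟩
    · exact hne h4
    · subst h4 h5
      exact vis_swap h3 a0 a1 b0 b1 hne hv hv'

theorem PI.mir (h : PI w0 w) : PI (Tsq.mir w0) (Tsq.mir w) := by
  obtain ⟨r, M, a, h3, h1, h2, a0, a1, hv⟩ := h
  have ha : a ≤ 2 * r.numNodes := h2.le a (Multiset.mem_cons_self a M)
  have e1 := h1.mir
  have e2 := h2.mir
  rw [Multiset.map_cons] at e2
  refine ⟨Tsq.mir r, M.map (2 * r.numNodes - ·), 2 * r.numNodes - a, by rw [Tsq.mir_num]; exact h3, e1,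
    e2, by omega, by rw [Tsq.mir_num]; omega, ?_⟩
  have hn : (Tsq.mir r).numNodes = r.numNodes := Tsq.mir_num r
  cases hv with
  | zero => exact Vis.zero
  | first =>
    have := Vis.last (r := Tsq.mir r) (h := 2 * r.numNodes - a)
    rw [hn] at this
    simpa using this
  | last => simpa using Vis.first (r := Tsq.mir r) (h := 2 * r.numNodes - a)
  | second h =>
    rw [Multiset.map_singleton]
    refine Vis.next (2 * r.numNodes - 1) (by rw [hn]; omega) ?_
    rcases h with h | h
    · left; omega
    · right; rw [Tsq.mir_mir]; exact h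
  | next x hx h =>
    rw [Multiset.map_singleton]
    have e : 2 * r.numNodes - x = 1 := by omega
    rw [e]
    refine Vis.second ?_
    rcases h with h | h
    · left; rw [hn]; omega
    · right; exact h
  | dbl x => exact Vis.dbl _
  | both =>
    have := Vis.both (r := Tsq.mir r) (h := 2 * r.numNodes - a)
    rw [hn] at this
    have e : ({0, 2 * r.numNodes} : Multiset ℕ).map (2 * r.numNodes - ·) = {0, 2 * r.numNodes} := by
      change (2 * r.numNodes - 0) ::ₘ {2 * r.numNodes - 2 * r.numNodes} = _
      rw [Nat.sub_zero, Nat.sub_self]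
      exact Multiset.pair_comm _ _
    rw [e]
    exact this

/-! ### The words -/

theorem mir_last {X : BinaryTree Unit} : ∃ Y, Tsq.mir (app X (.nil △ .nil)) = .nil △ Y := by
  rw [Tsq.mir_app]
  exact ⟨Tsq.mir X, rfl⟩

/-- first block -/
theorem PI_p {g : ℕ} (hr3 : 3 ≤ r.numNodes) (h : Wd r {g} R) (g0 : 1 ≤ g) (g1 : g + 1 ≤ 2 * r.numNodes)
    {i : ℕ} (hi : i < 10) : PI (J.pw (inf r) i) (J.pw R i) := by
  have hr : r ≠ .nil := by
    rintro rfl
    change 3 ≤ 0 at hr3
    omega
  have h0 := PW (Wd.inf r) hr hi
  have h1 := PW h hr hi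
  rw [Multiset.map_zero, add_zero] at h0
  rw [Multiset.map_singleton, add_comm] at h1
  change Wd _ ((g + pA i) ::ₘ pM r.numNodes i) _ at h1
  have hn : (r △ BinaryTree.nil).numNodes = r.numNodes + 1 := rfl
  refine ⟨pR r i, pM r.numNodes i, g + pA i, ?_, h0, h1, by omega, ?_, ?_⟩
  · interval_cases i <;> simp only [pR, num_app', num_node] <;> omega
  · interval_cases i <;> simp only [pR, pA, num_app', num_node] <;> omega
  · interval_cases i
    · exact Vis.zero
    · exact Vis.dbl _
    · exact Vis.both
    · refine Vis.next _ ?_ (Or.inl ?_)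
      · simp only [pR, num_node]
        change _ = 2 * (r.numNodes + 0 + 1)
        omega
      · simp only [pA]; omega
    · exact Vis.zero
    · exact Vis.dbl _
    · have := Vis.last (r := pR r 6) (h := g + pA 6)
      have e : 2 * (pR r 6).numNodes = 2 * r.numNodes + 2 := by
        change 2 * (r.numNodes + 0 + 1) = _
        omega
      rw [e] at this
      exact this
    · refine Vis.second (Or.inl ?_)
      simp only [pR, pA, num_node]
      change g + 1 + 1 ≠ 2 * (r.numNodes + 0 + 1)
      omega
    · exact Vis.first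
    · exact Vis.zero

/-- second block, `b ≠ nil`, hidden bead in `B` -/
theorem PI_q {g : ℕ} (hs2 : 2 ≤ s.numNodes) (hb0 : b ≠ .nil) (h : Wd b {g} B) (g0 : 1 ≤ g)
    (g1 : g + 1 ≤ 2 * b.numNodes) (hA : ShA (app (s △ .nil) b))
    {i : ℕ} (hi : 10 ≤ i) (hi' : i < 20) : PI (W w' .nil (inf b) (inf s) i) (W v .nil B (inf s) i) := by
  have hs0 : s ≠ .nil := by
    rintro rfl
    change 2 ≤ 0 at hs2
    omega
  have hbn : 1 ≤ b.numNodes := by
    cases b with
    | nil => exact absurd rfl hb0
    | node _ A X =>
      change 1 ≤ A.numNodes + X.numNodes + 1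
      omega
  have h0 := QW (R := w') (Wd.inf b) (Wd.inf s) hb0 hs0 hi hi'
  have h1 := QW (R := v) h (Wd.inf s) hb0 hs0 hi hi'
  rw [Multiset.map_zero, add_zero] at h0
  rw [Multiset.map_singleton, add_comm] at h1
  change Wd _ ((g + qB s.numNodes i) ::ₘ qM b.numNodes s.numNodes i) _ at h1
  refine ⟨qR b s i, qM b.numNodes s.numNodes i, g + qB s.numNodes i, ?_, h0, h1, by omega, ?_, ?_⟩
  · interval_cases i <;> simp only [qR, num_app', num_node] <;> omega
  · interval_cases i <;> simp only [qR, qB, num_app', num_node] <;>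
      (try change _ ≠ 2 * (_ + (_ + 0 + 1))) <;> omega
  · interval_cases i
    · exact Vis.zero
    · exact Vis.dbl _
    · have := Vis.last (r := qR b s 12) (h := g + qB s.numNodes 12)
      have e : 2 * (qR b s 12).numNodes = 2 * s.numNodes + 2 * b.numNodes + 2 := by
        simp only [qR, num_app', num_node]
        change 2 * (s.numNodes + 0 + 1 + b.numNodes) = _
        omega
      rw [e] at this
      exact this
    · refine Vis.next _ ?_ (Or.inl ?_)
      · simp only [qR, num_app', num_node]
        change _ = 2 * (s.numNodes + (b.numNodes + 0 + 1))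
        omega
      · simp only [qB]; omega
    · exact Vis.second (Or.inr hA)
    · exact Vis.first
    · have := Vis.last (r := qR b s 16) (h := g + qB s.numNodes 16)
      have e : 2 * (qR b s 16).numNodes = 2 * s.numNodes + 2 * b.numNodes + 2 := by
        simp only [qR, num_app', num_node]
        change 2 * (s.numNodes + (b.numNodes + 0 + 1)) = _
        omega
      rw [e] at this
      exact this
    · exact Vis.zero
    · exact Vis.first
    · exact Vis.zero

end L1

end Pool.OddHC
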