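import Pool.Agent.Work.MP_8f87b2_h26.L1a
import Pool.Agent.Work.MP_8f87b2_h26.L1d

/-!
# MP_8f87b2_co, type L1: the tree `RH n F` with the hidden bead

`rr n F = ins (ch n) (lf F)` (reduced word, `j = n + 1 + sum F` nodes), `RH n F = C(rr n F, one bead in the gap g)`,
`g = 2 j - 1` if `F (-1) ≥ 1`, `g = 2 j - 3` if `F (-1) = 0`.
-/

set_option autoImplicit false

namespace Pool.OddHC

namespace L1

open BinaryTree H1 Equiv

variable {k n : ℕ} {F G : ZMod (2 * n + 1) → ℕ}

/-- the reduced word -/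
def rr (n : ℕ) (F : ZMod (2 * n + 1) → ℕ) : BinaryTree Unit := ins (H1.ch n) (lf F)

theorem rr_num (hn : 1 ≤ n) (F : ZMod (2 * n + 1) → ℕ) : (rr n F).numNodes = n + 1 + ∑ x, F x :=
  (Ring1.in_num hn F).1

theorem rr_inf : inf (rr n F) = Ring1.RF n F := rfl

theorem rr_ne (hn : 1 ≤ n) (F : ZMod (2 * n + 1) → ℕ) : rr n F ≠ .nil := by
  intro h
  have h1 := rr_num hn F
  rw [h] at h1
  change 0 = _ at h1
  omega

/-- the gap of the hidden bead -/
noncomputable def gH (n : ℕ) (F : ZMod (2 * n + 1) → ℕ) : ℕ :=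
  if 1 ≤ F (-1) then 2 * (n + ∑ x, F x) + 1 else 2 * (n + ∑ x, F x) - 1

/-- the tree with the hidden bead -/
noncomputable def RH (n : ℕ) (F : ZMod (2 * n + 1) → ℕ) : BinaryTree Unit :=
  ins (rr n F) (cl (rr n F).numNodes {gH n F})

theorem gH_le (hn : 1 ≤ n) (F : ZMod (2 * n + 1) → ℕ) : 1 ≤ gH n F ∧ gH n F + 1 ≤ 2 * (rr n F).numNodes := by
  rw [rr_num hn]
  unfold gH
  split_ifs <;> omega

theorem Wd_RH (hn : 1 ≤ n) (F : ZMod (2 * n + 1) → ℕ) : Wd (rr n F) {gH n F} (RH n F) := by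
  refine ⟨?_, rfl⟩
  intro y hy
  rw [Multiset.mem_singleton] at hy
  subst hy
  have := gH_le hn F
  omega

/-- content of the tree -/
theorem cont_RH (hn : 1 ≤ n) (F : ZMod (2 * n + 1) → ℕ) :
    cont (RH n F) = {n + 2} + Multiset.replicate (∑ x, F x) 2 + {1} := by
  have h := (Wd_RH hn F)
  have hs : (cl (rr n F).numNodes {gH n F}).sum = 1 := by
    have h1 := gH_le hn F
    unfold cl
    have e : ∀ m g : ℕ, g < m → ((List.range m).map (fun x => ({g} : Multiset ℕ).count x)).sum = 1 := by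
      intro m g hg
      rw [← List.sum_toFinset] 
      · rw [Finset.sum_eq_single g]
        · simp
        · intro b _ hb
          rw [Multiset.count_singleton, if_neg hb]
        · intro hg'
          exact absurd (by simpa using hg) hg'
      · exact List.nodup_range
    exact e _ _ (by omega)
  rw [h.eq, cont_ins _ _ (cl_length _ _), hs]
  have e2 : cont (Ring1.RF n F) = (cont (rr n F)).map (· + 1) := cont_inf _
  rw [← e2, Ring1.cont_RF hn]
  rfl

theorem ht_RH (hn : 1 ≤ n) (F : ZMod (2 * n + 1) → ℕ) : ht (RH n F) = n + 2 := by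
  rw [ht_eq, cont_RH hn, sup_add', sup_add', Multiset.sup_singleton, Multiset.sup_singleton]
  have : (Multiset.replicate (∑ x, F x) 2).sup ≤ 2 := Multiset.sup_le.2 fun b hb =>
    (Multiset.eq_of_mem_replicate hb).le
  omega

theorem num_RH (hn : 1 ≤ n) (F : ZMod (2 * n + 1) → ℕ) : (RH n F).numNodes = n + 3 + 2 * ∑ x, F x := by
  rw [← cont_sum, cont_RH hn, Multiset.sum_add, Multiset.sum_add, Multiset.sum_singleton,
    Multiset.sum_singleton, Multiset.sum_replicate]
  ring

theorem app_lv (t : ℕ) : app (lv t .nil) ((.nil : BinaryTree Unit) △ .nil) = lv (t + 1) .nil := by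
  induction t with
  | zero => rfl
  | succ m ih =>
    change .nil △ app (lv m .nil) (.nil △ .nil) = _
    rw [ih]
    rfl

theorem lv_num' (t : ℕ) : (lv t .nil).numNodes = t := by
  rw [lv_num]
  rfl

/-- `(()())` -/
theorem Wd.three : Wd (.nil △ .nil) {1} ((.nil △ (.nil △ .nil)) △ .nil) := by
  refine ⟨?_, rfl⟩
  intro y hy
  rw [Multiset.mem_singleton] at hy
  subst hy
  change 1 ≤ 2 * 1
  omega

/-- CASE A: `F (-1) ≥ 1` -/
theorem caseA (hn : 1 ≤ n) (F : ZMod (2 * n + 1) → ℕ) (ht1 : 1 ≤ F (-1)) :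
    (Tsq.sq (RH n F)).1 = (Tsq.sq (Ring1.RF n F)).1 ∧
      Wd (lv (F (-1)) .nil) {2 * F (-1) - 1} (Tsq.sq (RH n F)).2 := by
  obtain ⟨F', hF'⟩ : ∃ F' : ZMod (2 * n + 1) → ℕ, F' = fun x => F x - if x = -1 then 1 else 0 := ⟨_, rfl⟩
  have hF : F = fun x => F' x + if x = -1 then 1 else 0 := by
    funext x
    rw [hF']
    by_cases hx : x = -1
    · subst hx
      simp only [if_true]
      omega
    · simp only [if_neg hx]
      omega
  have hs : ∑ x, F x = ∑ x, F' x + 1 := by
    rw [hF, Finset.sum_add_distrib, Finset.sum_ite_eq' Finset.univ (-1) (fun _ => 1), if_pos (Finset.mem_univ _)]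
  have h1 : F (-1) = F' (-1) + 1 := by
    rw [hF]
    simp
  have er : rr n F = app (rr n F') (.nil △ .nil) := by
    unfold rr
    rw [Ring1.ch_eq, hF]
    exact ins_back (pwX n) F'
  have hg : gH n F = 2 * (rr n F').numNodes + 1 := by
    unfold gH
    rw [if_pos ht1, rr_num hn, hs]
    ring
  -- the two trees
  have e1 : RH n F = app (Ring1.RF n F') ((.nil △ (.nil △ .nil)) △ .nil) := by
    have a1 := (Wd.inf (rr n F')).app Wd.three
    rw [← er] at a1
    refine (Wd_RH hn F).det (a1.cast rfl ?_ rfl)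
    rw [zero_add, Multiset.map_singleton, hg, add_comm]
  have e2 : Ring1.RF n F = app (Ring1.RF n F') ((.nil △ .nil) △ .nil) := by
    have a1 := (Wd.inf (rr n F')).app Wd.two
    rw [← er] at a1
    exact (Wd.inf (rr n F)).det a1
  have hne : Ring1.RF n F' ≠ .nil := by
    intro h
    have := Ring1.RF_num hn F'
    rw [h] at this
    change 0 = _ at this
    omega
  have hht : Tsq.ht (Ring1.RF n F') = n + 2 := by
    rw [H1.ht_eq, ht_eq, Ring1.cont_RF hn, sup_add', Multiset.sup_singleton]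
    have : (Multiset.replicate (∑ x, F' x) 2).sup ≤ 2 := Multiset.sup_le.2 fun b hb =>
      (Multiset.eq_of_mem_replicate hb).le
    omega
  have s1 := Tsq.sq_app (Ring1.RF n F') ((.nil △ (.nil △ .nil)) △ .nil) hne (by
    rw [hht]
    change max (max 1 (max 1 0) + 1) 0 ≤ n + 2
    omega)
  have s2 := Tsq.sq_app (Ring1.RF n F') ((.nil △ .nil) △ .nil) hne (by
    rw [hht]
    change max (max 1 0 + 1) 0 ≤ n + 2
    omega)
  rw [e1, e2, s1, s2]
  refine ⟨rfl, ?_⟩
  have hB := (Ring1.sq_RF hn F').1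
  have a2 := (Wd.inf (lv (F' (-1)) .nil)).app Wd.three
  rw [app_lv, Ring1.inf_lp, ← h1] at a2
  refine a2.cast rfl ?_ ?_
  · rw [zero_add, Multiset.map_singleton, lv_num', h1]
    congr 1
    omega
  · rw [← hB]

/-- `B` of case A -/
theorem caseA_ht (hn : 1 ≤ n) (F : ZMod (2 * n + 1) → ℕ) (ht1 : 1 ≤ F (-1)) :
    ht (Tsq.sq (RH n F)).2 = 2 := by
  have h := (caseA hn F ht1).2
  have hl : ht (lv (F (-1)) .nil) = 1 := by
    obtain ⟨p, hp⟩ : ∃ p, F (-1) = p + 1 := ⟨F (-1) - 1, by omega⟩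
    rw [hp]
    have : ∀ p, ht (lv (p + 1) .nil) = 1 := by
      intro p
      induction p with
      | zero => rfl
      | succ p ih =>
        change max (0 + 1) (ht (lv (p + 1) .nil)) = 1
        rw [ih]
        rfl
    exact this p
  rw [h.eq, ht_eq, cont_ins _ _ (cl_length _ _), sup_add']
  have e1 : ((cont (lv (F (-1)) .nil)).map (· + 1)).sup = 2 := by
    have e2 : ((cont (lv (F (-1)) .nil)).map (· + 1)).sup = ht (inf (lv (F (-1)) .nil)) := by
      rw [ht_eq, cont_inf]
    rw [e2, ht_inf, hl]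
    intro h0
    rw [h0] at hl
    exact absurd hl (by decide)
  rw [e1]
  have : (Multiset.replicate (cl (lv (F (-1)) .nil).numNodes {2 * F (-1) - 1}).sum 1).sup ≤ 1 :=
    Multiset.sup_le.2 fun b hb => (Multiset.eq_of_mem_replicate hb).le
  omega

end L1

end Pool.OddHC
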