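import Mathlib

/-!
# Fink's theorem (bipartite form) and merging of alternating cycles (after helper18)

`Y` a finite set with a sign `s : Y → Bool`. `Mat s K τ`: `τ` is an involution of `Y` which maps `K`
to itself and changes the sign on `K` (a perfect matching of `K` between the two signs).
`Fink s adj K`: for every such `τ` there is a perfect matching `M` of `K` with `adj`-edges such that
the union of `τ` and `M` connects `K`. Every cube of dimension at least one has this property.
-/

namespace Pool.Agent.Work.MP_8f87b2_h26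

variable {Y : Type*}

/-- `τ` is an involution which maps `K` to itself and changes the sign on `K`. -/
structure Mat (s : Y → Bool) (K : Set Y) (τ : Y → Y) : Prop where
  inv : ∀ x, τ (τ x) = x
  maps : ∀ x ∈ K, τ x ∈ K
  flip : ∀ x ∈ K, s (τ x) = !(s x)

/-- the alternating path `τ x, τ M τ x, τ M τ M τ x, ..` -/
def rho (τ M : Y → Y) (n : ℕ) (x : Y) : Y := (fun y => τ (M y))^[n] (τ x)

theorem rho_zero (τ M : Y → Y) (x : Y) : rho τ M 0 x = τ x := rfl

theorem rho_succ (τ M : Y → Y) (n : ℕ) (x : Y) : rho τ M (n + 1) x = τ (M (rho τ M n x)) := by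
  unfold rho
  rw [Function.iterate_succ_apply']

theorem rho_rev {τ M : Y → Y} (hτ : ∀ x, τ (τ x) = x) (hM : ∀ x, M (M x) = x) (j m : ℕ) (x : Y) :
    rho τ M j (rho τ M (m + j + 1) x) = M (rho τ M m x) := by
  induction j generalizing m with
  | zero => rw [rho_zero, add_zero, rho_succ, hτ]
  | succ j ih =>
    have h := ih (m + 1)
    have e : m + 1 + j + 1 = m + (j + 1) + 1 := by ring
    rw [e] at h
    rw [rho_succ, h, hM, rho_succ, hτ]

theorem rho_rho {τ M : Y → Y} (hτ : ∀ x, τ (τ x) = x) (hM : ∀ x, M (M x) = x) (n : ℕ) (x : Y) :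
    rho τ M n (rho τ M n x) = x := by
  cases n with
  | zero => rw [rho_zero, rho_zero, hτ]
  | succ n =>
    have h := rho_rev hτ hM n 0 x
    rw [Nat.zero_add] at h
    rw [rho_succ τ M n (rho τ M (n + 1) x), h, hM, rho_zero, hτ]

/-- **Contraction**: the perfect matching of `K` by the `τ`-`M`-alternating paths outside `K`. -/
theorem contract [Finite Y] (s : Y → Bool) (Z K : Set Y) (hKZ : K ⊆ Z) (τ M : Y → Y)
    (hτ : Mat s Z τ) (hM : Mat s Z M) (hMK : ∀ x ∈ K, M x ∈ K) :
    ∃ τ' : Y → Y, Mat s K τ' ∧ ∀ R : Setoid Y, (∀ x ∈ Z, R x (τ x)) →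
      (∀ x ∈ Z, x ∉ K → R x (M x)) → ∀ x ∈ K, R x (τ' x) := by
  classical
  have hex : ∀ x ∈ K, ∃ n, rho τ M n x ∈ K := by
    intro x hx
    have hinj : Function.Injective (fun y => τ (M y)) := by
      intro a b hab
      have h1 := congrArg τ hab
      simp only [hτ.inv] at h1
      have h2 := congrArg M h1
      simpa only [hM.inv] using h2
    obtain ⟨p, hp, hper⟩ := hinj.mem_periodicPts (τ x)
    obtain ⟨q, rfl⟩ := Nat.exists_eq_succ_of_ne_zero (Nat.pos_iff_ne_zero.1 hp)
    have h1 : rho τ M (q + 1) x = τ x := hper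
    rw [rho_succ] at h1
    have h2 := congrArg τ h1
    rw [hτ.inv, hτ.inv] at h2
    have h3 := congrArg M h2
    rw [hM.inv] at h3
    exact ⟨q, h3 ▸ hMK x hx⟩
  have hex2 : ∀ x : Y, ∃ n, x ∈ K → rho τ M n x ∈ K ∧ ∀ j < n, rho τ M j x ∉ K := by
    intro x
    by_cases hx : x ∈ K
    · exact ⟨Nat.find (hex x hx), fun _ => ⟨Nat.find_spec (hex x hx),
        fun j hj => Nat.find_min (hex x hx) hj⟩⟩
    · exact ⟨0, fun h => absurd h hx⟩
  choose N hN using hex2
  have huniq : ∀ x ∈ K, ∀ n, rho τ M n x ∈ K → (∀ j < n, rho τ M j x ∉ K) → N x = n := by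
    intro x hx n h1 h2
    obtain ⟨h3, h4⟩ := hN x hx
    rcases lt_trichotomy (N x) n with h | h | h
    · exact absurd h3 (h2 _ h)
    · exact h
    · exact absurd h1 (h4 _ h)
  have hZ : ∀ n, ∀ x ∈ Z, rho τ M n x ∈ Z ∧ s (rho τ M n x) = !(s x) := by
    intro n x hx
    induction n with
    | zero => exact ⟨hτ.maps x hx, hτ.flip x hx⟩
    | succ n ih =>
      rw [rho_succ]
      have h1 := hM.maps _ ih.1
      refine ⟨hτ.maps _ h1, ?_⟩
      rw [hτ.flip _ h1, hM.flip _ ih.1, ih.2, Bool.not_not]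
  refine ⟨fun x => if x ∈ K then rho τ M (N x) x else x, ⟨?_, ?_, ?_⟩, ?_⟩
  · intro x
    by_cases hx : x ∈ K
    · obtain ⟨h1, h2⟩ := hN x hx
      simp only [hx, if_true, h1]
      have h3 : N (rho τ M (N x) x) = N x := by
        apply huniq _ h1
        · rw [rho_rho hτ.inv hM.inv]
          exact hx
        · intro j hj hcon
          obtain ⟨m, hm⟩ : ∃ m, N x = m + j + 1 := ⟨N x - j - 1, by omega⟩
          rw [hm, rho_rev hτ.inv hM.inv] at hcon
          have h4 := hMK _ hcon
          rw [hM.inv] at h4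
          exact h2 m (by omega) h4
      rw [h3, rho_rho hτ.inv hM.inv]
    · simp only [hx, if_false]
  · intro x hx
    simp only [hx, if_true]
    exact (hN x hx).1
  · intro x hx
    simp only [hx, if_true]
    exact (hZ _ x (hKZ hx)).2
  · intro R hR1 hR2 x hx
    simp only [hx, if_true]
    obtain ⟨h1, h2⟩ := hN x hx
    have h3 : ∀ j ≤ N x, R x (rho τ M j x) := by
      intro j hj
      induction j with
      | zero => exact hR1 x (hKZ hx)
      | succ j ih =>
        have h4 := ih (by omega)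
        have h5 := hR2 _ (hZ j x (hKZ hx)).1 (h2 j (by omega))
        have h6 := hR1 _ (hM.maps _ (hZ j x (hKZ hx)).1)
        rw [rho_succ]
        exact R.trans' h4 (R.trans' h5 h6)
    exact h3 _ le_rfl

/-- For every perfect matching `τ` of `K` between the signs there is one with `adj`-edges such that
the two together connect `K`. -/
def Fink (s : Y → Bool) (adj : Y → Y → Prop) (K : Set Y) : Prop :=
  ∀ τ : Y → Y, Mat s K τ → ∃ M : Y → Y, Mat s K M ∧ (∀ x ∈ K, adj x (M x)) ∧
    ∀ R : Setoid Y, (∀ x ∈ K, R x (τ x)) → (∀ x ∈ K, R x (M x)) → ∀ x ∈ K, ∀ y ∈ K, R x y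

/-- **Merging**: change `M` inside `K` only, such that `K` becomes connected by `τ` and `M'`. -/
theorem merge [Finite Y] (s : Y → Bool) (adj : Y → Y → Prop) (Z K : Set Y) (hKZ : K ⊆ Z)
    (hF : Fink s adj K) (τ M : Y → Y)
    (hτ : Mat s Z τ) (hM : Mat s Z M) (hMK : ∀ x ∈ K, M x ∈ K) :
    ∃ M' : Y → Y, Mat s Z M' ∧ (∀ x, x ∉ K → M' x = M x) ∧ (∀ x ∈ K, M' x ∈ K ∧ adj x (M' x)) ∧
      ∀ R : Setoid Y, (∀ x ∈ Z, R x (τ x)) → (∀ x ∈ Z, R x (M' x)) → ∀ x ∈ K, ∀ y ∈ K, R x y := by
  classical
  obtain ⟨τ', hτ', hR'⟩ := contract s Z K hKZ τ M hτ hM hMK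
  obtain ⟨M1, hM1, hadj, hcon⟩ := hF τ' hτ'
  have hK2 : ∀ x, x ∉ K → M x ∉ K := by
    intro x hx h
    have := hMK _ h
    rw [hM.inv] at this
    exact hx this
  refine ⟨fun x => if x ∈ K then M1 x else M x, ⟨?_, ?_, ?_⟩, ?_, ?_, ?_⟩
  · intro x
    by_cases hx : x ∈ K
    · simp only [hx, if_true, hM1.maps x hx, hM1.inv]
    · simp only [hx, if_false, hK2 x hx, hM.inv]
  · intro x hx
    by_cases hxK : x ∈ K
    · simp only [hxK, if_true]
      exact hKZ (hM1.maps x hxK)
    · simp only [hxK, if_false]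
      exact hM.maps x hx
  · intro x hx
    by_cases hxK : x ∈ K
    · simp only [hxK, if_true]
      exact hM1.flip x hxK
    · simp only [hxK, if_false]
      exact hM.flip x hx
  · intro x hx
    simp only [hx, if_false]
  · intro x hx
    simp only [hx, if_true]
    exact ⟨hM1.maps x hx, hadj x hx⟩
  · intro R h1 h2
    apply hcon R
    · apply hR' R h1
      intro x hx hxK
      have := h2 x hx
      simpa only [hxK, if_false] using this
    · intro x hx
      have := h2 x (hKZ hx)
      simpa only [hx, if_true] using this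

/-- The cube spanned by the sets `T ⊆ J`: `c` is injective on them, neighbours have different signs
and are adjacent. -/
structure Cube {I : Type*} [DecidableEq I] (s : Y → Bool) (adj : Y → Y → Prop) (J : Finset I)
    (c : Finset I → Y) : Prop where
  inj : ∀ T ⊆ J, ∀ T' ⊆ J, c T = c T' → T = T'
  adj1 : ∀ T ⊆ J, ∀ j ∈ J, j ∉ T → adj (c T) (c (insert j T))
  adj2 : ∀ T ⊆ J, ∀ j ∈ J, j ∉ T → adj (c (insert j T)) (c T)
  flip : ∀ T ⊆ J, ∀ j ∈ J, j ∉ T → s (c (insert j T)) = !(s (c T))

/-- the vertices of the cube -/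
def cubeSet {I : Type*} (J : Finset I) (c : Finset I → Y) : Set Y := {y | ∃ T ⊆ J, c T = y}

variable {I : Type*} [DecidableEq I]

theorem Cube.erase {s : Y → Bool} {adj : Y → Y → Prop} {J : Finset I} {c : Finset I → Y}
    (h : Cube s adj J c) (j : I) : Cube s adj (J.erase j) c :=
  ⟨fun T hT T' hT' => h.inj T (hT.trans (Finset.erase_subset _ _)) T'
      (hT'.trans (Finset.erase_subset _ _)),
    fun T hT i hi hiT => h.adj1 T (hT.trans (Finset.erase_subset _ _)) i (Finset.mem_of_mem_erase hi)
      hiT,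
    fun T hT i hi hiT => h.adj2 T (hT.trans (Finset.erase_subset _ _)) i (Finset.mem_of_mem_erase hi)
      hiT,
    fun T hT i hi hiT => h.flip T (hT.trans (Finset.erase_subset _ _)) i (Finset.mem_of_mem_erase hi)
      hiT⟩

theorem Cube.eraseInsert {s : Y → Bool} {adj : Y → Y → Prop} {J : Finset I} {c : Finset I → Y}
    (h : Cube s adj J c) {j : I} (hj : j ∈ J) :
    Cube s adj (J.erase j) (fun T => c (insert j T)) := by
  have key : ∀ T ⊆ J.erase j, insert j T ⊆ J ∧ j ∉ T := by
    intro T hT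
    refine ⟨?_, fun hjT => by simpa using hT hjT⟩
    intro x hx
    rcases Finset.mem_insert.1 hx with rfl | hx
    · exact hj
    · exact Finset.mem_of_mem_erase (hT hx)
  have key2 : ∀ T : Finset I, ∀ i ∈ J.erase j, i ∉ T → i ∉ insert j T := by
    intro T i hi hiT hcon
    rcases Finset.mem_insert.1 hcon with rfl | h1
    · simp at hi
    · exact hiT h1
  refine ⟨?_, ?_, ?_, ?_⟩
  · intro T hT T' hT' he
    have h1 := h.inj _ (key T hT).1 _ (key T' hT').1 he
    rw [← Finset.erase_insert (key T hT).2, h1, Finset.erase_insert (key T' hT').2]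
  · intro T hT i hi hiT
    have h1 := h.adj1 _ (key T hT).1 i (Finset.mem_of_mem_erase hi) (key2 T i hi hiT)
    rw [Finset.insert_comm] at h1
    exact h1
  · intro T hT i hi hiT
    have h1 := h.adj2 _ (key T hT).1 i (Finset.mem_of_mem_erase hi) (key2 T i hi hiT)
    rw [Finset.insert_comm] at h1
    exact h1
  · intro T hT i hi hiT
    have h1 := h.flip _ (key T hT).1 i (Finset.mem_of_mem_erase hi) (key2 T i hi hiT)
    rw [Finset.insert_comm] at h1
    exact h1

/-- the matching of a cube in the direction `i` -/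
theorem Cube.exists_mat {s : Y → Bool} {adj : Y → Y → Prop} {J : Finset I} {c : Finset I → Y}
    (h : Cube s adj J c) {i : I} (hi : i ∈ J) :
    ∃ M : Y → Y, Mat s (cubeSet J c) M ∧ ∀ T ⊆ J, i ∉ T →
      M (c T) = c (insert i T) ∧ M (c (insert i T)) = c T := by
  classical
  let tg : Finset I → Finset I := fun T => if i ∈ T then T.erase i else insert i T
  have htg : ∀ T, tg (tg T) = T := by
    intro T
    by_cases hT : i ∈ T
    · simp only [tg, hT, if_true, Finset.mem_erase, ne_eq, not_true, false_and, if_false]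
      exact Finset.insert_erase hT
    · simp only [tg, hT, if_false, Finset.mem_insert_self, if_true]
      exact Finset.erase_insert hT
  have htgJ : ∀ T ⊆ J, tg T ⊆ J := by
    intro T hT
    by_cases hT2 : i ∈ T
    · simp only [tg, hT2, if_true]
      exact (Finset.erase_subset _ _).trans hT
    · simp only [tg, hT2, if_false]
      intro x hx
      rcases Finset.mem_insert.1 hx with rfl | hx
      · exact hi
      · exact hT hx
  have hflip : ∀ T ⊆ J, s (c (tg T)) = !(s (c T)) := by
    intro T hT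
    by_cases hT2 : i ∈ T
    · simp only [tg, hT2, if_true]
      have h1 := h.flip (T.erase i) ((Finset.erase_subset _ _).trans hT) i hi
        (Finset.notMem_erase i T)
      rw [Finset.insert_erase hT2] at h1
      rw [h1, Bool.not_not]
    · simp only [tg, hT2, if_false]
      exact h.flip T hT i hi hT2
  have hch : ∀ y : Y, ∃ T : Finset I, y ∈ cubeSet J c → T ⊆ J ∧ c T = y := by
    intro y
    by_cases hy : y ∈ cubeSet J c
    · obtain ⟨T, hT, hTy⟩ := hy
      exact ⟨T, fun _ => ⟨hT, hTy⟩⟩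
    · exact ⟨∅, fun h => absurd h hy⟩
  choose d hd using hch
  have hdc : ∀ T ⊆ J, d (c T) = T := by
    intro T hT
    obtain ⟨h1, h2⟩ := hd (c T) ⟨T, hT, rfl⟩
    exact h.inj _ h1 _ hT h2
  let M : Y → Y := fun y => if y ∈ cubeSet J c then c (tg (d y)) else y
  have hMc : ∀ T ⊆ J, M (c T) = c (tg T) := by
    intro T hT
    have : c T ∈ cubeSet J c := ⟨T, hT, rfl⟩
    simp only [M, this, if_true, hdc T hT]
  refine ⟨M, ⟨?_, ?_, ?_⟩, ?_⟩
  · intro y
    by_cases hy : y ∈ cubeSet J c
    · obtain ⟨T, hT, rfl⟩ := hy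
      rw [hMc T hT, hMc _ (htgJ T hT), htg]
    · simp only [M, hy, if_false]
  · rintro y ⟨T, hT, rfl⟩
    rw [hMc T hT]
    exact ⟨tg T, htgJ T hT, rfl⟩
  · rintro y ⟨T, hT, rfl⟩
    rw [hMc T hT]
    exact hflip T hT
  · intro T hT hiT
    have h1 := hMc T hT
    have h2 : tg T = insert i T := by simp only [tg, hiT, if_false]
    have h3 : tg (insert i T) = T := by rw [← h2, htg]
    rw [h2] at h1
    refine ⟨h1, ?_⟩
    rw [hMc _ (h2 ▸ htgJ T hT), h3]

theorem cubeSet_split {J : Finset I} {c : Finset I → Y} {j : I} (hj : j ∈ J) :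
    cubeSet J c = cubeSet (J.erase j) c ∪ cubeSet (J.erase j) (fun T => c (insert j T)) := by
  ext y
  constructor
  · rintro ⟨T, hT, rfl⟩
    by_cases hjT : j ∈ T
    · right
      refine ⟨T.erase j, Finset.erase_subset_erase j hT, ?_⟩
      simp only [Finset.insert_erase hjT]
    · left
      exact ⟨T, Finset.subset_erase.2 ⟨hT, hjT⟩, rfl⟩
  · rintro (⟨T, hT, rfl⟩ | ⟨T, hT, rfl⟩)
    · exact ⟨T, hT.trans (Finset.erase_subset _ _), rfl⟩
    · refine ⟨insert j T, ?_, rfl⟩
      intro x hx
      rcases Finset.mem_insert.1 hx with rfl | hx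
      · exact hj
      · exact Finset.mem_of_mem_erase (hT hx)

theorem cubeSet_disj {s : Y → Bool} {adj : Y → Y → Prop} {J : Finset I} {c : Finset I → Y}
    (h : Cube s adj J c) {j : I} (hj : j ∈ J) {y : Y} (h1 : y ∈ cubeSet (J.erase j) c)
    (h2 : y ∈ cubeSet (J.erase j) (fun T => c (insert j T))) : False := by
  obtain ⟨T, hT, rfl⟩ := h1
  obtain ⟨T', hT', he⟩ := h2
  have hsub : insert j T' ⊆ J := by
    intro x hx
    rcases Finset.mem_insert.1 hx with rfl | hx
    · exact hj
    · exact Finset.mem_of_mem_erase (hT' hx)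
  have h3 := h.inj _ hsub _ (hT.trans (Finset.erase_subset _ _)) he
  have h4 : j ∈ T := h3 ▸ Finset.mem_insert_self j T'
  have := hT h4
  simp at this

/-- **Fink's theorem**, bipartite form: every cube of dimension at least one has the property. -/
theorem Cube.fink [Finite Y] {s : Y → Bool} {adj : Y → Y → Prop} {J : Finset I}
    {c : Finset I → Y} (h : Cube s adj J c) (hJ : J.Nonempty) : Fink s adj (cubeSet J c) := by
  classical
  obtain ⟨n, hn⟩ : ∃ n, J.card = n + 1 := ⟨J.card - 1, by have := hJ.card_pos; omega⟩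
  induction n generalizing J c with
  | zero =>
    obtain ⟨j, rfl⟩ := Finset.card_eq_one.1 hn
    intro τ hτ
    obtain ⟨M, hM, hMc⟩ := h.exists_mat (Finset.mem_singleton_self j)
    have hj0 : j ∉ (∅ : Finset I) := Finset.notMem_empty j
    obtain ⟨h1, h2⟩ := hMc ∅ (Finset.empty_subset _) hj0
    have hset : ∀ y ∈ cubeSet {j} c, y = c ∅ ∨ y = c (insert j ∅) := by
      rintro y ⟨T, hT, rfl⟩
      rcases Finset.subset_singleton_iff.1 hT with rfl | rfl
      · left; rfl
      · right; rfl
    refine ⟨M, hM, ?_, ?_⟩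
    · intro x hx
      rcases hset x hx with rfl | rfl
      · rw [h1]
        exact h.adj1 ∅ (Finset.empty_subset _) j (Finset.mem_singleton_self j) hj0
      · rw [h2]
        exact h.adj2 ∅ (Finset.empty_subset _) j (Finset.mem_singleton_self j) hj0
    · intro R _ hR2
      have h3 : R (c ∅) (c (insert j ∅)) := by
        have := hR2 (c ∅) ⟨∅, Finset.empty_subset _, rfl⟩
        rwa [h1] at this
      intro x hx y hy
      rcases hset x hx with rfl | rfl <;> rcases hset y hy with rfl | rfl
      · exact R.refl' _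
      · exact h3
      · exact R.symm' h3
      · exact R.refl' _
  | succ n ih =>
    intro τ hτ
    -- a coordinate which separates `c ∅` from its partner
    have h0 : c ∅ ∈ cubeSet J c := ⟨∅, Finset.empty_subset _, rfl⟩
    obtain ⟨T0, hT0, hT0c⟩ := hτ.maps _ h0
    have hT0ne : T0.Nonempty := by
      rw [Finset.nonempty_iff_ne_empty]
      rintro rfl
      have := hτ.flip _ h0
      rw [← hT0c] at this
      cases hs : s (c ∅) <;> rw [hs] at this <;> simp at this
    obtain ⟨j, hjT0⟩ := hT0ne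
    have hj : j ∈ J := hT0 hjT0
    have hcard : (J.erase j).card = n + 1 := by rw [Finset.card_erase_of_mem hj, hn]; rfl
    have hne : (J.erase j).Nonempty := Finset.card_pos.1 (by omega)
    obtain ⟨i, hi⟩ := hne
    have hiJ : i ∈ J := Finset.mem_of_mem_erase hi
    have hij : i ≠ j := Finset.ne_of_mem_erase hi
    set K0 := cubeSet (J.erase j) c with hK0
    set K1 := cubeSet (J.erase j) (fun T => c (insert j T)) with hK1
    have hF0 : Fink s adj K0 := ih (h.erase j) ⟨i, hi⟩ hcard
    have hF1 : Fink s adj K1 := ih (h.eraseInsert hj) ⟨i, hi⟩ hcard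
    have hK : cubeSet J c = K0 ∪ K1 := cubeSet_split hj
    have hdis : ∀ y, y ∈ K0 → y ∉ K1 := fun y h1 h2 => cubeSet_disj h hj h1 h2
    obtain ⟨M0, hM0, hM0c⟩ := h.exists_mat hiJ
    -- `M0` preserves both halves
    have hM00 : ∀ x ∈ K0, M0 x ∈ K0 := by
      rintro x ⟨T, hT, rfl⟩
      by_cases hiT : i ∈ T
      · have h1 := (hM0c (T.erase i) (((Finset.erase_subset _ _).trans hT).trans
          (Finset.erase_subset _ _)) (Finset.notMem_erase i T)).2
        rw [Finset.insert_erase hiT] at h1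
        rw [h1]
        exact ⟨T.erase i, (Finset.erase_subset _ _).trans hT, rfl⟩
      · rw [(hM0c T (hT.trans (Finset.erase_subset _ _)) hiT).1]
        refine ⟨insert i T, ?_, rfl⟩
        intro x hx
        rcases Finset.mem_insert.1 hx with rfl | hx
        · exact hi
        · exact hT hx
    have hM01 : ∀ x ∈ K1, M0 x ∈ K1 := by
      intro x hx
      have h1 : M0 x ∈ K0 ∪ K1 := hK ▸ hM0.maps x (hK ▸ Or.inr hx)
      rcases h1 with h1 | h1
      · have h2 := hM00 _ h1
        rw [hM0.inv] at h2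
        exact absurd hx (hdis _ h2)
      · exact h1
    have hK0Z : K0 ⊆ cubeSet J c := by rw [hK]; exact Set.subset_union_left
    have hK1Z : K1 ⊆ cubeSet J c := by rw [hK]; exact Set.subset_union_right
    obtain ⟨M1, hM1, hM1a, hM1b, hM1c⟩ := merge s adj (cubeSet J c) K0 hK0Z hF0 τ M0 hτ hM0 hM00
    have hM11 : ∀ x ∈ K1, M1 x ∈ K1 := by
      intro x hx
      rw [hM1a x (fun h0 => hdis _ h0 hx)]
      exact hM01 x hx
    obtain ⟨M2, hM2, hM2a, hM2b, hM2c⟩ := merge s adj (cubeSet J c) K1 hK1Z hF1 τ M1 hτ hM1 hM11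
    refine ⟨M2, hM2, ?_, ?_⟩
    · intro x hx
      rw [hK] at hx
      rcases hx with hx | hx
      · rw [hM2a x (hdis x hx)]
        exact (hM1b x hx).2
      · exact (hM2b x hx).2
    · intro R hR1 hR2
      have h1 := hM2c R hR1 hR2
      have h2 : ∀ x ∈ K0, ∀ y ∈ K0, R x y := by
        apply hM1c R hR1
        intro x hx
        by_cases hx1 : x ∈ K1
        · exact h1 x hx1 _ (hM11 x hx1)
        · rw [← hM2a x hx1]
          exact hR2 x hx
      have h3 : c ∅ ∈ K0 := ⟨∅, Finset.empty_subset _, rfl⟩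
      have h4 : τ (c ∅) ∈ K1 := by
        refine ⟨T0.erase j, Finset.erase_subset_erase j hT0, ?_⟩
        simp only [Finset.insert_erase hjT0]
        exact hT0c
      have h5 := hR1 _ h0
      have h6 : ∀ x ∈ cubeSet J c, R x (c ∅) := by
        intro x hx
        rw [hK] at hx
        rcases hx with hx | hx
        · exact h2 x hx _ h3
        · exact R.trans' (h1 x hx _ h4) (R.symm' h5)
      intro x hx y hy
      exact R.trans' (h6 x hx) (R.symm' (h6 y hy))

end Pool.Agent.Work.MP_8f87b2_h26
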