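import Pool.Agent.Work.MP_8f87b2_h26.F2M
import Pool.Agent.Work.MP_8f87b2_h26.Fink

/-!
# The abstract form of helper18's theorem (c2), steps (1) to (3)

`S` a finite set of configurations with the shift `σ` by one place, `av x` the available toggles of
the pairs of places `(2j, 2j+1)`, `act x` the pairs with odd sum (an odd number of them),
`tt T x` the configuration with the toggles in `T` applied. `X = S / σ`.
There is a permutation `f` of `X` which moves every element by a toggle and all of whose good classes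
lie in one cycle of `f`.
-/

namespace Pool.Agent.Work.MP_8f87b2_h26

open Equiv

/-- Iterated merging over all good classes. -/
theorem merge_all {Y : Type*} [Finite Y] (s : Y → Bool) (adj : Y → Y → Prop) (C : Setoid Y)
    (good : Y → Prop) (hgood : ∀ x y, C x y → good x → good y)
    (hF : ∀ y, good y → Fink s adj {z | C y z}) (τ M : Y → Y) (hτ : Mat s Set.univ τ)
    (hM : Mat s Set.univ M) (hMC : ∀ y, C y (M y)) :
    ∃ M' : Y → Y, Mat s Set.univ M' ∧ (∀ y, C y (M' y)) ∧ (∀ y, ¬ good y → M' y = M y) ∧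
      (∀ y, good y → adj y (M' y)) ∧
      ∀ R : Setoid Y, (∀ x, R x (τ x)) → (∀ x, R x (M' x)) → ∀ y z, good y → C y z → R y z := by
  classical
  have : Finite (Quotient C) := Quotient.finite C
  have := Fintype.ofFinite (Quotient C)
  have key : ∀ A : Finset (Quotient C), (∀ y, Quotient.mk C y ∈ A → good y) →
      ∃ M' : Y → Y, Mat s Set.univ M' ∧ (∀ y, C y (M' y)) ∧
        (∀ y, Quotient.mk C y ∉ A → M' y = M y) ∧ (∀ y, Quotient.mk C y ∈ A → adj y (M' y)) ∧
        ∀ R : Setoid Y, (∀ x, R x (τ x)) → (∀ x, R x (M' x)) →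
          ∀ y z, Quotient.mk C y ∈ A → C y z → R y z := by
    intro A
    induction A using Finset.induction_on with
    | empty =>
      intro _
      refine ⟨M, hM, hMC, fun _ _ => rfl, fun y hy => ?_, fun R _ _ y z hy => ?_⟩
      · simp at hy
      · simp at hy
    | insert q A hq ih =>
      intro hA
      obtain ⟨M1, h1, h2, h3, h4, h5⟩ := ih (fun y hy => hA y (Finset.mem_insert_of_mem hy))
      induction q using Quotient.inductionOn with
      | h y0 => ?_
      have hg0 : good y0 := hA y0 (Finset.mem_insert_self _ _)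
      have hM1K : ∀ x ∈ {z | C y0 z}, M1 x ∈ {z | C y0 z} := by
        intro x hx
        exact C.trans' hx (h2 x)
      obtain ⟨M2, k1, k2, k3, k4⟩ := merge s adj Set.univ {z | C y0 z} (Set.subset_univ _)
        (hF y0 hg0) τ M1 hτ h1 hM1K
      have hmem : ∀ y, Quotient.mk C y = Quotient.mk C y0 ↔ y ∈ {z | C y0 z} := by
        intro y
        constructor
        · intro h
          exact C.symm' (Quotient.exact h)
        · intro h
          exact Quotient.sound (C.symm' h)
      refine ⟨M2, k1, ?_, ?_, ?_, ?_⟩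
      · intro y
        by_cases hy : y ∈ {z | C y0 z}
        · exact C.trans' (C.symm' hy) (k3 y hy).1
        · rw [k2 y hy]
          exact h2 y
      · intro y hy
        rw [Finset.mem_insert, not_or] at hy
        rw [k2 y (fun h => hy.1 ((hmem y).2 h))]
        exact h3 y hy.2
      · intro y hy
        by_cases hy0 : y ∈ {z | C y0 z}
        · exact (k3 y hy0).2
        · rw [k2 y hy0]
          rcases Finset.mem_insert.1 hy with h | h
          · exact absurd ((hmem y).1 h) hy0
          · exact h4 y h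
      · intro R hR1 hR2 y z hy hyz
        have hK := k4 R (fun x _ => hR1 x) (fun x _ => hR2 x)
        have hM1R : ∀ x, R x (M1 x) := by
          intro x
          by_cases hx : x ∈ {z | C y0 z}
          · exact hK x hx _ (hM1K x hx)
          · rw [← k2 x hx]
            exact hR2 x
        rcases Finset.mem_insert.1 hy with h | h
        · have h6 := (hmem y).1 h
          exact hK y h6 z (C.trans' h6 hyz)
        · exact h5 R hR1 hM1R y z h hyz
  obtain ⟨M', h1, h2, h3, h4, h5⟩ := key (Finset.univ.filter fun q => good q.out) (by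
    intro y hy
    rw [Finset.mem_filter] at hy
    exact hgood _ _ (Quotient.exact (Quotient.out_eq (Quotient.mk C y))) hy.2)
  have hmem : ∀ y, good y ↔ Quotient.mk C y ∈ Finset.univ.filter fun q : Quotient C => good q.out := by
    intro y
    rw [Finset.mem_filter]
    have hc : C (Quotient.mk C y).out y := Quotient.exact (Quotient.out_eq (Quotient.mk C y))
    exact ⟨fun h => ⟨Finset.mem_univ _, hgood _ _ (C.symm' hc) h⟩, fun h => hgood _ _ hc h.2⟩
  exact ⟨M', h1, h2, fun y hy => h3 y (fun h => hy ((hmem y).2 h)), fun y hy => h4 y ((hmem y).1 hy),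
    fun R hR1 hR2 y z hy hyz => h5 R hR1 hR2 y z ((hmem y).1 hy) hyz⟩

/-- A toggle model: configurations `S`, pairs of places `I`. -/
structure Toggle (S I : Type*) [DecidableEq I] where
  /-- the shift by one place -/
  σ : Perm S
  /-- the action of the shift by two places on the pairs -/
  ρ : Perm I
  /-- the sign -/
  s : S → Bool
  /-- the available toggles -/
  av : S → Finset I
  /-- the pairs with odd sum -/
  act : S → Finset I
  /-- apply the toggles in `T` -/
  tt : Finset I → S → S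
  s_σ : ∀ x, s (σ x) = !(s x)
  av_σ : ∀ x, av (σ (σ x)) = (av x).map ρ.toEmbedding
  act_σ : ∀ x, act (σ (σ x)) = (act x).map ρ.toEmbedding
  tt_σ : ∀ x, ∀ T ⊆ av x, tt (T.map ρ.toEmbedding) (σ (σ x)) = σ (σ (tt T x))
  act_sub : ∀ x, act x ⊆ av x
  act_odd : ∀ x, Odd (act x).card
  tt_empty : ∀ x, tt ∅ x = x
  av_tt : ∀ x, ∀ T ⊆ av x, av (tt T x) = av x
  act_tt : ∀ x, ∀ T ⊆ av x, act (tt T x) = act x
  tt_tt : ∀ x, ∀ T ⊆ av x, ∀ T' ⊆ av x, tt T (tt T' x) = tt (symmDiff T T') x
  s_tt : ∀ x, ∀ i ∈ av x, s (tt {i} x) = !(s x)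

namespace Toggle

variable {S I : Type*} [DecidableEq I] (D : Toggle S I)

/-- equality up to shifts by an even number of places -/
def r : Setoid S := Perm.SameCycle.setoid (D.σ * D.σ)

/-- equality up to shifts -/
def rX : Setoid S := Perm.SameCycle.setoid D.σ

theorem s_r {x y : S} (h : D.r x y) : D.s x = D.s y := by
  have hn : ∀ (n : ℕ) (x : S), D.s (((D.σ * D.σ) ^ n) x) = D.s x := by
    intro n x
    induction n with
    | zero => rfl
    | succ n ih =>
      rw [pow_succ', Perm.mul_apply, Perm.mul_apply, D.s_σ, D.s_σ, Bool.not_not, ih]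
  obtain ⟨k, hk⟩ := h
  obtain ⟨n, rfl | rfl⟩ := k.eq_nat_or_neg
  · rw [zpow_natCast] at hk
    rw [← hk, hn]
  · rw [zpow_neg, zpow_natCast, Perm.inv_eq_iff_eq] at hk
    rw [hk, hn]

/-- A shift by an even number of places carries the toggles along. -/
theorem r_tt {x y : S} (h : D.r x y) : ∃ e : Perm I, D.av y = (D.av x).map e.toEmbedding ∧
    D.act y = (D.act x).map e.toEmbedding ∧
    ∀ T ⊆ D.av x, D.r (D.tt T x) (D.tt (T.map e.toEmbedding) y) := by
  have hn : ∀ (n : ℕ) (x : S), ∃ e : Perm I,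
      D.av (((D.σ * D.σ) ^ n) x) = (D.av x).map e.toEmbedding ∧
      D.act (((D.σ * D.σ) ^ n) x) = (D.act x).map e.toEmbedding ∧
      ∀ T ⊆ D.av x, D.tt (T.map e.toEmbedding) (((D.σ * D.σ) ^ n) x) =
        ((D.σ * D.σ) ^ n) (D.tt T x) := by
    intro n x
    induction n with
    | zero =>
      refine ⟨Equiv.refl I, ?_, ?_, ?_⟩
      · ext i; simp
      · ext i; simp
      · intro T _
        have : T.map (Equiv.refl I).toEmbedding = T := by ext i; simp
        rw [this]
        rfl
    | succ n ih =>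
      obtain ⟨e, h1, h2, h3⟩ := ih
      refine ⟨D.ρ * e, ?_, ?_, ?_⟩
      · rw [pow_succ', Perm.mul_apply, Perm.mul_apply, D.av_σ, h1, Finset.map_map]
        rfl
      · rw [pow_succ', Perm.mul_apply, Perm.mul_apply, D.act_σ, h2, Finset.map_map]
        rfl
      · intro T hT
        have h4 : T.map (D.ρ * e).toEmbedding = (T.map e.toEmbedding).map D.ρ.toEmbedding := by
          rw [Finset.map_map]
          rfl
        rw [pow_succ', Perm.mul_apply, Perm.mul_apply, h4, D.tt_σ, h3 T hT]
        · rfl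
        · rw [h1]
          exact Finset.map_subset_map.2 hT
  obtain ⟨k, hk⟩ := h
  obtain ⟨n, rfl | rfl⟩ := k.eq_nat_or_neg
  · rw [zpow_natCast] at hk
    obtain ⟨e, h1, h2, h3⟩ := hn n x
    rw [hk] at h1 h2 h3
    refine ⟨e, h1, h2, fun T hT => ?_⟩
    rw [h3 T hT]
    exact ⟨n, by rw [zpow_natCast]⟩
  · rw [zpow_neg, zpow_natCast, Perm.inv_eq_iff_eq] at hk
    obtain ⟨e, h1, h2, h3⟩ := hn n y
    rw [← hk] at h1 h2 h3
    have key : ∀ A : Finset I, (A.map e.toEmbedding).map e⁻¹.toEmbedding = A := by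
      intro A
      rw [Finset.map_map]
      ext i
      simp
    refine ⟨e⁻¹, ?_, ?_, fun T hT => ?_⟩
    · rw [h1, key]
    · rw [h2, key]
    · have hT' : T.map e⁻¹.toEmbedding ⊆ D.av y := by
        have := Finset.map_subset_map (f := e⁻¹.toEmbedding) |>.2 hT
        rwa [h1, key] at this
      have h4 := h3 _ hT'
      have h5 : (T.map e⁻¹.toEmbedding).map e.toEmbedding = T := by
        rw [Finset.map_map]
        ext i
        simp
      rw [h5] at h4
      rw [h4]
      refine (Setoid.symm' D.r ?_)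
      exact ⟨n, by rw [zpow_natCast]⟩

theorem r_σ {x y : S} (h : D.r x y) : D.r (D.σ x) (D.σ y) := by
  obtain ⟨k, hk⟩ := h
  refine ⟨k, ?_⟩
  have hc : Commute ((D.σ * D.σ) ^ k) D.σ :=
    Commute.zpow_left ((Commute.refl D.σ).mul_left (Commute.refl D.σ)) k
  have := congrArg (fun g : Perm S => g x) hc.eq
  simp only [Perm.mul_apply] at this
  rw [this, ← hk]

/-- The class of `x` is good if different sets of toggles give different results, even up to shifts
by an even number of places. -/
def Good (x : S) : Prop :=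
  ∀ T ⊆ D.av x, ∀ T' ⊆ D.av x, D.r (D.tt T x) (D.tt T' x) → T = T'

theorem good_tt {x : S} (h : D.Good x) {U : Finset I} (hU : U ⊆ D.av x) : D.Good (D.tt U x) := by
  intro T hT T' hT' hr
  rw [D.av_tt x U hU] at hT hT'
  rw [D.tt_tt x T hT U hU, D.tt_tt x T' hT' U hU] at hr
  have hsub : ∀ A ⊆ D.av x, symmDiff A U ⊆ D.av x := by
    intro A hA i hi
    rw [Finset.mem_symmDiff] at hi
    rcases hi with ⟨h1, _⟩ | ⟨h1, _⟩
    · exact hA h1
    · exact hU h1
  have h1 := h _ (hsub T hT) _ (hsub T' hT') hr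
  exact symmDiff_left_injective U h1

theorem good_r {x y : S} (h : D.Good x) (hxy : D.r x y) : D.Good y := by
  obtain ⟨e, h1, -, h3⟩ := D.r_tt (D.r.symm' hxy)
  intro T hT T' hT' hr
  have e1 := h3 T hT
  have e2 := h3 T' hT'
  have k1 : T.map e.toEmbedding ⊆ D.av x := by rw [h1]; exact Finset.map_subset_map.2 hT
  have k2 : T'.map e.toEmbedding ⊆ D.av x := by rw [h1]; exact Finset.map_subset_map.2 hT'
  have h4 := h _ k1 _ k2 (D.r.trans' (D.r.symm' e1) (D.r.trans' hr e2))
  exact Finset.map_injective _ h4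

/-- The classes: toggles and shifts by an even number of places. -/
def C : Setoid (Quotient D.r) where
  r y z := ∃ x : S, ∃ T ⊆ D.av x, Quotient.mk D.r x = y ∧ Quotient.mk D.r (D.tt T x) = z
  iseqv := by
    refine ⟨?_, ?_, ?_⟩
    · intro y
      obtain ⟨x, rfl⟩ := Quotient.exists_rep y
      exact ⟨x, ∅, Finset.empty_subset _, rfl, by rw [D.tt_empty]⟩
    · rintro y z ⟨x, T, hT, rfl, rfl⟩
      refine ⟨D.tt T x, T, by rw [D.av_tt x T hT]; exact hT, rfl, ?_⟩
      rw [D.tt_tt x T hT T hT, symmDiff_self, Finset.bot_eq_empty, D.tt_empty]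
    · rintro y z w ⟨x, T, hT, rfl, rfl⟩ ⟨x', T', hT', h1, rfl⟩
      obtain ⟨e, k1, -, k3⟩ := D.r_tt (Quotient.exact h1)
      have hT2 : T'.map e.toEmbedding ⊆ D.av x := by
        have := Finset.map_subset_map (f := e.toEmbedding) |>.2 hT'
        rwa [← k1, D.av_tt x T hT] at this
      refine ⟨x, symmDiff (T'.map e.toEmbedding) T, ?_, rfl, ?_⟩
      · intro i hi
        rw [Finset.mem_symmDiff] at hi
        rcases hi with ⟨h1, _⟩ | ⟨h1, _⟩
        · exact hT2 h1
        · exact hT h1
      · rw [← D.tt_tt x _ hT2 T hT]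
        exact Quotient.sound (D.r.symm' (k3 T' hT'))

/-- the sign of a class modulo even shifts -/
def sY : Quotient D.r → Bool := Quotient.lift D.s (fun _ _ h => D.s_r h)

/-- the shift by one place, modulo even shifts -/
def τ : Quotient D.r → Quotient D.r :=
  Quotient.map D.σ (fun _ _ h => D.r_σ h)

theorem τ_mk (x : S) : D.τ (Quotient.mk D.r x) = Quotient.mk D.r (D.σ x) := rfl

theorem sY_mk (x : S) : D.sY (Quotient.mk D.r x) = D.s x := rfl

theorem mat_τ : Mat D.sY Set.univ D.τ := by
  refine ⟨?_, fun _ _ => trivial, ?_⟩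
  · intro y
    obtain ⟨x, rfl⟩ := Quotient.exists_rep y
    rw [D.τ_mk, D.τ_mk]
    apply Quotient.sound
    apply D.r.symm'
    exact ⟨1, by rw [zpow_one]; rfl⟩
  · intro y _
    obtain ⟨x, rfl⟩ := Quotient.exists_rep y
    rw [D.τ_mk, D.sY_mk, D.sY_mk, D.s_σ]

/-- neighbours by one toggle -/
def adj (y z : Quotient D.r) : Prop :=
  ∃ x : S, ∃ i ∈ D.av x, Quotient.mk D.r x = y ∧ Quotient.mk D.r (D.tt {i} x) = z

theorem s_insert {x : S} {T : Finset I} (hT : T ⊆ D.av x) {i : I} (hi : i ∈ D.av x) (hiT : i ∉ T) :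
    D.tt (insert i T) x = D.tt {i} (D.tt T x) := by
  rw [D.tt_tt x {i} (Finset.singleton_subset_iff.2 hi) T hT]
  congr 1
  ext j
  rw [Finset.mem_insert, Finset.mem_symmDiff, Finset.mem_singleton]
  constructor
  · rintro (rfl | h)
    · exact Or.inl ⟨rfl, hiT⟩
    · exact Or.inr ⟨h, fun he => hiT (he ▸ h)⟩
  · rintro (⟨h, _⟩ | ⟨h, _⟩)
    · exact Or.inl h
    · exact Or.inr h

theorem cube {x : S} (h : D.Good x) :
    Cube D.sY D.adj (D.av x) (fun T => Quotient.mk D.r (D.tt T x)) := by
  refine ⟨?_, ?_, ?_, ?_⟩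
  · intro T hT T' hT' he
    exact h T hT T' hT' (Quotient.exact he)
  · intro T hT i hi hiT
    refine ⟨D.tt T x, i, by rw [D.av_tt x T hT]; exact hi, rfl, ?_⟩
    rw [D.s_insert hT hi hiT]
  · intro T hT i hi hiT
    have hT2 : insert i T ⊆ D.av x := by
      intro j hj
      rcases Finset.mem_insert.1 hj with rfl | hj
      · exact hi
      · exact hT hj
    refine ⟨D.tt (insert i T) x, i, by rw [D.av_tt x _ hT2]; exact hi, rfl, ?_⟩
    rw [D.tt_tt x {i} (Finset.singleton_subset_iff.2 hi) _ hT2]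
    have : symmDiff {i} (insert i T) = T := by
      ext j
      rw [Finset.mem_symmDiff, Finset.mem_singleton, Finset.mem_insert]
      constructor
      · rintro (⟨h1, h2⟩ | ⟨h1, h2⟩)
        · exact absurd (Or.inl h1) h2
        · rcases h1 with h1 | h1
          · exact absurd h1 h2
          · exact h1
      · intro h1
        exact Or.inr ⟨Or.inr h1, fun he => hiT (he ▸ h1)⟩
    rw [this]
  · intro T hT i hi hiT
    change D.s (D.tt (insert i T) x) = !(D.s (D.tt T x))
    rw [D.s_insert hT hi hiT]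
    exact D.s_tt _ i (by rw [D.av_tt x T hT]; exact hi)

/-- **Steps (1) to (3)**: a permutation of the configurations modulo shifts, which moves every
element by one toggle, and such that every good class lies in one cycle. -/
theorem exists_perm [Finite S] : ∃ f : Perm (Quotient D.rX),
    (∀ q, ∃ x : S, ∃ i ∈ D.av x, Quotient.mk D.rX x = q ∧ f q = Quotient.mk D.rX (D.tt {i} x)) ∧
    (∀ x : S, ∃ i ∈ D.av x, f.SameCycle (Quotient.mk D.rX x) (Quotient.mk D.rX (D.tt {i} x))) ∧
    (∀ x : S, D.Good x → ∀ T ⊆ D.av x,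
      f.SameCycle (Quotient.mk D.rX x) (Quotient.mk D.rX (D.tt T x))) := by
  classical
  have : Finite (Quotient D.r) := Quotient.finite D.r
  -- the matching by active toggles
  obtain ⟨M, hM1, hM2⟩ := toggle_matching D.r D.act (fun i x => D.tt {i} x)
    (fun x i hi => D.act_tt x {i} (Finset.singleton_subset_iff.2 (D.act_sub x hi)))
    (fun x i hi => by
      have h1 : {i} ⊆ D.av x := Finset.singleton_subset_iff.2 (D.act_sub x hi)
      rw [D.tt_tt x {i} h1 {i} h1, symmDiff_self, Finset.bot_eq_empty, D.tt_empty])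
    (fun x i hi j hj => by
      have h1 : {i} ⊆ D.av x := Finset.singleton_subset_iff.2 (D.act_sub x hi)
      have h2 : {j} ⊆ D.av x := Finset.singleton_subset_iff.2 (D.act_sub x hj)
      rw [D.tt_tt x {i} h1 {j} h2, D.tt_tt x {j} h2 {i} h1, symmDiff_comm])
    D.act_odd
    (fun x y hxy => by
      obtain ⟨e, h1, h2, h3⟩ := D.r_tt hxy
      have hm : ∀ i, i ∈ D.act x ↔ e i ∈ D.act y := by
        intro i
        rw [h2, Finset.mem_map_equiv, Equiv.symm_apply_apply]
      refine ⟨e.subtypeEquiv hm, ?_⟩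
      intro i
      have h4 := h3 {i.1} (Finset.singleton_subset_iff.2 (D.act_sub x i.2))
      rw [Finset.map_singleton] at h4
      exact h4)
    D.s (fun x i hi => D.s_tt x i (D.act_sub x hi)) (fun x y h => D.s_r h)
  have hMat : Mat D.sY Set.univ M := by
    refine ⟨hM1, fun _ _ => trivial, ?_⟩
    intro y _
    obtain ⟨x, rfl⟩ := Quotient.exists_rep y
    obtain ⟨i, hi, h⟩ := hM2 x
    rw [h, D.sY_mk, D.sY_mk, D.s_tt x i (D.act_sub x hi)]
  have hMadj : ∀ y, D.adj y (M y) := by
    intro y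
    obtain ⟨x, rfl⟩ := Quotient.exists_rep y
    obtain ⟨i, hi, h⟩ := hM2 x
    exact ⟨x, i, D.act_sub x hi, rfl, h.symm⟩
  have hMC : ∀ y, D.C y (M y) := by
    intro y
    obtain ⟨x, i, hi, h1, h2⟩ := hMadj y
    exact ⟨x, {i}, Finset.singleton_subset_iff.2 hi, h1, h2⟩
  -- good classes
  let good : Quotient D.r → Prop := fun y => ∃ x, Quotient.mk D.r x = y ∧ D.Good x
  have hgoodC : ∀ y z, D.C y z → good y → good z := by
    rintro y z ⟨x, T, hT, rfl, rfl⟩ ⟨x', h1, h2⟩
    exact ⟨D.tt T x, rfl, D.good_tt (D.good_r h2 (Quotient.exact h1)) hT⟩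
  have hset : ∀ x : S, {z | D.C (Quotient.mk D.r x) z} =
      cubeSet (D.av x) (fun T => Quotient.mk D.r (D.tt T x)) := by
    intro x
    ext z
    constructor
    · rintro ⟨x', T, hT, h1, rfl⟩
      obtain ⟨e, k1, -, k3⟩ := D.r_tt (Quotient.exact h1)
      refine ⟨T.map e.toEmbedding, ?_, ?_⟩
      · rw [k1]
        exact Finset.map_subset_map.2 hT
      · exact Quotient.sound (D.r.symm' (k3 T hT))
    · rintro ⟨T, hT, rfl⟩
      exact ⟨x, T, hT, rfl, rfl⟩
  have hF : ∀ y, good y → Fink D.sY D.adj {z | D.C y z} := by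
    rintro y ⟨x, rfl, hx⟩
    rw [hset x]
    refine (D.cube hx).fink ?_
    have := (D.act_odd x).pos
    exact (Finset.card_pos.1 this).mono (D.act_sub x)
  obtain ⟨M', h1, h2, h3, h4, h5⟩ := merge_all D.sY D.adj D.C good hgoodC hF D.τ M D.mat_τ hMat hMC
  have hadj : ∀ y, D.adj y (M' y) := by
    intro y
    by_cases hy : good y
    · exact h4 y hy
    · rw [h3 y hy]
      exact hMadj y
  -- the projection to `X`
  have hrX : ∀ x y : S, D.r x y → D.rX x y := by
    rintro x y ⟨k, hk⟩
    refine ⟨k + k, ?_⟩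
    rw [zpow_add, ← hk]
    have : (D.σ * D.σ) ^ k = D.σ ^ k * D.σ ^ k := (Commute.refl D.σ).mul_zpow k
    rw [this]
  let π : Quotient D.r → Quotient D.rX := Quotient.map id hrX
  have hπ_mk : ∀ x : S, π (Quotient.mk D.r x) = Quotient.mk D.rX x := fun _ => rfl
  have hπτ : ∀ y, π (D.τ y) = π y := by
    intro y
    obtain ⟨x, rfl⟩ := Quotient.exists_rep y
    rw [D.τ_mk, hπ_mk, hπ_mk]
    apply Quotient.sound
    apply D.rX.symm'
    exact ⟨1, by rw [zpow_one]⟩
  have hπ_inj : ∀ y z, π y = π z → D.sY y = D.sY z → y = z := by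
    intro y z hyz hs
    obtain ⟨x, rfl⟩ := Quotient.exists_rep y
    obtain ⟨x', rfl⟩ := Quotient.exists_rep z
    rw [hπ_mk, hπ_mk] at hyz
    obtain ⟨k, hk⟩ := Quotient.exact hyz
    rcases Int.even_or_odd k with ⟨l, rfl⟩ | ⟨l, rfl⟩
    · apply Quotient.sound
      refine ⟨l, ?_⟩
      rw [← hk, (Commute.refl D.σ).mul_zpow l, zpow_add]
    · exfalso
      have h6 : D.r (D.σ x) x' := by
        refine ⟨l, ?_⟩
        rw [← hk, (Commute.refl D.σ).mul_zpow l, zpow_add, zpow_one, two_mul, zpow_add]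
        rfl
      have h7 := D.s_r h6
      rw [D.sY_mk, D.sY_mk] at hs
      rw [D.s_σ, hs] at h7
      cases hh : D.s x' <;> rw [hh] at h7 <;> simp at h7
  -- lifts
  have hlift : ∀ (b : Bool) (q : Quotient D.rX), ∃ y, π y = q ∧ D.sY y = b := by
    intro b q
    obtain ⟨x, rfl⟩ := Quotient.exists_rep q
    by_cases hb : D.s x = b
    · exact ⟨Quotient.mk D.r x, rfl, hb⟩
    · refine ⟨D.τ (Quotient.mk D.r x), by rw [hπτ, hπ_mk], ?_⟩
      rw [D.τ_mk, D.sY_mk, D.s_σ]
      cases hh : D.s x <;> cases b <;> simp_all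
  choose l hl1 hl2 using hlift
  have hsM : ∀ y, D.sY (M' y) = !(D.sY y) := fun y => h1.flip y trivial
  let f : Perm (Quotient D.rX) :=
    { toFun := fun q => π (M' (l false q))
      invFun := fun q => π (M' (l true q))
      left_inv := by
        intro q
        have e1 : l true (π (M' (l false q))) = M' (l false q) := by
          apply hπ_inj
          · rw [hl1]
          · rw [hl2, hsM, hl2]; rfl
        simp only [e1, h1.inv, hl1]
      right_inv := by
        intro q
        have e1 : l false (π (M' (l true q))) = M' (l true q) := by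
          apply hπ_inj
          · rw [hl1]
          · rw [hl2, hsM, hl2]; rfl
        simp only [e1, h1.inv, hl1] }
  have hf : ∀ q, f q = π (M' (l false q)) := fun _ => rfl
  have hf0 : ∀ y, D.sY y = false → f (π y) = π (M' y) := by
    intro y hy
    rw [hf]
    have : l false (π y) = y := hπ_inj _ _ (hl1 _ _) (by rw [hl2, hy])
    rw [this]
  have hfM : ∀ y, f.SameCycle (π y) (π (M' y)) := by
    intro y
    cases hy : D.sY y
    · rw [← hf0 y hy]
      exact ⟨1, by rw [zpow_one]⟩
    · have h6 : D.sY (M' y) = false := by rw [hsM, hy]; rfl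
      have h7 := hf0 _ h6
      rw [h1.inv] at h7
      apply Perm.SameCycle.symm
      exact ⟨1, by rw [zpow_one, h7]⟩
  let R : Setoid (Quotient D.r) := (Perm.SameCycle.setoid f).comap π
  have hRτ : ∀ y, R y (D.τ y) := by
    intro y
    change f.SameCycle (π y) (π (D.τ y))
    rw [hπτ]
  have hRM : ∀ y, R y (M' y) := hfM
  refine ⟨f, ?_, ?_, ?_⟩
  · intro q
    obtain ⟨x, i, hi, h6, h7⟩ := hadj (l false q)
    refine ⟨x, i, hi, ?_, ?_⟩
    · rw [← hπ_mk, h6, hl1]
    · rw [hf, ← h7, hπ_mk]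
  · intro x
    obtain ⟨x', i, hi, h6, h7⟩ := hadj (Quotient.mk D.r x)
    obtain ⟨e, k1, -, k3⟩ := D.r_tt (Quotient.exact h6)
    refine ⟨e i, ?_, ?_⟩
    · rw [k1, Finset.mem_map_equiv, Equiv.symm_apply_apply]
      exact hi
    · have h8 := hfM (Quotient.mk D.r x)
      rw [← h7, hπ_mk, hπ_mk] at h8
      have h9 := k3 {i} (Finset.singleton_subset_iff.2 hi)
      rw [Finset.map_singleton] at h9
      have h10 : Quotient.mk D.rX (D.tt {i} x') = Quotient.mk D.rX (D.tt {e i} x) :=
        Quotient.sound (hrX _ _ h9)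
      rw [← h10]
      exact h8
  · intro x hx T hT
    have h6 := h5 R hRτ hRM (Quotient.mk D.r x) (Quotient.mk D.r (D.tt T x)) ⟨x, rfl, hx⟩
      ⟨x, T, hT, rfl, rfl⟩
    exact h6

end Toggle

end Pool.Agent.Work.MP_8f87b2_h26
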