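import Pool.Agent.Work.MP_8f87b2_h26.Ms
import Pool.Agent.Work.MP_8f87b2_h26.Near
import Pool.Agent.Work.MP_8f87b2_h13.Cls

/-!
# Assembly: the hop graph of multisets on the ring has a Hamilton cycle

From `exists_perm` (helper13) and the connectivity statement (helper69), by the translation.
-/

set_option autoImplicit false

namespace Pool.OddHop

open Finset

/-- transport of a one-cycle permutation -/
theorem sameCycle_permCongr {α β : Type*} (E : α ≃ β) (f : Equiv.Perm α) (x y : β)
    (hf : f.SameCycle (E.symm x) (E.symm y)) : (E.permCongr f).SameCycle x y := by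
  obtain ⟨k, hk⟩ := hf
  refine ⟨k, ?_⟩
  have h1 : (E.permCongr f) ^ k = E.permCongr (f ^ k) := by
    have := map_zpow (Equiv.permCongrHom E) f k
    simpa using this.symm
  rw [h1, Equiv.permCongr_apply, hk, Equiv.apply_symm_apply]

variable {h cap g n m : ℕ} [NeZero h]

/-- the multiset of a state; `off = 0` for `cap = n`, `off = 1` for `cap = 1` -/
noncomputable def toMs [NeZero n] (hg : g ∣ n) (off : ℕ) (hb : 2 * h = m + off * n)
    (hoff : off = 0 ∨ (off = 1 ∧ cap = 1)) (s : St h cap g n) : Ms n m :=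
  ⟨fun x => bc (exists_lift hg s).choose x - off, by
    have hp := (exists_lift hg s).choose_spec
    have h1 : ∀ x, off ≤ bc (exists_lift hg s).choose x := by
      intro x
      rcases hoff with h2 | ⟨h2, h3⟩
      · omega
      · have := hp.walk.one_le (Nat.pos_of_ne_zero (NeZero.ne n))
          (fun i => (s.hcap i).trans h3.le) x
        omega
    have h2 := sum_bc (exists_lift hg s).choose
    have h3 : ∑ x : ZMod n, (bc (exists_lift hg s).choose x - off + off) =
        ∑ x, bc (exists_lift hg s).choose x :=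
      sum_congr rfl fun x _ => Nat.sub_add_cancel (h1 x)
    rw [sum_add_distrib, sum_const, card_univ, ZMod.card, smul_eq_mul, h2] at h3
    have : n * off = off * n := Nat.mul_comm _ _
    change ∑ x, (bc (exists_lift hg s).choose x - off) = m
    omega⟩

theorem relB_sub {hg : g ∣ n} {b b' : ZMod n → ℕ} (hr : RelB hg b b') (off : ℕ) :
    RelB hg (fun x => b x - off) (fun x => b' x - off) := by
  obtain ⟨t, ht, h1⟩ := hr
  exact ⟨t, ht, fun x => by simp only [h1]⟩

section

variable [NeZero n] {hg : g ∣ n} {off : ℕ} {hb : 2 * h = m + off * n}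
  {hoff : off = 0 ∨ (off = 1 ∧ cap = 1)}

theorem off_le (hoff : off = 0 ∨ (off = 1 ∧ cap = 1)) {s : St h cap g n}
    {p : ZMod (2 * h) → ZMod n} (hp : IsLift hg s p) (x : ZMod n) : off ≤ bc p x := by
  rcases hoff with h2 | ⟨h2, h3⟩
  · omega
  · have := hp.walk.one_le (Nat.pos_of_ne_zero (NeZero.ne n))
      (fun i => (s.hcap i).trans h3.le) x
    omega

theorem toMs_rel {s : St h cap g n} {p : ZMod (2 * h) → ZMod n} (hp : IsLift hg s p) :
    RelB hg (fun x => bc p x - off) (toMs hg off hb hoff s).1 :=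
  relB_sub (hp.rel (exists_lift hg s).choose_spec) off

theorem IsLift.rot {s : St h cap g n} {p : ZMod (2 * h) → ZMod n} (hp : IsLift hg s p)
    (k : ZMod (2 * h)) : IsLift hg (s.rot k) (fun i => p (i + k)) := by
  refine ⟨fun i => ?_, fun i => ?_⟩
  · have := hp.step (i + k)
    rw [St.rot_c, ← this]
    congr 1
    ring
  · rw [St.rot_lab]
    exact hp.cast (i + k)

theorem zpow_shiftPerm (k : ℤ) (s : St h cap g n) :
    (shiftPerm ^ k : Equiv.Perm (St h cap g n)) s = s.rot (k : ZMod (2 * h)) := by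
  have hn : ∀ (m : ℕ) (s : St h cap g n),
      (shiftPerm ^ m : Equiv.Perm (St h cap g n)) s = s.rot (m : ZMod (2 * h)) := by
    intro m s
    induction m with
    | zero => simp [St.rot_zero]
    | succ m ih =>
      rw [pow_succ', Equiv.Perm.mul_apply, ih, shiftPerm_apply, St.shift_eq, St.rot_rot]
      congr 1
      push_cast
      ring
  obtain ⟨m, rfl | rfl⟩ := k.eq_nat_or_neg
  · rw [zpow_natCast, hn]
    push_cast
    rfl
  · rw [zpow_neg, zpow_natCast, Equiv.Perm.inv_eq_iff_eq, hn, St.rot_rot]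
    push_cast
    simp [St.rot_zero]

theorem toMs_shift {s s' : St h cap g n} (hs : (shiftSetoid (h := h) (cap := cap) (g := g) (n := n)) s s') :
    RelB hg (toMs hg off hb hoff s).1 (toMs hg off hb hoff s').1 := by
  obtain ⟨k, hk⟩ := hs
  rw [zpow_shiftPerm] at hk
  obtain ⟨p, hp⟩ := exists_lift hg s
  have h1 := toMs_rel (hb := hb) (hoff := hoff) hp
  have h2 := toMs_rel (hb := hb) (hoff := hoff) (hp.rot (k : ZMod (2 * h)))
  rw [hk] at h2
  have h3 : (fun x => bc (fun i => p (i + (k : ZMod (2 * h)))) x - off) = fun x => bc p x - off := by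
    funext x
    rw [bc_shift]
  rw [h3] at h2
  exact h1.symm.trans h2

theorem toMs_inj {s s' : St h cap g n}
    (hr : RelB hg (toMs hg off hb hoff s).1 (toMs hg off hb hoff s').1) :
    (shiftSetoid (h := h) (cap := cap) (g := g) (n := n)) s s' := by
  have hp := (exists_lift hg s).choose_spec
  have hp' := (exists_lift hg s').choose_spec
  have h1 : RelB hg (bc (exists_lift hg s).choose) (bc (exists_lift hg s').choose) := by
    obtain ⟨t, ht, h2⟩ := hr
    refine ⟨t, ht, fun x => ?_⟩
    have h3 := h2 x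
    change bc (exists_lift hg s').choose (x + t) - off = bc (exists_lift hg s).choose x - off at h3
    have h4 := off_le hoff hp x
    have h5 := off_le hoff hp' (x + t)
    omega
  obtain ⟨k, hk⟩ := hp.inj (Nat.pos_of_ne_zero (NeZero.ne n)) hp' h1
  change Equiv.Perm.SameCycle shiftPerm s s'
  refine ⟨k, ?_⟩
  rw [zpow_shiftPerm, ← hk]
  obtain ⟨e1, e2⟩ := iter_shift26 s k
  apply St.ext
  · rw [e1]
    funext i
    rw [St.rot_c]
    push_cast
    rfl
  · rw [e2]
    funext i
    rw [St.rot_lab]
    push_cast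
    rfl

theorem toMs_surj (hcap : (off = 0 ∧ n ≤ cap) ∨ (off = 1 ∧ 1 ≤ cap)) (a : Ms n m) :
    ∃ s : St h cap g n, RelB hg (toMs hg off hb hoff s).1 a.1 := by
  have hsum : ∑ x, (a.1 x + off) = 2 * h := by
    rw [sum_add_distrib, a.2, sum_const, card_univ, ZMod.card, smul_eq_mul, hb,
      Nat.mul_comm n off]
  obtain ⟨s, p, hp, hx⟩ := exists_state (cap := cap) hg (Nat.pos_of_ne_zero (NeZero.ne n))
    (fun x => a.1 x + off) hsum (by
      rcases hcap with ⟨h1, h2⟩ | ⟨h1, h2⟩
      · exact Or.inl h2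
      · exact Or.inr ⟨h2, fun x => by omega⟩)
  refine ⟨s, ?_⟩
  have h1 := toMs_rel (hb := hb) (hoff := hoff) hp
  have h2 : (fun x => bc p x - off) = a.1 := by
    funext x
    rw [hx, Nat.add_sub_cancel]
  rw [h2] at h1
  exact h1.symm

theorem toMs_hop {s : St h cap g n} {i : ZMod (2 * h)} (ha : s.Av i) :
    HopQ hg (Quotient.mk (msSetoid m hg) (toMs hg off hb hoff s))
      (Quotient.mk (msSetoid m hg) (toMs hg off hb hoff (s.tog i))) := by
  have hp := (exists_lift hg s).choose_spec
  obtain ⟨p', hp', hh⟩ := hp.tog ha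
  have hsum : ∀ {s : St h cap g n} {p : ZMod (2 * h) → ZMod n} (_ : IsLift hg s p),
      ∑ x, (bc p x - off) = m := by
    intro s p hp
    have h2 := sum_bc p
    have h3 : ∑ x : ZMod n, (bc p x - off + off) = ∑ x, bc p x :=
      sum_congr rfl fun x _ => Nat.sub_add_cancel (off_le hoff hp x)
    rw [sum_add_distrib, sum_const, card_univ, ZMod.card, smul_eq_mul, h2] at h3
    have : n * off = off * n := Nat.mul_comm _ _
    omega
  refine ⟨toMs hg off hb hoff s, ⟨fun x => bc p' x - off, hsum hp'⟩, rfl, ?_, ?_⟩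
  · apply Quotient.sound
    exact toMs_rel hp'
  · obtain ⟨x, y, hxy, hz⟩ := hh
    refine ⟨x, y, hxy, fun z => ?_⟩
    have h1 := hz z
    have h2 := off_le hoff hp z
    have h3 := off_le hoff hp' z
    change bc (exists_lift hg s).choose z - off + _ = bc p' z - off + _
    omega

end

/-- The assembly. -/
theorem hasCycle_of [NeZero n] [NeZero g] (hg : g ∣ n) (hc : Odd cap) (hn : Odd n) (off : ℕ)
    (hb : 2 * h = m + off * n) (hcap : (off = 0 ∧ cap = n) ∨ (off = 1 ∧ cap = 1))
    (hconn : ∀ R : Setoid (St h cap g n), (∀ s, R s s.shift) →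
      (∀ (s : St h cap g n) (i : ZMod (2 * h)), ¬ s.Bad (par i) → s.Av i → R s (s.tog i)) →
      (∀ s : St h cap g n, ∃ i, s.Av i ∧ R s (s.tog i)) → ∀ s s', R s s') :
    HasCycle m hg := by
  have hoff : off = 0 ∨ (off = 1 ∧ cap = 1) := by
    rcases hcap with h1 | h1
    · exact Or.inl h1.1
    · exact Or.inr h1
  have hcap' : (off = 0 ∧ n ≤ cap) ∨ (off = 1 ∧ 1 ≤ cap) := by
    rcases hcap with h1 | h1
    · exact Or.inl ⟨h1.1, h1.2.ge⟩
    · exact Or.inr ⟨h1.1, h1.2.ge⟩
  obtain ⟨f, h1, h2, h3⟩ := exists_perm (h := h) (cap := cap) (g := g) (n := n) hc hn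
  have hone : ∀ s s' : St h cap g n,
      f.SameCycle (Quotient.mk shiftSetoid s) (Quotient.mk shiftSetoid s') := by
    apply hconn ((Equiv.Perm.SameCycle.setoid f).comap (Quotient.mk shiftSetoid))
    · intro s
      change f.SameCycle (Quotient.mk shiftSetoid s) (Quotient.mk shiftSetoid s.shift)
      rw [shift_rel]
    · intro s i hbad hav
      exact h3 s i hbad hav
    · intro s
      exact h2 s
  let F : Quotient (shiftSetoid (h := h) (cap := cap) (g := g) (n := n)) →
      Quotient (msSetoid m hg) :=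
    Quotient.lift (fun s => Quotient.mk (msSetoid m hg) (toMs hg off hb hoff s))
      (fun s s' hs => Quotient.sound (toMs_shift hs))
  have hF : ∀ s : St h cap g n, F (Quotient.mk shiftSetoid s) =
      Quotient.mk (msSetoid m hg) (toMs hg off hb hoff s) := fun _ => rfl
  have hbij : Function.Bijective F := by
    constructor
    · intro q q' he
      obtain ⟨s, rfl⟩ := Quotient.exists_rep q
      obtain ⟨s', rfl⟩ := Quotient.exists_rep q'
      rw [hF, hF] at he
      exact Quotient.sound (toMs_inj (Quotient.exact he))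
    · intro q
      obtain ⟨a, rfl⟩ := Quotient.exists_rep q
      obtain ⟨s, hs⟩ := toMs_surj (h := h) (hb := hb) (hoff := hoff) hcap' a
      exact ⟨Quotient.mk shiftSetoid s, Quotient.sound hs⟩
  let E := Equiv.ofBijective F hbij
  refine ⟨E.permCongr f, ?_, ?_⟩
  · intro q
    obtain ⟨q0, rfl⟩ := E.surjective q
    rw [Equiv.permCongr_apply, Equiv.symm_apply_apply]
    obtain ⟨s, i, hav, rfl, hf⟩ := h1 q0
    rw [hf]
    exact toMs_hop hav
  · intro x y
    apply sameCycle_permCongr
    obtain ⟨s, hs⟩ := Quotient.exists_rep (E.symm x)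
    obtain ⟨s', hs'⟩ := Quotient.exists_rep (E.symm y)
    rw [← hs, ← hs']
    exact hone s s'

/-- A Hamilton cycle gives a near perfect matching with prescribed leftover. -/
theorem HasCycle.near [NeZero n] {hg : g ∣ n} (hc : HasCycle m hg)
    (q0 : Quotient (msSetoid m hg)) [Finite (Quotient (msSetoid m hg))] :
    ∃ ι : Quotient (msSetoid m hg) → Quotient (msSetoid m hg), (∀ q, ι (ι q) = q) ∧
      (∀ q, ι q = q ∨ HopQ hg q (ι q)) ∧
      ∀ q, ι q = q ↔ q = q0 ∧ Odd (Nat.card (Quotient (msSetoid m hg))) := by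
  obtain ⟨f, h1, h2⟩ := hc
  obtain ⟨ι, k1, k2, k3⟩ := Pool.Agent.Work.MP_8f87b2_h26.exists_near_matching f h2 q0
  refine ⟨ι, k1, fun q => ?_, k3⟩
  rcases k2 q with h3 | h3 | h3
  · exact Or.inl h3
  · right
    rw [h3]
    exact h1 q
  · right
    obtain ⟨a, a', e1, e2, e3⟩ := h1 (ι q)
    rw [h3] at e2
    exact ⟨a', a, e2, e1, e3.symm⟩

instance [NeZero n] : Finite (Ms n m) := by
  have : Function.Injective (fun (a : Ms n m) (x : ZMod n) => (⟨a.1 x, by
      have h1 : a.1 x ≤ ∑ y, a.1 y := single_le_sum (fun _ _ => Nat.zero_le _) (mem_univ x)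
      rw [a.2] at h1
      omega⟩ : Fin (m + 1))) := by
    intro a a' he
    apply Subtype.ext
    funext x
    have := congrFun he x
    exact congrArg Fin.val this
  exact Finite.of_injective _ this

end Pool.OddHop
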