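import Mathlib

/-!
# Perfect matchings of a toggle quotient by linear algebra over the field with two elements

`S` a finite set of states, `act y` the (odd) set of active toggles of `y`, `t i` the toggles
(commuting involutions), `r` an equivalence relation which respects the toggles. The matrix
`A (⟦x⟧, ⟦z⟧) = #{i ∈ act x : t i x ∈ ⟦z⟧} mod 2` satisfies `A * A = 1`, so its determinant is not
zero and some permutation of the quotient moves every element along a toggle.
-/

namespace Pool.Agent.Work.MP_8f87b2_h26

open Finset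

/-- A square matrix over a commutative ring with nonzero determinant has a permutation all of whose
entries are nonzero. -/
theorem exists_perm_of_det_ne_zero {X R : Type*} [Fintype X] [DecidableEq X] [CommRing R]
    (A : Matrix X X R) (h : A.det ≠ 0) : ∃ σ : Equiv.Perm X, ∀ x, A x (σ x) ≠ 0 := by
  by_contra hcon
  push Not at hcon
  apply h
  rw [← Matrix.det_transpose, Matrix.det_apply]
  apply Finset.sum_eq_zero
  intro σ _
  obtain ⟨x, hx⟩ := hcon σ
  have : ∏ i, A.transpose (σ i) i = 0 := by
    apply Finset.prod_eq_zero (Finset.mem_univ x)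
    rw [Matrix.transpose_apply, hx]
  rw [this, smul_zero]

/-- A bipartite graph with adjacency matrix `A` mod 2 such that `A * A = 1` has a perfect matching. -/
theorem exists_matching_of_sq_one {X : Type*} [Fintype X] [DecidableEq X] (s : X → Bool)
    (A : Matrix X X (ZMod 2)) (hA : A * A = 1) (hs : ∀ x y, A x y ≠ 0 → s x ≠ s y) :
    ∃ f : X → X, (∀ x, f (f x) = x) ∧ ∀ x, A x (f x) ≠ 0 ∨ A (f x) x ≠ 0 := by
  have hdet : A.det ≠ 0 := by
    intro h0
    have h1 := congrArg Matrix.det hA
    rw [Matrix.det_mul, h0, Matrix.det_one] at h1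
    simp at h1
  obtain ⟨σ, hσ⟩ := exists_perm_of_det_ne_zero A hdet
  have hsσ : ∀ x, s (σ x) = !(s x) := by
    intro x
    have := hs x (σ x) (hσ x)
    cases h1 : s x <;> cases h2 : s (σ x) <;> simp_all
  have hsσ' : ∀ x, s (σ.symm x) = !(s x) := by
    intro x
    have := hsσ (σ.symm x)
    rw [Equiv.apply_symm_apply] at this
    rw [this, Bool.not_not]
  refine ⟨fun x => if s x then σ x else σ.symm x, ?_, ?_⟩
  · intro x
    cases h1 : s x
    · simp [hsσ', h1]
    · simp [hsσ, h1]
  · intro x
    cases h1 : s x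
    · right
      have := hσ (σ.symm x)
      rw [Equiv.apply_symm_apply] at this
      simpa [h1] using this
    · left
      simpa [h1] using hσ x

variable {S I : Type*}

/-- The matching of a toggle quotient. -/
theorem toggle_matching [Finite S] (r : Setoid S) (act : S → Finset I) (t : I → S → S)
    (hact : ∀ y, ∀ i ∈ act y, act (t i y) = act y)
    (hinv : ∀ y, ∀ i ∈ act y, t i (t i y) = y)
    (hcomm : ∀ y, ∀ i ∈ act y, ∀ j ∈ act y, t i (t j y) = t j (t i y))
    (hodd : ∀ y, Odd (act y).card)
    (hr : ∀ x y, r x y → ∃ e : {i // i ∈ act x} ≃ {i // i ∈ act y},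
      ∀ i, r (t i.1 x) (t (e i).1 y))
    (s : S → Bool) (hs : ∀ y, ∀ i ∈ act y, s (t i y) = !(s y))
    (hsr : ∀ x y, r x y → s x = s y) :
    ∃ f : Quotient r → Quotient r, (∀ q, f (f q) = q) ∧
      ∀ y, ∃ i ∈ act y, f (Quotient.mk r y) = Quotient.mk r (t i y) := by
  classical
  have := Fintype.ofFinite S
  -- number of active toggles of `x` which lead to the class `q`
  let N : S → Quotient r → ℕ := fun x q => ((act x).filter fun i => Quotient.mk r (t i x) = q).card
  have hN : ∀ x y, r x y → ∀ q, N x q = N y q := by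
    intro x y hxy q
    obtain ⟨e, he⟩ := hr x y hxy
    refine Finset.card_bij (fun i hi => (e ⟨i, (Finset.mem_filter.1 hi).1⟩).1) ?_ ?_ ?_
    · intro i hi
      rw [Finset.mem_filter] at hi ⊢
      exact ⟨(e ⟨i, hi.1⟩).2, (Quotient.sound (he ⟨i, hi.1⟩)).symm.trans hi.2⟩
    · intro i hi j hj hij
      have := e.injective (Subtype.ext hij)
      exact congrArg Subtype.val this
    · intro j hj
      rw [Finset.mem_filter] at hj
      refine ⟨(e.symm ⟨j, hj.1⟩).1, ?_, ?_⟩
      · rw [Finset.mem_filter]
        refine ⟨(e.symm ⟨j, hj.1⟩).2, ?_⟩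
        have h1 := Quotient.sound (he (e.symm ⟨j, hj.1⟩))
        rw [Equiv.apply_symm_apply] at h1
        exact h1.trans hj.2
      · simp
  let A : Matrix (Quotient r) (Quotient r) (ZMod 2) := fun p q => (N p.out q : ZMod 2)
  have hAN : ∀ x q, A (Quotient.mk r x) q = (N x q : ZMod 2) := by
    intro x q
    have : r (Quotient.mk r x).out x := Quotient.exact (Quotient.out_eq (Quotient.mk r x))
    simp only [A]
    rw [hN _ _ this]
  have hA : A * A = 1 := by
    ext p q
    induction p using Quotient.inductionOn with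
    | h x => ?_
    rw [Matrix.mul_apply]
    have h1 : ∑ u, A (Quotient.mk r x) u * A u q =
        ∑ i ∈ act x, A (Quotient.mk r (t i x)) q := by
      have : ∀ u, A (Quotient.mk r x) u * A u q =
          ∑ i ∈ act x, if Quotient.mk r (t i x) = u then A u q else 0 := by
        intro u
        rw [hAN]
        simp only [N]
        rw [Finset.card_filter, Nat.cast_sum, Finset.sum_mul]
        apply Finset.sum_congr rfl
        intro i _
        split_ifs <;> simp
      rw [Finset.sum_congr rfl (fun u _ => this u), Finset.sum_comm]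
      apply Finset.sum_congr rfl
      intro i _
      rw [Finset.sum_ite_eq]
      simp
    rw [h1]
    have h2 : ∀ i ∈ act x, A (Quotient.mk r (t i x)) q =
        ∑ j ∈ act x, if Quotient.mk r (t j (t i x)) = q then (1 : ZMod 2) else 0 := by
      intro i hi
      rw [hAN]
      simp only [N]
      rw [hact x i hi, Finset.card_filter, Nat.cast_sum]
      apply Finset.sum_congr rfl
      intro j _
      split_ifs <;> simp
    rw [Finset.sum_congr rfl h2, ← Finset.sum_product']
    -- the sum over all pairs `(i, j)`; cancel `(i, j)` with `(j, i)`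
    have h3 : ∑ p ∈ act x ×ˢ act x,
        (if Quotient.mk r (t p.2 (t p.1 x)) = q then (1 : ZMod 2) else 0) =
        ∑ p ∈ (act x ×ˢ act x).filter (fun p => p.1 = p.2),
          (if Quotient.mk r (t p.2 (t p.1 x)) = q then (1 : ZMod 2) else 0) := by
      rw [← Finset.sum_filter_add_sum_filter_not (act x ×ˢ act x) (fun p => p.1 = p.2)]
      have h4 : ∑ p ∈ (act x ×ˢ act x).filter (fun p => ¬ p.1 = p.2),
          (if Quotient.mk r (t p.2 (t p.1 x)) = q then (1 : ZMod 2) else 0) = 0 := by
        refine Finset.sum_involution (fun p _ => (p.2, p.1)) ?_ ?_ ?_ ?_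
        · intro p hp
          rw [Finset.mem_filter, Finset.mem_product] at hp
          have : t p.1 (t p.2 x) = t p.2 (t p.1 x) := hcomm x p.1 hp.1.1 p.2 hp.1.2
          simp only [this]
          split_ifs
          · decide
          · simp
        · intro p hp _ heq
          rw [Finset.mem_filter] at hp
          exact hp.2 (congrArg Prod.snd heq)
        · intro p hp
          rw [Finset.mem_filter, Finset.mem_product] at hp ⊢
          exact ⟨⟨hp.1.2, hp.1.1⟩, fun h => hp.2 h.symm⟩
        · intro p _
          rfl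
      rw [h4, add_zero]
    rw [h3]
    have h5 : ∑ p ∈ (act x ×ˢ act x).filter (fun p => p.1 = p.2),
          (if Quotient.mk r (t p.2 (t p.1 x)) = q then (1 : ZMod 2) else 0) =
        ∑ i ∈ act x, (if Quotient.mk r x = q then (1 : ZMod 2) else 0) := by
      refine Finset.sum_bij' (fun p _ => p.1) (fun i _ => (i, i)) ?_ ?_ ?_ ?_ ?_
      · intro p hp
        rw [Finset.mem_filter, Finset.mem_product] at hp
        exact hp.1.1
      · intro i hi
        rw [Finset.mem_filter, Finset.mem_product]
        exact ⟨⟨hi, hi⟩, rfl⟩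
      · intro p hp
        rw [Finset.mem_filter] at hp
        exact Prod.ext rfl hp.2
      · intro i _
        rfl
      · intro p hp
        rw [Finset.mem_filter, Finset.mem_product] at hp
        rw [← hp.2, hinv x p.1 hp.1.1]
    rw [h5, Finset.sum_const, nsmul_eq_mul]
    have h6 : ((act x).card : ZMod 2) = 1 := by
      obtain ⟨c, hc⟩ := hodd x
      rw [hc]
      push_cast
      have : (2 : ZMod 2) = 0 := rfl
      rw [this]; simp
    rw [h6, one_mul, Matrix.one_apply]
  let sq : Quotient r → Bool := Quotient.lift s hsr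
  have hsq : ∀ x y, A x y ≠ 0 → ∃ z ∈ act x.out, y = Quotient.mk r (t z x.out) := by
    intro x y hxy
    have : N x.out y ≠ 0 := by
      intro h0
      apply hxy
      simp only [A, h0, Nat.cast_zero]
    obtain ⟨i, hi⟩ := Finset.card_pos.1 (Nat.pos_of_ne_zero this)
    rw [Finset.mem_filter] at hi
    exact ⟨i, hi.1, hi.2.symm⟩
  obtain ⟨f, hf1, hf2⟩ := exists_matching_of_sq_one sq A hA (by
    intro x y hxy
    obtain ⟨i, hi, hy⟩ := hsq x y hxy
    have hx : sq x = s x.out := by
      conv_lhs => rw [← Quotient.out_eq x]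
      rfl
    have hy' : sq y = s (t i x.out) := by
      rw [hy]
      rfl
    rw [hx, hy', hs _ i hi]
    cases s x.out <;> simp)
  refine ⟨f, hf1, ?_⟩
  intro y
  have hyr : r (Quotient.mk r y).out y := Quotient.exact (Quotient.out_eq (Quotient.mk r y))
  rcases hf2 (Quotient.mk r y) with h | h
  · obtain ⟨i, hi, hi2⟩ := hsq _ _ h
    obtain ⟨e, he⟩ := hr _ _ hyr
    refine ⟨(e ⟨i, hi⟩).1, (e ⟨i, hi⟩).2, ?_⟩
    rw [hi2]
    exact Quotient.sound (he ⟨i, hi⟩)
  · obtain ⟨i, hi, hi2⟩ := hsq _ _ h
    -- `y` is equivalent to `t i x` with `x = (f ⟦y⟧).out`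
    set x := (f (Quotient.mk r y)).out with hx
    have h1 : r (t i x) y := (Quotient.exact hi2.symm)
    obtain ⟨e, he⟩ := hr _ _ h1
    have hi3 : i ∈ act (t i x) := by rw [hact x i hi]; exact hi
    refine ⟨(e ⟨i, hi3⟩).1, (e ⟨i, hi3⟩).2, ?_⟩
    have h2 := Quotient.sound (he ⟨i, hi3⟩)
    simp only at h2
    rw [hinv x i hi] at h2
    rw [← h2, hx, Quotient.out_eq]

end Pool.Agent.Work.MP_8f87b2_h26
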