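import Pool.Agent.Work.MP_8f87b2_h40.TyJM
import Pool.Agent.Work.MP_8f87b2_h22.B6
import Pool.Agent.Work.MP_8f87b2_h24.GadJ

/-!
# MP_8f87b2_co, type L1 (one soliton, one bead): the words of the pair gadget J2 of a tree `R` with one bead

`gW R w0 i` : the word `W R nil B S i`, `(S, B) = sq R`. `GR k R`: height at least 3, one bead, `B = nil` or height of `B` 2.
Links, rank.
-/

set_option autoImplicit false

namespace Pool.OddHC

namespace L1

open BinaryTree H1 Equiv Multiset

variable {k : ℕ} {R : BinaryTree Unit}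

/-- the data of the tree -/
structure GR (k : ℕ) (R : BinaryTree Unit) : Prop where
  ht3 : 3 ≤ ht R
  one : (cont R).count 1 = 1
  size : R.numNodes + 2 = k
  hB : (Tsq.sq R).2 = .nil ∨ ht (Tsq.sq R).2 = 2

theorem GR.ne (h : GR k R) : R ≠ .nil := by
  rintro rfl
  have := h.ht3
  rw [ht] at this
  omega

theorem GR.num (h : GR k R) : (Tsq.sq R).1.numNodes + (Tsq.sq R).2.numNodes = R.numNodes :=
  Tsq.sq_num h.ne

theorem GR.htS (h : GR k R) : ht (Tsq.sq R).1 = ht R := by
  have := (Tsq.ht_sq h.ne).1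
  rwa [H1.ht_eq, H1.ht_eq] at this

theorem GR.htB (h : GR k R) : ht (Tsq.sq R).2 ≤ 2 := by
  rcases h.hB with e | e
  · rw [e]; exact Nat.zero_le _
  · rw [e]

theorem GR.cont (h : GR k R) : cont (Tsq.sq R).2 + cont (Tsq.sq R).1 = cont R := by
  let x : X R.numNodes := ⟨R, mem_treesOfNumNodesEq.2 rfl⟩
  have e1 : (TT (TT x)).1 = app (Tsq.sq R).2 (Tsq.sq R).1 := Tsq.TT_sq x h.ne
  have e2 : OddHC.cont (TT (TT x)).1 = OddHC.cont R := by
    rw [TT_apply, cont_TF, TT_apply, cont_TF]
  rw [e1, cont_app] at e2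
  exact e2

theorem GR.num_W (h : GR k R) : ∀ i < 20,
    (W R .nil (Tsq.sq R).2 (Tsq.sq R).1 i).numNodes = k := by
  have e := h.num
  have e1 := h.size
  intro i hi
  have hn : ∀ A C : BinaryTree Unit, (A △ C).numNodes = A.numNodes + C.numNodes + 1 := fun _ _ => rfl
  have h0 : (BinaryTree.nil : BinaryTree Unit).numNodes = 0 := rfl
  interval_cases i <;> simp only [W, num_app, hn, h0] <;> omega

/-- the words in `X k` -/
noncomputable def gW (R : BinaryTree Unit) (w0 : X k) (i : ℕ) : X k := by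
  classical
  exact if h : (W R .nil (Tsq.sq R).2 (Tsq.sq R).1 i).numNodes = k then
    ⟨_, mem_treesOfNumNodesEq.2 h⟩ else w0

theorem GR.word (h : GR k R) (w0 : X k) {i : ℕ} (hi : i < 20) :
    (gW R w0 i).1 = W R .nil (Tsq.sq R).2 (Tsq.sq R).1 i := by
  unfold gW
  rw [dif_pos (h.num_W i hi)]

theorem GR.link (h : GR k R) (w0 : X k) {i j : ℕ}
    (hij : (i, j) ∈ [(0, 10), (1, 11), (3, 12), (6, 15), (8, 14), (9, 17)]) :
    TT (TT (gW R w0 i)) = gW R w0 j := by
  have hR : Tsq.ht R = ht R := H1.ht_eq _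
  have hR2 := h.ht3
  have e1 : ∀ n < 20, (gW R w0 n).1 = w20 R .nil (Tsq.sq R).2 (Tsq.sq R).1 n := by
    intro n hn
    rw [h.word w0 hn, W_w20 _ _ _ _ n hn]
  have h0 : Tsq.ht (BinaryTree.nil : BinaryTree Unit) = 0 := rfl
  simp only [List.mem_cons, Prod.mk.injEq, List.not_mem_nil, or_false] at hij
  rcases hij with ⟨rfl, rfl⟩ | ⟨rfl, rfl⟩ | ⟨rfl, rfl⟩ | ⟨rfl, rfl⟩ | ⟨rfl, rfl⟩ | ⟨rfl, rfl⟩
  · exact Tsq.link0 (R := R) (Q := .nil) (by omega) (by rw [e1 0 (by norm_num)]; rfl)
      (by rw [e1 10 (by norm_num)]; rfl)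
  · exact Tsq.link h.ne (Q := .nil) (i := 1) (j := 1) (by omega) (by simp)
      (by rw [e1 1 (by norm_num)]; rfl) (by rw [e1 11 (by norm_num)]; rfl)
  · exact Tsq.link h.ne (Q := .nil) (i := 3) (j := 2) (by omega) (by simp)
      (by rw [e1 3 (by norm_num)]; rfl) (by rw [e1 12 (by norm_num)]; rfl)
  · exact Tsq.link h.ne (Q := .nil) (i := 6) (j := 5) (by omega) (by simp)
      (by rw [e1 6 (by norm_num)]; rfl) (by rw [e1 15 (by norm_num)]; rfl)
  · exact Tsq.link h.ne (Q := .nil) (i := 8) (j := 4) (by omega) (by simp)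
      (by rw [e1 8 (by norm_num)]; rfl) (by rw [e1 14 (by norm_num)]; rfl)
  · exact Tsq.link h.ne (Q := .nil) (i := 9) (j := 7) (by omega) (by simp)
      (by rw [e1 9 (by norm_num)]; rfl) (by rw [e1 17 (by norm_num)]; rfl)

theorem GR.same10 (h : GR k R) (w0 : X k) : TT.SameCycle (gW R w0 0) (gW R w0 10) := by
  have h1 := h.link w0 (i := 0) (j := 10) (by simp)
  refine ⟨2, ?_⟩
  rw [show (2 : ℤ) = ((2 : ℕ) : ℤ) from rfl, zpow_natCast, pow_two, Perm.mul_apply, h1]

/-! ### Contents and rank -/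

theorem cont_l1' (X : BinaryTree Unit) : OddHC.cont ((.nil △ .nil) △ X) = {2} + OddHC.cont X :=
  J.cont_l1' X

theorem GR.cont0 (h : GR k R) (w0 : X k) :
    OddHC.cont (gW R w0 0).1 = OddHC.cont R + {2} := by
  rw [h.word w0 (by norm_num)]
  change OddHC.cont (app R ((.nil △ .nil) △ .nil)) = _
  rw [cont_app, cont_l1', cont_nil, add_zero]

theorem GR.cont4 (h : GR k R) (w0 : X k) :
    OddHC.cont (gW R w0 4).1 = OddHC.cont R + {2} := by
  rw [h.word w0 (by norm_num)]
  change OddHC.cont ((.nil △ .nil) △ R) = _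
  rw [cont_l1', add_comm]

theorem GR.cont13 (h : GR k R) (w0 : X k) (hB : (Tsq.sq R).2 = .nil) :
    OddHC.cont (gW R w0 13).1 = OddHC.cont R + {2} := by
  rw [h.word w0 (by norm_num), ← h.cont, hB]
  change OddHC.cont (app (Tsq.sq R).1 ((.nil △ .nil) △ .nil)) = _
  rw [cont_app, cont_l1', cont_nil, add_zero]
  change _ = OddHC.cont (BinaryTree.nil : BinaryTree Unit) + _ + _
  rw [cont_nil, zero_add]

theorem raise_count {M : Multiset ℕ} (h : 2 ≤ M.sup) : (raise M).count 1 = M.count 1 := by
  unfold raise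
  rw [Multiset.count_cons_of_ne (by omega), Multiset.count_erase_of_ne (by omega)]

/-- **the old words are older**: all but 4, and 13 for `B = nil` -/
theorem GR.rank (h : GR k R) (w0 : X k) : ∀ i < 20, i ≠ 0 → i ≠ 4 → i ≠ 10 →
    (i = 13 → (Tsq.sq R).2 ≠ .nil) →
    Lower (OddHC.cont (gW R w0 i).1) (OddHC.cont R + {2}) := by
  intro i hi h0 h4 h10 h13
  rw [h.word w0 hi]
  have hb := h.ht3
  have hz : (OddHC.cont R + {2}).sup = ht R := by
    rw [sup_add', ← OddHC.ht_eq, Multiset.sup_singleton]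
    omega
  have hz1 : (OddHC.cont R + {2}).count 1 = 1 := by
    rw [Multiset.count_add, h.one]
    rfl
  have hS := h.htS
  have hB := h.htB
  have hc1 : (OddHC.cont (Tsq.sq R).2).count 1 + (OddHC.cont (Tsq.sq R).1).count 1 = 1 := by
    rw [← Multiset.count_add, h.cont, h.one]
  have hR1 := h.one
  have h00 : ht (BinaryTree.nil : BinaryTree Unit) = 0 := rfl
  -- `(B)` keeps the beads of `B`, if `B ≠ nil`
  have hrB : ∀ M : Multiset ℕ, (Tsq.sq R).2 ≠ .nil →
      (raise (OddHC.cont (Tsq.sq R).2)).count 1 = (OddHC.cont (Tsq.sq R).2).count 1 := by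
    intro _ hne
    rcases h.hB with e | e
    · exact absurd e hne
    · apply raise_count
      rw [← OddHC.ht_eq, e]
  generalize hBB : (Tsq.sq R).2 = B at *
  generalize hSS : (Tsq.sq R).1 = S at *
  have up : ∀ w : BinaryTree Unit, ht R < ht w → Lower (OddHC.cont w)
      (OddHC.cont R + {2}) := by
    intro w hw
    left
    rw [hz, ← OddHC.ht_eq]
    exact hw
  have one : ∀ w : BinaryTree Unit, ht w = ht R → 1 < (OddHC.cont w).count 1 →
      Lower (OddHC.cont w) (OddHC.cont R + {2}) := by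
    intro w hw h1
    right
    rw [hz, ← OddHC.ht_eq]
    refine ⟨hw, Or.inl ?_⟩
    rw [hz1]
    exact h1
  have cn : ∀ A C : BinaryTree Unit, (OddHC.cont (A △ C)).count 1 =
      (raise (OddHC.cont A)).count 1 + (OddHC.cont C).count 1 := by
    intro A C
    rw [cont_node, Multiset.count_add]
  have ca : ∀ A C : BinaryTree Unit, (OddHC.cont (app A C)).count 1 =
      (OddHC.cont A).count 1 + (OddHC.cont C).count 1 := by
    intro A C
    rw [cont_app, Multiset.count_add]
  have c0 : (OddHC.cont (BinaryTree.nil : BinaryTree Unit)).count 1 = 0 := rfl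
  have r0 : (raise (OddHC.cont (BinaryTree.nil : BinaryTree Unit))).count 1 = 1 := by
    rw [cont_nil, raise_zero]; rfl
  -- the part `(B)`
  have hBr : 1 ≤ (raise (OddHC.cont B)).count 1 + (OddHC.cont S).count 1 := by
    by_cases hne : B = .nil
    · rw [hne, r0]; omega
    · rw [hrB 0 hne]; omega
  interval_cases i
  · exact absurd rfl h0
  · apply one
    · simp only [W, app, ht_app, ht_node, h00]; omega
    · simp only [W, app, ca, cn, c0, r0]; omega
  · apply one
    · simp only [W, ht_app, ht_node, h00]; omega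
    · simp only [W, ca, cn, c0, r0]; omega
  · apply up
    simp only [W, ht_app, ht_node, h00]; omega
  · exact absurd rfl h4
  · apply one
    · simp only [W, ht_node, h00]; omega
    · simp only [W, cn, r0]; omega
  · apply up
    simp only [W, ht_node, h00]; omega
  · apply up
    simp only [W, app, ht_node, h00]; omega
  · apply up
    simp only [W, app, ht_node, h00]; omega
  · apply up
    simp only [W, ht_node, h00]; omega
  · exact absurd rfl h10
  · apply one
    · simp only [W, app, ht_app, ht_node, h00]; omega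
    · simp only [W, app, ca, cn, r0]; omega
  · apply up
    simp only [W, ht_app, ht_node, h00]; omega
  · have hne := h13 rfl
    have h2 : ht B = 2 := by
      rcases h.hB with e | e
      · rw [hBB] at e; exact absurd e hne
      · rw [hBB] at e; exact e
    apply one
    · simp only [W, ht_app, ht_node, h00]; omega
    · have h6 : (raise (OddHC.cont (app B (BinaryTree.nil △ .nil)))).count 1 =
          (OddHC.cont B).count 1 + 1 := by
        rw [raise_count, ca, cn, c0, r0]
        rw [← OddHC.ht_eq, ht_app, h2]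
        exact le_max_left _ _
      simp only [W, ca, cn, c0]
      omega
  · apply up
    simp only [W, app, ht_node, h00]; omega
  · apply up
    simp only [W, ht_node, h00]; omega
  · by_cases hne : B = .nil
    · apply one
      · rw [hne] at hB ⊢
        simp only [W, ht_app, ht_node, h00]; omega
      · rw [hne] at hc1 ⊢
        simp only [W, ca, cn, c0, r0] at hc1 ⊢; omega
    · apply one
      · simp only [W, ht_app, ht_node, h00]; omega
      · simp only [W, ca, cn, c0, r0, hrB 0 hne]; omega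
  · apply up
    simp only [W, app, ht_node, h00]; omega
  · by_cases hne : B = .nil
    · apply one
      · rw [hne] at hB ⊢
        simp only [W, app, ht_app, ht_node, h00]; omega
      · rw [hne] at hc1 ⊢
        simp only [W, app, ca, cn, c0, r0] at hc1 ⊢; omega
    · apply one
      · simp only [W, app, ht_app, ht_node, h00]; omega
      · simp only [W, app, ca, cn, c0, r0, hrB 0 hne]; omega
  · apply up
    simp only [W, ht_app, ht_node, h00]; omega

theorem GR.other (h : GR k R) (w0 : X k) {i : ℕ} (hi : i < 20) (h0 : i ≠ 0) (h4 : i ≠ 4)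
    (h10 : i ≠ 10) (h13 : i = 13 → (Tsq.sq R).2 ≠ .nil) {x : X k}
    (hx : OddHC.cont x.1 = OddHC.cont R + {2}) :
    ¬ TT.SameCycle x (gW R w0 i) := by
  intro hs
  have h1 := cont_same hs
  rw [hx] at h1
  exact (h.rank w0 i hi h0 h4 h10 h13).ne h1.symm

end L1

end Pool.OddHC
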