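import Pool.Agent.Work.MP_8f87b2_end.End
import Pool.Agent.Work.MP_8f87b2_h35.Links

/-!
# MP_8f87b2_co: words with beads as `Wd r M w`

`Wd r M w`: `w = C(r, beads in the gaps M)`, `M` a multiset of gaps `0, ..., 2 |r|`. Concatenation, wrapping, mirror, uniqueness.
-/

set_option autoImplicit false

namespace Pool.OddHC

namespace L1

open BinaryTree Multiset

/-! ### Beads in the last gap -/

/-- add `c` to the last entry -/
def addLast (c : ℕ) : List ℕ → List ℕ
  | [] => []
  | [x] => [x + c]
  | x :: y :: l => x :: addLast c (y :: l)

theorem addLast_cons (c x : ℕ) {l : List ℕ} (h : l ≠ []) : addLast c (x :: l) = x :: addLast c l := by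
  cases l with
  | nil => exact absurd rfl h
  | cons y l => rfl

theorem addLast_append (c : ℕ) : ∀ (a : List ℕ) {l : List ℕ}, l ≠ [] → addLast c (a ++ l) = a ++ addLast c l := by
  intro a
  induction a with
  | nil => intro l _; rfl
  | cons x a ih =>
    intro l h
    rw [List.cons_append, addLast_cons _ _ (by simp [h]), ih h, List.cons_append]

theorem addLast_length (c : ℕ) : ∀ l : List ℕ, (addLast c l).length = l.length := by
  intro l
  induction l with
  | nil => rfl
  | cons x l ih =>
    cases l with
    | nil => rfl
    | cons y l =>
      rw [addLast_cons _ _ (by simp), List.length_cons, ih, List.length_cons (a := x)]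

/-- the list of a component -/
theorem ins_comp {A B : BinaryTree Unit} {n : ℕ} {a b : List ℕ} (ha : a.length = 2 * A.numNodes + 1) :
    ins (A △ B) (n :: (a ++ b)) = lv n (ins A (bump A a) △ ins B b) := by
  rw [ins, List.headD_cons, List.tail_cons, List.take_left' ha, List.drop_succ_cons,
    List.drop_left' ha]

theorem ins_addLast (c : ℕ) : ∀ (A : BinaryTree Unit) (e : List ℕ), e.length = 2 * A.numNodes + 1 →
    ins A (addLast c e) = app (ins A e) (lv c .nil) := by
  intro A
  induction A with
  | nil =>
    intro e he
    obtain ⟨n, rfl⟩ : ∃ n, e = [n] := List.length_eq_one_iff.1 (by simpa using he)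
    change lv (n + c) .nil = app (lv n .nil) (lv c .nil)
    rw [lv_add, lv_app n]
  | node _ A B ihA ihB =>
    intro e he
    obtain ⟨n, a, b, h1, h2, h3, _, _⟩ := split_e he
    have hb : b ≠ [] := by
      intro h
      rw [h] at h3
      simp at h3
    have e0 : (BinaryTree.node () A B) = A △ B := rfl
    rw [e0, h1, addLast_cons _ _ (by simp [hb]), addLast_append c a hb, ins_comp h2, ins_comp h2,
      ihB b h3, lv_app n, lv_app n (_ △ ins B b), app_assoc']
    rfl

theorem ins_app' (c : ℕ) (A B : BinaryTree Unit) (e f : List ℕ) (he : e.length = 2 * A.numNodes + 1) :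
    ins (app A B) (addLast c e ++ f) = app (ins A e) (ins B (c :: f)) := by
  rw [ins_app B f A (addLast c e) (by rw [addLast_length, he]), ins_addLast c A e he, app_assoc',
    ← lv_app, ← ins_lv]

/-! ### Words with beads -/

/-- the list of the counts -/
def cl (n : ℕ) (M : Multiset ℕ) : List ℕ := (List.range (2 * n + 1)).map (fun x => M.count x)

theorem cl_length (n : ℕ) (M : Multiset ℕ) : (cl n M).length = 2 * n + 1 := by
  unfold cl
  rw [List.length_map, List.length_range]

theorem cl_getElem (n : ℕ) (M : Multiset ℕ) (i : ℕ) (hi : i < (cl n M).length) :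
    (cl n M)[i] = M.count i := by simp [cl]

/-- `w = C(r, M)` -/
structure Wd (r : BinaryTree Unit) (M : Multiset ℕ) (w : BinaryTree Unit) : Prop where
  le : ∀ y ∈ M, y ≤ 2 * r.numNodes
  eq : w = ins r (cl r.numNodes M)

variable {r s w v : BinaryTree Unit} {M N : Multiset ℕ}

theorem count_le_zero {n y : ℕ} (h : ∀ x ∈ M, x ≤ n) (hy : n < y) : M.count y = 0 := by
  rw [Multiset.count_eq_zero]
  intro h1
  have := h y h1
  omega

theorem count_add_map (a y : ℕ) : (N.map (· + a)).count (y + a) = N.count y :=
  Multiset.count_map_eq_count' _ _ (add_left_injective a) _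

theorem count_map_lt {a y : ℕ} (h : y < a) : (N.map (· + a)).count y = 0 := by
  rw [Multiset.count_eq_zero, Multiset.mem_map]
  rintro ⟨x, _, h1⟩
  omega

/-- UNIQUENESS -/
theorem Wd.inj (h : Wd r M w) (h' : Wd s N w) : r = s ∧ M = N := by
  obtain ⟨e1, e2⟩ := ins_inj (cl_length _ _) (cl_length _ _) (h.eq.symm.trans h'.eq)
  subst e1
  refine ⟨rfl, ?_⟩
  ext y
  by_cases hy : y ≤ 2 * r.numNodes
  · have h1 : y < (cl r.numNodes M).length := by rw [cl_length]; omega
    have h2 : y < (cl r.numNodes N).length := by rw [cl_length]; omega
    have h3 : (cl r.numNodes M)[y] = (cl r.numNodes N)[y] := by simp only [e2]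
    rwa [cl_getElem, cl_getElem] at h3
  · rw [count_le_zero h.le (by omega), count_le_zero h'.le (by omega)]

theorem Wd.det (h : Wd r M w) (h' : Wd r M v) : w = v := h.eq.trans h'.eq.symm

theorem Wd.leaf : Wd .nil {0} (.nil △ .nil) := by
  refine ⟨?_, ?_⟩
  · intro y hy
    rw [Multiset.mem_singleton] at hy
    subst hy
    exact Nat.zero_le _
  · rfl

theorem cl_zero (n : ℕ) : cl n 0 = List.replicate (2 * n + 1) 0 := by
  unfold cl
  rw [List.eq_replicate_iff]
  refine ⟨by simp, ?_⟩
  intro b hb
  rw [List.mem_map] at hb
  obtain ⟨x, _, rfl⟩ := hb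
  simp

theorem Wd.inf (r : BinaryTree Unit) : Wd r 0 (inf r) := by
  refine ⟨by simp, ?_⟩
  rw [cl_zero]
  rfl

theorem num_app' (A B : BinaryTree Unit) : (app A B).numNodes = A.numNodes + B.numNodes := num_app A B

/-- CONCATENATION -/
theorem Wd.app (h : Wd r M w) (h' : Wd s N v) :
    Wd (app r s) (M + N.map (· + 2 * r.numNodes)) (app w v) := by
  constructor
  · intro y hy
    rw [num_app']
    rw [Multiset.mem_add, Multiset.mem_map] at hy
    rcases hy with hy | ⟨z, hz, rfl⟩
    · have := h.le y hy
      omega
    · have := h'.le z hz
      omega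
  · have e1 : cl s.numNodes N = N.count 0 :: (List.range (2 * s.numNodes)).map (fun x => N.count (x + 1)) := by
      unfold cl
      rw [List.range_succ_eq_map, List.map_cons, List.map_map]
      rfl
    have e2 : cl (OddHC.app r s).numNodes (M + N.map (· + 2 * r.numNodes)) =
        addLast (N.count 0) (cl r.numNodes M) ++ (List.range (2 * s.numNodes)).map (fun x => N.count (x + 1)) := by
      have hl : cl r.numNodes M = (List.range (2 * r.numNodes)).map (fun x => M.count x) ++
          [M.count (2 * r.numNodes)] := by
        unfold cl
        rw [List.range_succ, List.map_append]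
        rfl
      rw [hl, addLast_append _ _ (by simp)]
      change _ = (List.range (2 * r.numNodes)).map (fun x => M.count x) ++
        [M.count (2 * r.numNodes) + N.count 0] ++ _
      apply List.ext_getElem
      · simp only [List.length_append, List.length_map, List.length_range, List.length_cons,
          List.length_nil, cl_length, num_app']
        omega
      · intro i h1 h2
        rw [cl_getElem, Multiset.count_add]
        rcases lt_trichotomy i (2 * r.numNodes) with hi | hi | hi
        · rw [count_map_lt hi, List.getElem_append_left (by simp; omega),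
            List.getElem_append_left (by simp; omega)]
          simp
        · subst hi
          have e3 := count_add_map (N := N) (2 * r.numNodes) 0
          rw [zero_add] at e3
          rw [e3, List.getElem_append_left (by simp), List.getElem_append_right (by simp)]
          simp only [List.length_map, List.length_range, Nat.sub_self, List.getElem_cons_zero]
        · obtain ⟨y, rfl⟩ : ∃ y, i = y + 1 + 2 * r.numNodes := ⟨i - 1 - 2 * r.numNodes, by omega⟩
          rw [count_le_zero h.le (by omega), count_add_map, List.getElem_append_right (by simp)]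
          simp only [List.length_append, List.length_map, List.length_range, List.length_cons,
            List.length_nil, List.getElem_map, List.getElem_range, zero_add]
          congr 1
          omega
    rw [e2, ins_app' _ _ _ _ _ (cl_length _ _), ← e1, ← h.eq, ← h'.eq]

/-- WRAPPING -/
theorem Wd.wrap (h : Wd r M w) (hr : r ≠ .nil) : Wd (r △ .nil) (M.map (· + 1)) (w △ .nil) := by
  have hn : (r △ BinaryTree.nil).numNodes = r.numNodes + 1 := rfl
  constructor
  · intro y hy
    rw [Multiset.mem_map] at hy
    obtain ⟨z, hz, rfl⟩ := hy
    have := h.le z hz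
    rw [hn]
    omega
  · have e1 : cl (r △ BinaryTree.nil).numNodes (M.map (· + 1)) = 0 :: (cl r.numNodes M ++ [0]) := by
      apply List.ext_getElem
      · simp only [List.length_append, List.length_cons, List.length_nil, cl_length, hn]
        omega
      · intro i h1 h2
        rw [cl_getElem]
        cases i with
        | zero => rw [count_map_lt (by omega)]; rfl
        | succ y =>
          rw [count_add_map, List.getElem_cons_succ]
          by_cases hy : y < 2 * r.numNodes + 1
          · rw [List.getElem_append_left (by rw [cl_length]; omega), cl_getElem]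
          · rw [List.getElem_append_right (by rw [cl_length]; omega), count_le_zero h.le (by omega)]
            simp
    rw [e1, ins_comp (cl_length _ _), lv]
    have hb : bump r (cl r.numNodes M) = cl r.numNodes M := by
      cases r with
      | nil => exact absurd rfl hr
      | node _ _ _ => rfl
    rw [hb, ← h.eq]
    rfl

/-- the word `(())` -/
theorem Wd.two : Wd (.nil △ .nil) 0 ((.nil △ .nil) △ .nil) := Wd.inf (.nil △ .nil)

/-! ### Mirror -/

theorem bump_rev (A : BinaryTree Unit) (a : List ℕ) (ha : a.length = 2 * A.numNodes + 1) :
    bump (Tsq.mir A) a.reverse = (bump A a).reverse := by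
  cases A with
  | nil =>
    obtain ⟨n, rfl⟩ : ∃ n, a = [n] := List.length_eq_one_iff.1 (by simpa using ha)
    rfl
  | node _ A B =>
    cases h : Tsq.mir (.node () A B) with
    | nil =>
      exfalso
      have h1 := congrArg BinaryTree.numNodes h
      rw [Tsq.mir_num] at h1
      change A.numNodes + B.numNodes + 1 = 0 at h1
      omega
    | node _ _ _ => rfl

theorem mir_lv' (m : ℕ) (X : BinaryTree Unit) : Tsq.mir (lv m X) = OddHC.app (Tsq.mir X) (lv m .nil) := by
  induction m generalizing X with
  | zero => rw [lv, lv, app_nil']
  | succ m ih =>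
    rw [lv, Tsq.mir_node, ih, app_assoc']
    congr 1
    have h : ∀ m : ℕ, OddHC.app (lv m .nil) ((.nil : BinaryTree Unit) △ .nil) = lv (m + 1) .nil := by
      intro m
      induction m with
      | zero => rfl
      | succ m ih =>
        change .nil △ OddHC.app (lv m .nil) (.nil △ .nil) = _
        rw [ih]
        rfl
    exact h m

theorem mir_ins : ∀ (A : BinaryTree Unit) (e : List ℕ), e.length = 2 * A.numNodes + 1 →
    Tsq.mir (ins A e) = ins (Tsq.mir A) e.reverse := by
  intro A
  induction A with
  | nil =>
    intro e he
    obtain ⟨n, rfl⟩ : ∃ n, e = [n] := List.length_eq_one_iff.1 (by simpa using he)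
    change Tsq.mir (lv n .nil) = lv n .nil
    rw [mir_lv']
    rfl
  | node _ A B ihA ihB =>
    intro e he
    obtain ⟨n, a, b, h1, h2, h3, _, _⟩ := split_e he
    have e0 : (BinaryTree.node () A B) = A △ B := rfl
    have ha : (bump A a).length = 2 * A.numNodes + 1 := by
      rw [bump_length (by intro h; rw [h] at h2; simp at h2), h2]
    rw [e0, h1, ins_comp h2, mir_lv', Tsq.mir_node, Tsq.mir_node, List.reverse_cons,
      List.reverse_append, ihA _ ha, ihB _ h3, List.append_assoc,
      ins_app _ _ _ _ (by rw [List.length_reverse, Tsq.mir_num, h3]),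
      ins_comp (by rw [List.length_reverse, Tsq.mir_num, h2]), bump_rev A a h2, lv, app_assoc']
    congr 1

theorem Wd.mir (h : Wd r M w) :
    Wd (Tsq.mir r) (M.map (2 * r.numNodes - ·)) (Tsq.mir w) := by
  constructor
  · intro y hy
    rw [Multiset.mem_map] at hy
    obtain ⟨z, hz, rfl⟩ := hy
    rw [Tsq.mir_num]
    omega
  · rw [h.eq, mir_ins _ _ (cl_length _ _), Tsq.mir_num]
    congr 1
    apply List.ext_getElem
    · rw [List.length_reverse, cl_length, cl_length]
    · intro i h1 h2
      have hi : i ≤ 2 * r.numNodes := by rw [cl_length] at h2; omega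
      rw [List.getElem_reverse, cl_getElem, cl_getElem, cl_length]
      have e : 2 * r.numNodes + 1 - 1 - i = 2 * r.numNodes - i := by omega
      rw [e]
      -- counts of an injective map on `0, ..., 2 |r|`
      have key : ∀ K : Multiset ℕ, (∀ y ∈ K, y ≤ 2 * r.numNodes) →
          K.count (2 * r.numNodes - i) = (K.map (2 * r.numNodes - ·)).count i := by
        intro K
        induction K using Multiset.induction with
        | empty => intro _; rfl
        | cons a K ih =>
          intro hK
          have hK' : ∀ y ∈ K, y ≤ 2 * r.numNodes := fun y hy => hK y (Multiset.mem_cons_of_mem hy)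
          have ha := hK a (Multiset.mem_cons_self a K)
          rw [Multiset.count_cons, ih hK', Multiset.map_cons, Multiset.count_cons]
          congr 1
          by_cases hc : 2 * r.numNodes - i = a
          · rw [if_pos hc, if_pos (by omega)]
          · rw [if_neg hc, if_neg (by omega)]
      exact key M h.le

end L1

end Pool.OddHC
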