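import Pool.Agent.Work.MP_8f87b2_h26.L1b
import Pool.Agent.Work.MP_8f87b2_h40.Words

/-!
# MP_8f87b2_co: the words of the pair gadget J2 as reduced words with beads

`PW`: the words `W R nil _ _ i`, `i < 10`; `QW`: the words `W _ nil B S i`, `10 ≤ i < 20`, `B ≠ nil`.
-/

set_option autoImplicit false

namespace Pool.OddHC

namespace L1

open BinaryTree Multiset H1

variable {r b s R B S w w' v : BinaryTree Unit} {M M' Mr Mb Ms N : Multiset ℕ}

theorem Wd.cast {r' : BinaryTree Unit} (h : Wd r M w) (hr : r = r') (hM : M = M') (hw : w = w') :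
    Wd r' M' w' := by
  subst hr hM hw
  exact h

/-- `()()` -/
theorem Wd.ll : Wd .nil {0, 0} (.nil △ (.nil △ .nil)) :=
  (Wd.leaf.app Wd.leaf).cast rfl rfl rfl

theorem num_node (A C : BinaryTree Unit) : (A △ C).numNodes = A.numNodes + C.numNodes + 1 := rfl

/-- reduced words, first block -/
def pR (r : BinaryTree Unit) : ℕ → BinaryTree Unit
  | 0 => app r (.nil △ .nil)
  | 1 => r
  | 2 => r
  | 3 => r △ .nil
  | 4 => app (.nil △ .nil) r
  | 5 => r
  | 6 => r △ .nil
  | 7 => r △ .nil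
  | 8 => r △ .nil
  | _ => (r △ .nil) △ .nil

/-- beads, first block -/
def pM (j : ℕ) : ℕ → Multiset ℕ
  | 0 => 0
  | 1 => {2 * j, 2 * j}
  | 2 => {0, 2 * j}
  | 3 => {2 * j + 1}
  | 4 => 0
  | 5 => {0, 0}
  | 6 => {2 * j + 2}
  | 7 => {1}
  | 8 => {0}
  | _ => 0

/-- shift, first block -/
def pA : ℕ → ℕ
  | 0 => 0
  | 1 => 0
  | 2 => 0
  | 3 => 1
  | 4 => 2
  | 5 => 0
  | 6 => 1
  | 7 => 1
  | 8 => 1
  | _ => 2

theorem app_leaf_nil (X : BinaryTree Unit) : app (.nil △ .nil) X = .nil △ X := rfl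

theorem PW (h : Wd r M R) (hr : r ≠ .nil) {i : ℕ} (hi : i < 10) :
    Wd (pR r i) (pM r.numNodes i + M.map (· + pA i)) (J.pw R i) := by
  have hn : (r △ BinaryTree.nil).numNodes = r.numNodes + 1 := rfl
  have hr' : (r △ BinaryTree.nil) ≠ .nil := by simp
  interval_cases i
  · refine (h.app Wd.two).cast rfl ?_ rfl
    change M + 0 = 0 + M.map (· + 0)
    simp
  · refine (h.app Wd.ll).cast (app_nil' r) ?_ rfl
    change M + ({0, 0} : Multiset ℕ).map (· + 2 * r.numNodes) = {2 * r.numNodes, 2 * r.numNodes} + M.map (· + 0)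
    rw [add_comm]
    simp
  · refine (Wd.leaf.app (h.app Wd.leaf)).cast (app_nil' r) ?_ rfl
    change ({0} : Multiset ℕ) + (M + ({0} : Multiset ℕ).map (· + 2 * r.numNodes)).map (· + 2 * 0) =
      {0, 2 * r.numNodes} + M.map (· + 0)
    have e : ({0, 2 * r.numNodes} : Multiset ℕ) = {0} + {2 * r.numNodes} := rfl
    rw [e, add_assoc, add_comm M]
    simp
  · refine ((h.app Wd.leaf).wrap (by rw [app_nil']; exact hr)).cast (by rw [app_nil']; rfl) ?_ rfl
    change (M + ({0} : Multiset ℕ).map (· + 2 * r.numNodes)).map (· + 1) =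
      {2 * r.numNodes + 1} + M.map (· + 1)
    rw [add_comm M, Multiset.map_add]
    simp
  · refine (Wd.two.app h).cast rfl ?_ rfl
    change 0 + M.map (· + 2 * 1) = 0 + M.map (· + 2)
    rfl
  · refine (Wd.ll.app h).cast rfl ?_ rfl
    rfl
  · refine ((h.wrap hr).app Wd.leaf).cast (app_nil' _) ?_ rfl
    change M.map (· + 1) + ({0} : Multiset ℕ).map (· + 2 * (r.numNodes + 1)) =
      {2 * r.numNodes + 2} + M.map (· + 1)
    rw [add_comm]
    have e : 0 + 2 * (r.numNodes + 1) = 2 * r.numNodes + 2 := by ring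
    rw [Multiset.map_singleton, e]
  · refine ((Wd.leaf.app h).wrap hr).cast rfl ?_ rfl
    change (({0} : Multiset ℕ) + M.map (· + 2 * 0)).map (· + 1) = {1} + M.map (· + 1)
    simp
  · refine (Wd.leaf.app (h.wrap hr)).cast rfl ?_ rfl
    change ({0} : Multiset ℕ) + (M.map (· + 1)).map (· + 2 * 0) = {0} + M.map (· + 1)
    simp
  · refine ((h.wrap hr).wrap hr').cast rfl ?_ rfl
    change (M.map (· + 1)).map (· + 1) = 0 + M.map (· + 2)
    rw [Multiset.map_map, zero_add]
    rfl

/-- reduced words, second block, `b ≠ nil` -/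
def qR (b s : BinaryTree Unit) : ℕ → BinaryTree Unit
  | 10 => app b (app (.nil △ .nil) s)
  | 11 => app b s
  | 12 => app (s △ .nil) b
  | 13 => app s (b △ .nil)
  | 14 => app (s △ .nil) b
  | 15 => app (s △ .nil) b
  | 16 => app s (b △ .nil)
  | 17 => app (s △ .nil) b △ .nil
  | 18 => app s (b △ .nil)
  | _ => app s (b △ .nil) △ .nil

/-- beads, second block -/
def qM (t l : ℕ) : ℕ → Multiset ℕ
  | 10 => 0
  | 11 => {2 * t, 2 * t}
  | 12 => {2 * l + 2 * t + 2}
  | 13 => {2 * l + 2 * t + 1}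
  | 14 => {1}
  | 15 => {0}
  | 16 => {2 * l + 2 * t + 2}
  | 17 => 0
  | 18 => {0}
  | _ => 0

/-- shift of the beads of `B` -/
def qB (l : ℕ) : ℕ → ℕ
  | 10 => 0
  | 11 => 0
  | 12 => 2 * l + 2
  | 13 => 2 * l + 1
  | 14 => 2 * l + 2
  | 15 => 2 * l + 2
  | 16 => 2 * l + 1
  | 17 => 2 * l + 3
  | 18 => 2 * l + 1
  | _ => 2 * l + 2

theorem QW (hb : Wd b M B) (hs : Wd s 0 S) (hb0 : b ≠ .nil) (hs0 : s ≠ .nil) {i : ℕ} (hi : 10 ≤ i)
    (hi' : i < 20) :
    Wd (qR b s i) (qM b.numNodes s.numNodes i + M.map (· + qB s.numNodes i)) (W R .nil B S i) := by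
  have hn : (s △ BinaryTree.nil).numNodes = s.numNodes + 1 := rfl
  have hw := hs.wrap hs0
  have hwb := hb.wrap hb0
  have hbl := hb.app Wd.leaf
  rw [app_nil'] at hbl
  interval_cases i
  · refine (hb.app (Wd.two.app hs)).cast rfl ?_ rfl
    simp [qM, qB]
  · refine (hb.app (Wd.ll.app hs)).cast rfl ?_ rfl
    change M + (({0, 0} : Multiset ℕ) + (0 : Multiset ℕ).map _).map (· + 2 * b.numNodes) =
      {2 * b.numNodes, 2 * b.numNodes} + M.map (· + 0)
    rw [add_comm]
    simp
  · refine (hw.app hbl).cast rfl ?_ rfl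
    change (0 : Multiset ℕ).map (· + 1) + (M + ({0} : Multiset ℕ).map (· + 2 * b.numNodes)).map
      (· + 2 * (s.numNodes + 1)) = {2 * s.numNodes + 2 * b.numNodes + 2} + M.map (· + (2 * s.numNodes + 2))
    have e : 0 + 2 * b.numNodes + 2 * (s.numNodes + 1) = 2 * s.numNodes + 2 * b.numNodes + 2 := by ring
    have e2 : 2 * (s.numNodes + 1) = 2 * s.numNodes + 2 := by ring
    rw [Multiset.map_zero, zero_add, add_comm M, Multiset.map_add, Multiset.map_singleton,
      Multiset.map_singleton, e, e2]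
  · refine (hs.app (hbl.wrap hb0)).cast rfl ?_ rfl
    change (0 : Multiset ℕ) + ((M + ({0} : Multiset ℕ).map (· + 2 * b.numNodes)).map (· + 1)).map
      (· + 2 * s.numNodes) = {2 * s.numNodes + 2 * b.numNodes + 1} + M.map (· + (2 * s.numNodes + 1))
    have e : 0 + 2 * b.numNodes + 1 + 2 * s.numNodes = 2 * s.numNodes + 2 * b.numNodes + 1 := by ring
    rw [zero_add, add_comm M, Multiset.map_add, Multiset.map_add, Multiset.map_singleton,
      Multiset.map_singleton, Multiset.map_singleton, e, Multiset.map_map]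
    congr 2
    funext x
    simp only [Function.comp]
    ring
  · refine (((Wd.leaf.app hs).wrap hs0).app hb).cast rfl ?_ rfl
    change (({0} : Multiset ℕ) + (0 : Multiset ℕ).map (· + 2 * 0)).map (· + 1) +
      M.map (· + 2 * (s.numNodes + 1)) = {1} + M.map (· + (2 * s.numNodes + 2))
    have e2 : 2 * (s.numNodes + 1) = 2 * s.numNodes + 2 := by ring
    rw [e2]
    simp
  · refine (Wd.leaf.app (hw.app hb)).cast rfl ?_ rfl
    change ({0} : Multiset ℕ) + ((0 : Multiset ℕ).map (· + 1) + M.map (· + 2 * (s.numNodes + 1))).map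
      (· + 2 * 0) = {0} + M.map (· + (2 * s.numNodes + 2))
    have e2 : 2 * (s.numNodes + 1) = 2 * s.numNodes + 2 := by ring
    rw [e2]
    simp
  · refine (hs.app (hwb.app Wd.leaf)).cast (by rw [app_nil']; rfl) ?_ rfl
    change (0 : Multiset ℕ) + (M.map (· + 1) + ({0} : Multiset ℕ).map (· + 2 * (b.numNodes + 1))).map
      (· + 2 * s.numNodes) = {2 * s.numNodes + 2 * b.numNodes + 2} + M.map (· + (2 * s.numNodes + 1))
    have e : 0 + 2 * (b.numNodes + 1) + 2 * s.numNodes = 2 * s.numNodes + 2 * b.numNodes + 2 := by ring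
    rw [zero_add, add_comm (M.map (· + 1)), Multiset.map_add, Multiset.map_singleton,
      Multiset.map_singleton, e, Multiset.map_map]
    congr 2
    funext x
    simp only [Function.comp]
    ring
  · refine ((hw.app hb).wrap (by simp [app])).cast rfl ?_ rfl
    change ((0 : Multiset ℕ).map (· + 1) + M.map (· + 2 * (s.numNodes + 1))).map (· + 1) =
      0 + M.map (· + (2 * s.numNodes + 3))
    rw [Multiset.map_zero, zero_add, zero_add, Multiset.map_map]
    congr 1
  · refine (Wd.leaf.app (hs.app hwb)).cast rfl ?_ rfl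
    change ({0} : Multiset ℕ) + ((0 : Multiset ℕ) + (M.map (· + 1)).map (· + 2 * s.numNodes)).map
      (· + 2 * 0) = {0} + M.map (· + (2 * s.numNodes + 1))
    rw [zero_add, Multiset.map_map, Multiset.map_map]
    congr 2
    funext x
    simp only [Function.comp]
    ring
  · refine ((hs.app hwb).wrap ?_).cast rfl ?_ rfl
    · intro h
      have := congrArg BinaryTree.numNodes h
      rw [num_app', num_node] at this
      change _ = 0 at this
      omega
    · change ((0 : Multiset ℕ) + (M.map (· + 1)).map (· + 2 * s.numNodes)).map (· + 1) =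
        0 + M.map (· + (2 * s.numNodes + 2))
      rw [zero_add, zero_add, Multiset.map_map, Multiset.map_map]
      congr 1
      funext x
      simp only [Function.comp]
      ring

end L1

end Pool.OddHC
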