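import Pool.Agent.Work.MP_8f87b2_h26.L1e
import Pool.Agent.Work.MP_8f87b2_h40.ShF

/-!
# MP_8f87b2_co, type L1: case B (`F (-1) = 0`), T-cycles of the words with one bead over one soliton
-/

set_option autoImplicit false

namespace Pool.OddHC

namespace L1

open BinaryTree H1 Equiv

variable {k n : ℕ} {F G G' : ZMod (2 * n + 1) → ℕ}

/-- the list of one bead -/
theorem cl_one {j g : ℕ} (hg : g ≤ 2 * j) :
    cl j {g} = lf (fun x : ZMod (2 * j + 1) => if x = (g : ZMod (2 * j + 1)) then 1 else 0) := by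
  unfold lf cl
  apply List.map_congr_left
  intro i hi
  rw [List.mem_range] at hi
  rw [Multiset.count_singleton]
  by_cases h : i = g
  · subst h
    simp
  · rw [if_neg h]
    symm
    apply if_neg
    intro h1
    apply h
    have := congrArg ZMod.val (show ((i : ℕ) : ZMod (2 * j + 1)) = (g : ZMod (2 * j + 1)) from h1)
    rwa [ZMod.val_natCast_of_lt hi, ZMod.val_natCast_of_lt (by omega)] at this

theorem lv_app1 (q : ℕ) (Y : BinaryTree Unit) : app (lv q .nil) Y = lv q Y := by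
  induction q with
  | zero => rfl
  | succ q ih =>
    change .nil △ app (lv q .nil) Y = _
    rw [ih]
    rfl

/-- the shape of the reduced word -/
theorem shape_rr (hn : 1 ≤ n) (F : ZMod (2 * n + 1) → ℕ) : ∃ D0 : BinaryTree Unit, D0 ≠ .nil ∧
    rr n F = lv (F 0) (D0 △ lv (F (-1)) .nil) := by
  obtain ⟨p, rfl⟩ : ∃ p, n = p + 1 := ⟨n - 1, by omega⟩
  obtain ⟨l, h0, h1, _⟩ := lf_snoc F
  obtain ⟨l', h2, _⟩ := lf_cons F
  obtain ⟨m, hm⟩ : ∃ m, l = F 0 :: m := by
    cases l with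
    | nil => simp at h0
    | cons x m =>
      rw [h1, List.cons_append, List.cons.injEq] at h2
      exact ⟨m, by rw [h2.1]⟩
  rw [hm] at h0 h1
  have hml : m.length = 2 * (H1.ch p).numNodes + 1 := by
    rw [List.length_cons] at h0
    rw [Ring1.ch_num]
    omega
  refine ⟨ins (H1.ch p) (bump (H1.ch p) m), ins_ne_nil _ _, ?_⟩
  unfold rr
  rw [h1]
  change ins (H1.ch p △ .nil) _ = _
  rw [List.cons_append, ins_comp hml]
  rfl

/-- CASE B: `F (-1) = 0`: `B = nil` -/
theorem caseB2 (hn : 1 ≤ n) (F : ZMod (2 * n + 1) → ℕ) (h0 : F (-1) = 0) :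
    (Tsq.sq (RH n F)).2 = .nil := by
  obtain ⟨D0, hD0, hs⟩ := shape_rr hn F
  rw [h0] at hs
  change rr n F = lv (F 0) (D0 △ .nil) at hs
  have hd : 1 ≤ D0.numNodes := by
    cases D0 with
    | nil => exact absurd rfl hD0
    | node _ A X =>
      change 1 ≤ A.numNodes + X.numNodes + 1
      omega
  have hnum : (rr n F).numNodes = F 0 + (D0.numNodes + 1) := by
    rw [hs, lv_num]
    rfl
  have hg : gH n F = 2 * F 0 + 2 * D0.numNodes - 1 := by
    unfold gH
    rw [h0, if_neg (by omega)]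
    rw [rr_num hn] at hnum
    omega
  obtain ⟨D, hD⟩ : ∃ D, Wd D0 {2 * D0.numNodes - 2} D := by
    refine ⟨_, ?_, rfl⟩
    intro y hy
    rw [Multiset.mem_singleton] at hy
    omega
  have e1 : RH n F = app (lv2 (F 0) .nil) (D △ .nil) := by
    have a1 := (Wd.inf (lv (F 0) .nil)).app (hD.wrap hD0)
    rw [lv_app1, ← hs, Ring1.inf_lp] at a1
    refine (Wd_RH hn F).det (a1.cast rfl ?_ rfl)
    rw [zero_add, Multiset.map_singleton, Multiset.map_singleton, hg, lv_num']
    congr 1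
    omega
  have hDh : 2 ≤ Tsq.ht D := by
    rw [H1.ht_eq, hD.eq, ht_eq, cont_ins _ _ (cl_length _ _), sup_add']
    have h2 := Ring1.ht_two hD0
    rw [ht_eq, cont_inf] at h2
    exact h2.trans (le_max_left _ _)
  have hDn : D ≠ .nil := by
    rintro rfl
    change 2 ≤ 0 at hDh
    omega
  have s1 := Tsq.sq_pre (lv2 (F 0) .nil) (D △ .nil) (by
    have h1 : ht (lv2 (F 0) .nil) ≤ 2 := (Ring1.ht_lv2 (F 0) .nil).trans (by
      change max 2 0 ≤ 2
      omega)
    rw [H1.ht_eq]
    change _ < max (Tsq.ht D + 1) 0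
    omega)
  rw [e1, s1, Tsq.sq_wrap hDn (by
    change 0 ≤ _
    omega)]

theorem sum_sub1 (F : ZMod (2 * n + 1) → ℕ) : ∑ x, F (x - 1) = ∑ x, F x := by
  have h := sum_shift F (-1)
  simpa only [sub_eq_add_neg] using h

/-- the word of the first level -/
theorem phi_rr (F : ZMod (2 * n + 1) → ℕ) {j : ℕ} (hj : n + pkn (pwX n).1 + ∑ x, F x = j) :
    (phi (pwX n) F hj).1 = rr n F := by
  unfold rr
  rw [Ring1.ch_eq]
  rfl

/-- CASE B: `S` -/
theorem caseB1 (hn : 1 ≤ n) (F : ZMod (2 * n + 1) → ℕ) (h0 : F (-1) = 0) :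
    Wd (rr n fun x => F (x - 1)) {2 * (n + 1 + ∑ x, F x) - 2} (Tsq.sq (RH n F)).1 := by
  have hj := Ring1.hj_of hn F
  have hne : RH n F ≠ .nil := by
    intro h
    have := num_RH hn F
    rw [h] at this
    change 0 = _ at this
    omega
  let x : X (RH n F).numNodes := ⟨RH n F, mem_treesOfNumNodesEq.2 rfl⟩
  have e1 : (TT (TT x)).1 = app (Tsq.sq (RH n F)).2 (Tsq.sq (RH n F)).1 := Tsq.TT_sq x hne
  rw [caseB2 hn F h0] at e1
  change (TT (TT x)).1 = (Tsq.sq (RH n F)).1 at e1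
  have hg := gH_le hn F
  have hg2 : gH n F = 2 * (n + ∑ x, F x) - 1 := by
    unfold gH
    rw [h0, if_neg (by omega)]
  rw [rr_num hn] at hg
  have e2 : x.1 = ins (phi (pwX n) F hj).1 (lf (fun y : ZMod (2 * (n + 1 + ∑ x, F x) + 1) =>
      if y = (gH n F : ZMod (2 * (n + 1 + ∑ x, F x) + 1)) then 1 else 0)) := by
    rw [phi_rr, ← cl_one (by omega)]
    change RH n F = _
    unfold RH
    rw [rr_num hn]
  obtain ⟨h2, h3⟩ := Ring1.eq_phi F hj _ e2
  have e3 : TT (TT x) = (TT ^ 2) x := rfl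
  rw [← e1, e3, h3, pow_phi]
  have hj' : n + pkn (pwX n).1 + ∑ x, F (x - 1) = n + 1 + ∑ x, F x := by
    rw [sum_sub1]
    exact hj
  have e4 : (TT ^ 2) (phi (pwX n) F hj) = phi (pwX n) (fun x => F (x - 1)) hj' := by
    rw [pow_phi]
    apply phi_congr (sp_pw n hn 2).2
    funext y
    rw [(sp_pw n hn 2).1]
    congr 1
    have h5 := ZMod.natCast_self (2 * n + 1)
    push_cast at h5 ⊢
    linear_combination h5
  have e5 := Ring1.sp_two hn F hj
  rw [h0] at e5
  constructor
  · intro y hy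
    rw [Multiset.mem_singleton] at hy
    rw [rr_num hn]
    have := sum_sub1 F
    omega
  · change ins ((TT ^ 2) (phi (pwX n) F hj)).1 _ = _
    rw [e4, phi_rr]
    congr 1
    have hs : (rr n fun x => F (x - 1)).numNodes = n + 1 + ∑ x, F x := by
      rw [rr_num hn]
      have := sum_sub1 F
      omega
    rw [hs, cl_one (by omega)]
    congr 1
    funext y
    rw [e5]
    have e6 : (y + -((1 + 2 * 0 : ℕ) : ZMod (2 * (n + 1 + ∑ x, F x) + 1)) =
        (gH n F : ZMod (2 * (n + 1 + ∑ x, F x) + 1))) ↔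
        y = ((2 * (n + 1 + ∑ x, F x) - 2 : ℕ) : ZMod (2 * (n + 1 + ∑ x, F x) + 1)) := by
      have e7 : 2 * (n + 1 + ∑ x, F x) - 2 = gH n F + 1 := by
        rw [hg2]
        omega
      rw [e7]
      push_cast
      constructor
      · intro h
        linear_combination h
      · intro h
        linear_combination h
    simp only [e6]

/-! ### One bead -/

/-- a word with one bead over `rr n G` -/
def Ov (n : ℕ) (G : ZMod (2 * n + 1) → ℕ) (w : BinaryTree Unit) : Prop := ∃ p, Wd (rr n G) {p} w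

theorem Ov.le (hn : 1 ≤ n) {p : ℕ} {w : BinaryTree Unit} (h : Wd (rr n G) {p} w) :
    p ≤ 2 * (n + 1 + ∑ x, G x) := by
  have := h.le p (Multiset.mem_singleton_self p)
  rwa [rr_num hn] at this

theorem Ov.phi (hn : 1 ≤ n) {w : X k} (h : Ov n G w.1) {j : ℕ}
    (hj : n + pkn (pwX n).1 + ∑ x, G x = j) :
    ∃ p : ZMod (2 * j + 1), w.1 = ins (phi (pwX n) G hj).1 (lf fun x : ZMod (2 * j + 1) => if x = p then 1 else 0) := by
  obtain ⟨p, h⟩ := h
  have hj' := Ring1.hj_of hn G
  have hjj : j = n + 1 + ∑ x, G x := by rw [← hj, hj']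
  subst hjj
  have h1 := Ov.le hn h
  refine ⟨(p : ZMod _), ?_⟩
  rw [h.eq, phi_rr, rr_num hn, cl_one h1]

/-- **the T-cycles of the words with one bead over one soliton are the classes of the rotations** -/
theorem Ov.cyc_iff (hn : 1 ≤ n) {w w' : X k} (h : Ov n G w.1) (h' : Ov n G' w'.1) :
    cyc w = cyc w' ↔ ∃ c : ZMod (2 * n + 1), G' = fun x => G (x + c) := by
  have hj := Ring1.hj_of hn G
  obtain ⟨p, e⟩ := h.phi hn hj
  rw [cyc_eq]
  constructor
  · intro hs
    obtain ⟨i, hi⟩ := sameCycle_nat hs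
    obtain ⟨h1, h2⟩ := Ring1.eq_phi G hj _ e
    rw [h2, pow_phi] at hi
    have e4 : (TT ^ i) (OddHC.phi (pwX n) G hj) = OddHC.phi (pwX n) (fun x => G (x + sp (pwX n) i))
        (by rw [sum_shift]; exact hj) := by
      rw [pow_phi]
      exact phi_congr (sp_pw n hn i).2 rfl _ _
    obtain ⟨p', h'⟩ := h'
    have e5 := congrArg Subtype.val hi
    rw [h'.eq] at e5
    change ins ((TT ^ i) (OddHC.phi (pwX n) G hj)).1 _ = _ at e5
    rw [e4, phi_rr] at e5
    have e6 := (ins_inj (by rw [lf_length, rr_num hn, sum_shift]) (cl_length _ _) e5).1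
    have e7 := (ins_inj (Ring1.ins_len _) (Ring1.ins_len _) e6).2
    exact ⟨_, (lf_inj e7).symm⟩
  · rintro ⟨c, rfl⟩
    have hj' : n + pkn (pwX n).1 + ∑ x, G (x + c) = n + 1 + ∑ x, G x := by rw [sum_shift]; exact hj
    obtain ⟨p', e'⟩ := h'.phi hn hj'
    refine Ring1.same_words hn G c hj hj' _ _ (p - p') ?_ e e'
    funext x
    have : x + (p - p') = p ↔ x = p' := by
      constructor
      · intro h; linear_combination h
      · intro h; linear_combination h
    simp only [this]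

end L1

end Pool.OddHC
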