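import Pool.Agent.Work.MP_8f87b2_h26.L1f
import Pool.Agent.Work.MP_8f87b2_h40.TyF

/-!
# MP_8f87b2_co, type L1: the words of one gadget are different, their T-cycles
-/

set_option autoImplicit false

namespace Pool.OddHC

namespace L1

open BinaryTree H1 Equiv J

variable {k n : ℕ} {F G G' : ZMod (2 * n + 1) → ℕ}

theorem GR_RH (hn : 1 ≤ n) (F : ZMod (2 * n + 1) → ℕ) (hk : n + 5 + 2 * ∑ x, F x = k) :
    GR k (RH n F) := by
  refine ⟨?_, ?_, ?_, ?_⟩
  · rw [ht_RH hn]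
    omega
  · rw [cont_RH hn, Multiset.count_add, Multiset.count_add, Multiset.count_singleton,
      if_neg (by omega), Multiset.count_replicate, if_neg (by omega), Multiset.count_singleton]
    rfl
  · rw [num_RH hn]
    omega
  · by_cases h : F (-1) = 0
    · exact Or.inl (caseB2 hn F h)
    · exact Or.inr (caseA_ht hn F (by omega))

theorem W_lo (R B S : BinaryTree Unit) {i : ℕ} (hi : i < 10) : H1.W R .nil B S i = J.pw R i := by
  interval_cases i <;> rfl

theorem W_hi (R : BinaryTree Unit) (t : ℕ) (D : BinaryTree Unit) (u : ℕ) {i : ℕ} (hi : 10 ≤ i)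
    (hi' : i < 20) : H1.W R .nil (b2 t) (RR 0 D u) i = mw t D u i := by
  interval_cases i <;> rfl

theorem W_hi0 (R S : BinaryTree Unit) {i : ℕ} (hi : 10 ≤ i) (hi' : i < 20) :
    H1.W R .nil .nil S i = J.pw S (ixp i) := by
  interval_cases i <;> rfl

theorem W_hiR (R R' B S : BinaryTree Unit) {i : ℕ} (hi : 10 ≤ i) (hi' : i < 20) :
    H1.W R .nil B S i = H1.W R' .nil B S i := by
  interval_cases i <;> rfl

theorem mir_lv0 (t : ℕ) : Tsq.mir (lv t .nil) = lv t .nil := by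
  rw [mir_lv']
  rfl

/-- **the words without the hidden bead** -/
theorem PI_all (hn : 1 ≤ n) (F : ZMod (2 * n + 1) → ℕ) (h1F : 1 ≤ ∑ x, F x)
    (hk : n + 4 + 2 * ∑ x, F x = k) :
    ∃ D D' : BinaryTree Unit, Sh k (F 0) D (F (-1)) D' (F (-2)) ∧
      RR (F 0) D (F (-1)) = Ring1.RF n F ∧
      RR (F (-1)) D' (F (-2)) = Ring1.RF n (fun x => F (x - 1)) ∧
      ∀ i < 20, PI (H1.W (RR (F 0) D (F (-1))) .nil (b2 (F (-1))) (RR 0 D' (F (-2))) i)
        (H1.W (RH n F) .nil (Tsq.sq (RH n F)).2 (Tsq.sq (RH n F)).1 i) := by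
  obtain ⟨D, D', h, e, e'⟩ := sh_RF (k := k) hn F hk
  refine ⟨D, D', h, e, e', ?_⟩
  intro i hi
  rcases lt_or_ge i 10 with h1 | h1
  · rw [W_lo _ _ _ h1, W_lo _ _ _ h1, e]
    have hg := gH_le hn F
    exact PI_p (by rw [rr_num hn]; omega) (Wd_RH hn F) hg.1 hg.2 h1
  · rcases Nat.eq_zero_or_pos (F (-1)) with h0 | h0
    · have hB := caseB2 hn F h0
      have hS := caseB1 hn F h0
      rw [hB]
      rw [h0] at e'
      rw [h0]
      change PI (H1.W _ .nil .nil (RR 0 D' (F (-2))) i) _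
      rw [W_hi0 _ _ h1 hi, W_hi0 _ _ h1 hi, e']
      refine PI_p (r := rr n fun x => F (x - 1)) ?_ hS (by omega) ?_ (ixp_lt i)
      · rw [rr_num hn, sum_sub1]
        omega
      · rw [rr_num hn, sum_sub1]
        omega
    · obtain ⟨hA, hB⟩ := caseA hn F h0
      obtain ⟨s1, _, D1, hD1, s2⟩ := Ring1.sq_RF hn F
      have hd : 1 ≤ D1.numNodes := by
        cases D1 with
        | nil => exact absurd rfl hD1
        | node _ A X =>
          change 1 ≤ A.numNodes + X.numNodes + 1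
          omega
      have es : inf (D1 △ lv (F (-2)) .nil) = (Tsq.sq (Ring1.RF n F)).1 := by
        rw [s2, inf_node, inf1_eq hD1, Ring1.inf_lp]
      have eS : RR 0 D' (F (-2)) = inf (D1 △ lv (F (-2)) .nil) := by
        rw [es, ← e, h.sq]
      have eb : b2 (F (-1)) = inf (lv (F (-1)) .nil) := by
        rw [Ring1.inf_lp]
        rfl
      rw [hA, ← es, eS, eb]
      have hb0 : lv (F (-1)) (.nil : BinaryTree Unit) ≠ .nil := by
        intro h2
        have := lv_num' (F (-1))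
        rw [h2] at this
        change 0 = _ at this
        omega
      refine PI_q ?_ hb0 hB (by omega) (by rw [lv_num']; omega) ?_ h1 hi
      · change 2 ≤ D1.numNodes + (lv (F (-2)) .nil).numNodes + 1
        omega
      · refine ⟨⟨_, _, rfl, by simp⟩, ?_⟩
        obtain ⟨t, ht⟩ : ∃ t, F (-1) = t + 1 := ⟨F (-1) - 1, by omega⟩
        rw [Tsq.mir_app, mir_lv0, ht]
        exact ⟨_, rfl⟩

/-- exceptional indices -/
def Ex (t i : ℕ) : Prop := i = 0 ∨ i = 4 ∨ i = 10 ∨ (i = 13 ∧ t = 0)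

theorem RR_ne_of (h : F (-1) = 0) (h1F : 1 ≤ ∑ x, F x) : Ring1.RF n F ≠ Ring1.RF n (fun x => F (x - 1)) := by
  intro e
  have e1 := Ring1.RF_inj e
  have e2 : ∀ m : ℕ, F (-1 + (m : ZMod (2 * n + 1))) = 0 := by
    intro m
    induction m with
    | zero => rw [Nat.cast_zero, add_zero]; exact h
    | succ m ih =>
      rw [e1]
      push_cast
      have : (-1 + ((m : ZMod (2 * n + 1)) + 1) - 1) = -1 + (m : ZMod (2 * n + 1)) := by ring
      simp only [this]
      exact ih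
  have e3 : ∀ x, F x = 0 := by
    intro x
    have := e2 (x + 1).val
    rw [ZMod.natCast_zmod_val] at this
    rw [← this]
    congr 1
    ring
  rw [Finset.sum_eq_zero (fun x _ => e3 x)] at h1F
  omega

theorem inj_free {p t u : ℕ} {D D' : BinaryTree Unit} (h : Sh k p D t D' u)
    (hRS : t = 0 → RR p D t ≠ RR 0 D' u) :
    ∀ i < 20, ∀ j < 20, H1.W (RR p D t) .nil (b2 t) (RR 0 D' u) i =
      H1.W (RR p D t) .nil (b2 t) (RR 0 D' u) j → i = j ∨ (Ex t i ∧ Ex t j) := by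
  have lo : ∀ i < 10, ∀ j < 10, H1.W (RR p D t) .nil (b2 t) (RR 0 D' u) i =
      H1.W (RR p D t) .nil (b2 t) (RR 0 D' u) j → i = j ∨ (Ex t i ∧ Ex t j) := by
    intro i hi j hj e1
    rw [W_lo _ _ _ hi, W_lo _ _ _ hj] at e1
    rcases pure_inj h.gD h.gD hi hj e1 with ⟨h1, _⟩ | ⟨h1, h2⟩
    · exact Or.inl h1
    · right
      unfold Ex
      omega
  have mid : ∀ i < 10, ∀ j, 10 ≤ j → j < 20 → H1.W (RR p D t) .nil (b2 t) (RR 0 D' u) i =
      H1.W (RR p D t) .nil (b2 t) (RR 0 D' u) j → (Ex t i ∧ Ex t j) := by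
    intro i hi j hj hj' e1
    rw [W_lo _ _ _ hi, W_hi _ _ _ _ hj hj'] at e1
    rcases Nat.eq_zero_or_pos t with ht | ht
    · subst ht
      rw [mw_zero D' u hj hj'] at e1
      rcases pure_inj h.gD h.gD' hi (ixp_lt j) e1 with ⟨_, h2⟩ | ⟨h1, h2⟩
      · exact absurd h2 (hRS rfl)
      · have hj2 : j = 10 ∨ j = 13 := by
          interval_cases j <;> simp [ixp] at h2 ⊢
        unfold Ex
        omega
    · obtain ⟨h1, h2⟩ := mix_pure h.gD' h.gD ht hj hj' hi e1.symm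
      unfold Ex
      omega
  have hi2 : ∀ i, 10 ≤ i → i < 20 → ∀ j, 10 ≤ j → j < 20 → H1.W (RR p D t) .nil (b2 t) (RR 0 D' u) i =
      H1.W (RR p D t) .nil (b2 t) (RR 0 D' u) j → i = j ∨ (Ex t i ∧ Ex t j) := by
    intro i hi hi' j hj hj' e1
    rw [W_hi _ _ _ _ hi hi', W_hi _ _ _ _ hj hj'] at e1
    rcases Nat.eq_zero_or_pos t with ht | ht
    · subst ht
      rw [mw_zero D' u hj hj', mw_zero D' u hi hi'] at e1
      rcases pure_inj h.gD' h.gD' (ixp_lt i) (ixp_lt j) e1 with ⟨h1, _⟩ | ⟨h1, h2⟩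
      · exact Or.inl (ixp_inj hi hi' hj hj' h1)
      · right
        have hi2 : i = 10 ∨ i = 13 := by
          interval_cases i <;> simp [ixp] at h1 ⊢
        have hj2 : j = 10 ∨ j = 13 := by
          interval_cases j <;> simp [ixp] at h2 ⊢
        unfold Ex
        omega
    · exact Or.inl (mix_inj h.gD' h.gD' ht ht hi hi' hj hj' e1).1
  intro i hi j hj e
  rcases lt_or_ge i 10 with h1 | h1 <;> rcases lt_or_ge j 10 with h2 | h2
  · exact lo i h1 j h2 e
  · exact Or.inr (mid i h1 j h2 hj e)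
  · exact Or.inr (mid j h2 i h1 hi e.symm).symm
  · exact hi2 i h1 hi j h2 hj e

/-! ### The T-cycles of the words 0, 4, 13 -/

theorem app_rr (F : ZMod (2 * n + 1) → ℕ) :
    app (rr n F) (.nil △ .nil) = rr n (ad F (-1)) := by
  unfold rr ad
  rw [Ring1.ch_eq]
  exact (ins_back (pwX n) F).symm

theorem cons_rr (F : ZMod (2 * n + 1) → ℕ) :
    (.nil : BinaryTree Unit) △ rr n F = rr n (ad F 0) := by
  unfold rr ad
  rw [Ring1.ch_eq]
  exact (ins_front (pwX n) F).symm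

theorem ov0 (hn : 1 ≤ n) (F : ZMod (2 * n + 1) → ℕ) :
    Ov n (ad F (-1)) (H1.W (RH n F) .nil (Tsq.sq (RH n F)).2 (Tsq.sq (RH n F)).1 0) := by
  refine ⟨gH n F, ?_⟩
  have h := (Wd_RH hn F).app Wd.two
  exact h.cast (app_rr F) (by simp) rfl

theorem ov4 (hn : 1 ≤ n) (F : ZMod (2 * n + 1) → ℕ) :
    Ov n (ad F 0) (H1.W (RH n F) .nil (Tsq.sq (RH n F)).2 (Tsq.sq (RH n F)).1 4) := by
  refine ⟨gH n F + 2, ?_⟩
  have h := Wd.two.app (Wd_RH hn F)
  exact h.cast (cons_rr F) (by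
    change 0 + Multiset.map (· + 2 * 1) {gH n F} = _
    simp) rfl

theorem ov13 (hn : 1 ≤ n) (F : ZMod (2 * n + 1) → ℕ) (h0 : F (-1) = 0) :
    Ov n (ad (fun x => F (x - 1)) (-1))
      (H1.W (RH n F) .nil (Tsq.sq (RH n F)).2 (Tsq.sq (RH n F)).1 13) := by
  refine ⟨2 * (n + 1 + ∑ x, F x) - 2, ?_⟩
  have h := (caseB1 hn F h0).app Wd.two
  rw [caseB2 hn F h0]
  exact h.cast (app_rr _) (by simp) rfl

end L1

end Pool.OddHC
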