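import Pool.Agent.Work.MP_8f87b2_h26.RowSq
import Pool.Agent.Work.MP_8f87b2_h73.Row1
import Pool.Agent.Work.MP_8f87b2_h76.FyW
import Pool.Agent.Work.MP_8f87b2_h14.P5S
import Pool.Agent.Work.MP_8f87b2_h43.P5R

/-!
# MP_8f87b2_co: top rows of the types Fz, P5, P5M, P5R (helper26)
-/

set_option autoImplicit false

namespace Pool.OddHC

open Finset Equiv BinaryTree Pool.Agent.Work.MP_8f87b2_co Pool.OddHop

open T4

variable {n : ℕ} {F : Set (Cyc (n + 2 + 5))} {g : DG (n + 2 + 5)}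

/-! ### Fz -/

theorem TyFz.top (hn : 4 ≤ n) (h : TyFz F g) (hF : ∀ c ∈ F, htc c < n + 3) : ∀ w ∈ g.B, FreeTop n w := by
  obtain ⟨c, R, hR, ht⟩ := h
  have h3 := hR.c3
  have key : ∀ c ∈ F, htc c ≤ n + 1 := by
    intro d hd
    by_contra hc
    have hd2 : htc d = n + 2 := by have := hF d hd; omega
    obtain ⟨a, b, e, ha, hb, he, h1, h2, h4, rfl, rfl⟩ := ht
    have hb2 : htc (cyc b) = n + 2 := by
      rcases hd with rfl | rfl
      · exact hd2
      · rw [h2]; exact hd2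
    rw [htc_cyc, hb] at hb2
    have hch : OddHC.ht (H1.ch c) = c := H1.ch_ht c
    have e1 : OddHC.ht (w1 R (H1.ch c) .nil) = max (OddHC.ht R) (max (c + 1) 0) := by
      unfold w1
      rw [ht_app, ht_node, hch]
      rfl
    have hmem := Multiset.le_sup hR.mem
    rw [← OddHC.ht_eq] at hmem
    have hRh : OddHC.ht R = n + 2 := by
      rw [e1] at hb2
      omega
    have hnum : R.numNodes + c + 1 = n + 2 + 5 := by
      have := X_num b
      rw [hb] at this
      unfold w1 at this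
      rw [num_app] at this
      change R.numNodes + ((H1.ch c).numNodes + 0 + 1) = _ at this
      rw [H1.ch_num] at this
      omega
    have h0 : cont R ≠ 0 := fun h0 => hR.ne (cont_eq_zero.1 h0)
    have hs := Multiset.cons_erase (sup_mem h0)
    have hsum := congrArg Multiset.sum hs
    rw [Multiset.sum_cons, cont_sum, ← OddHC.ht_eq, hRh] at hsum
    by_cases hc2 : c + 1 = n + 2
    · omega
    · have hm : c + 1 ∈ (cont R).erase (n + 2) := by
        rw [Multiset.mem_erase_of_ne hc2]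
        exact hR.mem
      have := Multiset.single_le_sum (fun _ _ => Nat.zero_le _) _ hm
      omega
  intro w hw
  exact (tri_low ht key w hw).ft (by omega)

theorem TyFz.topI (h : TyFz F g) : ∀ a ∈ g.arcs, ∀ w ∈ innA a, FreeTop n w := by
  obtain ⟨c, R, hR, ht⟩ := h
  intro a ha
  exact (tri_arcs ht a ha).elim

/-! ### P5 -/

theorem TyP5.top (hn : 3 ≤ n) (h : TyP5 F g) (hF : ∀ c ∈ F, htc c < n + 3) : ∀ w ∈ g.B, FreeTop n w := by
  obtain ⟨S, h2, h⟩ := h
  have hh := P5.ht_wR h2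
  obtain ⟨w, hw, hne, rfl, rfl⟩ := h
  have h1 := hF (cyc (w 1)) (Or.inl rfl)
  rw [htc_cyc, hw 1 (by norm_num), P5.wR_eq S 1 (by norm_num), hh.2.1] at h1
  intro x hx
  obtain ⟨i, hi, rfl⟩ := mem_image.1 hx
  rw [mem_range] at hi
  by_cases h0 : i = 0
  · subst h0
    have e : (w 0).1 = (.nil △ (S △ .nil)) △ .nil := (hw 0 hi).trans (P5.wR_eq S 0 hi)
    have h3 : OddHC.ht (w 0).1 = OddHC.ht S + 2 := by
      rw [hw 0 hi, P5.wR_eq S 0 hi]
      exact hh.1
    have : LowW n (w 0) := by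
      by_cases h4 : OddHC.ht (w 0).1 ≤ n + 2
      · exact Or.inl h4
      · exact Or.inr ⟨by omega, _, e⟩
    exact this.ft (by omega)
  · have hm : cyc (w i) ∈ F4 w := by
      interval_cases i
      · exact absurd rfl h0
      · exact Or.inl rfl
      · exact Or.inr (Or.inl rfl)
      · exact Or.inr (Or.inr (Or.inl rfl))
      · exact Or.inr (Or.inr (Or.inr rfl))
    have := hF _ hm
    rw [htc_cyc] at this
    exact (show LowW n (w i) from Or.inl (by omega)).ft (by omega)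

theorem TyP5M.top (hn : 3 ≤ n) (h : TyP5M F g) (hF : ∀ c ∈ F, htc c < n + 3) : ∀ w ∈ g.B, FreeTop n w := by
  obtain ⟨S, h2, h⟩ := h
  have hh := P5.ht_wM h2
  obtain ⟨w, hw, hne, rfl, rfl⟩ := h
  have h1 := hF (cyc (w 1)) (Or.inl rfl)
  rw [htc_cyc, hw 1 (by norm_num), P5.wM_eq S 1 (by norm_num), hh.2.1] at h1
  intro x hx
  obtain ⟨i, hi, rfl⟩ := mem_image.1 hx
  rw [mem_range] at hi
  by_cases h0 : i = 0
  · subst h0
    have e : (w 0).1 = (S △ (.nil △ .nil)) △ .nil := (hw 0 hi).trans (P5.wM_eq S 0 hi)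
    have h3 : OddHC.ht (w 0).1 = OddHC.ht S + 2 := by
      rw [hw 0 hi, P5.wM_eq S 0 hi]
      exact hh.1
    have : LowW n (w 0) := by
      by_cases h4 : OddHC.ht (w 0).1 ≤ n + 2
      · exact Or.inl h4
      · exact Or.inr ⟨by omega, _, e⟩
    exact this.ft (by omega)
  · have hm : cyc (w i) ∈ F4 w := by
      interval_cases i
      · exact absurd rfl h0
      · exact Or.inl rfl
      · exact Or.inr (Or.inl rfl)
      · exact Or.inr (Or.inr (Or.inl rfl))
      · exact Or.inr (Or.inr (Or.inr rfl))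
    have := hF _ hm
    rw [htc_cyc] at this
    exact (show LowW n (w i) from Or.inl (by omega)).ft (by omega)

theorem TyP5.topI (h : TyP5 F g) : ∀ a ∈ g.arcs, ∀ w ∈ innA a, FreeTop n w := by
  obtain ⟨S, h2, h⟩ := h
  intro a ha
  rw [h.arcs] at ha
  exact absurd ha (by simp)

theorem TyP5M.topI (h : TyP5M F g) : ∀ a ∈ g.arcs, ∀ w ∈ innA a, FreeTop n w := by
  obtain ⟨S, h2, h⟩ := h
  intro a ha
  rw [h.arcs] at ha
  exact absurd ha (by simp)

/-! ### P5R -/

theorem TyP5RR.top (hn : 3 ≤ n) {R B S : BinaryTree Unit} (h : TyP5RR R B S F g) (hF : ∀ c ∈ F, htc c < n + 3) :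
    ∀ w ∈ g.B, FreeTop n w := by
  intro x hx
  have hs := h.sqd
  have h3 := hs.h3
  have hi := P5R.ht_ix (R := R) (B := B) (S := S) (by omega)
  have h6 := hF _ (h.mem6 x)
  rw [htc_cyc, hs.word x (by norm_num), hi.2.1] at h6
  rcases h.wd x hx with ⟨e, -⟩ | ⟨e, -⟩
  · have h4 : OddHC.ht x.1 = OddHC.ht R + 2 := by rw [e]; exact hi.1
    have : LowW n x := by
      by_cases h5 : OddHC.ht x.1 ≤ n + 2
      · exact Or.inl h5
      · exact Or.inr ⟨by omega, _, e⟩
    exact this.ft (by omega)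
  · have := hF _ e
    rw [htc_cyc] at this
    exact (show LowW n x from Or.inl (by omega)).ft (by omega)

theorem TyP5RR.topI {R B S : BinaryTree Unit} (h : TyP5RR R B S F g) : ∀ a ∈ g.arcs, ∀ w ∈ innA a, FreeTop n w := by
  intro a ha
  rw [h.arcs] at ha
  exact absurd ha (by simp)

theorem TyP5R.top (hn : 3 ≤ n) (h : TyP5R F g) (hF : ∀ c ∈ F, htc c < n + 3) : ∀ w ∈ g.B, FreeTop n w := by
  obtain ⟨R, B, S, h⟩ := h
  exact h.top hn hF

theorem TyP5R.topI (h : TyP5R F g) : ∀ a ∈ g.arcs, ∀ w ∈ innA a, FreeTop n w := by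
  obtain ⟨R, B, S, h⟩ := h
  exact h.topI

end Pool.OddHC
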