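import Pool.Agent.Work.MP_8f87b2_h26.RowSq
import Pool.Agent.Work.MP_8f87b2_h40.H2e

/-!
# MP_8f87b2_co: top rows of the type H (`V` one soliton, `m = 0`: JM, JY, J5, NM) (helper26)

`k - h = 2 a` is even, so the height is at most `k - 6`; no arc `9 > 17` in these gadgets.
-/

set_option autoImplicit false

namespace Pool.OddHC

open Finset Equiv BinaryTree Pool.Agent.Work.MP_8f87b2_co Pool.OddHop

namespace T4

/-- heights of the twenty words, `Q = nil` -/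
theorem W_hh {k : ℕ} {R B S : BinaryTree Unit} (hS : ht S ≤ ht R) (hB : ht B ≤ ht R) (h3 : 3 ≤ ht R) {i : ℕ} (hi : i < 20)
    {w : X k} (hw : w.1 = H1.W R .nil B S i) : Hh (ht R) w := by
  unfold Hh
  rw [hw]
  interval_cases i <;> simp only [H1.W, OddHC.ht_node, OddHC.ht_app, T4.ht_nil, app] <;> first
    | (left; omega)
    | (by_cases h9 : OddHC.ht (H1.W R .nil B S 9) = 0 <;> refine Or.inr ⟨?_, _, rfl⟩ <;> omega)
    | (rcases Nat.lt_or_ge (OddHC.ht R + 1) (max (max (OddHC.ht S) (OddHC.ht B + 1) + 1) 0) with h5 | h5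
       · exact Or.inr ⟨by omega, _, rfl⟩
       · exact Or.inl (by omega))
    | (rcases Nat.lt_or_ge (OddHC.ht R + 1) (max (max (OddHC.ht S + 1) (OddHC.ht B) + 1) 0) with h5 | h5
       · exact Or.inr ⟨by omega, _, rfl⟩
       · exact Or.inl (by omega))

theorem W_hlow {R B S : BinaryTree Unit} (hS : ht S ≤ ht R) (hB : ht B ≤ ht R) (h3 : 3 ≤ ht R) {i : ℕ} (hi : i < 20)
    (h9 : i ≠ 9) (h17 : i ≠ 17) (h19 : i ≠ 19) : ht (H1.W R .nil B S i) ≤ ht R + 1 := by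
  interval_cases i <;> first
    | (exfalso; omega)
    | (simp only [H1.W, OddHC.ht_node, OddHC.ht_app, T4.ht_nil, app]; omega)

end T4

open T4 J

namespace J

variable {k p t u : ℕ} {D D' : BinaryTree Unit}

theorem Sh.h3 (h : Sh k p D t D' u) : 3 ≤ OddHC.ht (RR p D t) := by
  rw [ht_RR h.gD]
  have := h.gD.ht
  omega

theorem Sh.hhX (h : Sh k p D t D' u) (w0 : X k) {i : ℕ} (hi : i < 20) : Hh (OddHC.ht (RR p D t)) (jX p D t D' u w0 i) :=
  W_hh h.htS.le (by have := h.h3; have := ht_b2 t; omega) h.h3 hi (h.word w0 hi)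

theorem Sh.hhM (h : Sh k p D t D' u) (w0 : X k) {i : ℕ} (hi : i < 20) : Hh (OddHC.ht (RR p D t)) (jM p D t D' u w0 i) :=
  (h.hhX w0 hi).mir

theorem Sh.lowX (h : Sh k p D t D' u) (w0 : X k) {i : ℕ} (hi : i < 20) (h9 : i ≠ 9) (h17 : i ≠ 17) (h19 : i ≠ 19) :
    OddHC.ht (jX p D t D' u w0 i).1 ≤ OddHC.ht (RR p D t) + 1 := by
  rw [h.word w0 hi]
  exact W_hlow h.htS.le (by have := h.h3; have := ht_b2 t; omega) h.h3 hi h9 h17 h19

theorem Sh.lowM (h : Sh k p D t D' u) (w0 : X k) {i : ℕ} (hi : i < 20) (h9 : i ≠ 9) (h17 : i ≠ 17) (h19 : i ≠ 19) :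
    OddHC.ht (jM p D t D' u w0 i).1 ≤ OddHC.ht (RR p D t) + 1 := by
  change OddHC.ht (Tsq.mir (jX p D t D' u w0 i).1) ≤ _
  rw [OddHC.ht_mir]
  exact h.lowX w0 hi h9 h17 h19

theorem Sh.htcX (h : Sh k p D t D' u) (w0 : X k) : htc (cyc (jX p D t D' u w0 0)) = OddHC.ht (RR p D t) := by
  rw [htc_cyc, h.word w0 (by norm_num)]
  have := h.h3
  simp only [H1.W, OddHC.ht_node, OddHC.ht_app, T4.ht_nil, app]
  omega

theorem Sh.htcM (h : Sh k p D t D' u) (w0 : X k) : htc (cyc (jM p D t D' u w0 0)) = OddHC.ht (RR p D t) := by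
  rw [htc_cyc]
  change OddHC.ht (Tsq.mir (jX p D t D' u w0 0).1) = _
  rw [OddHC.ht_mir, ← htc_cyc]
  exact h.htcX w0

end J

variable {n : ℕ} {F : Set (Cyc (n + 2 + 5))} {g : DG (n + 2 + 5)}

/-- the height is at most `k - 6` -/
theorem Hole2.TyH.le (h : Hole2.TyH F g) (hF : ∀ c ∈ F, htc c < n + 3) : ∀ c ∈ F, htc c ≤ n + 1 := by
  obtain ⟨n', a, r, h1, h2, h3, h4⟩ := h
  intro c hc
  have h5 := h4.ht c hc
  have h6 := hF c hc
  omega

theorem Hole2.TyH.top (hn : 3 ≤ n) (h : Hole2.TyH F g) (hF : ∀ c ∈ F, htc c < n + 3) : ∀ w ∈ g.B, FreeTop n w := by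
  have hl := h.le hF
  rcases h.cases with h | h | h | h
  · obtain ⟨p, D, t, D', u, w0, h1, hp, rfl, rfl⟩ := h
    intro w hw
    obtain ⟨i, hi, _, rfl⟩ := mem_gadJM.1 hw
    have := hl _ (Or.inl rfl)
    rw [h1.htcM] at this
    exact ((h1.hhM w0 hi).low this).ft (by omega)
  · obtain ⟨p, D, t, D', u, w0, h1, hp, rfl, rfl⟩ := h
    intro w hw
    obtain ⟨i, hi, rfl⟩ := mem_gadOf_B.1 hw
    have hi' : i < 20 := (by decide : ∀ i ∈ ixJ2Y, i < 20) i hi
    have := hl _ ⟨0, by decide, rfl⟩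
    rw [h1.htcM] at this
    exact ((h1.hhM w0 hi').low this).ft (by omega)
  · obtain ⟨p, D, D', u, w0, h1, hp, rfl, rfl⟩ := h
    intro w hw
    obtain ⟨i, hi, rfl⟩ := mem_gadJ5_B.1 hw
    have hi' : i < 20 := (by decide : ∀ i ∈ ixJ5, i < 20) i hi
    have := hl _ ⟨0, by decide, rfl⟩
    rw [h1.htcX] at this
    exact ((h1.hhX w0 hi').low this).ft (by omega)
  · obtain ⟨p, D, t, D', u, w0, h1, hp, rfl, rfl⟩ := h
    intro w hw
    obtain ⟨i, hi, rfl⟩ := mem_gadJNM_B.1 hw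
    have hi' : i < 20 := (by decide : ∀ i ∈ ixJN, i < 20) i hi
    have := hl _ (Or.inl rfl)
    rw [h1.htcM] at this
    exact ((h1.hhM w0 hi').low this).ft (by omega)

theorem Hole2.TyH.topI (hn : 3 ≤ n) (h : Hole2.TyH F g) (hF : ∀ c ∈ F, htc c < n + 3) :
    ∀ a ∈ g.arcs, ∀ w ∈ innA a, FreeTop n w := by
  have hl := h.le hF
  have keyM : ∀ {p t u : ℕ} {D D' : BinaryTree Unit} (h1 : Sh (n + 2 + 5) p D t D' u) (w0 : X (n + 2 + 5)),
      OddHC.ht (RR p D t) ≤ n + 1 → ∀ i ∈ [11, 12, 15, 14], FreeTop n (TT (jM p D t D' u w0 i)) := by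
    intro p t u D D' h1 w0 hR i hi
    have hi' : i < 20 ∧ i ≠ 9 ∧ i ≠ 17 ∧ i ≠ 19 := (by decide : ∀ i ∈ [11, 12, 15, 14], i < 20 ∧ i ≠ 9 ∧ i ≠ 17 ∧ i ≠ 19) i hi
    have := h1.lowM w0 hi'.1 hi'.2.1 hi'.2.2.1 hi'.2.2.2
    exact (low_TT (by omega)).ft (by omega)
  rcases h.cases with h | h | h | h
  · obtain ⟨p, D, t, D', u, w0, h1, hp, rfl, rfl⟩ := h
    intro a ha w hw
    have hR := hl _ (Or.inl rfl)
    rw [h1.htcM] at hR
    have hw' : w = TT a.1 := hw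
    rw [hw']
    have ha' : a = (jM p D t D' u w0 11, jM p D t D' u w0 1) ∨ a = (jM p D t D' u w0 12, jM p D t D' u w0 3) ∨
      a = (jM p D t D' u w0 15, jM p D t D' u w0 6) ∨ a = (jM p D t D' u w0 14, jM p D t D' u w0 8) := ha
    rcases ha' with rfl | rfl | rfl | rfl
    · exact keyM h1 w0 hR 11 (by simp)
    · exact keyM h1 w0 hR 12 (by simp)
    · exact keyM h1 w0 hR 15 (by simp)
    · exact keyM h1 w0 hR 14 (by simp)
  · obtain ⟨p, D, t, D', u, w0, h1, hp, rfl, rfl⟩ := h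
    intro a ha w hw
    have hR := hl _ ⟨0, by decide, rfl⟩
    rw [h1.htcM] at hR
    have hw' : w = TT a.1 := hw
    rw [hw']
    obtain ⟨q, hq, rfl⟩ := mem_gadOf_arcs.1 ha
    simp only [arJ2Y, List.mem_cons, List.not_mem_nil, or_false] at hq
    rcases hq with rfl | rfl | rfl
    · exact keyM h1 w0 hR 12 (by simp)
    · exact keyM h1 w0 hR 15 (by simp)
    · exact keyM h1 w0 hR 14 (by simp)
  · obtain ⟨p, D, D', u, w0, h1, hp, rfl, rfl⟩ := h
    intro a ha w hw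
    have hR := hl _ ⟨0, by decide, rfl⟩
    rw [h1.htcX] at hR
    have hw' : w = TT a.1 := hw
    rw [hw']
    have ha' : a = (jX p D 0 D' u w0 8, jX p D 0 D' u w0 14) := ha
    subst ha'
    have := h1.lowX w0 (i := 8) (by norm_num) (by norm_num) (by norm_num) (by norm_num)
    exact (low_TT (by change OddHC.ht (jX p D 0 D' u w0 8).1 ≤ _; omega)).ft (by omega)
  · obtain ⟨p, D, t, D', u, w0, h1, hp, rfl, rfl⟩ := h
    intro a ha w hw
    have hR := hl _ (Or.inl rfl)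
    rw [h1.htcM] at hR
    have hw' : w = TT a.1 := hw
    rw [hw']
    have ha' : a = (jM p D t D' u w0 12, jM p D t D' u w0 3) ∨
      a = (jM p D t D' u w0 15, jM p D t D' u w0 6) ∨ a = (jM p D t D' u w0 14, jM p D t D' u w0 8) := ha
    rcases ha' with rfl | rfl | rfl
    · exact keyM h1 w0 hR 12 (by simp)
    · exact keyM h1 w0 hR 15 (by simp)
    · exact keyM h1 w0 hR 14 (by simp)

end Pool.OddHC
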