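import Pool.Agent.Work.MP_8f87b2_h26.RowU
import Pool.Agent.Work.MP_8f87b2_h13.N3
import Pool.Agent.Work.MP_8f87b2_h4.Meet2
import Pool.Agent.Work.MP_8f87b2_h16.MVK
import Pool.Agent.Work.MP_8f87b2_h84.TyJEM
import Pool.Agent.Work.MP_8f87b2_h17.TyJ2v
import Pool.Agent.Work.MP_8f87b2_fin.Asm
import Pool.Agent.Work.MP_8f87b2_h73.RowB

/-!
# MP_8f87b2_co: top rows of the types J3V, JV, JVm, JE, JEm, J2B, J2BM (helper26)

`TyX.top` : no word of the group is a word of the top or of the layer `t = 4`; `TyX.topI` : the same for the inner words.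
At height `k - 5` none of these groups exists (`Uq_321`), at height `k - 6` only over `R` of content `(n + 1, 2, 2)` (`Uq_n42`);
this is excluded for JV, JE by `2 <= np3` (two parts `>= 3`).
-/

set_option autoImplicit false

namespace Pool.OddHC

open Finset Equiv BinaryTree Pool.Agent.Work.MP_8f87b2_co Pool.OddHop

namespace T4

variable {n : ℕ}

theorem LowW.ft (hn : 1 ≤ n) {w : X (n + 2 + 5)} (h : LowW n w) : FreeTop n w :=
  FreeTop.of (fun ι => (h.free hn (ι := ι)).2) fun h' => absurd h' (h.free hn (ι := fun q => q)).1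

/-- height at most `h + 1`, or prime of height `h + 2` -/
def Hh {k : ℕ} (h : ℕ) (w : X k) : Prop := ht w.1 ≤ h + 1 ∨ (ht w.1 = h + 2 ∧ ∃ Y, w.1 = Y △ .nil)

theorem Hh.low {h : ℕ} {w : X (n + 2 + 5)} (hw : Hh h w) (h1 : h ≤ n + 1) : LowW n w := by
  rcases hw with hw | ⟨hw, hY⟩
  · exact Or.inl (by omega)
  · by_cases h2 : ht w.1 ≤ n + 2
    · exact Or.inl h2
    · exact Or.inr ⟨by omega, hY⟩

theorem Hh.mir {k h : ℕ} {w : X k} (hw : Hh h w) : Hh h (Tsq.mirX w) := by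
  rcases hw with hw | ⟨hw, Y, hY⟩
  · left
    change ht (Tsq.mir w.1) ≤ _
    rw [ht_mir]
    exact hw
  · right
    refine ⟨?_, Tsq.mir Y, ?_⟩
    · change ht (Tsq.mir w.1) = _
      rw [ht_mir]
      exact hw
    · change Tsq.mir w.1 = _
      rw [hY]
      rfl

theorem ht_TT {k : ℕ} (w : X k) : ht (TT w).1 = ht w.1 := by
  rw [ht_eq, ht_eq, TT_apply, cont_TF]

theorem low_TT {w : X (n + 2 + 5)} (h : ht w.1 ≤ n + 2) : LowW n (TT w) := Or.inl (by rw [ht_TT]; exact h)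

/-- parts `≥ 2` -/
theorem sum3 {M : Multiset ℕ} (h : ∀ x ∈ M, 2 ≤ x) (hs : M.sum = 3) : M = {3} := by
  have h0 : M ≠ 0 := by rintro rfl; simp at hs
  obtain ⟨x, hx⟩ := Multiset.exists_mem_of_ne_zero h0
  obtain ⟨N, rfl⟩ := Multiset.exists_cons_of_mem hx
  rw [Multiset.sum_cons] at hs
  have h1 := h x hx
  by_cases hN : N = 0
  · subst hN
    simp at hs
    rw [hs]
    rfl
  · obtain ⟨y, hy⟩ := Multiset.exists_mem_of_ne_zero hN
    obtain ⟨N', rfl⟩ := Multiset.exists_cons_of_mem hy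
    rw [Multiset.sum_cons] at hs
    have h2 := h y (by simp)
    omega

theorem sum4 {M : Multiset ℕ} (h : ∀ x ∈ M, 2 ≤ x) (hs : M.sum = 4) : M = {4} ∨ M = {2} + {2} := by
  have h0 : M ≠ 0 := by rintro rfl; simp at hs
  obtain ⟨x, hx⟩ := Multiset.exists_mem_of_ne_zero h0
  obtain ⟨N, rfl⟩ := Multiset.exists_cons_of_mem hx
  rw [Multiset.sum_cons] at hs
  have h1 := h x hx
  by_cases hN : N = 0
  · subst hN
    simp at hs
    rw [hs]
    exact Or.inl rfl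
  · obtain ⟨y, hy⟩ := Multiset.exists_mem_of_ne_zero hN
    obtain ⟨N', rfl⟩ := Multiset.exists_cons_of_mem hy
    rw [Multiset.sum_cons] at hs
    have h2 := h y (by simp)
    have hN' : N' = 0 := by
      by_contra h3
      obtain ⟨z, hz⟩ := Multiset.exists_mem_of_ne_zero h3
      obtain ⟨N2, rfl⟩ := Multiset.exists_cons_of_mem hz
      rw [Multiset.sum_cons] at hs
      have h3 := h z (by simp)
      omega
    subst hN'
    simp at hs
    obtain ⟨rfl, rfl⟩ : x = 2 ∧ y = 2 := by omega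
    exact Or.inr rfl

end T4

namespace J3

open T4

variable {k n : ℕ} {R B S : BinaryTree Unit}

theorem SqD.top_rest (h : SqD k R B S) : ∃ M : Multiset ℕ, OddHC.cont R = {OddHC.ht R} + M ∧ (∀ x ∈ M, 2 ≤ x) ∧
    M.sum + OddHC.ht R + 2 = k := by
  have h1 : OddHC.cont R ≠ 0 := fun h0 => h.ne (cont_eq_zero.1 h0)
  have h2 := Multiset.cons_erase (sup_mem h1)
  rw [← OddHC.ht_eq] at h2
  refine ⟨(OddHC.cont R).erase (OddHC.ht R), ?_, ?_, ?_⟩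
  · rw [Multiset.singleton_add, h2]
  · intro x hx
    have hx' : x ∈ OddHC.cont R := Multiset.mem_of_mem_erase hx
    have h3 := cont_pos R x hx'
    have h4 : x ≠ 1 := by
      rintro rfl
      have := h.one
      rw [Multiset.count_eq_zero] at this
      exact this hx'
    omega
  · have h3 := congrArg Multiset.sum h2
    rw [Multiset.sum_cons, cont_sum] at h3
    have := h.size
    omega

/-- **no pair at height `k - 5`; at height `k - 6` only content `(n + 1, 2, 2)`** -/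
theorem SqD.no5 (hn : 3 ≤ n) (h : SqD (n + 2 + 5) R B S) (w0 : X (n + 2 + 5))
    (h4 : cyc (sX R B S w0 4) ≠ cyc (sX R B S w0 0)) (hR : OddHC.ht R < n + 3) :
    OddHC.ht R ≤ n ∨ (OddHC.ht R = n + 1 ∧ OddHC.cont R = {n + 1} + ({2} + {2})) := by
  obtain ⟨M, e1, e2, e3⟩ := h.top_rest
  have c0 : contc (cyc (sX R B S w0 0)) = OddHC.cont R + {2} := h.cont0 w0
  have c4 : contc (cyc (sX R B S w0 4)) = OddHC.cont R + {2} := h.cont4 w0
  rcases Nat.lt_or_ge n (OddHC.ht R) with h5 | h5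
  · rcases Nat.lt_or_ge (n + 1) (OddHC.ht R) with h6 | h6
    · exfalso
      have h7 : OddHC.ht R = n + 2 := by omega
      have h8 := sum3 e2 (by omega)
      rw [h7, h8] at e1
      rw [e1] at c0 c4
      exact h4 (S5.Uq_321 (by omega) _ _ c4 c0)
    · have h7 : OddHC.ht R = n + 1 := by omega
      rcases sum4 e2 (by omega) with h8 | h8
      · exfalso
        rw [h7, h8] at e1
        rw [e1] at c0 c4
        obtain ⟨m, rfl⟩ : ∃ m, n = m + 2 := ⟨n - 2, by omega⟩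
        exact h4 (S5.Uq_n42 (by omega) _ _ c4 c0)
      · right
        rw [h7, h8] at e1
        exact ⟨h7, e1⟩
  · exact Or.inl h5

theorem SqD.hh (h : SqD k R B S) (w0 : X k) {i : ℕ} (hi : i < 20) : Hh (OddHC.ht R) (sX R B S w0 i) := by
  have hS := h.htS
  have hB := h.htB
  have h3 := h.h3
  unfold Hh
  rw [h.word w0 hi]
  interval_cases i <;> simp only [H1.W, OddHC.ht_node, OddHC.ht_app, T4.ht_nil, app] <;> first
    | (left; omega)
    | (by_cases h9 : OddHC.ht (H1.W R .nil B S 9) = 0 <;> refine Or.inr ⟨?_, _, rfl⟩ <;> omega)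
    | (rcases Nat.lt_or_ge (OddHC.ht R) (max (OddHC.ht S) (OddHC.ht B + 1)) with h5 | h5
       · exact Or.inr ⟨by omega, _, rfl⟩
       · exact Or.inl (by omega))

theorem SqD.hlow (h : SqD k R B S) (w0 : X k) {i : ℕ} (hi : i < 20) (h9 : i ≠ 9) (h17 : i ≠ 17) (h19 : i ≠ 19) :
    OddHC.ht (sX R B S w0 i).1 ≤ OddHC.ht R + 1 := by
  have hS := h.htS
  have hB := h.htB
  have h3 := h.h3
  rw [h.word w0 hi]
  interval_cases i <;> first
    | (exfalso; omega)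
    | (simp only [H1.W, OddHC.ht_node, OddHC.ht_app, T4.ht_nil, app]; omega)

end J3


open T4 J3

variable {n : ℕ} {F : Set (Cyc (n + 2 + 5))} {g : DG (n + 2 + 5)} {R B S : BinaryTree Unit}

namespace J3

theorem SqD.htc0 {k : ℕ} (h : SqD k R B S) (w0 : X k) : htc (cyc (sX R B S w0 0)) = OddHC.ht R := by
  change (OddHC.cont (sX R B S w0 0).1).sup = _
  rw [h.cont0, h.supz]

/-- height at most `k - 6` -/
theorem SqD.le1 (hn : 3 ≤ n) (h : SqD (n + 2 + 5) R B S) (w0 : X (n + 2 + 5))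
    (h4 : cyc (sX R B S w0 4) ≠ cyc (sX R B S w0 0)) (hR : htc (cyc (sX R B S w0 0)) < n + 3) :
    OddHC.ht R ≤ n + 1 := by
  rw [h.htc0] at hR
  rcases h.no5 hn w0 h4 hR with h1 | ⟨h1, _⟩ <;> omega

/-- over two solitons: height at most `k - 7` -/
theorem SqD.le0 (hn : 3 ≤ n) (h : SqD (n + 2 + 5) R B S) (w0 : X (n + 2 + 5))
    (h4 : cyc (sX R B S w0 4) ≠ cyc (sX R B S w0 0)) (hR : htc (cyc (sX R B S w0 0)) < n + 3)
    (hV : 2 ≤ np3 (contc (cyc (sX R B S w0 0)))) : OddHC.ht R ≤ n := by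
  rw [h.htc0] at hR
  rcases h.no5 hn w0 h4 hR with h1 | ⟨h1, h2⟩
  · exact h1
  · exfalso
    have c0 : contc (cyc (sX R B S w0 0)) = OddHC.cont R + {2} := h.cont0 w0
    rw [c0, h2] at hV
    simp only [np3, Multiset.countP_add, ← Multiset.cons_zero, Multiset.countP_cons, Multiset.countP_zero] at hV
    norm_num at hV
    split_ifs at hV <;> omega

end J3

/-! ### J3V -/

theorem TyJ3V.top (hn : 3 ≤ n) (h : TyJ3V F g) (hF : ∀ c ∈ F, htc c < n + 3) : ∀ w ∈ g.B, FreeTop n w := by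
  obtain ⟨R, B, S, w0, h1, hp, rfl, rfl⟩ := h
  have hR := h1.le1 hn w0 hp.n4 (hF _ (Or.inl rfl))
  intro w hw
  obtain ⟨i, hi, _, rfl⟩ := mem_gadS.1 hw
  exact ((h1.hh w0 hi).low hR).ft (by omega)

theorem TyJ3V.topI (hn : 3 ≤ n) (h : TyJ3V F g) (hF : ∀ c ∈ F, htc c < n + 3) :
    ∀ a ∈ g.arcs, ∀ w ∈ innA a, FreeTop n w := by
  obtain ⟨R, B, S, w0, h1, hp, rfl, rfl⟩ := h
  have hR := h1.le1 hn w0 hp.n4 (hF _ (Or.inl rfl))
  intro a ha w hw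
  have ha' : a = (sX R B S w0 3, sX R B S w0 12) ∨ a = (sX R B S w0 6, sX R B S w0 15) ∨
      a = (sX R B S w0 8, sX R B S w0 14) := ha
  have hw' : w = TT a.1 := hw
  rw [hw']
  rcases ha' with rfl | rfl | rfl
  · have := h1.hlow w0 (i := 3) (by norm_num) (by norm_num) (by norm_num) (by norm_num)
    exact (low_TT (by change OddHC.ht (sX R B S w0 3).1 ≤ _; omega)).ft (by omega)
  · have := h1.hlow w0 (i := 6) (by norm_num) (by norm_num) (by norm_num) (by norm_num)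
    exact (low_TT (by change OddHC.ht (sX R B S w0 6).1 ≤ _; omega)).ft (by omega)
  · have := h1.hlow w0 (i := 8) (by norm_num) (by norm_num) (by norm_num) (by norm_num)
    exact (low_TT (by change OddHC.ht (sX R B S w0 8).1 ≤ _; omega)).ft (by omega)

/-! ### J2B, J2v -/

theorem TyJ2R.top (hn : 3 ≤ n) (h : TyJ2R R B S F g) (hF : ∀ c ∈ F, htc c < n + 3) : ∀ w ∈ g.B, FreeTop n w := by
  obtain ⟨w0, h1, hp, rfl, rfl⟩ := h
  have hR := h1.le1 hn w0 hp.n4 (hF _ (Or.inl rfl))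
  intro w hw
  obtain ⟨i, hi, rfl⟩ := mem_gadJB.1 hw
  exact ((h1.hh w0 hi).low hR).ft (by omega)

theorem J3.SqD.arcs4 (hn : 3 ≤ n) (h1 : SqD (n + 2 + 5) R B S) (w0 : X (n + 2 + 5)) (hR : OddHC.ht R ≤ n + 1) :
    ∀ q ∈ [(1, 11), (3, 12), (6, 15), (8, 14)], FreeTop n (TT (sX R B S w0 q.1)) := by
  intro q hq
  have hq' : q.1 < 20 ∧ q.1 ≠ 9 ∧ q.1 ≠ 17 ∧ q.1 ≠ 19 :=
    (by decide : ∀ q ∈ [(1, 11), (3, 12), (6, 15), (8, 14)], q.1 < 20 ∧ q.1 ≠ 9 ∧ q.1 ≠ 17 ∧ q.1 ≠ 19) q hq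
  have := h1.hlow w0 hq'.1 hq'.2.1 hq'.2.2.1 hq'.2.2.2
  exact (low_TT (by omega)).ft (by omega)

theorem TyJ2R.topI (hn : 3 ≤ n) (h : TyJ2R R B S F g) (hF : ∀ c ∈ F, htc c < n + 3) :
    ∀ a ∈ g.arcs, ∀ w ∈ innA a, FreeTop n w := by
  obtain ⟨w0, h1, hp, rfl, rfl⟩ := h
  have hR := h1.le1 hn w0 hp.n4 (hF _ (Or.inl rfl))
  intro a ha w hw
  obtain ⟨q, hq, rfl⟩ := mem_gadOf_arcs.1 ha
  have hw' : w = TT (sX R B S w0 q.1) := hw
  rw [hw']
  exact h1.arcs4 hn w0 hR q hq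

theorem TyJ2B.top (hn : 3 ≤ n) (h : TyJ2B F g) (hF : ∀ c ∈ F, htc c < n + 3) : ∀ w ∈ g.B, FreeTop n w := by
  obtain ⟨R, B, S, h⟩ := h
  exact h.top hn hF

theorem TyJ2B.topI (hn : 3 ≤ n) (h : TyJ2B F g) (hF : ∀ c ∈ F, htc c < n + 3) :
    ∀ a ∈ g.arcs, ∀ w ∈ innA a, FreeTop n w := by
  obtain ⟨R, B, S, h⟩ := h
  exact h.topI hn hF

theorem mem_nw4 {v : ℕ} (hv : v < 24) : 0 ∈ nwJBv v := by
  interval_cases v <;> decide

theorem TyJ2v.top (hn : 3 ≤ n) (h : TyJ2v F g) (hF : ∀ c ∈ F, htc c < n + 3) : ∀ w ∈ g.B, FreeTop n w := by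
  obtain ⟨v, hv, R, B, S, w0, h1, hp, rfl, rfl⟩ := h
  have hR := h1.le1 hn w0 hp.ok.n4 (hF _ ⟨0, mem_nw4 hv, rfl⟩)
  intro w hw
  obtain ⟨i, hi, rfl⟩ := mem_gadJBv.1 hw
  exact ((h1.hh w0 hi).low hR).ft (by omega)

theorem TyJ2v.topI (hn : 3 ≤ n) (h : TyJ2v F g) (hF : ∀ c ∈ F, htc c < n + 3) :
    ∀ a ∈ g.arcs, ∀ w ∈ innA a, FreeTop n w := by
  obtain ⟨v, hv, R, B, S, w0, h1, hp, rfl, rfl⟩ := h
  have hR := h1.le1 hn w0 hp.ok.n4 (hF _ ⟨0, mem_nw4 hv, rfl⟩)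
  intro a ha w hw
  have hw' : w = TT a.1 := hw
  rw [hw']
  rcases gadJBv_arcs.1 ha with rfl | rfl | rfl | rfl
  · exact h1.arcs4 hn w0 hR (1, 11) (by simp)
  · exact h1.arcs4 hn w0 hR (3, 12) (by simp)
  · exact h1.arcs4 hn w0 hR (6, 15) (by simp)
  · exact h1.arcs4 hn w0 hR (8, 14) (by simp)

/-! ### JE -/

theorem TyJE.le0 (hn : 3 ≤ n) (h : TyJE R F g) (hF : ∀ c ∈ F, htc c < n + 3) (hV : ∀ c ∈ F, 2 ≤ np3 (contc c)) :
    OddHC.ht R ≤ n := by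
  obtain ⟨B, S, w0, h1, hp, rfl, rfl⟩ := h
  have m0 : (0 : ℕ) ∈ nwG13 := by decide
  exact h1.le0 hn w0 hp.n04.symm (hF _ ⟨0, m0, rfl⟩) (hV _ ⟨0, m0, rfl⟩)

theorem TyJE.htw (h : TyJE R F g) : ∀ w ∈ g.B, ht w.1 ≤ OddHC.ht R + 2 := by
  obtain ⟨B, S, w0, h1, hp, rfl, rfl⟩ := h
  intro w hw
  obtain ⟨i, hi, rfl⟩ := mem_gadOf_B.1 hw
  have hi' : i < 20 := (by decide : ∀ i ∈ ixG13, i < 20) i hi
  rcases h1.hh w0 hi' with h2 | ⟨h2, _⟩ <;> omega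

/-- `hV` : two parts `>= 3` -/
theorem TyJE.top (hn : 3 ≤ n) (h : TyJE R F g) (hF : ∀ c ∈ F, htc c < n + 3) (hV : ∀ c ∈ F, 2 ≤ np3 (contc c)) :
    ∀ w ∈ g.B, FreeTop n w := by
  intro w hw
  have h1 := h.le0 hn hF hV
  have h2 := h.htw w hw
  exact (show LowW n w from Or.inl (by omega)).ft (by omega)

theorem TyJE.topI (hn : 3 ≤ n) (h : TyJE R F g) (hF : ∀ c ∈ F, htc c < n + 3) (hV : ∀ c ∈ F, 2 ≤ np3 (contc c)) :
    ∀ a ∈ g.arcs, ∀ w ∈ innA a, FreeTop n w := by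
  intro a ha w hw
  obtain ⟨_, _, h2, _⟩ := h.path a ha
  have h1 := h.le0 hn hF hV
  have h3 := h.htw _ h2
  have hw' : w = TT a.1 := hw
  rw [hw']
  exact (low_TT (by omega)).ft (by omega)

/-! ### JV -/

theorem Is9.le0 (hn : 3 ≤ n) {Z : BinaryTree Unit} (h : Is9 .nil .nil Z F g) (h3 : 3 ≤ OddHC.ht Z)
    (h1 : (OddHC.cont Z).count 1 = 0) (hF : ∀ c ∈ F, htc c < n + 3) (hV : ∀ c ∈ F, 2 ≤ np3 (contc c)) :
    OddHC.ht Z ≤ n := by
  have hd := h.sqD h3 h1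
  obtain ⟨v, h2, rfl, rfl⟩ := h
  have e0 : v 0 = sX Z (Tsq.sq Z).2 (Tsq.sq Z).1 (v 0) 0 := Subtype.ext (by
    rw [hd.word _ (by norm_num), h2.word 0 (by norm_num)]
    rfl)
  have e1 : v 1 = sX Z (Tsq.sq Z).2 (Tsq.sq Z).1 (v 0) 4 := Subtype.ext (by
    rw [hd.word _ (by norm_num), h2.word 1 (by norm_num)]
    rfl)
  have h4 := h2.new
  rw [e1] at h4
  have f0 := hF _ (Or.inl rfl)
  have f1 := hV _ (Or.inl rfl)
  refine hd.le0 hn (v 0) ?_ ?_ ?_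
  · rw [← e0]
    exact fun e => h4 e.symm
  · rw [← e0]
    exact f0
  · rw [← e0]
    exact f1

theorem Is9.htw9 {Z : BinaryTree Unit} (h : Is9 .nil .nil Z F g) : ∀ w ∈ g.B, ht w.1 ≤ OddHC.ht Z + 2 := by
  obtain ⟨v, h2, rfl, rfl⟩ := h
  intro w hw
  obtain ⟨i, hi, rfl⟩ := mem_gad9.1 hw
  have := h2.htw hi
  rw [htc_cyc] at this
  rw [this]
  split_ifs <;> omega

/-- `hV` : two parts `>= 3` -/
theorem Is9.topV (hn : 3 ≤ n) {Z : BinaryTree Unit} (h : Is9 .nil .nil Z F g) (h3 : 3 ≤ OddHC.ht Z)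
    (h1 : (OddHC.cont Z).count 1 = 0) (hF : ∀ c ∈ F, htc c < n + 3) (hV : ∀ c ∈ F, 2 ≤ np3 (contc c)) :
    ∀ w ∈ g.B, FreeTop n w := by
  intro w hw
  have h4 := h.le0 hn h3 h1 hF hV
  have h2 := h.htw9 w hw
  exact (show LowW n w from Or.inl (by omega)).ft (by omega)

theorem Is9.topVI (hn : 3 ≤ n) {Z : BinaryTree Unit} (h : Is9 .nil .nil Z F g) (h3 : 3 ≤ OddHC.ht Z)
    (h1 : (OddHC.cont Z).count 1 = 0) (hF : ∀ c ∈ F, htc c < n + 3) (hV : ∀ c ∈ F, 2 ≤ np3 (contc c)) :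
    ∀ a ∈ g.arcs, ∀ w ∈ innA a, FreeTop n w := by
  intro a ha w hw
  have h4 := h.le0 hn h3 h1 hF hV
  have h5 : a.1 ∈ g.B := by
    obtain ⟨v, h2, rfl, rfl⟩ := h
    have ha' : a = (v 3, v 6) ∨ a = (v 4, v 7) ∨ a = (v 5, v 8) := ha
    rcases ha' with rfl | rfl | rfl
    · exact mem_gad9.2 ⟨3, by norm_num, rfl⟩
    · exact mem_gad9.2 ⟨4, by norm_num, rfl⟩
    · exact mem_gad9.2 ⟨5, by norm_num, rfl⟩
  have h2 := h.htw9 _ h5
  have hw' : w = TT a.1 := hw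
  rw [hw']
  exact (low_TT (by omega)).ft (by omega)

end Pool.OddHC
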