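import Pool.Agent.Work.MP_8f87b2_h20.S5X
import Pool.Agent.Work.MP_8f87b2_h27.S5P
import Pool.Agent.Work.MP_8f87b2_h73.T4U
import Pool.Agent.Work.MP_8f87b2_h6.J3Dat

/-!
# MP_8f87b2_co: top rows, part U (helper26)

`Uq_321`, `Uq_n42`: one T-cycle of content `(n + 2, 3, 2)`, `(n + 1, 4, 2)`. Hence no pair of T-cycles over two solitons at the
heights `k - 5`, `k - 6`.
-/

set_option autoImplicit false

namespace Pool.OddHC

open Finset Equiv BinaryTree Multiset Ring1 Pool.Agent.Work.MP_8f87b2_co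

variable {k : ℕ}

namespace S5

/-- one bead over a T-cycle with all rotations -/
theorem Uq_bead {M : Multiset ℕ} (hM : 0 ∉ M) (h1 : 1 ≤ M.sum) (hU : Uq M.sum M)
    (hR : ∀ u : X M.sum, cont u.1 = M → RotU u) : Uq k (M.map (· + 1) + replicate 1 1) := by
  intro p q hp hq
  have key : ∀ p : Cyc k, contc p = M.map (· + 1) + replicate 1 1 → ∃ U : Cyc M.sum, contc U = M ∧ Rd p = ⟨M.sum, U⟩ ∧
      (contc p).count 1 = 1 := by
    intro p hp
    obtain ⟨h1, h2, h3⟩ := Rd_cont hM hp
    obtain ⟨⟨i, U⟩, e⟩ : ∃ d, d = Rd p := ⟨_, rfl⟩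
    rw [← e] at h1 h2
    change i = _ at h2
    subst h2
    exact ⟨U, h1, e.symm, h3⟩
  obtain ⟨U, a1, a2, a3⟩ := key p hp
  obtain ⟨U', b1, b2, b3⟩ := key q hq
  have hUU : U' = U := hU _ _ b1 a1
  subst hUU
  obtain ⟨u, rfl⟩ := Quotient.exists_rep U'
  obtain ⟨a, hk, ha, ha2⟩ := over_u h1 u p a2
  obtain ⟨b, hk', hb, hb2⟩ := over_u h1 u q b2
  rw [a3] at ha2
  rw [b3] at hb2
  obtain ⟨y, rfl⟩ := one_bead ha2
  obtain ⟨z, rfl⟩ := one_bead hb2
  rw [ha, hb, hR u a1 k _ hk (y - z)]
  congr 1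
  apply phi_congr rfl
  funext x
  congr 1
  rw [eq_iff_iff]
  constructor
  · intro h
    linear_combination h
  · intro h
    linear_combination h

/-- **one T-cycle of content `(n + 2, 3, 2)`** -/
theorem Uq_321 {n : ℕ} (hn : 1 ≤ n) : Uq k ({n + 2} + {3} + {2}) := by
  have h1 : Uq (n + 4) (({n} + {1} : Multiset ℕ).map (· + 1) + replicate 1 1) := by
    refine Uq_bead (by simp; omega) (by simp) ?_ ?_
    · rw [Multiset.sum_add, Multiset.sum_singleton, Multiset.sum_singleton]
      exact Uq_n1 _ n hn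
    · have : ({n} + {1} : Multiset ℕ).sum = n + 1 := by simp
      rw [this]
      exact fun u hu => rotU_v hn hu
  have e1 : ({n} + {1} : Multiset ℕ).map (· + 1) + replicate 1 1 = {n + 1} + {2} + {1} := by
    rw [Multiset.map_add, Multiset.map_singleton, Multiset.map_singleton, Multiset.replicate_one]
  rw [e1] at h1
  have e2 : ({n + 1} + {2} + {1} : Multiset ℕ).map (· + 1) = {n + 2} + {3} + {2} := by
    rw [Multiset.map_add, Multiset.map_add, Multiset.map_singleton, Multiset.map_singleton, Multiset.map_singleton]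
  rw [← e2]
  refine Uq_inf (by simp) (by simp) ?_
  have e3 : ({n + 1} + {2} + {1} : Multiset ℕ).sum = n + 4 := by simp
  rw [e3]
  exact h1

/-- **one T-cycle of content `(n + 3, 4, 2)`** -/
theorem Uq_n42 {n : ℕ} (hn : 1 ≤ n) : Uq k ({n + 3} + {4} + {2}) := by
  have h1 : Uq (n + 6) (({n + 1} + {2} : Multiset ℕ).map (· + 1) + replicate 1 1) := by
    refine Uq_bead (by simp) (by simp) ?_ ?_
    · rw [Multiset.sum_add, Multiset.sum_singleton, Multiset.sum_singleton]
      exact Uq_n2 _ n hn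
    · have : ({n + 1} + {2} : Multiset ℕ).sum = n + 3 := by simp
      rw [this]
      exact fun u hu => rotU_B hn hu
  have e1 : ({n + 1} + {2} : Multiset ℕ).map (· + 1) + replicate 1 1 = {n + 2} + {3} + {1} := by
    rw [Multiset.map_add, Multiset.map_singleton, Multiset.map_singleton, Multiset.replicate_one]
  rw [e1] at h1
  have e2 : ({n + 2} + {3} + {1} : Multiset ℕ).map (· + 1) = {n + 3} + {4} + {2} := by
    rw [Multiset.map_add, Multiset.map_add, Multiset.map_singleton, Multiset.map_singleton, Multiset.map_singleton]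
  rw [← e2]
  refine Uq_inf (by simp) (by simp) ?_
  have e3 : ({n + 2} + {3} + {1} : Multiset ℕ).sum = n + 6 := by simp
  rw [e3]
  exact h1

end S5

end Pool.OddHC
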