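import Pool.Agent.Work.MP_8f87b2_h26.Walk
import Pool.Agent.Work.MP_8f87b2_h69.Model

/-!
# States modulo shift = multisets on the ring modulo translation
-/

set_option autoImplicit false

namespace Pool.OddHop

open Finset

variable {h cap g n : ℕ} [NeZero h]

/-- `p` is a lift of the labels of `s` to positions in `ZMod n` -/
structure IsLift (hg : g ∣ n) (s : St h cap g n) (p : ZMod (2 * h) → ZMod n) : Prop where
  step : ∀ i, p (i + 1) = p i + (s.c i : ZMod n)
  cast : ∀ i, ZMod.castHom hg (ZMod g) (p i) = s.lab i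

theorem IsLift.walk {hg : g ∣ n} {s : St h cap g n} {p : ZMod (2 * h) → ZMod n}
    (hp : IsLift hg s p) : Walk s.c p := ⟨hp.step, s.hsum⟩

theorem exists_lift (hg : g ∣ n) (s : St h cap g n) : ∃ p, IsLift hg s p := by
  obtain ⟨y0, hy0⟩ := ZMod.castHom_surjective hg (s.lab 0)
  have hlab : ∀ j : ℕ, s.lab (j : ZMod (2 * h)) = s.lab 0 + (psum s.c 0 j : ZMod g) := by
    intro j
    induction j with
    | zero => simp [psum]
    | succ j ih =>
      rw [psum_succ, Nat.cast_succ, s.hlab, ih, zero_add]
      push_cast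
      ring
  refine ⟨fun i => y0 + (psum s.c 0 i.val : ZMod n), ?_, ?_⟩
  · intro i
    have hi : ((i.val : ℕ) : ZMod (2 * h)) = i := ZMod.natCast_zmod_val i
    have h1 := psum_succ s.c 0 i.val
    rw [zero_add, hi] at h1
    by_cases hlt : i.val + 1 < 2 * h
    · have h2 : (i + 1).val = i.val + 1 := by
        have : i + 1 = ((i.val + 1 : ℕ) : ZMod (2 * h)) := by push_cast; rw [hi]
        rw [this, ZMod.val_natCast_of_lt hlt]
      rw [h2, h1]
      push_cast
      ring
    · have h2 : i.val + 1 = 2 * h := by have := ZMod.val_lt i; omega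
      have h3 : i + 1 = 0 := by
        have : i + 1 = ((i.val + 1 : ℕ) : ZMod (2 * h)) := by push_cast; rw [hi]
        rw [this, h2, ZMod.natCast_self]
      rw [h2, psum_full s.hsum] at h1
      rw [h3, ZMod.val_zero]
      have h4 : (n : ZMod n) = (psum s.c 0 i.val : ZMod n) + (s.c i : ZMod n) := by
        have := congrArg (fun x : ℕ => (x : ZMod n)) h1
        simpa using this
      rw [ZMod.natCast_self] at h4
      rw [add_assoc, ← h4]
      simp [psum]
  · intro i
    rw [map_add, hy0, map_natCast, ← hlab, ZMod.natCast_zmod_val]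

/-- translation by a multiple of `g` -/
def RelB (hg : g ∣ n) (b b' : ZMod n → ℕ) : Prop :=
  ∃ t : ZMod n, ZMod.castHom hg (ZMod g) t = 0 ∧ ∀ x, b' (x + t) = b x

theorem RelB.refl (hg : g ∣ n) (b : ZMod n → ℕ) : RelB hg b b := ⟨0, map_zero _, by simp⟩

theorem RelB.symm {hg : g ∣ n} {b b' : ZMod n → ℕ} (hr : RelB hg b b') : RelB hg b' b := by
  obtain ⟨t, ht, h1⟩ := hr
  refine ⟨-t, by rw [map_neg, ht, neg_zero], fun x => ?_⟩
  have := h1 (x + -t)
  rw [neg_add_cancel_right] at this
  exact this.symm

theorem RelB.trans {hg : g ∣ n} {b b' b'' : ZMod n → ℕ} (hr : RelB hg b b') (hr' : RelB hg b' b'') :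
    RelB hg b b'' := by
  obtain ⟨t, ht, h1⟩ := hr
  obtain ⟨t', ht', h1'⟩ := hr'
  refine ⟨t + t', by rw [map_add, ht, ht', add_zero], fun x => ?_⟩
  rw [← add_assoc, h1', h1]

theorem IsLift.shift {hg : g ∣ n} {s : St h cap g n} {p : ZMod (2 * h) → ZMod n}
    (hp : IsLift hg s p) : IsLift hg s.shift (fun i => p (i + 1)) :=
  ⟨fun i => hp.step (i + 1), fun i => hp.cast (i + 1)⟩

theorem bc_shift (p : ZMod (2 * h) → ZMod n) (k : ZMod (2 * h)) (x : ZMod n) :
    bc (fun i => p (i + k)) x = bc p x := by
  unfold bc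
  refine card_bij' (fun i _ => i + k) (fun i _ => i - k) ?_ ?_ ?_ ?_
  · intro i hi
    rw [mem_filter] at hi ⊢
    exact ⟨mem_univ _, hi.2⟩
  · intro i hi
    rw [mem_filter] at hi ⊢
    refine ⟨mem_univ _, ?_⟩
    simp only [sub_add_cancel]
    exact hi.2
  · intro i _
    simp
  · intro i _
    simp

/-- two lifts of the same state differ by a translation -/
theorem IsLift.rel {hg : g ∣ n} {s : St h cap g n} {p p' : ZMod (2 * h) → ZMod n}
    (hp : IsLift hg s p) (hp' : IsLift hg s p') : RelB hg (bc p) (bc p') := by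
  have hconst : ∀ i, p' i = p i + (p' 0 - p 0) := by
    have key : ∀ j : ℕ, p' (j : ZMod (2 * h)) = p (j : ZMod (2 * h)) + (p' 0 - p 0) := by
      intro j
      induction j with
      | zero => simp
      | succ j ih =>
        push_cast
        rw [hp'.step, hp.step, ih]
        ring
    intro i
    have := key i.val
    rwa [ZMod.natCast_zmod_val] at this
  refine ⟨p' 0 - p 0, ?_, ?_⟩
  · rw [map_sub, hp.cast, hp'.cast, sub_self]
  · intro x
    unfold bc
    congr 1
    ext i
    rw [mem_filter, mem_filter, hconst i]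
    simp

theorem iter_shift26 (s : St h cap g n) (k : ℕ) :
    ((St.shift^[k] s).c = fun i => s.c (i + (k : ZMod (2 * h)))) ∧
    ((St.shift^[k] s).lab = fun i => s.lab (i + (k : ZMod (2 * h)))) := by
  induction k with
  | zero => constructor <;> · funext i; simp
  | succ k ih =>
    rw [Function.iterate_succ_apply']
    constructor
    · funext i
      change (St.shift^[k] s).c (i + 1) = _
      rw [ih.1]
      simp only
      congr 1
      push_cast
      ring
    · funext i
      change (St.shift^[k] s).lab (i + 1) = _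
      rw [ih.2]
      simp only
      congr 1
      push_cast
      ring

/-- states with related occupations are shifts of each other -/
theorem IsLift.inj {hg : g ∣ n} (hn : 0 < n) {s s' : St h cap g n} {p p' : ZMod (2 * h) → ZMod n}
    (hp : IsLift hg s p) (hp' : IsLift hg s' p') (hr : RelB hg (bc p) (bc p')) :
    ∃ k : ℕ, St.shift^[k] s = s' := by
  obtain ⟨t, ht, h1⟩ := hr
  have hw : Walk s'.c (fun i => p' i - t) := by
    refine ⟨fun i => ?_, s'.hsum⟩
    simp only
    rw [hp'.step]
    ring
  have hb : ∀ x, bc p x = bc (fun i => p' i - t) x := by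
    intro x
    rw [← h1 x]
    unfold bc
    congr 1
    ext i
    rw [mem_filter, mem_filter, sub_eq_iff_eq_add]
  obtain ⟨k, hk⟩ := hp.walk.unique hw hn hb
  refine ⟨k.val, ?_⟩
  obtain ⟨e1, e2⟩ := iter_shift26 s k.val
  rw [ZMod.natCast_zmod_val] at e1 e2
  apply St.ext
  · rw [e1]
    funext i
    exact ((hk i).1).symm
  · rw [e2]
    funext i
    rw [← hp.cast, ← (hk i).2, map_sub, ht, sub_zero, hp'.cast]

/-- `a'` arises from `a` by moving one bead by one step -/
def Hop (a a' : ZMod n → ℕ) : Prop :=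
  ∃ x y : ZMod n, (y = x + 1 ∨ x = y + 1) ∧
    ∀ z, a z + (if y = z then 1 else 0) = a' z + (if x = z then 1 else 0)

theorem Hop.symm {a a' : ZMod n → ℕ} (hh : Hop a a') : Hop a' a := by
  obtain ⟨x, y, h1, h2⟩ := hh
  exact ⟨y, x, h1.symm, fun z => (h2 z).symm⟩

/-- a toggle is a hop -/
theorem IsLift.tog {hg : g ∣ n} {s : St h cap g n} {p : ZMod (2 * h) → ZMod n}
    (hp : IsLift hg s p) {i : ZMod (2 * h)} (ha : s.Av i) :
    ∃ p', IsLift hg (s.tog i) p' ∧ Hop (bc p) (bc p') := by
  refine ⟨Function.update p (i + 1) (p i + (nx (s.c i) : ZMod n)), ⟨?_, ?_⟩, ?_⟩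
  · intro j
    have hc : (s.tog i).c = togc s.c i := by unfold St.tog; rw [dif_pos ha]
    rw [hc]
    have hij : i ≠ i + 1 := (add_one_ne i).symm
    by_cases h1 : j = i
    · subst h1
      rw [Function.update_self, Function.update_of_ne hij]
      simp [togc]
    · by_cases h2 : j = i + 1
      · subst h2
        rw [Function.update_self, Function.update_of_ne (add_two_ne i), hp.step, hp.step]
        have e2 : togc s.c i (i + 1) = ny (s.c i) (s.c (i + 1)) := by
          unfold togc; rw [if_neg (add_one_ne i), if_pos rfl]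
        rw [e2]
        have h6 := congrArg (fun x : ℕ => (x : ZMod n)) (nx_add_ny ha)
        simp only [Nat.cast_add] at h6
        rw [add_assoc, add_assoc, h6]
      · have h3 : j + 1 ≠ i + 1 := fun hh => h1 (add_right_cancel hh)
        rw [Function.update_of_ne h3, Function.update_of_ne h2, hp.step]
        simp [togc, h1, h2]
  · intro j
    have hl : (s.tog i).lab = fun j => if j = i + 1 then s.lab i + (nx (s.c i) : ZMod g)
        else s.lab j := by
      unfold St.tog; rw [dif_pos ha]
    rw [hl]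
    by_cases h2 : j = i + 1
    · subst h2
      rw [Function.update_self, map_add, hp.cast, map_natCast]
      simp
    · rw [Function.update_of_ne h2, hp.cast]
      simp [h2]
  · refine ⟨p (i + 1), p i + (nx (s.c i) : ZMod n), ?_, ?_⟩
    · rw [hp.step]
      unfold St.Av avXY at ha
      unfold nx
      by_cases h0 : s.c i % 2 = 0
      · left
        rw [if_pos h0]
        push_cast
        ring
      · right
        rw [if_neg h0, Nat.cast_sub (by omega)]
        push_cast
        ring
    · intro z
      rw [bc_update]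

/-- every occupation comes from a state (no restriction on the contents) -/
theorem exists_state (hg : g ∣ n) (hn : 0 < n) (b : ZMod n → ℕ) [NeZero n]
    (hb : ∑ x, b x = 2 * h) (hcap : n ≤ cap ∨ (1 ≤ cap ∧ ∀ x, 1 ≤ b x)) :
    ∃ (s : St h cap g n) (p : ZMod (2 * h) → ZMod n), IsLift hg s p ∧ ∀ x, bc p x = b x := by
  obtain ⟨c, p, hw, hp⟩ := exists_walk hn b hb
  refine ⟨⟨c, fun i => ZMod.castHom hg (ZMod g) (p i), ?_, hw.2, ?_⟩, p, ⟨hw.1, fun _ => rfl⟩, hp⟩
  · intro i
    rcases hcap with h1 | ⟨h1, h2⟩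
    · have h3 : c i ≤ ∑ j, c j := single_le_sum (fun _ _ => Nat.zero_le _) (mem_univ i)
      rw [hw.2] at h3
      omega
    · exact (hw.le_one (fun x => by rw [hp]; exact h2 x) i).trans h1
  · intro i
    rw [hw.1, map_add, map_natCast]

/-- total number of beads -/
theorem sum_bc [NeZero n] (p : ZMod (2 * h) → ZMod n) : ∑ x, bc p x = 2 * h := by
  unfold bc
  rw [← card_eq_sum_card_fiberwise (fun i _ => mem_coe.2 (mem_univ _)), card_univ, ZMod.card]

end Pool.OddHop
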