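import Mathlib

/-!
# Circular walks and multisets on the ring (after helper18, helper69)

A circular walk: `c i` (`i : ZMod (2h)`) step lengths with sum `n`, `p i : ZMod n` positions with
`p (i+1) = p i + c i`. `bc p x` = number of places `i` with `p i = x`. The walk is determined by `bc p`
up to a shift of the places, and every `b` with sum `2h` is `bc p` of a walk.
-/

set_option autoImplicit false

namespace Pool.OddHop

open Finset

variable {h n : ℕ} [NeZero h]

/-- `p` is a circular walk with step lengths `c` and total length `n` -/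
def Walk (c : ZMod (2 * h) → ℕ) (p : ZMod (2 * h) → ZMod n) : Prop :=
  (∀ i, p (i + 1) = p i + (c i : ZMod n)) ∧ ∑ i, c i = n

/-- number of places at position `x` -/
def bc (p : ZMod (2 * h) → ZMod n) (x : ZMod n) : ℕ := (univ.filter fun i => p i = x).card

/-- partial sums starting at the place `i0` -/
def psum (c : ZMod (2 * h) → ℕ) (i0 : ZMod (2 * h)) (j : ℕ) : ℕ :=
  ∑ l ∈ range j, c (i0 + (l : ZMod (2 * h)))

theorem psum_succ (c : ZMod (2 * h) → ℕ) (i0 : ZMod (2 * h)) (j : ℕ) :
    psum c i0 (j + 1) = psum c i0 j + c (i0 + (j : ZMod (2 * h))) := by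
  unfold psum
  rw [sum_range_succ]

theorem psum_mono (c : ZMod (2 * h) → ℕ) (i0 : ZMod (2 * h)) : Monotone (psum c i0) := by
  apply monotone_nat_of_le_succ
  intro j
  rw [psum_succ]
  exact Nat.le_add_right _ _

theorem two_h_pos : 0 < 2 * h := Nat.mul_pos (by norm_num) (Nat.pos_of_ne_zero (NeZero.ne h))

/-- going once around -/
theorem sum_around {M : Type*} [AddCommMonoid M] (F : ZMod (2 * h) → M) (i0 : ZMod (2 * h)) :
    ∑ l ∈ range (2 * h), F (i0 + (l : ZMod (2 * h))) = ∑ i, F i := by
  refine sum_bij' (fun l _ => i0 + (l : ZMod (2 * h))) (fun i _ => (i - i0).val) ?_ ?_ ?_ ?_ ?_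
  · intro l _; exact mem_univ _
  · intro i _
    rw [mem_range]
    exact ZMod.val_lt _
  · intro l hl
    rw [mem_range] at hl
    rw [add_sub_cancel_left, ZMod.val_natCast_of_lt hl]
  · intro i _
    rw [ZMod.natCast_zmod_val, add_sub_cancel]
  · intro l _; rfl

theorem psum_full {c : ZMod (2 * h) → ℕ} (hc : ∑ i, c i = n) (i0 : ZMod (2 * h)) :
    psum c i0 (2 * h) = n := by
  unfold psum
  rw [sum_around, hc]

theorem Walk.pos {c : ZMod (2 * h) → ℕ} {p : ZMod (2 * h) → ZMod n} (hw : Walk c p)
    (i0 : ZMod (2 * h)) (j : ℕ) :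
    p (i0 + (j : ZMod (2 * h))) = p i0 + (psum c i0 j : ZMod n) := by
  induction j with
  | zero => simp [psum]
  | succ j ih =>
    rw [psum_succ, Nat.cast_succ, ← add_assoc, hw.1, ih]
    push_cast
    ring

/-- there is a place with a positive step -/
theorem Walk.exists_pos {c : ZMod (2 * h) → ℕ} {p : ZMod (2 * h) → ZMod n} (hw : Walk c p)
    (hn : 0 < n) : ∃ i, 0 < c i := by
  by_contra hcon
  push Not at hcon
  have : ∑ i, c i = 0 := sum_eq_zero fun i _ => Nat.le_zero.1 (hcon i)
  rw [hw.2] at this
  omega

/-- the first place of a position -/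
theorem Walk.back {c : ZMod (2 * h) → ℕ} {p : ZMod (2 * h) → ZMod n} (hw : Walk c p)
    (hn : 0 < n) (i1 : ZMod (2 * h)) : ∃ i, p i = p i1 ∧ 0 < c (i - 1) := by
  by_contra hcon
  push Not at hcon
  have key : ∀ j : ℕ, p (i1 - (j : ZMod (2 * h))) = p i1 := by
    intro j
    induction j with
    | zero => simp
    | succ j ih =>
      have h1 := hcon _ ih
      have h2 := hw.1 (i1 - (j : ZMod (2 * h)) - 1)
      rw [sub_add_cancel, Nat.le_zero.1 h1, ih] at h2
      push_cast
      rw [← sub_sub, h2]
      simp
  obtain ⟨i, hi⟩ := hw.exists_pos hn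
  have h1 := hcon (i + 1) (by
    have := key (i1 - (i + 1)).val
    rw [ZMod.natCast_zmod_val, sub_sub_cancel] at this
    exact this)
  rw [add_sub_cancel_right] at h1
  omega

/-- the last place of a position -/
theorem Walk.forth {c : ZMod (2 * h) → ℕ} {p : ZMod (2 * h) → ZMod n} (hw : Walk c p)
    (hn : 0 < n) (i1 : ZMod (2 * h)) : ∃ i, p i = p i1 ∧ 0 < c i := by
  by_contra hcon
  push Not at hcon
  have key : ∀ j : ℕ, p (i1 + (j : ZMod (2 * h))) = p i1 := by
    intro j
    induction j with
    | zero => simp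
    | succ j ih =>
      have h1 := hcon _ ih
      have h2 := hw.1 (i1 + (j : ZMod (2 * h)))
      rw [Nat.le_zero.1 h1, ih] at h2
      push_cast
      rw [← add_assoc, h2]
      simp
  obtain ⟨i, hi⟩ := hw.exists_pos hn
  have h1 := hcon i (by
    have := key (i - i1).val
    rw [ZMod.natCast_zmod_val, add_sub_cancel] at this
    exact this)
  omega

/-- counting -/
theorem Walk.count {c : ZMod (2 * h) → ℕ} {p : ZMod (2 * h) → ZMod n} (hw : Walk c p)
    (hn : 0 < n) (i0 : ZMod (2 * h)) (hi0 : 0 < c (i0 - 1)) (y : ℕ) (hy : y < n) :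
    ((range (2 * h)).filter fun j => psum c i0 j ≤ y).card =
      ∑ z ∈ range (y + 1), bc p (p i0 + (z : ZMod n)) := by
  have : NeZero n := ⟨by omega⟩
  have hlt : ∀ j < 2 * h, psum c i0 j < n := by
    intro j hj
    have h1 := psum_full hw.2 i0
    have h2 : 2 * h = (2 * h - 1) + 1 := by have := two_h_pos (h := h); omega
    rw [h2, psum_succ] at h1
    have h3 : ((2 * h - 1 : ℕ) : ZMod (2 * h)) = -1 := by
      rw [Nat.cast_sub (by have := two_h_pos (h := h); omega)]
      have : ((2 * h : ℕ) : ZMod (2 * h)) = 0 := ZMod.natCast_self _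
      rw [this]
      simp
    rw [h3, ← sub_eq_add_neg] at h1
    have h4 := psum_mono c i0 (show j ≤ 2 * h - 1 by omega)
    omega
  have h1 : ((range (2 * h)).filter fun j => psum c i0 j ≤ y).card =
      ∑ z ∈ range (y + 1),
        (((range (2 * h)).filter fun j => psum c i0 j ≤ y).filter fun j => psum c i0 j = z).card := by
    apply card_eq_sum_card_fiberwise
    intro j hj
    simp only [coe_filter, Set.mem_ofPred_eq] at hj
    simp only [coe_range, Set.mem_Iio]
    omega
  rw [h1]
  apply sum_congr rfl
  intro z hz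
  rw [mem_range] at hz
  unfold bc
  refine card_bij' (fun j _ => i0 + (j : ZMod (2 * h))) (fun i _ => (i - i0).val) ?_ ?_ ?_ ?_
  · intro j hj
    rw [mem_filter, mem_filter, mem_range] at hj
    rw [mem_filter]
    refine ⟨mem_univ _, ?_⟩
    rw [hw.pos, hj.2]
  · intro i hi
    rw [mem_filter] at hi
    have h2 := hw.pos i0 (i - i0).val
    rw [ZMod.natCast_zmod_val, add_sub_cancel, hi.2] at h2
    have h3 := add_left_cancel h2
    have h4 := hlt (i - i0).val (ZMod.val_lt _)
    have h5 := congrArg ZMod.val h3
    rw [ZMod.val_natCast_of_lt (by omega), ZMod.val_natCast_of_lt h4] at h5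
    rw [mem_filter, mem_filter, mem_range]
    exact ⟨⟨ZMod.val_lt _, by omega⟩, h5.symm⟩
  · intro j hj
    rw [mem_filter, mem_filter, mem_range] at hj
    simp only [add_sub_cancel_left, ZMod.val_natCast_of_lt hj.1.1]
  · intro i _
    simp only [ZMod.natCast_zmod_val, add_sub_cancel]

theorem Walk.le_of_bc {c c' : ZMod (2 * h) → ℕ} {p p' : ZMod (2 * h) → ZMod n} (hw : Walk c p)
    (hw' : Walk c' p') (hn : 0 < n) (hb : ∀ x, bc p x = bc p' x) (i0 i0' : ZMod (2 * h))
    (hi0 : 0 < c (i0 - 1)) (hi0' : 0 < c' (i0' - 1)) (hx : p i0 = p' i0') (j : ℕ)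
    (hj : j < 2 * h) (hlt : psum c i0 j < n) : psum c' i0' j ≤ psum c i0 j := by
  by_contra hcon
  push Not at hcon
  set y := psum c i0 j with hy
  have h1 := hw.count hn i0 hi0 y hlt
  have h2 := hw'.count hn i0' hi0' y hlt
  have h3 : ((range (2 * h)).filter fun l => psum c i0 l ≤ y).card =
      ((range (2 * h)).filter fun l => psum c' i0' l ≤ y).card := by
    rw [h1, h2]
    apply sum_congr rfl
    intro z _
    rw [hb, hx]
  have h4 : j + 1 ≤ ((range (2 * h)).filter fun l => psum c i0 l ≤ y).card := by
    have : (range (j + 1)).card ≤ ((range (2 * h)).filter fun l => psum c i0 l ≤ y).card := by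
      apply card_le_card
      intro l hl
      rw [mem_range] at hl
      rw [mem_filter, mem_range]
      exact ⟨by omega, psum_mono c i0 (by omega)⟩
    rwa [card_range] at this
  have h5 : ((range (2 * h)).filter fun l => psum c' i0' l ≤ y).card ≤ j := by
    have : ((range (2 * h)).filter fun l => psum c' i0' l ≤ y).card ≤ (range j).card := by
      apply card_le_card
      intro l hl
      rw [mem_filter, mem_range] at hl
      rw [mem_range]
      by_contra h6
      push Not at h6
      have := psum_mono c' i0' h6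
      omega
    rwa [card_range] at this
  omega

/-- A walk is determined by `bc` up to a shift of the places. -/
theorem Walk.unique {c c' : ZMod (2 * h) → ℕ} {p p' : ZMod (2 * h) → ZMod n} (hw : Walk c p)
    (hw' : Walk c' p') (hn : 0 < n) (hb : ∀ x, bc p x = bc p' x) :
    ∃ k : ZMod (2 * h), ∀ i, c' i = c (i + k) ∧ p' i = p (i + k) := by
  obtain ⟨i, hi⟩ := hw.exists_pos hn
  set i0 := i + 1 with hi0d
  have hi0 : 0 < c (i0 - 1) := by rw [hi0d, add_sub_cancel_right]; exact hi
  have h1 : 0 < bc p (p i0) := card_pos.2 ⟨i0, by rw [mem_filter]; exact ⟨mem_univ _, rfl⟩⟩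
  rw [hb] at h1
  obtain ⟨i1, hi1⟩ := card_pos.1 h1
  rw [mem_filter] at hi1
  obtain ⟨i0', hi0p, hi0'⟩ := hw'.back hn i1
  have hx : p i0 = p' i0' := by rw [hi0p, hi1.2]
  have hlt : ∀ {c : ZMod (2 * h) → ℕ} {p : ZMod (2 * h) → ZMod n} (_ : Walk c p)
      (i0 : ZMod (2 * h)) (_ : 0 < c (i0 - 1)), ∀ j < 2 * h, psum c i0 j < n := by
    intro c p hw i0 hi0 j hj
    have h1 := psum_full hw.2 i0
    have h2 : 2 * h = (2 * h - 1) + 1 := by have := two_h_pos (h := h); omega
    rw [h2, psum_succ] at h1
    have h3 : ((2 * h - 1 : ℕ) : ZMod (2 * h)) = -1 := by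
      rw [Nat.cast_sub (by have := two_h_pos (h := h); omega)]
      have : ((2 * h : ℕ) : ZMod (2 * h)) = 0 := ZMod.natCast_self _
      rw [this]
      simp
    rw [h3, ← sub_eq_add_neg] at h1
    have h4 := psum_mono c i0 (show j ≤ 2 * h - 1 by omega)
    omega
  have hS : ∀ j ≤ 2 * h, psum c' i0' j = psum c i0 j := by
    intro j hj
    rcases Nat.lt_or_ge j (2 * h) with hj2 | hj2
    · apply le_antisymm
      · exact hw.le_of_bc hw' hn hb i0 i0' hi0 hi0' hx j hj2 (hlt hw i0 hi0 j hj2)
      · exact hw'.le_of_bc hw hn (fun x => (hb x).symm) i0' i0 hi0' hi0 hx.symm j hj2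
          (hlt hw' i0' hi0' j hj2)
    · have : j = 2 * h := le_antisymm hj hj2
      rw [this, psum_full hw.2, psum_full hw'.2]
  refine ⟨i0 - i0', fun i => ?_⟩
  set j := (i - i0').val with hj
  have hjlt : j < 2 * h := ZMod.val_lt _
  have e1 : i = i0' + (j : ZMod (2 * h)) := by rw [hj, ZMod.natCast_zmod_val, add_sub_cancel]
  have e2 : i + (i0 - i0') = i0 + (j : ZMod (2 * h)) := by rw [e1]; ring
  rw [e2]
  constructor
  · have h2 := hS (j + 1) (by omega)
    have h3 := hS j (by omega)
    rw [psum_succ, psum_succ, h3] at h2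
    rw [e1]
    omega
  · rw [hw.pos, ← hS j hjlt.le, hx, ← hw'.pos, ← e1]

theorem bc_update (p : ZMod (2 * h) → ZMod n) (i : ZMod (2 * h)) (y z : ZMod n) :
    bc (Function.update p i y) z + (if p i = z then 1 else 0) =
      bc p z + (if y = z then 1 else 0) := by
  unfold bc
  rw [card_filter, card_filter, ← add_sum_erase univ _ (mem_univ i),
    ← add_sum_erase univ (fun j => if p j = z then 1 else 0) (mem_univ i)]
  have : ∑ j ∈ univ.erase i, (if Function.update p i y j = z then 1 else 0) =
      ∑ j ∈ univ.erase i, (if p j = z then 1 else 0) := by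
    apply sum_congr rfl
    intro j hj
    rw [Function.update_of_ne (ne_of_mem_erase hj)]
  rw [this, Function.update_self]
  omega

theorem walk_two_ne : (1 : ZMod (2 * h)) ≠ 0 := by
  intro hh
  have h2 : 1 < 2 * h := by have := Nat.pos_of_ne_zero (NeZero.ne h); omega
  have : Fact (1 < 2 * h) := ⟨h2⟩
  exact one_ne_zero hh

/-- move one bead one step forward -/
theorem Walk.forward {c : ZMod (2 * h) → ℕ} {p : ZMod (2 * h) → ZMod n} (hw : Walk c p)
    (i : ZMod (2 * h)) (hi : 0 < c i) :
    ∃ c' : ZMod (2 * h) → ℕ, Walk c' (Function.update p i (p i + 1)) := by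
  have hne : i - 1 ≠ i := by
    intro hh
    have := sub_eq_self.1 hh
    exact walk_two_ne this
  refine ⟨Function.update (Function.update c i (c i - 1)) (i - 1) (c (i - 1) + 1), ?_, ?_⟩
  · intro j
    by_cases h1 : j = i
    · subst h1
      have h2 : j + 1 ≠ j := by
        intro hh
        exact walk_two_ne (add_eq_left.1 hh)
      rw [Function.update_of_ne h2, Function.update_self, Function.update_of_ne hne.symm,
        Function.update_self, hw.1, Nat.cast_sub (by omega)]
      push_cast
      ring
    · by_cases h3 : j = i - 1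
      · subst h3
        rw [sub_add_cancel, Function.update_self, Function.update_of_ne hne, Function.update_self]
        have := hw.1 (i - 1)
        rw [sub_add_cancel] at this
        rw [this]
        push_cast
        ring
      · have h4 : j + 1 ≠ i := fun hh => h3 (by rw [← hh, add_sub_cancel_right])
        rw [Function.update_of_ne h4, Function.update_of_ne h1, Function.update_of_ne h3,
          Function.update_of_ne h1, hw.1]
  · have e1 : ∀ F : ZMod (2 * h) → ℕ, ∑ j, F j =
        F i + (F (i - 1) + ∑ j ∈ (univ.erase i).erase (i - 1), F j) := by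
      intro F
      rw [← add_sum_erase univ F (mem_univ i),
        ← add_sum_erase (univ.erase i) F (mem_erase.2 ⟨hne, mem_univ _⟩)]
    rw [e1]
    have h5 := hw.2
    rw [e1] at h5
    rw [Function.update_of_ne hne.symm, Function.update_self, Function.update_self]
    have e2 : ∑ j ∈ (univ.erase i).erase (i - 1),
        Function.update (Function.update c i (c i - 1)) (i - 1) (c (i - 1) + 1) j =
        ∑ j ∈ (univ.erase i).erase (i - 1), c j := by
      apply sum_congr rfl
      intro j hj
      rw [mem_erase, mem_erase] at hj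
      rw [Function.update_of_ne hj.1, Function.update_of_ne hj.2.1]
    rw [e2]
    omega

/-- Every `b` with sum `2h` is the occupation of a walk. -/
theorem exists_walk (hn : 0 < n) [NeZero n] (b : ZMod n → ℕ) (hb : ∑ x, b x = 2 * h) :
    ∃ (c : ZMod (2 * h) → ℕ) (p : ZMod (2 * h) → ZMod n), Walk c p ∧ ∀ x, bc p x = b x := by
  obtain ⟨μ, hμ⟩ : ∃ μ, ∑ x, x.val * b x = μ := ⟨_, rfl⟩
  induction μ using Nat.strong_induction_on generalizing b with
  | _ μ ih =>
    by_cases h0 : ∀ x, x ≠ 0 → b x = 0
    · have hb0 : b 0 = 2 * h := by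
        rw [← hb]
        rw [Finset.sum_eq_single 0]
        · intro x _ hx
          exact h0 x hx
        · intro h1
          exact absurd (mem_univ _) h1
      refine ⟨fun i => if i = 0 then n else 0, fun _ => 0, ⟨?_, ?_⟩, ?_⟩
      · intro i
        simp only
        split_ifs <;> simp
      · rw [Finset.sum_ite_eq']
        simp
      · intro x
        unfold bc
        by_cases hx : x = 0
        · subst hx
          simp [hb0, ZMod.card]
        · rw [h0 x hx, card_eq_zero, filter_eq_empty_iff]
          intro i _ hh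
          exact hx hh.symm
    · push Not at h0
      obtain ⟨x, hx, hbx⟩ := h0
      have hbx1 : 1 ≤ b x := Nat.one_le_iff_ne_zero.2 hbx
      have hval : (x - 1).val + 1 = x.val := by
        have h1 : x.val ≠ 0 := by
          intro hh
          exact hx ((ZMod.val_eq_zero x).1 hh)
        have h2 : (x - 1).val = x.val - 1 := by
          have h3 : x - 1 = ((x.val - 1 : ℕ) : ZMod n) := by
            rw [Nat.cast_sub (by omega), ZMod.natCast_zmod_val]
            simp
          rw [h3]
          apply ZMod.val_natCast_of_lt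
          have := ZMod.val_lt x
          omega
        omega
      have hxne : x - 1 ≠ x := by
        intro hh
        rw [hh] at hval
        omega
      let b' : ZMod n → ℕ := Function.update (Function.update b x (b x - 1)) (x - 1) (b (x - 1) + 1)
      have e1 : ∀ F : ZMod n → ℕ, ∑ j, F j =
          F x + (F (x - 1) + ∑ j ∈ (univ.erase x).erase (x - 1), F j) := by
        intro F
        rw [← add_sum_erase univ F (mem_univ x),
          ← add_sum_erase (univ.erase x) F (mem_erase.2 ⟨hxne, mem_univ _⟩)]
      have hb'x : b' x = b x - 1 := by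
        simp only [b']
        rw [Function.update_of_ne hxne.symm, Function.update_self]
      have hb'x1 : b' (x - 1) = b (x - 1) + 1 := by
        simp only [b']
        rw [Function.update_self]
      have hb'o : ∀ z, z ≠ x → z ≠ x - 1 → b' z = b z := by
        intro z h1 h2
        simp only [b']
        rw [Function.update_of_ne h2, Function.update_of_ne h1]
      have hsum : ∑ z, b' z = 2 * h := by
        rw [← hb, e1, e1 b, hb'x, hb'x1]
        have : ∑ j ∈ (univ.erase x).erase (x - 1), b' j =
            ∑ j ∈ (univ.erase x).erase (x - 1), b j := by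
          apply sum_congr rfl
          intro j hj
          rw [mem_erase, mem_erase] at hj
          exact hb'o j hj.2.1 hj.1
        rw [this]
        omega
      have hmeas : ∑ z, z.val * b' z < μ := by
        rw [← hμ, e1, e1 (fun z => z.val * b z), hb'x, hb'x1]
        have : ∑ j ∈ (univ.erase x).erase (x - 1), j.val * b' j =
            ∑ j ∈ (univ.erase x).erase (x - 1), j.val * b j := by
          apply sum_congr rfl
          intro j hj
          rw [mem_erase, mem_erase] at hj
          rw [hb'o j hj.2.1 hj.1]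
        rw [this]
        obtain ⟨q, hq⟩ : ∃ q, b x = q + 1 := ⟨b x - 1, by omega⟩
        rw [hq, ← hval, Nat.add_sub_cancel]
        have : ((x - 1).val + 1) * q + (x - 1).val * (b (x - 1) + 1) + 1 =
            ((x - 1).val + 1) * (q + 1) + (x - 1).val * b (x - 1) := by ring
        omega
      obtain ⟨c, p, hw, hp⟩ := ih _ hmeas b' hsum rfl
      have h1 : 0 < bc p (x - 1) := by rw [hp, hb'x1]; omega
      obtain ⟨i1, hi1⟩ := card_pos.1 h1
      rw [mem_filter] at hi1
      obtain ⟨i, hi, hci⟩ := hw.forth hn i1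
      rw [hi1.2] at hi
      obtain ⟨c', hw'⟩ := hw.forward i hci
      refine ⟨c', _, hw', ?_⟩
      intro z
      have h2 := bc_update p i (p i + 1) z
      rw [hi, sub_add_cancel, hp] at h2
      rw [hi, sub_add_cancel]
      by_cases hz : z = x
      · subst hz
        rw [if_neg hxne, if_pos rfl, hb'x] at h2
        omega
      · by_cases hz1 : z = x - 1
        · subst hz1
          rw [if_pos rfl, if_neg (fun hh => hxne hh.symm), hb'x1] at h2
          omega
        · rw [if_neg (fun hh => hz1 hh.symm), if_neg (fun hh => hz hh.symm), hb'o z hz hz1] at h2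
          omega

/-- If every position is visited, the steps have length at most one. -/
theorem Walk.le_one {c : ZMod (2 * h) → ℕ} {p : ZMod (2 * h) → ZMod n} (hw : Walk c p)
    (hb : ∀ x, 1 ≤ bc p x) (i : ZMod (2 * h)) : c i ≤ 1 := by
  by_contra hcon
  push Not at hcon
  have hn : 0 < n := by
    have h1 : c i ≤ ∑ j, c j := single_le_sum (fun _ _ => Nat.zero_le _) (mem_univ i)
    rw [hw.2] at h1
    omega
  have : NeZero n := ⟨by omega⟩
  obtain ⟨j0, hj0⟩ := card_pos.1 (hb (p i + 1))
  rw [mem_filter] at hj0
  set j := (j0 - (i + 1)).val with hj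
  have hjlt : j < 2 * h := ZMod.val_lt _
  have e1 : j0 = i + 1 + (j : ZMod (2 * h)) := by rw [hj, ZMod.natCast_zmod_val, add_sub_cancel]
  have h2 := hw.pos (i + 1) j
  rw [← e1, hj0.2, hw.1 i] at h2
  -- `c i + psum ≤ n`
  have h3 : c i + psum c (i + 1) j ≤ n := by
    have h5 : 2 * h = (2 * h - 1) + 1 := by have := two_h_pos (h := h); omega
    have h4' : ∀ i0 : ZMod (2 * h),
        psum c i0 (2 * h - 1) + c (i0 + ((2 * h - 1 : ℕ) : ZMod (2 * h))) = n := by
      intro i0
      have h4 := psum_full hw.2 i0
      rw [h5, psum_succ] at h4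
      exact h4
    have h4 := h4' (i + 1)
    have h6 : i + 1 + ((2 * h - 1 : ℕ) : ZMod (2 * h)) = i := by
      rw [Nat.cast_sub (by have := two_h_pos (h := h); omega)]
      have : ((2 * h : ℕ) : ZMod (2 * h)) = 0 := ZMod.natCast_self _
      rw [this]
      push_cast
      ring
    rw [h6] at h4
    have h7 := psum_mono c (i + 1) (show j ≤ 2 * h - 1 by omega)
    omega
  have h8 : ((c i + psum c (i + 1) j - 1 : ℕ) : ZMod n) = 0 := by
    rw [Nat.cast_sub (by omega)]
    push_cast
    have h9 : (c i : ZMod n) + (psum c (i + 1) j : ZMod n) = 1 := by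
      have := congrArg (fun z => z - p i) h2
      simp only [add_sub_cancel_left] at this
      rw [this]
      ring
    rw [h9, sub_self]
  rw [ZMod.natCast_eq_zero_iff] at h8
  have h9 := Nat.le_of_dvd (by omega) h8
  omega

/-- If the steps have length at most one, every position is visited. -/
theorem Walk.one_le {c : ZMod (2 * h) → ℕ} {p : ZMod (2 * h) → ZMod n} (hw : Walk c p)
    (hn : 0 < n) (hc : ∀ i, c i ≤ 1) (x : ZMod n) : 1 ≤ bc p x := by
  have : NeZero n := ⟨by omega⟩
  have key : ∀ j t : ℕ, t ≤ psum c 0 j → ∃ j', psum c 0 j' = t := by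
    intro j
    induction j with
    | zero =>
      intro t ht
      refine ⟨0, ?_⟩
      have : psum c 0 0 = 0 := rfl
      omega
    | succ j ih =>
      intro t ht
      rw [psum_succ] at ht
      have h1 := hc (0 + (j : ZMod (2 * h)))
      rcases Nat.lt_or_ge (psum c 0 j) t with h2 | h2
      · refine ⟨j + 1, ?_⟩
        rw [psum_succ]
        omega
      · exact ih t h2
  obtain ⟨j, hj⟩ := key (2 * h) (x - p 0).val (by
    rw [psum_full hw.2]
    exact (ZMod.val_lt _).le)
  apply card_pos.2
  refine ⟨0 + (j : ZMod (2 * h)), ?_⟩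
  rw [mem_filter]
  refine ⟨mem_univ _, ?_⟩
  rw [hw.pos, hj, ZMod.natCast_zmod_val, add_sub_cancel]

end Pool.OddHop
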